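import Pool.Agent.Lib.MP_ca71b5_ntW.StA
set_option autoImplicit false
open scoped NumberField

/-! Definitions for the theorem on unramified p-adic representations (MP_ca71b5_nt, paper 206). -/

namespace Pool.Agent.MPca71W

/-- An ultrametric algebra norm on an algebra `B` over a normed field `E`. -/
structure UNorm (E B : Type) [NormedField E] [Ring B] [Algebra E B] where
  N : B → ℝ
  nonneg' : ∀ x, 0 ≤ N x
  eq_zero' : ∀ x, N x = 0 → x = 0
  zero' : N 0 = 0
  add' : ∀ x y, N (x + y) ≤ max (N x) (N y)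
  mul' : ∀ x y, N (x * y) ≤ N x * N y
  smul' : ∀ (c : E) x, N (c • x) = ‖c‖ * N x
  one' : N 1 ≤ 1

/-- `D = T - 1`. -/
def Dop {E B : Type} [NormedField E] [Ring B] [Algebra E B] (T : B ≃ₐ[E] B) (x : B) : B := T x - x

/-- The subgroup generated by all `p`-th powers and all commutators. -/
def PhiG (p : ℕ) (G : Type) [Group G] : Subgroup G :=
  Subgroup.closure ({x | ∃ g : G, x = g ^ p} ∪ {x | ∃ g h : G, x = g * h * g⁻¹ * h⁻¹})

/-- The eigencomponent `(1/q) ∑ ζ^(-jk) T^k x`. -/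
noncomputable def eig {E B : Type} [NormedField E] [Ring B] [Algebra E B] (q : ℕ) (ζ : E)
    (T : B ≃ₐ[E] B) (j : ℕ) (x : B) : B :=
  ((q : E)⁻¹) • ∑ k ∈ Finset.range q, (ζ⁻¹ ^ (j * k)) • (T^[k] x)

/-- The norm `N''(x) = max_j N(e_j x)` (`q > 0`). -/
noncomputable def N2 {E B : Type} [NormedField E] [Ring B] [Algebra E B] (U : UNorm E B) (q : ℕ)
    (ζ : E) (T : B ≃ₐ[E] B) (x : B) : ℝ :=
  ⨆ j : Fin q, U.N (eig q ζ T j x)

/-- The numerical data: `p` is an odd prime, `ζ` is a primitive `q`-th root of unity in an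
ultrametric field `E`, `c = |p|^(1/(p-1)) ≤ |ζ^j - 1| ≤ 1` for `j` not divisible by `q`, the
product of all these is `|q|`, and `0 < d < c < 1`, `|p| ≤ d^(2a-1)`. -/
structure PData (E : Type) [NormedField E] (p q a : ℕ) (ζ : E) (c d : ℝ) : Prop where
  prime : p.Prime
  odd : p ≠ 2
  qne : (q : E) ≠ 0
  apos : 1 ≤ a
  ultra : ∀ x y : E, ‖x + y‖ ≤ max ‖x‖ ‖y‖
  pne : (p : E) ≠ 0
  prim : IsPrimitiveRoot ζ q
  norm_le : ∀ j : ℕ, ‖ζ ^ j - 1‖ ≤ 1
  norm_ge : ∀ j : ℕ, ¬ q ∣ j → c ≤ ‖ζ ^ j - 1‖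
  prod_eq : ∏ j ∈ Finset.range (q - 1), ‖ζ ^ (j + 1) - 1‖ = ‖(q : E)‖
  cpow : c ^ (p - 1) = ‖(p : E)‖
  dpos : 0 < d
  dlt : d < c
  clt : c < 1
  ple : ‖(p : E)‖ ≤ d ^ (2 * a - 1)

/-- The hypothesis (H2)_a: for every Galois extension `L/K` of degree `p` unramified at all finite
primes, the Galois closure of `L` over `F` has degree at most `p^a [K : F]` over `F`. -/
def HypA (p a : ℕ) (F K Ω : Type) [Field F] [Field K] [Algebra F K] [Field Ω] [Algebra F Ω]
    [Algebra K Ω] [IsScalarTower F K Ω] : Prop :=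
  ∀ L : IntermediateField K Ω, IsGalois K L → Module.finrank K L = p →
    Algebra.Unramified (𝓞 K) (𝓞 L) →
    Module.finrank F (IntermediateField.normalClosure F L Ω) ≤ p ^ a * Module.finrank F K

end Pool.Agent.MPca71W
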