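import Mathlib
import Pool.Agent.Lib.MP_ca71b5_ntW.Defs

section

section
set_option autoImplicit false
open scoped NumberField

namespace Pool.Agent.MPca71W

variable {F Ω : Type} [Field F] [Field Ω] [Algebra F Ω]

/-- AR3. -/
theorem inertial_conj (g f : Ω ≃ₐ[F] Ω) (hf : Inertial Ω f.toRingEquiv) :
    Inertial Ω (g * f * g⁻¹).toRingEquiv := by
  obtain ⟨Q, hQ, hI⟩ := hf
  let e : 𝓞 Ω ≃+* 𝓞 Ω := NumberField.RingOfIntegers.mapRingEquiv g.toRingEquiv
  have he : ∀ x : 𝓞 Ω, ((e x : 𝓞 Ω) : Ω) = g (x : Ω) := fun x => rfl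
  have hes : ∀ x : 𝓞 Ω, ((e.symm x : 𝓞 Ω) : Ω) = g⁻¹ (x : Ω) := fun x => rfl
  refine ⟨Q.comap e.symm, Ideal.comap_isMaximal_of_equiv e.symm, ?_⟩
  intro x
  obtain ⟨z, hz, hzz⟩ := hI (e.symm x)
  refine ⟨e z, ?_, ?_⟩
  · rw [Ideal.mem_comap]
    simpa using hz
  · rw [he, ← hzz, map_sub, hes]
    change g (f (g⁻¹ (x : Ω))) - (x : Ω) = g (f (g⁻¹ (x : Ω))) - g (g⁻¹ (x : Ω))
    rw [show g (g⁻¹ (x : Ω)) = (x : Ω) from g.apply_symm_apply (x : Ω)]

theorem inertial_pow (f : Ω ≃ₐ[F] Ω) (hf : Inertial Ω f.toRingEquiv) (n : ℕ) :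
    Inertial Ω (f ^ n).toRingEquiv := by
  obtain ⟨Q, hQ, hI⟩ := hf
  refine ⟨Q, hQ, ?_⟩
  induction n with
  | zero =>
    intro x
    refine ⟨0, Q.zero_mem, ?_⟩
    change (x : Ω) - (x : Ω) = ((0 : 𝓞 Ω) : Ω)
    rw [sub_self]
    exact (map_zero (algebraMap (𝓞 Ω) Ω)).symm
  | succ n ih =>
    intro x
    let e : 𝓞 Ω ≃+* 𝓞 Ω := NumberField.RingOfIntegers.mapRingEquiv f.toRingEquiv
    obtain ⟨y, hy, hyy⟩ := ih (e x)
    obtain ⟨z, hz, hzz⟩ := hI x
    refine ⟨y + z, Q.add_mem hy hz, ?_⟩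
    rw [show ((y + z : 𝓞 Ω) : Ω) = (y : Ω) + (z : Ω) from map_add (algebraMap (𝓞 Ω) Ω) y z,
      ← hyy, ← hzz]
    change (f ^ (n + 1)) (x : Ω) - (x : Ω) =
      ((f ^ n) (f (x : Ω)) - f (x : Ω)) + (f (x : Ω) - (x : Ω))
    rw [pow_succ]
    change (f ^ n) (f (x : Ω)) - (x : Ω) =
      ((f ^ n) (f (x : Ω)) - f (x : Ω)) + (f (x : Ω) - (x : Ω))
    ring

end Pool.Agent.MPca71W
end

section
set_option autoImplicit false
open scoped NumberField

namespace Pool.Agent.MPca71W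

variable {k Ω : Type} [Field k] [NumberField k] [Field Ω] [Algebra k Ω] [IsAlgClosed Ω] [Algebra.IsAlgebraic k Ω]

/-- AR1: inertia acts trivially on unramified extensions. -/
theorem inertial_fixes (L : IntermediateField k Ω) [FiniteDimensional k L] [IsGalois k L]
    (hL : Algebra.Unramified (𝓞 k) (𝓞 L)) (h : Ω ≃ₐ[k] Ω) (hI : Inertial Ω h.toRingEquiv)
    (x : L) : h (x : Ω) = (x : Ω) := by
  obtain ⟨Q, hQ, hI⟩ := hI
  have : NumberField L := NumberField.of_module_finite k L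
  let g : L ≃ₐ[k] L := AlgEquiv.restrictNormal h L
  have hg : ∀ y : L, ((g y : L) : Ω) = h (y : Ω) := fun y => AlgEquiv.restrictNormal_commutes h L y
  let gO : 𝓞 L →ₐ[𝓞 k] 𝓞 L := NumberField.RingOfIntegers.mapAlgHom g
  have hgO : ∀ y : 𝓞 L, ((gO y : 𝓞 L) : L) = g (y : L) := fun y => rfl
  let P : Ideal (𝓞 L) := Q.comap (algebraMap (𝓞 L) (𝓞 Ω))
  have hP : P ≠ ⊤ := Ideal.comap_ne_top _ hQ.ne_top
  have hbot : ⨅ i : ℕ, P ^ i = ⊥ := Ideal.iInf_pow_eq_bot_of_isDomain P hP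
  have : Algebra.FormallyUnramified (𝓞 k) (𝓞 L) := hL.formallyUnramified
  have key : gO = AlgHom.id (𝓞 k) (𝓞 L) := by
    apply Algebra.FormallyUnramified.ext_of_iInf P hbot
    intro y
    rw [Ideal.Quotient.eq]
    change algebraMap (𝓞 L) (𝓞 Ω) (gO y - y) ∈ Q
    obtain ⟨z, hz, hzz⟩ := hI (algebraMap (𝓞 L) (𝓞 Ω) y)
    have : algebraMap (𝓞 L) (𝓞 Ω) (gO y - y) = z := by
      apply NumberField.RingOfIntegers.ext
      rw [← hzz]
      have e1 : ((algebraMap (𝓞 L) (𝓞 Ω) (gO y - y) : 𝓞 Ω) : Ω)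
          = ((algebraMap L Ω) ((algebraMap (𝓞 L) L) (gO y - y))) := rfl
      have e2 : ((algebraMap (𝓞 L) (𝓞 Ω) y : 𝓞 Ω) : Ω)
          = ((algebraMap L Ω) ((algebraMap (𝓞 L) L) y)) := rfl
      rw [e1, e2, map_sub, map_sub]
      congr 1
      exact hg (y : L)
    rw [this]
    exact hz
  have hfix : ∀ y : 𝓞 L, g (y : L) = (y : L) := by
    intro y
    rw [← hgO, key]
    rfl
  have hx : g x = x := by
    obtain ⟨a, b, hb, hab⟩ := IsFractionRing.div_surjective (A := 𝓞 L) x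
    rw [← hab, map_div₀]
    have h1 := hfix a
    have h2 := hfix b
    rw [h1, h2]
  rw [← hg, hx]

end Pool.Agent.MPca71W
end
end

section
set_option autoImplicit false
open scoped NumberField Pointwise

namespace Pool.Agent.MPca71W

variable {k Ω : Type} [Field k] [NumberField k] [Field Ω] [Algebra k Ω] [IsAlgClosed Ω] [Algebra.IsAlgebraic k Ω]

/-- AR2, main step: an element of the inertia group of a prime of `L` is the restriction of
an inertial element. -/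
theorem exists_lift_inertial (L : IntermediateField k Ω) [FiniteDimensional k L] [IsGalois k L]
    (P : Ideal (𝓞 L)) (hP : P.IsMaximal) (g : L ≃ₐ[k] L) (hg : g ∈ P.inertia (L ≃ₐ[k] L)) :
    ∃ h : Ω ≃ₐ[k] Ω, Inertial Ω h.toRingEquiv ∧ ∀ x : L, h (x : Ω) = ((g x : L) : Ω) := by
  have : NumberField L := NumberField.of_module_finite k L
  have : CharZero Ω := charZero_of_injective_algebraMap (algebraMap k Ω).injective
  have hAC : IsAlgClosure k Ω := ⟨inferInstance, inferInstance⟩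
  have : Normal k Ω := IsAlgClosure.normal k Ω
  have hAC' : Algebra.IsAlgebraic L Ω := Algebra.IsAlgebraic.tower_top (K := k) L
  have hAC2 : IsAlgClosure L Ω := ⟨inferInstance, inferInstance⟩
  have : Normal L Ω := IsAlgClosure.normal L Ω
  have : IsGalois L Ω := inferInstance
  have hint : Algebra.IsIntegral (𝓞 L) (𝓞 Ω) := inferInstance
  obtain ⟨Q, hQ, hQP⟩ := Ideal.exists_maximal_ideal_liesOver_of_isIntegral (S := 𝓞 Ω) P
  have hQP' : P = Q.under (𝓞 L) := hQP.over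
  let G := Ω ≃ₐ[L] Ω
  let _ : TopologicalSpace (𝓞 Ω) := ⊥
  have : DiscreteTopology (𝓞 Ω) := ⟨rfl⟩
  have hsm : ∀ (n : G) (x : 𝓞 Ω), ((n • x : 𝓞 Ω) : Ω) = n (x : Ω) := fun n x => rfl
  have hsm1 : ∀ (n : Ω ≃ₐ[k] Ω) (x : 𝓞 Ω), ((n • x : 𝓞 Ω) : Ω) = n (x : Ω) := fun n x => rfl
  have hmul : ∀ (x y : 𝓞 Ω), ((x * y : 𝓞 Ω) : Ω) = (x : Ω) * (y : Ω) :=
    fun x y => map_mul (algebraMap (𝓞 Ω) Ω) x y
  have hcs : ContinuousSMul G (𝓞 Ω) := by
    rw [continuousSMul_iff_stabilizer_isOpen]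
    intro x
    have h1 := stabilizer_isOpen_of_isIntegral (K := L) (L := Ω) (x : Ω)
    convert h1 using 2
    ext n
    simp only [MulAction.mem_stabilizer_iff]
    constructor
    · intro h
      have := congrArg (fun z : 𝓞 Ω => (z : Ω)) h
      exact this
    · intro h
      apply NumberField.RingOfIntegers.ext
      exact h
  have hcomm : SMulCommClass G (𝓞 L) (𝓞 Ω) := by
    constructor
    intro n a b
    apply NumberField.RingOfIntegers.ext
    rw [hsm, Algebra.smul_def, Algebra.smul_def]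
    rw [hmul, hmul, hsm, map_mul]
    congr 1
    exact n.commutes (a : L)
  have hinv : Algebra.IsInvariant (𝓞 L) (𝓞 Ω) G := by
    constructor
    intro b hb
    have h1 : (b : Ω) ∈ Set.range (algebraMap L Ω) := by
      rw [InfiniteGalois.mem_range_algebraMap_iff_fixed]
      intro f
      have := congrArg (fun z : 𝓞 Ω => (z : Ω)) (hb f)
      exact this
    obtain ⟨a, ha⟩ := h1
    have hai : IsIntegral ℤ a := by
      have h2 : IsIntegral ℤ (algebraMap L Ω a) := by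
        rw [ha]
        exact NumberField.RingOfIntegers.isIntegral_coe b
      exact (isIntegral_algebraMap_iff (algebraMap L Ω).injective).mp h2
    refine ⟨⟨a, hai⟩, ?_⟩
    apply NumberField.RingOfIntegers.ext
    exact ha
  let g1 : Ω ≃ₐ[k] Ω := AlgEquiv.liftNormal g Ω
  have hg1 : ∀ x : L, g1 (algebraMap L Ω x) = algebraMap L Ω (g x) :=
    fun x => AlgEquiv.liftNormal_commutes g Ω x
  have hgin : ∀ x : 𝓞 L, g • x - x ∈ P := hg
  have hgin2 : ∀ x : 𝓞 L, g⁻¹ • x - x ∈ P := (inv_mem hg : g⁻¹ ∈ P.inertia (L ≃ₐ[k] L))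
  have hg1inv : ∀ x : 𝓞 L, g1⁻¹ • (algebraMap (𝓞 L) (𝓞 Ω) x) = algebraMap (𝓞 L) (𝓞 Ω) (g⁻¹ • x) := by
    intro x
    rw [inv_smul_eq_iff]
    apply NumberField.RingOfIntegers.ext
    rw [hsm1]
    change algebraMap L Ω (x : L) = g1 (algebraMap L Ω ((g⁻¹ • x : 𝓞 L) : L))
    rw [hg1]
    congr 1
    change (x : L) = g (g⁻¹ (x : L))
    exact (g.apply_symm_apply (x : L)).symm
  have hunder : (g1 • Q).under (𝓞 L) = Q.under (𝓞 L) := by
    ext x
    rw [Ideal.under_def, Ideal.under_def, Ideal.mem_comap, Ideal.mem_comap,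
      Ideal.mem_pointwise_smul_iff_inv_smul_mem, hg1inv]
    have h1 : algebraMap (𝓞 L) (𝓞 Ω) (g⁻¹ • x - x) ∈ Q := by
      have := hgin2 x
      rw [hQP'] at this
      exact this
    rw [map_sub] at h1
    constructor
    · intro h2
      have := Q.sub_mem h2 h1
      simpa using this
    · intro h2
      have := Q.add_mem h2 h1
      simpa using this
  have hQp : Q.IsPrime := hQ.isPrime
  have hgQ : (g1 • Q).IsPrime := inferInstance
  obtain ⟨n, hn⟩ := Algebra.IsInvariant.exists_smul_of_under_eq_of_profinite (A := 𝓞 L) (B := 𝓞 Ω)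
    (G := G) (g1 • Q) Q hunder
  let g2 : Ω ≃ₐ[k] Ω := (AlgEquiv.restrictScalars k n) * g1
  have hg2 : ∀ x : L, g2 (algebraMap L Ω x) = algebraMap L Ω (g x) := by
    intro x
    change n (g1 (algebraMap L Ω x)) = _
    rw [hg1]
    exact n.commutes (g x)
  have hg2s : ∀ x : 𝓞 Ω, g2 • x = n • (g1 • x) := by
    intro x
    apply NumberField.RingOfIntegers.ext
    rw [hsm1, hsm, hsm1]
    rfl
  have hg2Q : Q = g2 • Q := by
    ext x
    rw [Ideal.mem_pointwise_smul_iff_inv_smul_mem]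
    have e : x = g2 • (g2⁻¹ • x) := (smul_inv_smul g2 x).symm
    constructor
    · intro hx
      rw [hn, e, hg2s, Ideal.smul_mem_pointwise_smul_iff, Ideal.smul_mem_pointwise_smul_iff] at hx
      exact hx
    · intro hx
      rw [hn, e, hg2s, Ideal.smul_mem_pointwise_smul_iff, Ideal.smul_mem_pointwise_smul_iff]
      exact hx
  let σ0 : (𝓞 Ω ⧸ Q) ≃+* (𝓞 Ω ⧸ Q) :=
    Ideal.quotientEquiv Q Q (MulSemiringAction.toRingEquiv _ (𝓞 Ω) g2) (by
      exact hg2Q)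
  have hσ0 : ∀ x : 𝓞 Ω, σ0 (Ideal.Quotient.mk Q x) = Ideal.Quotient.mk Q (g2 • x) := fun x => rfl
  let σ : (𝓞 Ω ⧸ Q) ≃ₐ[𝓞 L ⧸ P] (𝓞 Ω ⧸ Q) := AlgEquiv.ofRingEquiv (f := σ0) (by
    intro r
    obtain ⟨r, rfl⟩ := Ideal.Quotient.mk_surjective r
    change σ0 (Ideal.Quotient.mk Q (algebraMap (𝓞 L) (𝓞 Ω) r)) =
      Ideal.Quotient.mk Q (algebraMap (𝓞 L) (𝓞 Ω) r)
    rw [hσ0, Ideal.Quotient.eq]
    have h1 : g2 • (algebraMap (𝓞 L) (𝓞 Ω) r) = algebraMap (𝓞 L) (𝓞 Ω) (g • r) := by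
      apply NumberField.RingOfIntegers.ext
      rw [hsm1]
      exact hg2 (r : L)
    rw [h1, ← map_sub]
    have := hgin r
    rw [hQP'] at this
    exact this)
  obtain ⟨m, hm⟩ := Ideal.Quotient.stabilizerHom_surjective_of_profinite (G := G) P Q σ
  have hm2 : ∀ x : 𝓞 Ω, (m : G) • x - g2 • x ∈ Q := by
    intro x
    rw [← Ideal.Quotient.eq]
    have h1 := congrArg (fun f : (𝓞 Ω ⧸ Q) ≃ₐ[𝓞 L ⧸ P] (𝓞 Ω ⧸ Q) => f (Ideal.Quotient.mk Q x)) hm
    exact h1
  have hmQ : (m : G) • Q = Q := m.2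
  refine ⟨(AlgEquiv.restrictScalars k (m : G)⁻¹) * g2, ⟨Q, hQ, ?_⟩, ?_⟩
  · intro x
    refine ⟨(m : G)⁻¹ • (g2 • x) - x, ?_, ?_⟩
    · have h1 : (m : G) • ((m : G)⁻¹ • (g2 • x) - x) ∈ (m : G) • Q := by
        rw [smul_sub, smul_inv_smul, hmQ, ← neg_sub]
        exact Q.neg_mem (hm2 x)
      rwa [Ideal.smul_mem_pointwise_smul_iff] at h1
    · rw [show (((m : G)⁻¹ • (g2 • x) - x : 𝓞 Ω) : Ω) =
        (((m : G)⁻¹ • (g2 • x) : 𝓞 Ω) : Ω) - (x : Ω) from map_sub (algebraMap (𝓞 Ω) Ω) _ _]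
      rfl
  · intro x
    change (m : G)⁻¹ (g2 (algebraMap L Ω x)) = algebraMap L Ω (g x)
    rw [hg2]
    exact (m : G)⁻¹.commutes (g x)

/-- AR2: a finite Galois extension on which all inertia groups act trivially is unramified. -/
theorem unramified_of_inertial (L : IntermediateField k Ω) [FiniteDimensional k L] [IsGalois k L]
    (hL : ∀ h : Ω ≃ₐ[k] Ω, Inertial Ω h.toRingEquiv → ∀ x : L, h (x : Ω) = (x : Ω)) :
    Algebra.Unramified (𝓞 k) (𝓞 L) := by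
  have : NumberField L := NumberField.of_module_finite k L
  rw [Algebra.unramified_iff_forall]
  rintro ⟨P, hP⟩
  change Algebra.IsUnramifiedAt (𝓞 k) P
  by_cases hbot : P = ⊥
  · subst hbot
    exact Algebra.isUnramifiedAt_bot
  · have hPm : P.IsMaximal := hP.isMaximal hbot
    rw [← Ideal.ramificationIdx_eq_one_iff,
      ← Ideal.ramificationIdxIn_eq_ramificationIdx (P.under (𝓞 k)) P (L ≃ₐ[k] L),
      ← Ideal.card_inertia_eq_ramificationIdxIn (G := L ≃ₐ[k] L) (P.under (𝓞 k)) P]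
    have h1 : P.inertia (L ≃ₐ[k] L) = ⊥ := by
      rw [Subgroup.eq_bot_iff_forall]
      intro g hg
      obtain ⟨h, hh, hx⟩ := exists_lift_inertial L P hPm g hg
      ext x
      have h2 := hL h hh x
      rw [hx x] at h2
      simpa using h2
    rw [h1]
    simp

end Pool.Agent.MPca71W
end
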