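import Mathlib
import Pool.Agent.Lib.MP_ca71b5_ntW.Defs

section
set_option autoImplicit false

namespace Pool.Agent.MPca71W

/-- A `p`-group acting linearly on a nonzero finite `𝔽_p`-space has a nonzero fixed vector. -/
theorem ad3_fixed (p : ℕ) [Fact p.Prime] {P : Type} [Group P] [Finite P]
    (hP : IsPGroup p P) {V : Type} [AddCommGroup V] [Module (ZMod p) V] [Finite V] [Nontrivial V]
    (r : P →* Module.End (ZMod p) V) : ∃ v : V, v ≠ 0 ∧ ∀ g, r g v = v := by
  let _ : MulAction P V := MulAction.compHom V r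
  have hsmul : ∀ (g : P) (v : V), g • v = r g v := fun g v => rfl
  have hcard : p ∣ Nat.card V := by
    have h1 : Nat.card V = p ^ Module.finrank (ZMod p) V := by
      have := Module.natCard_eq_pow_finrank (K := ZMod p) (V := V)
      simpa using this
    rw [h1]
    exact dvd_pow_self p (Module.finrank_pos).ne'
  have h0 : (0 : V) ∈ MulAction.fixedPoints P V := by
    intro g
    rw [hsmul]
    simp
  obtain ⟨b, hb, hb0⟩ := hP.exists_fixed_point_of_prime_dvd_card_of_fixed_point V hcard h0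
  exact ⟨b, fun h => hb0 h.symm, fun g => by rw [← hsmul]; exact hb g⟩

theorem ad3_list (p : ℕ) [Fact p.Prime] {P : Type} [Group P] [Finite P]
    (hP : IsPGroup p P) (n : ℕ) : ∀ (V : Type) [AddCommGroup V] [Module (ZMod p) V] [Finite V]
    (r : P →* Module.End (ZMod p) V) (_ : Module.finrank (ZMod p) V ≤ n) (l : List P)
    (_ : n ≤ l.length), (l.map (fun g => r g - 1)).prod = 0 := by
  induction n with
  | zero =>
    intro V _ _ _ r hn l _
    have h0 : Module.finrank (ZMod p) V = 0 := Nat.le_zero.mp hn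
    have hs : Subsingleton V := Module.finrank_zero_iff.mp h0
    ext v
    exact Subsingleton.elim _ _
  | succ n ih =>
    intro V _ _ _ r hn l hl
    rcases subsingleton_or_nontrivial V with hs | hs
    · ext v
      exact Subsingleton.elim _ _
    · obtain ⟨v0, hv0, hfix⟩ := ad3_fixed p hP r
      set W : Submodule (ZMod p) V := Submodule.span (ZMod p) {v0} with hW
      have hWle : ∀ g, W ≤ W.comap (r g) := by
        intro g
        rw [hW, Submodule.span_le]
        intro x hx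
        rw [Set.mem_singleton_iff] at hx
        subst hx
        simp only [Submodule.comap_coe, Set.mem_preimage, SetLike.mem_coe]
        rw [hfix]
        exact Submodule.mem_span_singleton_self _
      let r' : P →* Module.End (ZMod p) (V ⧸ W) :=
        { toFun := fun g => W.mapQ W (r g) (hWle g)
          map_one' := by
            ext x
            simp
          map_mul' := by
            intro a b
            ext x
            simp }
      have hr' : ∀ g x, r' g (W.mkQ x) = W.mkQ (r g x) := fun g x => rfl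
      have hfin : Module.finrank (ZMod p) (V ⧸ W) ≤ n := by
        have h1 := Submodule.finrank_quotient_add_finrank W
        have h2 : Module.finrank (ZMod p) W = 1 := finrank_span_singleton hv0
        omega
      cases l with
      | nil => simp at hl
      | cons g t =>
        have ht : n ≤ t.length := by simpa using hl
        have : Finite (V ⧸ W) := Finite.of_surjective _ (Submodule.mkQ_surjective W)
        have h1 := ih (V ⧸ W) r' hfin t ht
        have h2 : ∀ (s : List P) (x : V), W.mkQ ((s.map (fun g => r g - 1)).prod x)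
            = (s.map (fun g => r' g - 1)).prod (W.mkQ x) := by
          intro s
          induction s with
          | nil => intro x; simp
          | cons a s ihs =>
            intro x
            simp only [List.map_cons, List.prod_cons, Module.End.mul_apply]
            rw [← ihs]
            simp only [LinearMap.sub_apply, Module.End.one_apply, map_sub, hr']
        have h3 : ∀ x, (t.map (fun g => r g - 1)).prod x ∈ W := by
          intro x
          have h4 := h2 t x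
          rw [h1] at h4
          simpa using h4
        ext x
        simp only [List.map_cons, List.prod_cons, Module.End.mul_apply, LinearMap.zero_apply]
        obtain ⟨c, hc⟩ := Submodule.mem_span_singleton.mp (h3 x)
        rw [← hc, map_smul]
        simp [hfix]

/-- AD3: a `p`-group of matrices over `𝔽_p` is nilpotent. -/
theorem pgroup_nilpotent (p : ℕ) [Fact p.Prime] {n : ℕ} {P : Type} [Group P] [Finite P]
    (hP : IsPGroup p P) (r : P →* Matrix (Fin n) (Fin n) (ZMod p)) (f : Fin n → P) :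
    (List.ofFn (fun i => r (f i) - 1)).prod = 0 := by
  classical
  let e : Matrix (Fin n) (Fin n) (ZMod p) ≃ₐ[ZMod p] Module.End (ZMod p) (Fin n → ZMod p) :=
    Matrix.toLinAlgEquiv'
  let r' : P →* Module.End (ZMod p) (Fin n → ZMod p) := (e : Matrix (Fin n) (Fin n) (ZMod p) →* _).comp r
  have h := ad3_list p hP n (Fin n → ZMod p) r' (by simp) (List.ofFn f) (by simp)
  apply e.injective
  rw [map_zero, map_list_prod]
  rw [← h]
  congr 1
  rw [List.map_ofFn, List.map_ofFn]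
  congr 1
  funext i
  simp only [Function.comp, map_sub, map_one]
  rfl

end Pool.Agent.MPca71W
end

section
set_option autoImplicit false

/-! The definitions `toQp`, `mlog`, `lieSpan` are in `StA.lean`. -/
end

section

section
set_option autoImplicit false

/-! C5: torsion lemma (MP_ca71b5_nt, paper 206). -/

namespace Pool.Agent.MPca71W

variable {E : Type} [NormedField E]

namespace C5aux

theorem norm_sum_le (hu : ∀ x y : E, ‖x + y‖ ≤ max ‖x‖ ‖y‖) {ι : Type} (s : Finset ι)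
    (f : ι → E) (B : ℝ) (hB : 0 ≤ B) (h : ∀ i ∈ s, ‖f i‖ ≤ B) : ‖∑ i ∈ s, f i‖ ≤ B := by
  classical
  induction s using Finset.induction_on with
  | empty => simpa using hB
  | insert a s ha ih =>
    rw [Finset.sum_insert ha]
    refine (hu _ _).trans (max_le (h a (Finset.mem_insert_self _ _)) ?_)
    exact ih (fun i hi => h i (Finset.mem_insert_of_mem hi))

theorem norm_sum_lt (hu : ∀ x y : E, ‖x + y‖ ≤ max ‖x‖ ‖y‖) {ι : Type} (s : Finset ι)
    (f : ι → E) (B : ℝ) (hB : 0 < B) (h : ∀ i ∈ s, ‖f i‖ < B) : ‖∑ i ∈ s, f i‖ < B := by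
  classical
  induction s using Finset.induction_on with
  | empty => simpa using hB
  | insert a s ha ih =>
    rw [Finset.sum_insert ha]
    refine (hu _ _).trans_lt (max_lt (h a (Finset.mem_insert_self _ _)) ?_)
    exact ih (fun i hi => h i (Finset.mem_insert_of_mem hi))

theorem norm_nat_le (hu : ∀ x y : E, ‖x + y‖ ≤ max ‖x‖ ‖y‖) (k : ℕ) : ‖(k : E)‖ ≤ 1 := by
  induction k with
  | zero => simp
  | succ k ih =>
    push_cast
    refine (hu _ _).trans (max_le ih ?_)
    simp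

theorem norm_pow_entry (hu : ∀ x y : E, ‖x + y‖ ≤ max ‖x‖ ‖y‖) {n : ℕ}
    (y : Matrix (Fin n) (Fin n) E) (μ : ℝ) (hμ : 0 ≤ μ) (hy : ∀ i j, ‖y i j‖ ≤ μ) (m : ℕ) :
    ∀ i j, ‖(y ^ m) i j‖ ≤ μ ^ m := by
  induction m with
  | zero =>
    intro i j
    by_cases h : i = j
    · simp [h]
    · simp [h]
  | succ m ih =>
    intro i j
    rw [pow_succ, Matrix.mul_apply, pow_succ]
    refine norm_sum_le hu _ _ _ (by positivity) ?_
    intro k _
    rw [norm_mul]
    exact mul_le_mul (ih i k) (hy k j) (norm_nonneg _) (by positivity)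

theorem norm_one_pow (hu : ∀ x y : E, ‖x + y‖ ≤ max ‖x‖ ‖y‖) {n : ℕ}
    (x : Matrix (Fin n) (Fin n) E) (B : ℝ) (hB : 0 ≤ B) (hB1 : B ≤ 1)
    (hx : ∀ i j, ‖(x - 1) i j‖ ≤ B) (m : ℕ) : ∀ i j, ‖(x ^ m - 1) i j‖ ≤ B := by
  have hx1 : ∀ i j, ‖x i j‖ ≤ 1 := by
    intro i j
    have h1 : x i j = (x - 1) i j + (1 : Matrix (Fin n) (Fin n) E) i j := by
      rw [Matrix.sub_apply]; ring
    rw [h1]
    refine (hu _ _).trans (max_le ((hx i j).trans hB1) ?_)
    rw [Matrix.one_apply]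
    split_ifs
    · exact norm_one.le
    · rw [norm_zero]; exact zero_le_one
  induction m with
  | zero =>
    intro i j
    simpa using hB
  | succ m ih =>
    intro i j
    have h2 : x ^ (m + 1) - 1 = (x ^ m - 1) * x + (x - 1) := by
      rw [sub_mul, one_mul, pow_succ]; abel
    rw [h2, Matrix.add_apply, Matrix.mul_apply]
    refine (hu _ _).trans (max_le ?_ (hx i j))
    refine norm_sum_le hu _ _ _ hB ?_
    intro k _
    rw [norm_mul]
    calc ‖(x ^ m - 1) i k‖ * ‖x k j‖ ≤ B * 1 :=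
          mul_le_mul (ih i k) (hx1 k j) (norm_nonneg _) hB
      _ = B := mul_one B

end C5aux

open C5aux in
/-- C5, the case of exponent `p`. -/
theorem torsion_free_aux {p q a n : ℕ} {ζ : E} {c d : ℝ} (P : PData E p q a ζ c d)
    (x : Matrix (Fin n) (Fin n) E) (hx : ∀ i j, ‖(x - 1) i j‖ ≤ d ^ (2 * a - 1)) (hp : x ^ p = 1) :
    x = 1 := by
  classical
  by_contra hne
  have hu := P.ultra
  set y : Matrix (Fin n) (Fin n) E := x - 1 with hy
  have hxy : x = y + 1 := by rw [hy]; abel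
  have hy0 : y ≠ 0 := by
    intro h
    apply hne
    rw [hxy, h, zero_add]
  -- a maximal entry
  have hex : ∃ q : Fin n × Fin n, ∀ r : Fin n × Fin n, ‖y r.1 r.2‖ ≤ ‖y q.1 q.2‖ := by
    have : Nonempty (Fin n × Fin n) := by
      by_contra hemp
      apply hy0
      ext i j
      exact absurd ⟨(i, j)⟩ hemp
    obtain ⟨q, hq⟩ := Finite.exists_max (fun r : Fin n × Fin n => ‖y r.1 r.2‖)
    exact ⟨q, hq⟩
  obtain ⟨⟨i, j⟩, hmax⟩ := hex
  set μ : ℝ := ‖y i j‖ with hμ
  have hmax' : ∀ i' j', ‖y i' j'‖ ≤ μ := fun i' j' => hmax (i', j')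
  have hμpos : 0 < μ := by
    rcases (norm_nonneg (y i j)).lt_or_eq with h | h
    · exact h
    · exfalso
      apply hy0
      ext i' j'
      have h1 := hmax' i' j'
      rw [hμ, ← h] at h1
      have : ‖y i' j'‖ = 0 := le_antisymm h1 (norm_nonneg _)
      simpa using norm_eq_zero.mp this
  have hc0 : 0 < c := P.dpos.trans P.dlt
  have hd1 : d < 1 := P.dlt.trans P.clt
  have hμc : μ < c := by
    refine (hx i j).trans_lt (lt_of_le_of_lt ?_ P.dlt)
    have h1 : 1 ≤ 2 * a - 1 := by have := P.apos; omega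
    calc d ^ (2 * a - 1) ≤ d ^ 1 := pow_le_pow_of_le_one P.dpos.le hd1.le h1
      _ = d := pow_one d
  have hμ1 : μ < 1 := hμc.trans P.clt
  have hp0 : 0 < ‖(p : E)‖ := norm_pos_iff.mpr P.pne
  have hp2 : 2 ≤ p := P.prime.two_le
  have hB : 0 < ‖(p : E)‖ * μ := mul_pos hp0 hμpos
  -- the binomial identity
  have hbin : ∑ m ∈ Finset.range (p + 1), ((y ^ m) i j) * ((p.choose m : ℕ) : E)
      = (1 : Matrix (Fin n) (Fin n) E) i j := by
    have h1 : (y + 1) ^ p = 1 := by rw [← hxy]; exact hp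
    rw [(Commute.one_right y).add_pow] at h1
    have h2 := congrFun (congrFun h1 i) j
    rw [← h2, Matrix.sum_apply]
    refine Finset.sum_congr rfl ?_
    intro m _
    rw [one_pow, mul_one]
    have e1 : (y ^ m) * ((p.choose m : ℕ) : Matrix (Fin n) (Fin n) E) = (p.choose m) • (y ^ m) :=
      (nsmul_eq_mul' _ _).symm
    rw [e1, Matrix.smul_apply, nsmul_eq_mul, mul_comm]
  have hsplit : ∑ m ∈ Finset.range (p + 1), ((y ^ m) i j) * ((p.choose m : ℕ) : E)
      = (∑ m ∈ Finset.range (p - 1), ((y ^ (m + 2)) i j) * ((p.choose (m + 2) : ℕ) : E))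
        + y i j * (p : E) + (1 : Matrix (Fin n) (Fin n) E) i j := by
    have h3 : p + 1 = (p - 1) + 1 + 1 := by omega
    rw [h3, Finset.sum_range_succ', Finset.sum_range_succ']
    simp
  have hkey : y i j * (p : E)
      = - ∑ m ∈ Finset.range (p - 1), ((y ^ (m + 2)) i j) * ((p.choose (m + 2) : ℕ) : E) := by
    rw [hsplit] at hbin
    have : (∑ m ∈ Finset.range (p - 1), ((y ^ (m + 2)) i j) * ((p.choose (m + 2) : ℕ) : E))
        + y i j * (p : E) = 0 := by
      have := hbin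
      simpa using this
    linear_combination this
  have hlt : ‖∑ m ∈ Finset.range (p - 1), ((y ^ (m + 2)) i j) * ((p.choose (m + 2) : ℕ) : E)‖
      < ‖(p : E)‖ * μ := by
    refine norm_sum_lt hu _ _ _ hB ?_
    intro m hm
    have hm' : m + 2 ≤ p := by
      have := Finset.mem_range.mp hm
      omega
    rw [norm_mul]
    have hpow := norm_pow_entry hu y μ hμpos.le hmax' (m + 2) i j
    rcases hm'.lt_or_eq with hlt | heq
    · obtain ⟨k, hk⟩ := P.prime.dvd_choose_self (by omega : m + 2 ≠ 0) hlt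
      rw [hk]
      push_cast
      rw [norm_mul]
      have hk1 : ‖(k : E)‖ ≤ 1 := norm_nat_le hu k
      have h5 : μ ^ (m + 2) ≤ μ ^ 2 := pow_le_pow_of_le_one hμpos.le hμ1.le (by omega)
      have h6 : μ ^ 2 < μ := by nlinarith
      calc ‖(y ^ (m + 2)) i j‖ * (‖(p : E)‖ * ‖(k : E)‖)
          ≤ μ ^ (m + 2) * (‖(p : E)‖ * 1) := by
            apply mul_le_mul hpow _ (by positivity) (by positivity)
            exact mul_le_mul_of_nonneg_left hk1 hp0.le
        _ ≤ μ ^ 2 * ‖(p : E)‖ := by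
            rw [mul_one]
            exact mul_le_mul_of_nonneg_right h5 hp0.le
        _ < μ * ‖(p : E)‖ := mul_lt_mul_of_pos_right h6 hp0
        _ = ‖(p : E)‖ * μ := mul_comm _ _
    · rw [heq] at hpow ⊢
      rw [Nat.choose_self, Nat.cast_one, norm_one, mul_one]
      refine hpow.trans_lt ?_
      have h7 : μ ^ (p - 1) < c ^ (p - 1) := pow_lt_pow_left₀ hμc hμpos.le (by omega)
      calc μ ^ p = μ ^ (p - 1) * μ := by
            rw [← pow_succ]
            congr 1
            omega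
        _ < c ^ (p - 1) * μ := mul_lt_mul_of_pos_right h7 hμpos
        _ = ‖(p : E)‖ * μ := by rw [P.cpow]
  have : ‖y i j * (p : E)‖ = ‖(p : E)‖ * μ := by rw [norm_mul, mul_comm]
  rw [hkey, norm_neg] at this
  linarith

open C5aux in
/-- C5: torsion lemma. -/
theorem torsion_free {p q a n : ℕ} {ζ : E} {c d : ℝ} (P : PData E p q a ζ c d)
    (x : Matrix (Fin n) (Fin n) E) (hx : ∀ i j, ‖(x - 1) i j‖ ≤ d ^ (2 * a - 1)) (s : ℕ)
    (hp : x ^ (p ^ s) = 1) :
    x = 1 := by
  have hd1 : d < 1 := P.dlt.trans P.clt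
  induction s with
  | zero => simpa using hp
  | succ s ih =>
    apply ih
    apply torsion_free_aux P (x ^ (p ^ s))
    · exact norm_one_pow P.ultra x _ (pow_nonneg P.dpos.le _) (pow_le_one₀ P.dpos.le hd1.le) hx _
    · rw [← pow_mul, ← pow_succ]
      exact hp

end Pool.Agent.MPca71W
end

section
set_option autoImplicit false

namespace Pool.Agent.MPca71W

variable {E : Type} [NormedField E]

open C5aux in
/-- Torsion prime to `p`. -/
theorem torsion_free_coprime {p q a n : ℕ} {ζ : E} {c d : ℝ} (P : PData E p q a ζ c d)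
    (x : Matrix (Fin n) (Fin n) E) (hx : ∀ i j, ‖(x - 1) i j‖ ≤ d ^ (2 * a - 1)) (e : ℕ)
    (hpe : ¬ p ∣ e) (hp : x ^ e = 1) : x = 1 := by
  classical
  by_contra hne
  have hu := P.ultra
  set y : Matrix (Fin n) (Fin n) E := x - 1 with hy
  have hxy : x = y + 1 := by rw [hy]; abel
  have hy0 : y ≠ 0 := by
    intro h
    apply hne
    rw [hxy, h, zero_add]
  have he0 : e ≠ 0 := by rintro rfl; exact hpe (dvd_zero p)
  have he1 : e ≠ 1 := by
    rintro rfl
    rw [pow_one] at hp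
    exact hne hp
  -- a maximal entry
  have hex : ∃ q : Fin n × Fin n, ∀ r : Fin n × Fin n, ‖y r.1 r.2‖ ≤ ‖y q.1 q.2‖ := by
    have : Nonempty (Fin n × Fin n) := by
      by_contra hemp
      apply hy0
      ext i j
      exact absurd ⟨(i, j)⟩ hemp
    obtain ⟨q, hq⟩ := Finite.exists_max (fun r : Fin n × Fin n => ‖y r.1 r.2‖)
    exact ⟨q, hq⟩
  obtain ⟨⟨i, j⟩, hmax⟩ := hex
  set μ : ℝ := ‖y i j‖ with hμ
  have hmax' : ∀ i' j', ‖y i' j'‖ ≤ μ := fun i' j' => hmax (i', j')
  have hμpos : 0 < μ := by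
    rcases (norm_nonneg (y i j)).lt_or_eq with h | h
    · exact h
    · exfalso
      apply hy0
      ext i' j'
      have h1 := hmax' i' j'
      rw [hμ, ← h] at h1
      have : ‖y i' j'‖ = 0 := le_antisymm h1 (norm_nonneg _)
      simpa using norm_eq_zero.mp this
  have hd1 : d < 1 := P.dlt.trans P.clt
  have hμ1 : μ < 1 := by
    refine (hx i j).trans_lt ?_
    have h1 : 2 * a - 1 ≠ 0 := by have := P.apos; omega
    exact pow_lt_one₀ P.dpos.le hd1 h1
  -- `|e| = 1`
  have hpn : ‖(p : E)‖ < 1 := by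
    refine P.ple.trans_lt ?_
    have h1 : 2 * a - 1 ≠ 0 := by have := P.apos; omega
    exact pow_lt_one₀ P.dpos.le hd1 h1
  have hen : 1 ≤ ‖(e : E)‖ := by
    have hcop : IsCoprime (e : ℤ) (p : ℤ) := by
      rw [Nat.isCoprime_iff_coprime]
      exact ((Nat.Prime.coprime_iff_not_dvd P.prime).2 hpe).symm
    obtain ⟨u, v, huv⟩ := hcop
    have h1 : ((u : E) * (e : E) + (v : E) * (p : E)) = 1 := by exact_mod_cast congrArg (Int.cast : ℤ → E) huv
    have hint : ∀ z : ℤ, ‖(z : E)‖ ≤ 1 := by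
      intro z
      obtain ⟨k, rfl | rfl⟩ := z.eq_nat_or_neg
      · simpa using norm_nat_le hu k
      · simpa using norm_nat_le hu k
    by_contra hlt
    push Not at hlt
    have h2 : ‖(u : E) * (e : E) + (v : E) * (p : E)‖ < 1 := by
      refine (hu _ _).trans_lt (max_lt ?_ ?_)
      · rw [norm_mul]
        calc ‖(u : E)‖ * ‖(e : E)‖ ≤ 1 * ‖(e : E)‖ := by gcongr; exact hint u
          _ < 1 := by rwa [one_mul]
      · rw [norm_mul]
        calc ‖(v : E)‖ * ‖(p : E)‖ ≤ 1 * ‖(p : E)‖ := by gcongr; exact hint v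
          _ < 1 := by rwa [one_mul]
    rw [h1, norm_one] at h2
    exact lt_irrefl _ h2
  -- the binomial identity
  have hbin : ∑ m ∈ Finset.range (e + 1), ((y ^ m) i j) * ((e.choose m : ℕ) : E)
      = (1 : Matrix (Fin n) (Fin n) E) i j := by
    have h1 : (y + 1) ^ e = 1 := by rw [← hxy]; exact hp
    rw [(Commute.one_right y).add_pow] at h1
    have h2 := congrFun (congrFun h1 i) j
    rw [← h2, Matrix.sum_apply]
    refine Finset.sum_congr rfl ?_
    intro m _
    rw [one_pow, mul_one]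
    have e1 : (y ^ m) * ((e.choose m : ℕ) : Matrix (Fin n) (Fin n) E) = (e.choose m) • (y ^ m) :=
      (nsmul_eq_mul' _ _).symm
    rw [e1, Matrix.smul_apply, nsmul_eq_mul, mul_comm]
  have hsplit : ∑ m ∈ Finset.range (e + 1), ((y ^ m) i j) * ((e.choose m : ℕ) : E)
      = (∑ m ∈ Finset.range (e - 1), ((y ^ (m + 2)) i j) * ((e.choose (m + 2) : ℕ) : E))
        + y i j * (e : E) + (1 : Matrix (Fin n) (Fin n) E) i j := by
    have h3 : e + 1 = (e - 1) + 1 + 1 := by omega
    rw [h3, Finset.sum_range_succ', Finset.sum_range_succ']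
    simp
  have hkey : y i j * (e : E)
      = - ∑ m ∈ Finset.range (e - 1), ((y ^ (m + 2)) i j) * ((e.choose (m + 2) : ℕ) : E) := by
    rw [hsplit] at hbin
    have : (∑ m ∈ Finset.range (e - 1), ((y ^ (m + 2)) i j) * ((e.choose (m + 2) : ℕ) : E))
        + y i j * (e : E) = 0 := by
      have := hbin
      simpa using this
    linear_combination this
  have hlt : ‖∑ m ∈ Finset.range (e - 1), ((y ^ (m + 2)) i j) * ((e.choose (m + 2) : ℕ) : E)‖
      < μ := by
    refine norm_sum_lt hu _ _ _ hμpos ?_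
    intro m hm
    rw [norm_mul]
    have hpow := norm_pow_entry hu y μ hμpos.le hmax' (m + 2) i j
    have h5 : μ ^ (m + 2) ≤ μ ^ 2 := pow_le_pow_of_le_one hμpos.le hμ1.le (by omega)
    have h6 : μ ^ 2 < μ := by nlinarith
    have h7 : ‖((e.choose (m + 2) : ℕ) : E)‖ ≤ 1 := norm_nat_le hu _
    calc ‖(y ^ (m + 2)) i j‖ * ‖((e.choose (m + 2) : ℕ) : E)‖ ≤ μ ^ (m + 2) * 1 :=
          mul_le_mul hpow h7 (norm_nonneg _) (by positivity)
      _ ≤ μ ^ 2 := by rw [mul_one]; exact h5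
      _ < μ := h6
  have h8 : μ ≤ ‖y i j * (e : E)‖ := by
    rw [norm_mul]
    calc μ = μ * 1 := (mul_one μ).symm
      _ ≤ ‖y i j‖ * ‖(e : E)‖ := by rw [← hμ]; gcongr
  rw [hkey, norm_neg] at h8
  linarith

open C5aux in
/-- No torsion near the identity. -/
theorem torsion_free_all {p q a n : ℕ} {ζ : E} {c d : ℝ} (P : PData E p q a ζ c d)
    (x : Matrix (Fin n) (Fin n) E) (hx : ∀ i j, ‖(x - 1) i j‖ ≤ d ^ (2 * a - 1)) (N : ℕ)
    (hN : N ≠ 0) (hp : x ^ N = 1) : x = 1 := by
  have hd1 : d < 1 := P.dlt.trans P.clt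
  obtain ⟨s, e, hpe, rfl⟩ := Nat.exists_eq_pow_mul_and_not_dvd hN p P.prime.ne_one
  have h1 : x ^ e = 1 := by
    refine torsion_free P (x ^ e) ?_ s ?_
    · exact norm_one_pow P.ultra x _ (pow_nonneg P.dpos.le _) (pow_le_one₀ P.dpos.le hd1.le) hx _
    · rw [← pow_mul, mul_comm]; exact hp
  exact torsion_free_coprime P x hx e hpe h1

end Pool.Agent.MPca71W
end

section
set_option autoImplicit false

/-! C2: the norm `N2` (MP_ca71b5_nt, paper 206, section 1b). -/

namespace Pool.Agent.MPca71W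

variable {E B : Type} [NormedField E] [Ring B] [Algebra E B]

namespace C2aux

open Polynomial

/-- `T` as a linear map. -/
noncomputable def TT (T : B ≃ₐ[E] B) : B →ₗ[E] B := T.toLinearMap

theorem TT_apply (T : B ≃ₐ[E] B) (x : B) : TT T x = T x := rfl

theorem TT_pow (T : B ≃ₐ[E] B) (k : ℕ) (x : B) : (TT T ^ k) x = T^[k] x := by
  induction k generalizing x with
  | zero => rfl
  | succ k ih => rw [pow_succ, Module.End.mul_apply, ih, Function.iterate_succ_apply]; rfl

theorem eig_eq (q : ℕ) (ζ : E) (T : B ≃ₐ[E] B) (j : ℕ) (x : B) :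
    eig q ζ T j x = ((q : E)⁻¹) • ∑ k ∈ Finset.range q, (ζ⁻¹ ^ (j * k)) • ((TT T ^ k) x) := by
  simp only [eig, TT_pow]

/-- `eig` as a linear map. -/
noncomputable def eL (q : ℕ) (ζ : E) (T : B ≃ₐ[E] B) (j : ℕ) : B →ₗ[E] B :=
  ((q : E)⁻¹) • ∑ k ∈ Finset.range q, (ζ⁻¹ ^ (j * k)) • (TT T ^ k)

theorem eL_apply (q : ℕ) (ζ : E) (T : B ≃ₐ[E] B) (j : ℕ) (x : B) :
    eL q ζ T j x = eig q ζ T j x := by
  rw [eig_eq, eL, LinearMap.smul_apply, LinearMap.sum_apply]
  rfl

theorem sum_pow_zero {q : ℕ} {ζ : E} (hζ : IsPrimitiveRoot ζ q) (hq : 0 < q) (k : ℕ)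
    (hk : ¬ q ∣ k) : ∑ j ∈ Finset.range q, (ζ⁻¹ ^ k) ^ j = 0 := by
  have h1 : ζ⁻¹ ^ k ≠ 1 := by
    intro h
    exact hk ((hζ.inv.pow_eq_one_iff_dvd k).1 h)
  have h2 : (ζ⁻¹ ^ k - 1) * ∑ j ∈ Finset.range q, (ζ⁻¹ ^ k) ^ j = 0 := by
    rw [mul_geom_sum, ← pow_mul, mul_comm k q, pow_mul, hζ.inv.pow_eq_one, one_pow, sub_self]
  rcases mul_eq_zero.1 h2 with h | h
  · exact absurd (sub_eq_zero.1 h) h1
  · exact h

section
variable {q : ℕ} {ζ : E} (hζ : IsPrimitiveRoot ζ q) (hq : 0 < q) (hq0 : (q : E) ≠ 0)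
  (T : B ≃ₐ[E] B) (hT : ∀ x, T^[q] x = x)

include hζ hq hq0 in
theorem sum_eig (x : B) : ∑ j ∈ Finset.range q, eig q ζ T j x = x := by
  simp only [eig_eq]
  rw [← Finset.smul_sum, Finset.sum_comm]
  have h1 : ∀ k ∈ Finset.range q, ∑ j ∈ Finset.range q, (ζ⁻¹ ^ (j * k)) • ((TT T ^ k) x) =
      if k = 0 then (q : E) • x else 0 := by
    intro k hk
    rw [← Finset.sum_smul]
    have h2 : ∑ j ∈ Finset.range q, ζ⁻¹ ^ (j * k) = ∑ j ∈ Finset.range q, (ζ⁻¹ ^ k) ^ j := by
      refine Finset.sum_congr rfl fun j _ => ?_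
      rw [← pow_mul, mul_comm]
    rw [h2]
    split_ifs with h
    · subst h
      simp
    · rw [sum_pow_zero hζ hq k, zero_smul]
      intro hd
      exact h (Nat.eq_zero_of_dvd_of_lt hd (Finset.mem_range.1 hk))
  rw [Finset.sum_congr rfl h1, Finset.sum_ite_eq' (Finset.range q) 0, if_pos (Finset.mem_range.2 hq),
    smul_smul, inv_mul_cancel₀ hq0, one_smul]

include hζ hq hT in
theorem T_eig (j : ℕ) (x : B) : T (eig q ζ T j x) = ζ ^ j • eig q ζ T j x := by
  have hz : ζ ≠ 0 := hζ.ne_zero hq.ne'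
  have h0 : T (eig q ζ T j x) =
      ((q : E)⁻¹) • ∑ k ∈ Finset.range q, (ζ⁻¹ ^ (j * k)) • ((TT T ^ (k + 1)) x) := by
    rw [eig_eq, map_smul, map_sum]
    congr 1
    refine Finset.sum_congr rfl fun k _ => ?_
    rw [map_smul, pow_succ', Module.End.mul_apply, TT_apply]
  have h1 : ∀ k, (ζ⁻¹ ^ (j * k)) • ((TT T ^ (k + 1)) x) =
      ζ ^ j • ((ζ⁻¹ ^ (j * (k + 1))) • ((TT T ^ (k + 1)) x)) := by
    intro k
    rw [smul_smul]
    congr 1
    rw [mul_add, mul_one, pow_add, mul_comm (ζ⁻¹ ^ (j * k)), ← mul_assoc, ← mul_pow,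
      mul_inv_cancel₀ hz, one_pow, one_mul]
  have h2 : ∑ k ∈ Finset.range q, (ζ⁻¹ ^ (j * (k + 1))) • ((TT T ^ (k + 1)) x) =
      ∑ k ∈ Finset.range q, (ζ⁻¹ ^ (j * k)) • ((TT T ^ k) x) := by
    have h3 := Finset.sum_range_succ (fun k => (ζ⁻¹ ^ (j * k)) • ((TT T ^ k) x)) q
    have h4 := Finset.sum_range_succ' (fun k => (ζ⁻¹ ^ (j * k)) • ((TT T ^ k) x)) q
    have h5 : (ζ⁻¹ ^ (j * q)) • ((TT T ^ q) x) = (ζ⁻¹ ^ (j * 0)) • ((TT T ^ 0) x) := by
      rw [TT_pow, hT, mul_comm j q, pow_mul, hζ.inv.pow_eq_one, one_pow, mul_zero, pow_zero,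
        pow_zero, Module.End.one_apply]
    rw [h5] at h3
    rw [h3] at h4
    exact (add_right_cancel h4).symm
  rw [h0, Finset.sum_congr rfl fun k _ => h1 k, ← Finset.smul_sum, h2, eig_eq, smul_comm]

include hζ hq hT in
theorem eig_T (j : ℕ) (x : B) : eig q ζ T j (T x) = ζ ^ j • eig q ζ T j x := by
  rw [← T_eig hζ hq T hT, eig, eig, map_smul, map_sum]
  congr 1
  refine Finset.sum_congr rfl fun k _ => ?_
  rw [map_smul]
  congr 1
  rw [← Function.iterate_succ_apply, Function.iterate_succ_apply']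

include hζ hq hT in
theorem eig_D (j : ℕ) (x : B) : eig q ζ T j (Dop T x) = (ζ ^ j - 1) • eig q ζ T j x := by
  rw [Dop, ← eL_apply, map_sub, eL_apply, eL_apply, eig_T hζ hq T hT, sub_smul, one_smul]

open Classical in
include hζ hq hq0 in
/-- The eigencomponents of an eigenvector. -/
theorem eig_of_T (i : ℕ) (z : B) (hz : T z = ζ ^ i • z) (j : ℕ) :
    eig q ζ T j z = if ζ ^ i = ζ ^ j then z else 0 := by
  have hz0 : ζ ≠ 0 := hζ.ne_zero hq.ne'
  have h1 : ∀ k, (TT T ^ k) z = (ζ ^ i) ^ k • z := by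
    intro k
    induction k with
    | zero => simp
    | succ k ih => rw [pow_succ', Module.End.mul_apply, ih, map_smul, TT_apply, hz, smul_smul,
        ← pow_succ]
  have h2 : ∑ k ∈ Finset.range q, (ζ⁻¹ ^ (j * k)) • ((TT T ^ k) z) =
      (∑ k ∈ Finset.range q, (ζ ^ i * ζ⁻¹ ^ j) ^ k) • z := by
    rw [Finset.sum_smul]
    refine Finset.sum_congr rfl fun k _ => ?_
    rw [h1, smul_smul]
    congr 1
    rw [mul_pow, ← pow_mul ζ⁻¹, mul_comm]
  rw [eig_eq, h2]
  split_ifs with h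
  · have h3 : ζ ^ i * ζ⁻¹ ^ j = 1 := by
      rw [h, ← mul_pow, mul_inv_cancel₀ hz0, one_pow]
    rw [h3]
    simp only [one_pow, Finset.sum_const, Finset.card_range, nsmul_eq_mul, mul_one]
    rw [smul_smul, inv_mul_cancel₀ hq0, one_smul]
  · have h3 : ζ ^ i * ζ⁻¹ ^ j ≠ 1 := by
      intro h5
      apply h
      rw [inv_pow] at h5
      exact (mul_inv_eq_one₀ (pow_ne_zero _ hz0)).1 h5
    have h4 : (ζ ^ i * ζ⁻¹ ^ j - 1) * ∑ k ∈ Finset.range q, (ζ ^ i * ζ⁻¹ ^ j) ^ k = 0 := by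
      rw [mul_geom_sum, mul_pow, ← pow_mul, ← pow_mul, mul_comm i q, mul_comm j q, pow_mul, pow_mul,
        hζ.pow_eq_one, hζ.inv.pow_eq_one, one_pow, one_pow, mul_one, sub_self]
    rcases mul_eq_zero.1 h4 with h5 | h5
    · exact absurd (sub_eq_zero.1 h5) h3
    · rw [h5, zero_smul, smul_zero]

include hζ hq hq0 in
/-- `q e_j` is a product. -/
theorem eig_prod (j : ℕ) (hj : j < q) (x : B) :
    (q : E) • eig q ζ T j x =
      ζ ^ j • (aeval (TT T) (∏ l ∈ (Finset.range q).erase j, (X - C (ζ ^ l)))) x := by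
  have hz0 : ζ ≠ 0 := hζ.ne_zero hq.ne'
  have hP : (X : E[X]) ^ q - 1 = ∏ i ∈ Finset.range q, (X - C (ζ ^ i)) := by
    have := X_pow_sub_C_eq_prod hζ (α := 1) (a := 1) hq (one_pow _)
    simpa using this
  have hQ : (C (ζ⁻¹ ^ j) * X - 1) * ∑ k ∈ Finset.range q, (C (ζ⁻¹ ^ j) * X) ^ k =
      (X : E[X]) ^ q - 1 := by
    rw [mul_geom_sum, mul_pow, ← C_pow, ← pow_mul, mul_comm j q, pow_mul, hζ.inv.pow_eq_one, one_pow,
      C_1, one_mul]
  have hR : (C (ζ⁻¹ ^ j) * X - 1 : E[X]) = C (ζ⁻¹ ^ j) * (X - C (ζ ^ j)) := by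
    rw [mul_sub, ← C_mul, ← mul_pow, inv_mul_cancel₀ hz0, one_pow, C_1]
  have hS : ∑ k ∈ Finset.range q, (C (ζ⁻¹ ^ j) * X) ^ k =
      C (ζ ^ j) * ∏ l ∈ (Finset.range q).erase j, ((X : E[X]) - C (ζ ^ l)) := by
    rw [hR, hP, ← Finset.mul_prod_erase (Finset.range q) _ (Finset.mem_range.2 hj)] at hQ
    have h1 : (X - C (ζ ^ j) : E[X]) ≠ 0 := X_sub_C_ne_zero _
    have h2 : C (ζ⁻¹ ^ j) * ∑ k ∈ Finset.range q, (C (ζ⁻¹ ^ j) * X) ^ k =
        ∏ l ∈ (Finset.range q).erase j, ((X : E[X]) - C (ζ ^ l)) := by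
      apply mul_left_cancel₀ h1
      rw [← hQ]
      ring
    rw [← h2, ← mul_assoc, ← C_mul, ← mul_pow, mul_inv_cancel₀ hz0, one_pow, C_1, one_mul]
  have hC : ∀ (b : E) (P : E[X]), (aeval (TT T) (C b * P)) x = b • (aeval (TT T) P) x := by
    intro b P
    rw [map_mul, aeval_C, Module.End.mul_apply, Module.algebraMap_end_apply]
  have hL : ∀ k, (aeval (TT T) ((C (ζ⁻¹ ^ j) * X) ^ k)) x = (ζ⁻¹ ^ (j * k)) • ((TT T ^ k) x) := by
    intro k
    rw [mul_pow, ← C_pow, hC, map_pow, aeval_X, ← pow_mul]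
  have hU := congrArg (fun P : E[X] => (aeval (TT T) P) x) hS
  simp only [map_sum, LinearMap.sum_apply, hL] at hU
  have hV : (q : E) • eig q ζ T j x = ∑ k ∈ Finset.range q, (ζ⁻¹ ^ (j * k)) • ((TT T ^ k) x) := by
    rw [eig_eq, smul_smul, mul_inv_cancel₀ hq0, one_smul]
  rw [hV, hU, hC]

end

/-! ### Norms -/

section Norm
variable (U : UNorm E B)

theorem N_neg (x : B) : U.N (-x) = U.N x := by
  have := U.smul' (-1) x
  rw [neg_one_smul] at this
  rw [this, norm_neg, norm_one, one_mul]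

theorem N_sub (x y : B) : U.N (x - y) ≤ max (U.N x) (U.N y) := by
  rw [sub_eq_add_neg, ← N_neg U y]
  exact U.add' x (-y)

theorem N_sum {ι : Type} (s : Finset ι) (f : ι → B) (R : ℝ) (hR : 0 ≤ R)
    (h : ∀ i ∈ s, U.N (f i) ≤ R) : U.N (∑ i ∈ s, f i) ≤ R := by
  classical
  induction s using Finset.induction_on with
  | empty => simpa [U.zero'] using hR
  | insert a s ha ih =>
    rw [Finset.sum_insert ha]
    exact (U.add' _ _).trans (max_le (h a (Finset.mem_insert_self _ _))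
      (ih fun i hi => h i (Finset.mem_insert_of_mem hi)))

theorem N_iter {T : B ≃ₐ[E] B} (hTN : ∀ x, U.N (T x) = U.N x) (k : ℕ) (x : B) :
    U.N (T^[k] x) = U.N x := by
  induction k generalizing x with
  | zero => rfl
  | succ k ih => rw [Function.iterate_succ_apply, ih, hTN]

theorem N2_nonneg (q : ℕ) (ζ : E) (T : B ≃ₐ[E] B) (x : B) : 0 ≤ N2 U q ζ T x :=
  Real.iSup_nonneg fun _ => U.nonneg' _

theorem le_N2 {q : ℕ} (ζ : E) (T : B ≃ₐ[E] B) (x : B) (j : ℕ) (hj : j < q) :
    U.N (eig q ζ T j x) ≤ N2 U q ζ T x :=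
  le_ciSup (f := fun j : Fin q => U.N (eig q ζ T j x)) (Set.finite_range _).bddAbove ⟨j, hj⟩

theorem N2_le {q : ℕ} (hq : 0 < q) (ζ : E) (T : B ≃ₐ[E] B) (x : B) (R : ℝ)
    (h : ∀ j, j < q → U.N (eig q ζ T j x) ≤ R) : N2 U q ζ T x ≤ R := by
  haveI : Nonempty (Fin q) := ⟨⟨0, hq⟩⟩
  exact ciSup_le fun j => h j j.2

/-- The set of elements with geometric decay. -/
def Bd (T : B ≃ₐ[E] B) (d R : ℝ) (x : B) : Prop := ∀ k, U.N ((Dop T)^[k] x) ≤ d ^ k * R

theorem Dop_iter_sub (T : B ≃ₐ[E] B) (l : E) (k : ℕ) (x y : B) :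
    (Dop T)^[k] (x - l • y) = (Dop T)^[k] x - l • (Dop T)^[k] y := by
  induction k generalizing x y with
  | zero => rfl
  | succ k ih =>
    rw [Function.iterate_succ_apply, Function.iterate_succ_apply, Function.iterate_succ_apply, ← ih]
    congr 1
    simp only [Dop, map_sub, map_smul, smul_sub]
    abel

theorem Bd.D {U : UNorm E B} {T : B ≃ₐ[E] B} {d R : ℝ} {x : B} (h : Bd U T d R x) :
    Bd U T d (d * R) (Dop T x) := by
  intro k
  have := h (k + 1)
  rw [Function.iterate_succ_apply] at this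
  calc _ ≤ _ := this
    _ = _ := by ring

theorem Bd.sub {U : UNorm E B} {T : B ≃ₐ[E] B} {d R : ℝ} (hR : 0 ≤ R) (hd : 0 ≤ d) {x : B}
    (h : Bd U T d R x) (l : E) (hl : d ≤ ‖l‖) : Bd U T d (‖l‖ * R) (Dop T x - l • x) := by
  intro k
  rw [Dop_iter_sub]
  refine (N_sub U _ _).trans (max_le ?_ ?_)
  · have h1 := h.D k
    refine h1.trans ?_
    exact mul_le_mul_of_nonneg_left (mul_le_mul_of_nonneg_right hl hR) (by positivity)
  · rw [U.smul']
    calc ‖l‖ * U.N ((Dop T)^[k] x) ≤ ‖l‖ * (d ^ k * R) :=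
          mul_le_mul_of_nonneg_left (h k) (norm_nonneg _)
      _ = _ := by ring

end Norm

end C2aux

open C2aux in
/-- C2 (paper 1b): the properties of `N2`. -/
theorem N2_props {p q a : ℕ} {ζ : E} {c d : ℝ}
    (P : PData E p q a ζ c d) (U : UNorm E B) (T : B ≃ₐ[E] B) (hTN : ∀ x, U.N (T x) = U.N x)
    (hT : ∀ x, T^[q] x = x) :
    (∀ x, 0 ≤ N2 U q ζ T x) ∧
    (∀ x, U.N x ≤ N2 U q ζ T x) ∧
    (∀ x, N2 U q ζ T x ≤ ‖(q : E)‖⁻¹ * U.N x) ∧
    (∀ x y, N2 U q ζ T (x + y) ≤ max (N2 U q ζ T x) (N2 U q ζ T y)) ∧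
    (∀ x, N2 U q ζ T (-x) = N2 U q ζ T x) ∧
    (∀ x y, N2 U q ζ T (x * y) ≤ N2 U q ζ T x * N2 U q ζ T y) ∧
    (∀ (l : E) x, N2 U q ζ T (l • x) = ‖l‖ * N2 U q ζ T x) ∧
    (N2 U q ζ T 1 ≤ 1) ∧
    (∀ x, N2 U q ζ T (T x) = N2 U q ζ T x) ∧
    (∀ x, N2 U q ζ T (Dop T x) ≤ N2 U q ζ T x) ∧
    (∀ x, c * N2 U q ζ T (Dop T x) ≤ N2 U q ζ T (Dop T (Dop T x))) ∧
    (∀ (x : B) (r : ℝ), 0 ≤ r → (∀ k, U.N ((Dop T)^[k] x) ≤ d ^ k * r) →
      N2 U q ζ T x ≤ r ∧ N2 U q ζ T (Dop T x) ≤ d * r) := by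
  have hζ := P.prim
  have hq : 0 < q := by
    rcases Nat.eq_zero_or_pos q with h | h
    · exact absurd (by rw [h, Nat.cast_zero]) P.qne
    · exact h
  have hq0 : (q : E) ≠ 0 := P.qne
  have hz0 : ζ ≠ 0 := hζ.ne_zero hq.ne'
  have hzn : ‖ζ‖ = 1 := by
    have h1 : ‖ζ‖ ^ q = 1 := by rw [← norm_pow, hζ.pow_eq_one, norm_one]
    exact (pow_eq_one_iff_of_nonneg (norm_nonneg _) hq.ne').1 h1
  have hqn : 0 < ‖(q : E)‖ := norm_pos_iff.2 hq0
  have hc0 : 0 < c := P.dpos.trans P.dlt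
  have hadd : ∀ j x y, eig q ζ T j (x + y) = eig q ζ T j x + eig q ζ T j y := by
    intro j x y
    rw [← eL_apply, map_add, eL_apply, eL_apply]
  have hsmul : ∀ j (l : E) x, eig q ζ T j (l • x) = l • eig q ζ T j x := by
    intro j l x
    rw [← eL_apply, map_smul, eL_apply]
  have hneg : ∀ j x, eig q ζ T j (-x) = -eig q ζ T j x := by
    intro j x
    rw [← eL_apply, map_neg, eL_apply]
  have hD : ∀ j x, U.N (eig q ζ T j (Dop T x)) = ‖ζ ^ j - 1‖ * U.N (eig q ζ T j x) := by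
    intro j x
    rw [eig_D hζ hq T hT, U.smul']
  refine ⟨fun x => N2_nonneg U q ζ T x, fun x => ?_, fun x => ?_, fun x y => ?_, fun x => ?_,
    fun x y => ?_, fun l x => ?_, ?_, fun x => ?_, fun x => ?_, fun x => ?_, ?_⟩
  · -- N ≤ N2
    conv_lhs => rw [← sum_eig hζ hq hq0 T x]
    exact N_sum U _ _ _ (N2_nonneg U q ζ T x) fun j hj => le_N2 U ζ T x j (Finset.mem_range.1 hj)
  · -- N2 ≤ |q|⁻¹ N
    refine N2_le U hq ζ T x _ fun j _ => ?_
    rw [eig, U.smul', norm_inv]
    refine mul_le_mul_of_nonneg_left ?_ (by positivity)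
    refine N_sum U _ _ _ (U.nonneg' x) fun k _ => ?_
    rw [U.smul', N_iter U hTN, norm_pow, norm_inv, hzn, inv_one, one_pow, one_mul]
  · refine N2_le U hq ζ T _ _ fun j hj => ?_
    rw [hadd]
    exact (U.add' _ _).trans (max_le_max (le_N2 U ζ T x j hj) (le_N2 U ζ T y j hj))
  · simp only [N2, hneg, N_neg]
  · -- product
    classical
    refine N2_le U hq ζ T _ _ fun j hj => ?_
    have h1 : x * y = ∑ i ∈ Finset.range q, ∑ l ∈ Finset.range q,
        eig q ζ T i x * eig q ζ T l y := by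
      conv_lhs => rw [← sum_eig hζ hq hq0 T x, ← sum_eig hζ hq hq0 T y]
      rw [Finset.sum_mul]
      refine Finset.sum_congr rfl fun i _ => ?_
      rw [Finset.mul_sum]
    have h2 : eig q ζ T j (x * y) = ∑ i ∈ Finset.range q, ∑ l ∈ Finset.range q,
        eig q ζ T j (eig q ζ T i x * eig q ζ T l y) := by
      rw [h1, ← eL_apply, map_sum]
      refine Finset.sum_congr rfl fun i _ => ?_
      rw [map_sum]
      refine Finset.sum_congr rfl fun l _ => ?_
      rw [eL_apply]
    have h0 : 0 ≤ N2 U q ζ T x * N2 U q ζ T y :=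
      mul_nonneg (N2_nonneg U q ζ T x) (N2_nonneg U q ζ T y)
    rw [h2]
    refine N_sum U _ _ _ h0 fun i hi => N_sum U _ _ _ h0 fun l hl => ?_
    have h3 : T (eig q ζ T i x * eig q ζ T l y) =
        ζ ^ (i + l) • (eig q ζ T i x * eig q ζ T l y) := by
      rw [map_mul, T_eig hζ hq T hT, T_eig hζ hq T hT, smul_mul_smul_comm, pow_add]
    rw [eig_of_T hζ hq hq0 T (i + l) _ h3 j]
    split_ifs
    · refine (U.mul' _ _).trans ?_
      exact mul_le_mul (le_N2 U ζ T x i (Finset.mem_range.1 hi))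
        (le_N2 U ζ T y l (Finset.mem_range.1 hl)) (U.nonneg' _) (N2_nonneg U q ζ T x)
    · rw [U.zero']
      exact h0
  · simp only [N2, hsmul, U.smul']
    rw [Real.mul_iSup_of_nonneg (norm_nonneg _)]
  · classical
    refine N2_le U hq ζ T _ _ fun j hj => ?_
    have h3 : T (1 : B) = ζ ^ 0 • (1 : B) := by rw [map_one, pow_zero, one_smul]
    rw [eig_of_T hζ hq hq0 T 0 _ h3 j]
    split_ifs
    · exact U.one'
    · rw [U.zero']
      exact zero_le_one
  · simp only [N2, eig_T hζ hq T hT, U.smul', norm_pow, hzn, one_pow, one_mul]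
  · refine N2_le U hq ζ T _ _ fun j hj => ?_
    rw [hD]
    refine le_trans ?_ (le_N2 U ζ T x j hj)
    exact mul_le_of_le_one_left (U.nonneg' _) (P.norm_le j)
  · rw [N2, Real.mul_iSup_of_nonneg hc0.le]
    haveI : Nonempty (Fin q) := ⟨⟨0, hq⟩⟩
    refine ciSup_le fun j => ?_
    refine le_trans ?_ (le_N2 U ζ T (Dop T (Dop T x)) j j.2)
    rw [hD j (Dop T x), hD]
    by_cases hj : (j : ℕ) = 0
    · rw [hj]
      simp
    · have h1 : c ≤ ‖ζ ^ (j : ℕ) - 1‖ := by
        apply P.norm_ge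
        intro hd
        exact hj (Nat.eq_zero_of_dvd_of_lt hd j.2)
      exact mul_le_mul_of_nonneg_right h1 (mul_nonneg (norm_nonneg _) (U.nonneg' _))
  · intro x r hr hx
    have hd0 : 0 ≤ d := P.dpos.le
    -- the bound for the products
    let μ : ℕ → ℝ := fun l => if l = 0 then d else ‖ζ ^ l - 1‖
    have hμ0 : ∀ l, 0 ≤ μ l := by
      intro l
      by_cases h : l = 0
      · simp only [μ, h, if_true]
        exact hd0
      · simp only [μ, h, if_false]
        exact norm_nonneg _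
    have hprod : ∀ S : Finset ℕ, S ⊆ Finset.range q →
        Bd U T d ((∏ l ∈ S, μ l) * r)
          ((Polynomial.aeval (TT T) (∏ l ∈ S, (Polynomial.X - Polynomial.C (ζ ^ l)))) x) := by
      intro S
      induction S using Finset.induction_on with
      | empty =>
        intro _
        simp only [Finset.prod_empty, one_mul, map_one, Module.End.one_apply]
        exact hx
      | insert l S hl ih =>
        intro hS
        have ih' := ih ((Finset.subset_insert l S).trans hS)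
        have hlq : l < q := Finset.mem_range.1 (hS (Finset.mem_insert_self l S))
        rw [Finset.prod_insert hl, Finset.prod_insert hl, map_mul, Module.End.mul_apply]
        set y := (Polynomial.aeval (TT T) (∏ l ∈ S, (Polynomial.X - Polynomial.C (ζ ^ l)))) x
        have h1 : (Polynomial.aeval (TT T) (Polynomial.X - Polynomial.C (ζ ^ l))) y =
            Dop T y - (ζ ^ l - 1) • y := by
          rw [map_sub, Polynomial.aeval_X, Polynomial.aeval_C, LinearMap.sub_apply,
            Module.algebraMap_end_apply, TT_apply, Dop, sub_smul, one_smul]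
          abel
        rw [h1, mul_assoc]
        by_cases h : l = 0
        · subst h
          have h2 : Dop T y - (ζ ^ 0 - 1) • y = Dop T y := by simp
          rw [h2]
          have h3 : μ 0 = d := by simp [μ]
          rw [h3]
          exact ih'.D
        · have h3 : μ l = ‖ζ ^ l - 1‖ := by simp [μ, h]
          rw [h3]
          refine ih'.sub (mul_nonneg (Finset.prod_nonneg fun l _ => hμ0 l) hr) hd0 _ ?_
          refine P.dlt.le.trans (P.norm_ge l ?_)
          intro hd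
          exact h (Nat.eq_zero_of_dvd_of_lt hd hlq)
    have hprodq : ∏ l ∈ (Finset.range q).erase 0, ‖ζ ^ l - 1‖ = ‖(q : E)‖ := by
      rw [← P.prod_eq]
      obtain ⟨m, rfl⟩ : ∃ m, q = m + 1 := ⟨q - 1, by omega⟩
      rw [Finset.range_add_one', Finset.erase_insert, Finset.prod_map]
      · rfl
      · simp
    have hmain : ∀ j, j < q → ‖(q : E)‖ * U.N (eig q ζ T j x) ≤
        (∏ l ∈ (Finset.range q).erase j, μ l) * r := by
      intro j hj
      rw [← U.smul', eig_prod hζ hq hq0 T j hj, U.smul', norm_pow, hzn, one_pow, one_mul]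
      have := hprod _ (Finset.erase_subset j (Finset.range q)) 0
      simpa using this
    have hμ1 : ∏ l ∈ (Finset.range q).erase 0, μ l = ‖(q : E)‖ := by
      rw [← hprodq]
      refine Finset.prod_congr rfl fun l hl => ?_
      simp [μ, (Finset.mem_erase.1 hl).1]
    have hzero : U.N (eig q ζ T 0 x) ≤ r := by
      have h1 := hmain 0 hq
      rw [hμ1] at h1
      exact le_of_mul_le_mul_left h1 hqn
    have hpos : ∀ j, 0 < j → j < q → ‖ζ ^ j - 1‖ * U.N (eig q ζ T j x) ≤ d * r := by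
      intro j hj0 hj
      have h1 := hmain j hj
      have h0j : (0 : ℕ) ∈ (Finset.range q).erase j :=
        Finset.mem_erase.2 ⟨hj0.ne, Finset.mem_range.2 hq⟩
      have hj0' : j ∈ (Finset.range q).erase 0 :=
        Finset.mem_erase.2 ⟨hj0.ne', Finset.mem_range.2 hj⟩
      rw [← Finset.mul_prod_erase _ _ h0j, Finset.erase_right_comm] at h1
      have h2 : μ j * ∏ l ∈ ((Finset.range q).erase 0).erase j, μ l = ‖(q : E)‖ := by
        rw [Finset.mul_prod_erase _ _ hj0', hμ1]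
      have h3 : μ 0 = d := by simp [μ]
      have h4 : μ j = ‖ζ ^ j - 1‖ := by simp [μ, hj0.ne']
      rw [h3] at h1
      rw [h4] at h2
      have h5 : 0 < ‖ζ ^ j - 1‖ := by
        refine hc0.trans_le (P.norm_ge j ?_)
        intro hd
        exact hj0.ne' (Nat.eq_zero_of_dvd_of_lt hd hj)
      have h6 : ‖(q : E)‖ * (‖ζ ^ j - 1‖ * U.N (eig q ζ T j x)) ≤ ‖(q : E)‖ * (d * r) := by
        calc ‖(q : E)‖ * (‖ζ ^ j - 1‖ * U.N (eig q ζ T j x))
            = ‖ζ ^ j - 1‖ * (‖(q : E)‖ * U.N (eig q ζ T j x)) := by ring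
          _ ≤ ‖ζ ^ j - 1‖ * (d * ∏ l ∈ ((Finset.range q).erase 0).erase j, μ l) * r := by
              rw [mul_assoc]
              exact mul_le_mul_of_nonneg_left h1 h5.le
          _ = (‖ζ ^ j - 1‖ * ∏ l ∈ ((Finset.range q).erase 0).erase j, μ l) * (d * r) := by ring
          _ = ‖(q : E)‖ * (d * r) := by rw [h2]
      exact le_of_mul_le_mul_left h6 hqn
    refine ⟨N2_le U hq ζ T x r fun j hj => ?_, N2_le U hq ζ T _ _ fun j hj => ?_⟩
    · rcases Nat.eq_zero_or_pos j with rfl | hj0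
      · exact hzero
      · have h1 := hpos j hj0 hj
        have h5 : c ≤ ‖ζ ^ j - 1‖ := by
          refine P.norm_ge j ?_
          intro hd
          exact hj0.ne' (Nat.eq_zero_of_dvd_of_lt hd hj)
        have h6 : c * U.N (eig q ζ T j x) ≤ c * r := by
          calc c * U.N (eig q ζ T j x) ≤ ‖ζ ^ j - 1‖ * U.N (eig q ζ T j x) :=
                mul_le_mul_of_nonneg_right h5 (U.nonneg' _)
            _ ≤ d * r := h1
            _ ≤ c * r := mul_le_mul_of_nonneg_right P.dlt.le hr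
        exact le_of_mul_le_mul_left h6 hc0
    · rw [hD]
      rcases Nat.eq_zero_or_pos j with rfl | hj0
      · simp only [pow_zero, sub_self, norm_zero, zero_mul]
        exact mul_nonneg hd0 hr
      · exact hpos j hj0 hj

end Pool.Agent.MPca71W
end
end
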