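import Mathlib
import Pool.Agent.Lib.MP_ca71b5_ntW.Defs
import Pool.Agent.Lib.MP_ca71b5_ntW.AR2

section

section
set_option autoImplicit false

namespace Pool.Agent.MPca71W

/-- `ρ` is invariant under conjugation by `J = closure S`. -/
theorem ft_inv {𝒢 M : Type} [Group 𝒢] [Group M] (H : Subgroup 𝒢)
    [hHn : H.Normal] (ρ : H →* M) (S : Set 𝒢)
    (hinv : ∀ s ∈ S, ∀ h h' : H, (h' : 𝒢) = s⁻¹ * h * s → ρ h' = ρ h) (j : 𝒢)
    (hj : j ∈ Subgroup.closure S) :
    ∀ h h' : H, (h' : 𝒢) = j⁻¹ * h * j → ρ h' = ρ h := by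
  induction hj using Subgroup.closure_induction with
  | mem x hx => exact hinv x hx
  | one =>
    intro h h' he
    have : h' = h := Subtype.ext (by rw [he]; group)
    rw [this]
  | mul x y _ _ ihx ihy =>
    intro h h' he
    have hmem : x⁻¹ * (h : 𝒢) * x ∈ H := by
      have := hHn.conj_mem (h : 𝒢) h.2 x⁻¹
      simpa using this
    have h1 := ihx h ⟨x⁻¹ * (h : 𝒢) * x, hmem⟩ rfl
    have h2 := ihy ⟨x⁻¹ * (h : 𝒢) * x, hmem⟩ h' (by rw [he]; simp only; group)
    rw [h2, h1]
  | inv x _ ih =>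
    intro h h' he
    exact (ih h' h (by rw [he]; group)).symm

/-- the restriction of `ρ` to `J ∩ H` is trivial. -/
theorem ft_key (N : ℕ) (hN : N ≠ 0) {𝒢 M : Type} [Group 𝒢] [Group M] (H : Subgroup 𝒢)
    [hHn : H.Normal] (hindex : H.index = N) (ρ : H →* M)
    (htf : ∀ (h : H) (s : ℕ), s ≠ 0 → ρ h ^ s = 1 → ρ h = 1)
    (S : Set 𝒢)
    (hinv : ∀ s ∈ S, ∀ h h' : H, (h' : 𝒢) = s⁻¹ * h * s → ρ h' = ρ h)
    (hpow : ∀ s ∈ S, ∀ h : H, (h : 𝒢) = s ^ N → ρ h = 1)
    (z : H) (hz : (z : 𝒢) ∈ Subgroup.closure S) : ρ z = 1 := by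
  classical
  set J : Subgroup 𝒢 := Subgroup.closure S with hJ
  have hJinv := ft_inv H ρ S hinv
  -- the subgroup N0 of J
  let N0 : Subgroup J := ((ρ.ker).map H.subtype).subgroupOf J
  have hN0 : ∀ x : J, x ∈ N0 ↔ ∃ h : H, (h : 𝒢) = x ∧ ρ h = 1 := by
    intro x
    simp only [N0, Subgroup.mem_subgroupOf, Subgroup.mem_map, MonoidHom.mem_ker]
    constructor
    · rintro ⟨h, h1, h2⟩; exact ⟨h, h2, h1⟩
    · rintro ⟨h, h1, h2⟩; exact ⟨h, h2, h1⟩
  have hN0n : N0.Normal := by
    constructor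
    intro n hn g
    rw [hN0] at hn ⊢
    obtain ⟨h, h1, h2⟩ := hn
    refine ⟨⟨(g : 𝒢) * (h : 𝒢) * (g : 𝒢)⁻¹, hHn.conj_mem _ h.2 _⟩, ?_, ?_⟩
    · simp [h1]
    · rw [← h2]
      symm
      exact hJinv g g.2 _ _ (by simp only; group)
  let JJ := J ⧸ N0
  let π : J →* JJ := QuotientGroup.mk' N0
  have hπs : Function.Surjective π := QuotientGroup.mk'_surjective N0
  have hπ1 : ∀ x : J, π x = 1 ↔ x ∈ N0 := fun x => QuotientGroup.eq_one_iff x
  let HJ : Subgroup J := H.subgroupOf J
  -- the image of H ∩ J is central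
  have hcent : HJ.map π ≤ Subgroup.center JJ := by
    rintro _ ⟨x, hx, rfl⟩
    rw [Subgroup.mem_center_iff]
    intro g
    obtain ⟨j, rfl⟩ := hπs g
    have hxH : (x : 𝒢) ∈ H := hx
    rw [← map_mul, ← map_mul]
    have hmem : (x * j)⁻¹ * (j * x) ∈ N0 := by
      rw [hN0]
      have hconj : (j : 𝒢)⁻¹ * (x : 𝒢)⁻¹ * (j : 𝒢) ∈ H := by
        have := hHn.conj_mem (x : 𝒢)⁻¹ (H.inv_mem hxH) (j : 𝒢)⁻¹
        simpa using this
      refine ⟨⟨(j : 𝒢)⁻¹ * (x : 𝒢)⁻¹ * (j : 𝒢), hconj⟩ * ⟨(x : 𝒢), hxH⟩, ?_, ?_⟩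
      · simp only [Subgroup.coe_mul, Subgroup.coe_inv]
        group
      · have h1 := hJinv j j.2 ⟨(x : 𝒢), hxH⟩⁻¹ ⟨(j : 𝒢)⁻¹ * (x : 𝒢)⁻¹ * (j : 𝒢), hconj⟩
          (by simp)
        rw [map_mul, h1, map_inv]
        simp
    have h1 := (hπ1 _).mpr hmem
    rw [map_mul, map_inv] at h1
    exact (inv_mul_eq_one.mp h1).symm
  -- indices
  have hidxdvd : HJ.index ∣ N := by
    have := Subgroup.relIndex_dvd_index_of_normal H J
    rw [hindex] at this
    exact this
  have hidx2 : (Subgroup.center JJ).index ∣ N := by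
    have h1 : (HJ.map π).index ∣ HJ.index := by
      exact Subgroup.index_map_dvd _ hπs
    exact (Subgroup.index_dvd_of_le hcent).trans (h1.trans hidxdvd)
  obtain ⟨t, ht⟩ : ∃ t, (Subgroup.center JJ).index = t := ⟨_, rfl⟩
  have ht0 : t ≠ 0 := by
    rintro rfl
    rw [ht] at hidx2
    exact hN (Nat.eq_zero_of_zero_dvd hidx2)
  have hfi : (Subgroup.center JJ).FiniteIndex := ⟨by rw [ht]; exact ht0⟩
  let φ : JJ →* Subgroup.center JJ := MonoidHom.transferCenterPow JJ
  have hcomm : ∀ a b : Subgroup.center JJ, Commute a b := by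
    intro a b
    apply Subtype.ext
    exact (Subgroup.mem_center_iff.mp a.2 b).symm
  let ψ : J →* Subgroup.center JJ :=
    { toFun := fun x => (φ (π x)) ^ N
      map_one' := by rw [map_one, map_one, one_pow]
      map_mul' := by
        intro a b
        rw [map_mul, map_mul, (hcomm _ _).mul_pow] }
  have hψ : ∀ x : J, ψ x = (φ (π x)) ^ N := fun x => rfl
  have hφ : ∀ x : JJ, ((φ x : Subgroup.center JJ) : JJ) = x ^ t := by
    intro x
    rw [← ht]
    exact MonoidHom.transferCenterPow_apply x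
  have hψ1 : ∀ x : J, ψ x = 1 := by
    rintro ⟨x, hx⟩
    have hx' : x ∈ Subgroup.closure S := hx
    induction hx' using Subgroup.closure_induction with
    | mem s hs =>
      have h1 : s ^ N ∈ H := by
        rw [← hindex]
        exact Subgroup.pow_index_mem H s
      have h2 : (⟨s, hx⟩ : J) ^ N ∈ N0 := by
        rw [hN0]
        exact ⟨⟨s ^ N, h1⟩, by simp, hpow s hs _ rfl⟩
      have h3 : (π ⟨s, hx⟩) ^ N = 1 := by
        rw [← map_pow]; exact (hπ1 _).mpr h2
      rw [hψ, ← map_pow, h3, map_one]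
    | one =>
      exact map_one ψ
    | mul a b ha hb iha ihb =>
      have : (⟨a * b, hx⟩ : J) = ⟨a, ha⟩ * ⟨b, hb⟩ := rfl
      rw [this, map_mul, iha ha, ihb hb, one_mul]
    | inv a ha iha =>
      have : (⟨a⁻¹, hx⟩ : J) = (⟨a, ha⟩ : J)⁻¹ := rfl
      rw [this, map_inv, iha ha, inv_one]
  have hfin := hψ1 ⟨z, hz⟩
  rw [hψ] at hfin
  have h2 : ((π ⟨z, hz⟩) ^ t) ^ N = 1 := by
    have := congrArg (fun y : Subgroup.center JJ => (y : JJ)) hfin
    simp only [Subgroup.coe_pow, Subgroup.coe_one] at this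
    rw [hφ] at this
    exact this
  rw [← pow_mul, ← map_pow, hπ1, hN0] at h2
  obtain ⟨h, h3, h4⟩ := h2
  have h5 : h = z ^ (t * N) := Subtype.ext (by rw [h3]; simp)
  rw [h5, map_pow] at h4
  exact htf z _ (Nat.mul_ne_zero ht0 hN) h4

/-- FT (group theory, end of the paper in helper83's form): extension of a homomorphism. -/
theorem extend_hom (N : ℕ) (hN : N ≠ 0) {𝒢 M : Type} [Group 𝒢] [Group M] (H : Subgroup 𝒢)
    [H.Normal] (hindex : H.index = N) (ρ : H →* M)
    (htf : ∀ (h : H) (s : ℕ), s ≠ 0 → ρ h ^ s = 1 → ρ h = 1)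
    (S : Set 𝒢) (hSconj : ∀ s ∈ S, ∀ g : 𝒢, g * s * g⁻¹ ∈ S)
    (hgen : H ⊔ Subgroup.closure S = ⊤)
    (hinv : ∀ s ∈ S, ∀ h h' : H, (h' : 𝒢) = s⁻¹ * h * s → ρ h' = ρ h)
    (hpow : ∀ s ∈ S, ∀ h : H, (h : 𝒢) = s ^ N → ρ h = 1) :
    ∃ ρ' : 𝒢 →* M, (∀ h : H, ρ' h = ρ h) ∧ (∀ s ∈ S, ρ' s = 1) := by
  classical
  set J : Subgroup 𝒢 := Subgroup.closure S with hJ
  have hJn : J.Normal := by
    constructor
    intro n hn g
    induction hn using Subgroup.closure_induction with
    | mem s hs => exact Subgroup.subset_closure (hSconj s hs g)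
    | one => simp
    | mul a b _ _ iha ihb =>
      have : g * (a * b) * g⁻¹ = (g * a * g⁻¹) * (g * b * g⁻¹) := by group
      rw [this]; exact J.mul_mem iha ihb
    | inv a _ iha =>
      have : g * a⁻¹ * g⁻¹ = (g * a * g⁻¹)⁻¹ := by group
      rw [this]; exact J.inv_mem iha
  let f : H →* 𝒢 ⧸ J := (QuotientGroup.mk' J).comp H.subtype
  have hf : Function.Surjective f := by
    intro y
    obtain ⟨g, rfl⟩ := QuotientGroup.mk'_surjective J y
    have hg : g ∈ H ⊔ J := by rw [hgen]; trivial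
    obtain ⟨h, hh, j, hj, rfl⟩ := Subgroup.mem_sup_of_normal_right.mp hg
    refine ⟨⟨h, hh⟩, ?_⟩
    have : QuotientGroup.mk' J j = 1 := (QuotientGroup.eq_one_iff j).mpr hj
    rw [map_mul, this, mul_one]
    rfl
  have hker : f.ker ≤ ρ.ker := by
    intro z hz
    have h1 : (z : 𝒢) ∈ J := (QuotientGroup.eq_one_iff (z : 𝒢)).mp hz
    exact ft_key N hN H hindex ρ htf S hinv hpow z h1
  let g : 𝒢 ⧸ J →* M :=
    f.liftOfRightInverse (Function.surjInv hf) (Function.rightInverse_surjInv hf) ⟨ρ, hker⟩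
  have hg : ∀ h : H, g (f h) = ρ h := fun h =>
    MonoidHom.liftOfRightInverse_comp_apply f _ (Function.rightInverse_surjInv hf) ⟨ρ, hker⟩ h
  refine ⟨g.comp (QuotientGroup.mk' J), ?_, ?_⟩
  · intro h
    exact hg h
  · intro s hs
    have : QuotientGroup.mk' J s = 1 :=
      (QuotientGroup.eq_one_iff s).mpr (Subgroup.subset_closure hs)
    rw [MonoidHom.comp_apply, this, map_one]

end Pool.Agent.MPca71W
end

section
set_option autoImplicit false

namespace Pool.Agent.MPca71W

theorem c6_norm_one {E : Type} [NormedField E] {η : E} {k : ℕ} (hk : k ≠ 0) (h : η ^ k = 1) :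
    ‖η‖ = 1 := by
  have h1 : ‖η‖ ^ k = 1 := by rw [← norm_pow, h, norm_one]
  exact (pow_eq_one_iff_of_nonneg (norm_nonneg _) hk).mp h1

theorem c6_sub {E : Type} [NormedField E] (hu : ∀ x y : E, ‖x + y‖ ≤ max ‖x‖ ‖y‖) {x y : E}
    {b : ℝ} (hx : ‖x‖ ≤ b) (hy : ‖y‖ ≤ b) : ‖x - y‖ ≤ b := by
  rw [sub_eq_add_neg]
  refine (hu _ _).trans (max_le hx ?_)
  rwa [norm_neg]

theorem c6_pow_sub {E : Type} [NormedField E] (hu : ∀ x y : E, ‖x + y‖ ≤ max ‖x‖ ‖y‖) {η : E}
    (hη : ‖η‖ ≤ 1) (k : ℕ) : ‖η ^ k - 1‖ ≤ ‖η - 1‖ := by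
  induction k with
  | zero => simp
  | succ k ih =>
    have : η ^ (k + 1) - 1 = η * (η ^ k - 1) + (η - 1) := by ring
    rw [this]
    refine (hu _ _).trans (max_le ?_ le_rfl)
    rw [norm_mul]
    calc ‖η‖ * ‖η ^ k - 1‖ ≤ 1 * ‖η ^ k - 1‖ := by gcongr
      _ ≤ _ := by simpa using ih

/-- C6: the numerical data exist. -/
theorem exists_data (p : ℕ) [Fact p.Prime] (hp2 : p ≠ 2) (a m q : ℕ) (hq0 : q ≠ 0) (ha : 1 ≤ a)
    (hm : 1 ≤ m) (ham : m * (2 * a - 1) + 1 < p) :
    ∃ (ζ ϖ : PadicAlgCl p) (c d : ℝ), PData (PadicAlgCl p) p q a ζ c d ∧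
      ϖ ^ m = (p : PadicAlgCl p) ∧ ‖ϖ‖ = d ^ (2 * a - 1) := by
  classical
  have hp : p.Prime := Fact.out
  have hp1 : 1 < p := hp.one_lt
  have hu : ∀ x y : PadicAlgCl p, ‖x + y‖ ≤ max ‖x‖ ‖y‖ := PadicAlgCl.isNonarchimedean p
  have hpn : ‖(p : PadicAlgCl p)‖ = (p : ℝ)⁻¹ := by
    rw [← map_natCast (algebraMap ℚ_[p] (PadicAlgCl p)), PadicAlgCl.norm_extends, Padic.norm_p]
  have hpE : (p : PadicAlgCl p) ≠ 0 := by exact_mod_cast hp.ne_zero
  set P : ℝ := ‖(p : PadicAlgCl p)‖ with hP
  have hP0 : 0 < P := norm_pos_iff.mpr hpE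
  have hP1 : P < 1 := by
    rw [hpn]
    exact inv_lt_one_of_one_lt₀ (by exact_mod_cast hp1)
  have hqE : (q : PadicAlgCl p) ≠ 0 := by exact_mod_cast hq0
  have : NeZero (q : PadicAlgCl p) := ⟨hqE⟩
  have : NeZero q := ⟨hq0⟩
  obtain ⟨ζ, hζ⟩ := HasEnoughRootsOfUnity.exists_primitiveRoot (PadicAlgCl p) q
  obtain ⟨ϖ, hϖ⟩ := IsAlgClosed.exists_pow_nat_eq (p : PadicAlgCl p) (by omega : 0 < m)
  set M : ℕ := m * (2 * a - 1) with hM
  have h2a : 1 ≤ 2 * a - 1 := by omega
  have hM1 : 1 ≤ M := Nat.mul_pos hm h2a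
  have hMp : M < p - 1 := by omega
  set c : ℝ := P ^ (((p - 1 : ℕ) : ℝ)⁻¹) with hc
  set d : ℝ := P ^ ((M : ℝ)⁻¹) with hd
  have hcp : c ^ (p - 1) = P := Real.rpow_inv_natCast_pow hP0.le (by omega)
  have hdp : d ^ M = P := Real.rpow_inv_natCast_pow hP0.le (by omega)
  have hd0 : 0 < d := Real.rpow_pos_of_pos hP0 _
  have hc0 : 0 < c := Real.rpow_pos_of_pos hP0 _
  have hc1 : c < 1 := by
    apply Real.rpow_lt_one hP0.le hP1
    have : (0 : ℝ) < ((p - 1 : ℕ) : ℝ) := by exact_mod_cast (by omega : 0 < p - 1)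
    positivity
  have hdc : d < c := by
    apply Real.rpow_lt_rpow_of_exponent_gt hP0 hP1
    have h1 : (0 : ℝ) < (M : ℝ) := by exact_mod_cast hM1
    have h2 : (M : ℝ) < ((p - 1 : ℕ) : ℝ) := by exact_mod_cast hMp
    exact (inv_lt_inv₀ (h1.trans h2) h1).mpr h2
  have hϖn : ‖ϖ‖ ^ m = P := by rw [← norm_pow, hϖ]
  have hϖd : ‖ϖ‖ = d ^ (2 * a - 1) := by
    have h1 : (d ^ (2 * a - 1)) ^ m = P := by
      rw [← pow_mul, mul_comm (2 * a - 1) m, ← hM, hdp]
    exact (pow_left_inj₀ (norm_nonneg _) (by positivity) (by omega)).mp (hϖn.trans h1.symm)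
  have hζ1 : ‖ζ‖ = 1 := c6_norm_one hq0 hζ.pow_eq_one
  have hζj : ∀ j : ℕ, ‖ζ ^ j‖ = 1 := by intro j; rw [norm_pow, hζ1, one_pow]
  refine ⟨ζ, ϖ, c, d, ?_, hϖ, hϖd⟩
  refine ⟨hp, hp2, hqE, ha, hu, hpE, hζ, ?_, ?_, ?_, hcp, hd0, hdc, hc1, ?_⟩
  · intro j
    exact c6_sub hu (hζj j).le (by simp)
  · intro j hj
    have hne : ζ ^ j ≠ 1 := fun h => hj (hζ.dvd_of_pow_eq_one j h)
    have hpow : (ζ ^ j) ^ q = 1 := by
      rw [← pow_mul, mul_comm, pow_mul, hζ.pow_eq_one, one_pow]
    -- the order of ζ ^ j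
    have hord0 : 0 < orderOf (ζ ^ j) :=
      orderOf_pos_iff.2 (isOfFinOrder_iff_pow_eq_one.2 ⟨q, Nat.pos_of_ne_zero hq0, hpow⟩)
    have hord1 : orderOf (ζ ^ j) ≠ 1 := fun h => hne (orderOf_eq_one_iff.1 h)
    have hx := IsPrimitiveRoot.orderOf (ζ ^ j)
    by_cases hpd : p ∣ orderOf (ζ ^ j)
    swap
    · -- the order is prime to `p`
      obtain ⟨n, hn⟩ : ∃ n, orderOf (ζ ^ j) = n + 1 := ⟨orderOf (ζ ^ j) - 1, by omega⟩
      have hn0 : n ≠ 0 := by rintro rfl; exact hord1 hn
      rw [hn] at hx hpd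
      have h2 := hx.prod_one_sub_pow_eq_order
      have hnn : ‖((n + 1 : ℕ) : PadicAlgCl p)‖ = 1 := by
        rw [← map_natCast (algebraMap ℚ_[p] (PadicAlgCl p)), PadicAlgCl.norm_extends]
        have h3 : ‖(((n + 1 : ℕ) : ℤ) : ℚ_[p])‖ = 1 := by
          rw [Padic.norm_intCast_eq_one_iff]
          have : Nat.Coprime (n + 1) p := ((Nat.Prime.coprime_iff_not_dvd hp).2 hpd).symm
          exact Nat.isCoprime_iff_coprime.2 this
        simpa using h3
      have h4 : (1 : ℝ) ≤ ‖ζ ^ j - 1‖ ^ n := by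
        rw [← hnn]
        have h5 : ((n + 1 : ℕ) : PadicAlgCl p) = ∏ k ∈ Finset.range n, (1 - (ζ ^ j) ^ (k + 1)) := by
          rw [h2]; push_cast; rfl
        rw [h5, norm_prod]
        calc ∏ k ∈ Finset.range n, ‖1 - (ζ ^ j) ^ (k + 1)‖
            ≤ ∏ _k ∈ Finset.range n, ‖ζ ^ j - 1‖ := by
              apply Finset.prod_le_prod
              · intro k _; exact norm_nonneg _
              · intro k _
                rw [norm_sub_rev]
                exact c6_pow_sub hu (hζj j).le _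
          _ = ‖ζ ^ j - 1‖ ^ n := by simp
      by_contra hlt
      push Not at hlt
      have h6 : ‖ζ ^ j - 1‖ ^ n < 1 := pow_lt_one₀ (norm_nonneg _) (hlt.trans hc1) hn0
      linarith
    obtain ⟨w, hw⟩ := hpd
    have hw0 : 0 < w := by
      rcases Nat.eq_zero_or_pos w with h | h
      · rw [h, mul_zero] at hw; omega
      · exact h
    have hprim : IsPrimitiveRoot ((ζ ^ j) ^ w) p := hx.pow hord0 (by rw [hw, mul_comm])
    set μ := (ζ ^ j) ^ w with hμ
    have hμ1 : ‖μ‖ = 1 := by rw [hμ, norm_pow, hζj, one_pow]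
    have hle : ‖μ - 1‖ ≤ ‖ζ ^ j - 1‖ := c6_pow_sub hu (hζj j).le _
    refine le_trans ?_ hle
    have hprod : ∏ k ∈ Finset.range (p - 1), (1 - μ ^ (k + 1)) = (p : PadicAlgCl p) := by
      obtain ⟨n, hn⟩ : ∃ n, p = n + 1 := ⟨p - 1, by omega⟩
      have h1 : IsPrimitiveRoot μ (n + 1) := by rw [← hn]; exact hprim
      have h2 := h1.prod_one_sub_pow_eq_order
      have h3 : p - 1 = n := by omega
      have h4 : ((p : ℕ) : PadicAlgCl p) = ((n + 1 : ℕ) : PadicAlgCl p) := congrArg Nat.cast hn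
      rw [h3, h2, h4]
      push_cast
      rfl
    have hPle : P ≤ ‖μ - 1‖ ^ (p - 1) := by
      rw [hP, ← hprod, norm_prod]
      calc ∏ k ∈ Finset.range (p - 1), ‖1 - μ ^ (k + 1)‖
          ≤ ∏ _k ∈ Finset.range (p - 1), ‖μ - 1‖ := by
            apply Finset.prod_le_prod
            · intro k _; exact norm_nonneg _
            · intro k _
              rw [norm_sub_rev]
              exact c6_pow_sub hu hμ1.le _
        _ = ‖μ - 1‖ ^ (p - 1) := by simp
    rw [← hcp] at hPle
    exact le_of_pow_le_pow_left₀ (by omega) (norm_nonneg _) hPle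
  · obtain ⟨n, hn⟩ : ∃ n, q = n + 1 := ⟨q - 1, by have := Nat.pos_of_ne_zero hq0; omega⟩
    have h1 : IsPrimitiveRoot ζ (n + 1) := by rw [← hn]; exact hζ
    have h2 := h1.prod_one_sub_pow_eq_order
    have h3 : q - 1 = n := by omega
    rw [h3]
    have h4 : (q : PadicAlgCl p) = ∏ k ∈ Finset.range n, (1 - ζ ^ (k + 1)) := by
      rw [h2, hn]
      push_cast
      rfl
    rw [h4, norm_prod]
    apply Finset.prod_congr rfl
    intro k _
    rw [norm_sub_rev]
  · rw [← hϖd]
    change P ≤ ‖ϖ‖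
    have h1 : ‖ϖ‖ ≤ 1 := by
      by_contra hcon
      push Not at hcon
      have : 1 < ‖ϖ‖ ^ m := one_lt_pow₀ hcon (by omega)
      rw [hϖn] at this
      linarith
    calc P = ‖ϖ‖ ^ m := hϖn.symm
      _ ≤ ‖ϖ‖ ^ 1 := pow_le_pow_of_le_one (norm_nonneg _) h1 hm
      _ = ‖ϖ‖ := pow_one _

end Pool.Agent.MPca71W
end
end

section

section
set_option autoImplicit false

/-! Section 1a of the proof (MP_ca71b5_nt, paper 206). -/

namespace Pool.Agent.MPca71W

variable {E B G : Type} [NormedField E] [Ring B] [Algebra E B] [Group G]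

theorem UNorm.neg_c1 (U : UNorm E B) (x : B) : U.N (-x) = U.N x := by
  have h := U.smul' (-1) x
  rwa [neg_smul, one_smul, norm_neg, norm_one, one_mul] at h

theorem UNorm.sub_le_c1 (U : UNorm E B) (x y : B) : U.N (x - y) ≤ max (U.N x) (U.N y) := by
  have h := U.add' x (-y)
  rwa [U.neg_c1, ← sub_eq_add_neg] at h

theorem Dop_add_c1 (T : B ≃ₐ[E] B) (x y : B) : Dop T (x + y) = Dop T x + Dop T y := by
  unfold Dop
  rw [map_add]
  abel

theorem Dop_zero_c1 (T : B ≃ₐ[E] B) : Dop T (0 : B) = 0 := by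
  unfold Dop
  rw [map_zero, sub_zero]

theorem Dop_one_c1 (T : B ≃ₐ[E] B) : Dop T (1 : B) = 0 := by
  unfold Dop
  rw [map_one, sub_self]

theorem Dop_smul_c1 (T : B ≃ₐ[E] B) (c : E) (x : B) : Dop T (c • x) = c • Dop T x := by
  unfold Dop
  rw [map_smul, smul_sub]

theorem Dop_mul_c1 (T : B ≃ₐ[E] B) (x y : B) :
    Dop T (x * y) = Dop T x * T y + x * Dop T y := by
  unfold Dop
  rw [map_mul, sub_mul, mul_sub]
  abel

theorem Dop_iter_add_c1 (T : B ≃ₐ[E] B) (j : ℕ) (x y : B) :
    (Dop T)^[j] (x + y) = (Dop T)^[j] x + (Dop T)^[j] y := by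
  induction j generalizing x y with
  | zero => rfl
  | succ j ih => rw [Function.iterate_succ_apply, Dop_add_c1, ih]; rfl

theorem Dop_iter_smul_c1 (T : B ≃ₐ[E] B) (j : ℕ) (c : E) (x : B) :
    (Dop T)^[j] (c • x) = c • (Dop T)^[j] x := by
  induction j generalizing x with
  | zero => rfl
  | succ j ih => rw [Function.iterate_succ_apply, Dop_smul_c1, ih]; rfl

theorem Dop_iter_zero_c1 (T : B ≃ₐ[E] B) (j : ℕ) : (Dop T)^[j] (0 : B) = 0 := by
  induction j with
  | zero => rfl
  | succ j ih => rw [Function.iterate_succ_apply, Dop_zero_c1, ih]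

theorem Dop_iter_T_c1 (T : B ≃ₐ[E] B) (j : ℕ) (x : B) :
    (Dop T)^[j] (T x) = T ((Dop T)^[j] x) := by
  induction j generalizing x with
  | zero => rfl
  | succ j ih =>
    have h : Dop T (T x) = T (Dop T x) := by
      unfold Dop
      rw [map_sub]
    rw [Function.iterate_succ_apply, h, ih]
    rfl

/-- the predicate `W(s,k)` of section 1a -/
def Wpred (U : UNorm E B) (T : B ≃ₐ[E] B) (d : ℝ) (s k : ℕ) (x : B) : Prop :=
  ∀ j ≤ k, U.N ((Dop T)^[j] x) ≤ d ^ (j + s)

section W

variable {U : UNorm E B} {T : B ≃ₐ[E] B} {d : ℝ} {s s' k : ℕ} {x y : B}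

theorem Wpred.add (hx : Wpred U T d s k x) (hy : Wpred U T d s k y) :
    Wpred U T d s k (x + y) := by
  intro j hj
  rw [Dop_iter_add_c1]
  exact (U.add' _ _).trans (max_le (hx j hj) (hy j hj))

theorem Wpred.neg (hx : Wpred U T d s k x) : Wpred U T d s k (-x) := by
  intro j hj
  have h : (Dop T)^[j] (-x) = -((Dop T)^[j] x) := by
    have := Dop_iter_smul_c1 T j (-1 : E) x
    rwa [neg_smul, one_smul, neg_smul, one_smul] at this
  rw [h, U.neg_c1]
  exact hx j hj

theorem Wpred.sub (hx : Wpred U T d s k x) (hy : Wpred U T d s k y) :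
    Wpred U T d s k (x - y) := by
  rw [sub_eq_add_neg]
  exact hx.add hy.neg

theorem Wpred.smul {r : ℕ} {c : E} (hc : ‖c‖ ≤ d ^ r) (hd : 0 ≤ d) (hx : Wpred U T d s k x) :
    Wpred U T d (s + r) k (c • x) := by
  intro j hj
  rw [Dop_iter_smul_c1, U.smul']
  calc ‖c‖ * U.N ((Dop T)^[j] x) ≤ d ^ r * d ^ (j + s) :=
        mul_le_mul hc (hx j hj) (U.nonneg' _) (pow_nonneg hd _)
    _ = d ^ (j + (s + r)) := by
        rw [← pow_add]
        congr 1
        ring

theorem Wpred.mapT (hTN : ∀ x, U.N (T x) = U.N x) (hx : Wpred U T d s k x) :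
    Wpred U T d s k (T x) := by
  intro j hj
  rw [Dop_iter_T_c1, hTN]
  exact hx j hj

theorem Wpred.mono_s (hd : 0 ≤ d) (hd1 : d ≤ 1) (hs : s' ≤ s) (hx : Wpred U T d s k x) :
    Wpred U T d s' k x := by
  intro j hj
  exact (hx j hj).trans (pow_le_pow_of_le_one hd hd1 (by omega))

theorem Wpred.mono_k {k' : ℕ} (hk : k' ≤ k) (hx : Wpred U T d s k x) : Wpred U T d s k' x :=
  fun j hj => hx j (hj.trans hk)

theorem Wpred_zero (hd : 0 ≤ d) : Wpred U T d s k (0 : B) := by
  intro j _
  rw [Dop_iter_zero_c1, U.zero']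
  exact pow_nonneg hd _

theorem Wpred_one (hd : 0 ≤ d) : Wpred U T d 0 k (1 : B) := by
  intro j _
  cases j with
  | zero =>
    have h := U.one'
    simpa using h
  | succ j =>
    rw [Function.iterate_succ_apply, Dop_one_c1, Dop_iter_zero_c1, U.zero']
    exact pow_nonneg hd _

theorem Wpred_succ :
    Wpred U T d s (k + 1) x ↔ U.N x ≤ d ^ s ∧ Wpred U T d (s + 1) k (Dop T x) := by
  constructor
  · intro h
    refine ⟨by simpa using h 0 (Nat.zero_le _), fun j hj => ?_⟩
    have := h (j + 1) (by omega)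
    rw [Function.iterate_succ_apply] at this
    have e : j + (s + 1) = j + 1 + s := by omega
    rw [e]
    exact this
  · rintro ⟨h0, h⟩ j hj
    cases j with
    | zero => simpa using h0
    | succ j =>
      have := h j (by omega)
      rw [Function.iterate_succ_apply]
      have e : j + (s + 1) = j + 1 + s := by omega
      rw [← e]
      exact this

theorem Wpred.mul (hd : 0 ≤ d) (hTN : ∀ x, U.N (T x) = U.N x) (hx : Wpred U T d s k x)
    (hy : Wpred U T d s' k y) : Wpred U T d (s + s') k (x * y) := by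
  induction k generalizing s s' x y with
  | zero =>
    intro j hj
    obtain rfl : j = 0 := by omega
    have h1 := hx 0 le_rfl
    have h2 := hy 0 le_rfl
    simp only [Function.iterate_zero, id_eq, zero_add] at h1 h2 ⊢
    calc U.N (x * y) ≤ U.N x * U.N y := U.mul' x y
      _ ≤ d ^ s * d ^ s' := mul_le_mul h1 h2 (U.nonneg' _) (pow_nonneg hd _)
      _ = d ^ (s + s') := by rw [pow_add]
  | succ k ih =>
    have hx' := Wpred_succ.1 hx
    have hy' := Wpred_succ.1 hy
    rw [Wpred_succ]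
    refine ⟨?_, ?_⟩
    · calc U.N (x * y) ≤ U.N x * U.N y := U.mul' x y
        _ ≤ d ^ s * d ^ s' := mul_le_mul hx'.1 hy'.1 (U.nonneg' _) (pow_nonneg hd _)
        _ = d ^ (s + s') := by rw [pow_add]
    · rw [Dop_mul_c1]
      refine Wpred.add ?_ ?_
      · have h := ih hx'.2 ((hy.mono_k (Nat.le_succ k)).mapT hTN)
        have e : s + 1 + s' = s + s' + 1 := by omega
        rwa [e] at h
      · have h := ih (hx.mono_k (Nat.le_succ k)) hy'.2
        have e : s + (s' + 1) = s + s' + 1 := by omega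
        rwa [e] at h

theorem Wpred.pow (hd : 0 ≤ d) (hTN : ∀ x, U.N (T x) = U.N x) (hx : Wpred U T d s k x) (n : ℕ) :
    Wpred U T d (n * s) k (x ^ n) := by
  induction n with
  | zero =>
    rw [pow_zero, zero_mul]
    exact Wpred_one hd
  | succ n ih =>
    rw [pow_succ, add_mul, one_mul]
    exact ih.mul hd hTN hx

theorem Wpred.sum {ι : Type} (hd : 0 ≤ d) (t : Finset ι) (f : ι → B)
    (h : ∀ i ∈ t, Wpred U T d s k (f i)) : Wpred U T d s k (∑ i ∈ t, f i) := by
  classical
  induction t using Finset.induction_on with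
  | empty =>
    rw [Finset.sum_empty]
    exact Wpred_zero hd
  | insert i t hi ih =>
    rw [Finset.sum_insert hi]
    exact (h i (Finset.mem_insert_self _ _)).add
      (ih fun j hj => h j (Finset.mem_insert_of_mem hj))

theorem N_Dop_iter_le_c1 (U : UNorm E B) (T : B ≃ₐ[E] B) (hTN : ∀ x, U.N (T x) = U.N x)
    (j : ℕ) (x : B) : U.N ((Dop T)^[j] x) ≤ U.N x := by
  induction j generalizing x with
  | zero => exact le_rfl
  | succ j ih =>
    rw [Function.iterate_succ_apply]
    refine (ih _).trans ?_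
    unfold Dop
    refine (U.sub_le_c1 _ _).trans ?_
    rw [hTN, max_self]

end W

theorem norm_natCast_le_one_c1 (hu : ∀ x y : E, ‖x + y‖ ≤ max ‖x‖ ‖y‖) (n : ℕ) :
    ‖(n : E)‖ ≤ 1 := by
  induction n with
  | zero => simp
  | succ n ih =>
    rw [Nat.cast_succ]
    refine (hu _ _).trans (max_le ih ?_)
    rw [norm_one]

/-- C1 (paper 1a). -/
theorem core1a {p q a : ℕ} {ζ : E} {c d : ℝ}
    (P : PData E p q a ζ c d) (U : UNorm E B) (T : B ≃ₐ[E] B) (hTN : ∀ x, U.N (T x) = U.N x)
    (σ : G ≃* G) (R : G →* B) (hTR : ∀ g, T (R g) = R (σ g))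
    (hR : ∀ g, U.N (R g - 1) ≤ d ^ (2 * a - 1))
    (hF : ∀ g : G, ∀ ε : ℝ, 0 < ε →
      ∃ u ∈ PhiG p G, U.N (R ((stepG σ)^[a] g) - R u) ≤ ε) :
    ∀ (k : ℕ) (g : G), U.N ((Dop T)^[k] (R g - 1)) ≤ d ^ (k + a) := by
  have hd : 0 ≤ d := P.dpos.le
  have hd1 : d ≤ 1 := (P.dlt.trans P.clt).le
  have ha : 1 ≤ a := P.apos
  have hp2 : 2 ≤ p := P.prime.two_le
  have key : ∀ (k : ℕ) (g : G), Wpred U T d a k (R g - 1) := by
    intro k
    induction k with
    | zero =>
      intro g j hj
      obtain rfl : j = 0 := by omega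
      simp only [Function.iterate_zero, id_eq, zero_add]
      exact (hR g).trans (pow_le_pow_of_le_one hd hd1 (by omega))
    | succ k ih =>
      -- elements of the group
      have h0 : ∀ g, Wpred U T d 0 k (R g) := by
        intro g
        have h := ((ih g).mono_s hd hd1 (Nat.zero_le a)).add (Wpred_one (U := U) (T := T) hd)
        rwa [sub_add_cancel] at h
      -- elements of Phi
      have hPhi : ∀ u ∈ PhiG p G, Wpred U T d (2 * a) k (R u - 1) := by
        intro u hu
        unfold PhiG at hu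
        induction hu using Subgroup.closure_induction with
        | mem u hu =>
          rcases hu with ⟨g, rfl⟩ | ⟨g, h, rfl⟩
          · have e : R (g ^ p) - 1 = ∑ i ∈ Finset.range p, ((p.choose (i + 1) : ℕ) : E) •
                (R g - 1) ^ (i + 1) := by
              have e1 : R g = (R g - 1) + 1 := by rw [sub_add_cancel]
              rw [map_pow]
              conv_lhs => rw [e1, (Commute.one_right (R g - 1)).add_pow]
              rw [Finset.sum_range_succ']
              simp only [one_pow, mul_one, pow_zero, Nat.choose_zero_right, Nat.cast_one,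
                add_sub_cancel_right]
              apply Finset.sum_congr rfl
              intro i _
              rw [Algebra.smul_def, map_natCast, (Nat.cast_commute _ _).eq]
            rw [e]
            apply Wpred.sum hd
            intro i hi
            have hi' := Finset.mem_range.1 hi
            have hx := (ih g).pow hd hTN (i + 1)
            rcases Nat.lt_or_ge (i + 1) p with hlt | hge
            · have hc : ‖((p.choose (i + 1) : ℕ) : E)‖ ≤ d ^ a := by
                obtain ⟨m, hm⟩ := P.prime.dvd_choose_self (Nat.succ_ne_zero i) hlt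
                rw [hm, Nat.cast_mul, norm_mul]
                calc ‖(p : E)‖ * ‖(m : E)‖ ≤ d ^ (2 * a - 1) * 1 :=
                      mul_le_mul P.ple (norm_natCast_le_one_c1 P.ultra m) (norm_nonneg _)
                        (pow_nonneg hd _)
                  _ = d ^ (2 * a - 1) := mul_one _
                  _ ≤ d ^ a := pow_le_pow_of_le_one hd hd1 (by omega)
              have hx1 : Wpred U T d a k ((R g - 1) ^ (i + 1)) :=
                hx.mono_s hd hd1 (Nat.le_mul_of_pos_left a (Nat.succ_pos i))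
              have h2 := hx1.smul hc hd
              rwa [← two_mul] at h2
            · have hpe : i + 1 = p := by omega
              have hc : ‖((p.choose (i + 1) : ℕ) : E)‖ ≤ d ^ 0 := by
                rw [pow_zero]
                exact norm_natCast_le_one_c1 P.ultra _
              have hx1 : Wpred U T d (2 * a) k ((R g - 1) ^ (i + 1)) :=
                hx.mono_s hd hd1 (Nat.mul_le_mul_right a (by omega))
              exact hx1.smul hc hd
          · have e : R (g * h * g⁻¹ * h⁻¹) - 1 =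
                ((R g - 1) * (R h - 1) - (R h - 1) * (R g - 1)) * R g⁻¹ * R h⁻¹ := by
              have e1 : R g * R g⁻¹ = 1 := by rw [← map_mul, mul_inv_cancel, map_one]
              have e2 : R h * R h⁻¹ = 1 := by rw [← map_mul, mul_inv_cancel, map_one]
              have e3 : (R g - 1) * (R h - 1) - (R h - 1) * (R g - 1) = R g * R h - R h * R g := by
                noncomm_ring
              rw [e3, sub_mul, sub_mul, map_mul, map_mul, map_mul]
              congr 1
              rw [mul_assoc (R h) (R g), e1, mul_one, e2]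
            rw [e]
            have hxy := ((ih g).mul hd hTN (ih h)).sub
              (((ih h).mul hd hTN (ih g)))
            rw [← two_mul] at hxy
            exact (hxy.mul hd hTN (h0 g⁻¹)).mul hd hTN (h0 h⁻¹)
        | one =>
          rw [map_one, sub_self]
          exact Wpred_zero hd
        | mul u v _ _ hu hv =>
          have e : R (u * v) - 1 = (R u - 1) * R v + (R v - 1) := by
            rw [map_mul, sub_mul, one_mul, sub_add_sub_cancel]
          rw [e]
          exact (hu.mul hd hTN (h0 v)).add hv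
        | inv u _ hu =>
          have e : R u⁻¹ - 1 = -((R u - 1) * R u⁻¹) := by
            have e1 : R u * R u⁻¹ = 1 := by rw [← map_mul, mul_inv_cancel, map_one]
            rw [sub_mul, e1, one_mul, neg_sub]
          rw [e]
          exact (hu.mul hd hTN (h0 u⁻¹)).neg
      -- the elements `g_a`
      have hga : ∀ g, Wpred U T d (2 * a) k (R ((stepG σ)^[a] g) - 1) := by
        intro g
        obtain ⟨u, hu, hN⟩ := hF g (d ^ (k + 2 * a)) (pow_pos P.dpos _)
        have h1 : Wpred U T d (2 * a) k (R ((stepG σ)^[a] g) - R u) := by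
          intro j hj
          refine (N_Dop_iter_le_c1 U T hTN j _).trans (hN.trans ?_)
          exact pow_le_pow_of_le_one hd hd1 (by omega)
        have h2 := h1.add (hPhi u hu)
        rwa [sub_add_sub_cancel] at h2
      -- downward induction
      have hdown : ∀ g, ∀ i, ∀ n, i + n = a →
          Wpred U T d (a + i) (k + 1 - i) (R ((stepG σ)^[i] g) - 1) := by
        intro g i n
        induction n generalizing i with
        | zero =>
          intro hi
          obtain rfl : i = a := by omega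
          have h := (hga g).mono_k (k' := k + 1 - i) (by omega)
          rwa [two_mul] at h
        | succ n ihn =>
          intro hi
          have hnext := ihn (i + 1) (by omega)
          have hN0 : U.N (R ((stepG σ)^[i] g) - 1) ≤ d ^ (a + i) :=
            (hR _).trans (pow_le_pow_of_le_one hd hd1 (by omega))
          rcases Nat.lt_or_ge k i with hki | hki
          · have e : k + 1 - i = 0 := by omega
            rw [e]
            intro j hj
            obtain rfl : j = 0 := by omega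
            simpa using hN0
          · have e : k + 1 - i = (k - i) + 1 := by omega
            have e' : k + 1 - (i + 1) = k - i := by omega
            rw [e, Wpred_succ]
            refine ⟨hN0, ?_⟩
            rw [e'] at hnext
            have hD : Dop T (R ((stepG σ)^[i] g) - 1) =
                (R ((stepG σ)^[i + 1] g) - 1) * R ((stepG σ)^[i] g) := by
              unfold Dop
              rw [map_sub, map_one, hTR, Function.iterate_succ_apply', stepG, sub_mul, one_mul,
                ← map_mul, inv_mul_cancel_right]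
              abel
            rw [hD]
            have h := hnext.mul hd hTN ((h0 ((stepG σ)^[i] g)).mono_k (Nat.sub_le k i))
            have e'' : a + (i + 1) + 0 = a + i + 1 := by omega
            rwa [e''] at h
      intro g
      have h := hdown g 0 a (Nat.zero_add a)
      simpa using h
  intro k g
  exact key k g k le_rfl

end Pool.Agent.MPca71W
end

section
set_option autoImplicit false
open scoped NumberField

/-! Q1: no unramified extension of the rational numbers. -/

namespace Pool.Agent.MPca71W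

/-- Q1: `ℚ` has no unramified extension of degree `> 1` (Minkowski). -/
theorem no_unramified_rat {Ω : Type} [Field Ω] [Algebra ℚ Ω] (L : IntermediateField ℚ Ω)
    (hfin : FiniteDimensional ℚ L) (hdeg : 1 < Module.finrank ℚ L) :
    ¬ Algebra.Unramified (𝓞 ℚ) (𝓞 L) := by
  intro hun
  have hch : CharZero L := algebraRat.charZero L
  have halg : (DivisionRing.toRatAlgebra : Algebra ℚ L) = L.algebra' := Subsingleton.elim _ _
  have hnf : NumberField L := by
    refine @NumberField.mk L _ hch ?_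
    rw [halg]
    exact hfin
  have hQ : Algebra.Unramified ℤ (𝓞 ℚ) :=
    Algebra.Unramified.of_equiv (R := ℤ) (A := ℤ) (B := 𝓞 ℚ)
      { Rat.ringOfIntegersEquiv.symm with
        commutes' := fun r => by simp }
  have hZ : Algebra.Unramified ℤ (𝓞 L) := Algebra.Unramified.comp ℤ (𝓞 ℚ) (𝓞 L)
  have h1 := NumberField.finrank_eq_one_of_unramified (K := L) (𝒪 := 𝓞 L)
  rw [halg] at h1
  have h2 : Module.finrank ℚ L = 1 := h1
  omega

end Pool.Agent.MPca71W
end

section
set_option autoImplicit false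

/-! SC: the automorphism `h ↦ τ⁻¹ h τ` of the Galois group (MP_ca71b5_nt, paper 206). -/

namespace Pool.Agent.MPca71W

variable {F K Ω : Type} [Field F] [Field K] [Algebra F K] [Field Ω] [Algebra F Ω] [Algebra K Ω]
  [IsScalarTower F K Ω]

theorem continuous_sigma [Algebra.IsAlgebraic K Ω] [Normal F Ω] (τ : Ω ≃ₐ[F] Ω)
    (σ : (Ω ≃ₐ[K] Ω) ≃* (Ω ≃ₐ[K] Ω))
    (hσ : ∀ (h : Ω ≃ₐ[K] Ω) (x : Ω), σ h x = τ⁻¹ (h (τ x))) : Continuous σ := by
  refine continuous_of_continuousAt_one (σ : (Ω ≃ₐ[K] Ω) →* (Ω ≃ₐ[K] Ω)) ?_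
  rw [ContinuousAt, map_one]
  intro s hs
  rw [krullTopology_mem_nhds_one_iff] at hs
  obtain ⟨E, hE, hEs⟩ := hs
  rw [Filter.mem_map, krullTopology_mem_nhds_one_iff]
  let b := Module.finBasis K E
  let S : Set Ω := Set.range fun i => τ (b i : Ω)
  have hSfin : Finite S := Set.finite_range _
  refine ⟨IntermediateField.adjoin K S,
    IntermediateField.finiteDimensional_adjoin fun x _ => Algebra.IsIntegral.isIntegral x, ?_⟩
  intro h hh
  apply hEs
  have hfix : ∀ i, σ h (b i : Ω) = (b i : Ω) := by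
    intro i
    rw [hσ]
    have h1 : h (τ (b i : Ω)) = τ (b i : Ω) :=
      (IntermediateField.mem_fixingSubgroup_iff _ _).1 hh _
        (IntermediateField.subset_adjoin K S ⟨i, rfl⟩)
    rw [h1]
    exact τ.symm_apply_apply _
  show σ h ∈ E.fixingSubgroup
  rw [IntermediateField.mem_fixingSubgroup_iff]
  intro x hx
  have hlin : ((σ h).toLinearMap ∘ₗ E.val.toLinearMap) = E.val.toLinearMap := by
    refine b.ext fun i => ?_
    exact hfix i
  exact LinearMap.congr_fun hlin ⟨x, hx⟩

theorem exists_sigma [Normal F K] (τ : Ω ≃ₐ[F] Ω) :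
    ∃ σ : (Ω ≃ₐ[K] Ω) ≃* (Ω ≃ₐ[K] Ω),
      ∀ (h : Ω ≃ₐ[K] Ω) (x : Ω), σ h x = τ⁻¹ (h (τ x)) := by
  have key : ∀ (ρ : Ω ≃ₐ[F] Ω) (h : Ω ≃ₐ[K] Ω) (k : K),
      ρ⁻¹ (h (ρ (algebraMap K Ω k))) = algebraMap K Ω k := by
    intro ρ h k
    rw [← AlgEquiv.restrictNormal_commutes ρ K k, h.commutes, AlgEquiv.restrictNormal_commutes]
    exact ρ.symm_apply_apply _
  let mk : (Ω ≃ₐ[F] Ω) → (Ω ≃ₐ[K] Ω) → (Ω ≃ₐ[K] Ω) := fun ρ h =>
    { ((ρ.toRingEquiv.trans h.toRingEquiv).trans ρ.symm.toRingEquiv) with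
      commutes' := fun k => key ρ h k }
  have hmk : ∀ ρ h x, mk ρ h x = ρ⁻¹ (h (ρ x)) := fun _ _ _ => rfl
  refine ⟨{ toFun := mk τ
            invFun := mk τ⁻¹
            left_inv := ?_
            right_inv := ?_
            map_mul' := ?_ }, fun h x => rfl⟩
  · intro h
    ext x
    rw [hmk, hmk, inv_inv]
    show τ (τ.symm (h (τ (τ.symm x)))) = h x
    rw [τ.apply_symm_apply, τ.apply_symm_apply]
  · intro h
    ext x
    rw [hmk, hmk, inv_inv]
    show τ.symm (τ (h (τ.symm (τ x)))) = h x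
    rw [τ.symm_apply_apply, τ.symm_apply_apply]
  · intro h h'
    ext x
    rw [AlgEquiv.mul_apply, hmk, hmk, hmk, AlgEquiv.mul_apply]
    show τ.symm (h (h' (τ x))) = τ.symm (h (τ (τ.symm (h' (τ x)))))
    rw [τ.apply_symm_apply]

theorem exists_pow_eq [IsGalois F K] [FiniteDimensional F K]
    (τ : Ω ≃ₐ[F] Ω) : ∃ t : Ω ≃ₐ[K] Ω, ∀ x, t x = (τ ^ (Module.finrank F K)) x := by
  have h1 : AlgEquiv.restrictNormalHom K (τ ^ (Module.finrank F K)) = 1 := by
    rw [map_pow, ← IsGalois.card_aut_eq_finrank F K]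
    exact pow_card_eq_one'
  have h2 : ∀ k : K, (τ ^ (Module.finrank F K)) (algebraMap K Ω k) = algebraMap K Ω k := by
    intro k
    rw [← AlgEquiv.restrictNormal_commutes (τ ^ (Module.finrank F K)) K k]
    have h3 : (τ ^ (Module.finrank F K)).restrictNormal K = 1 := h1
    rw [h3]
    rfl
  exact ⟨{ (τ ^ (Module.finrank F K)).toRingEquiv with commutes' := h2 }, fun x => rfl⟩

end Pool.Agent.MPca71W
end

section
set_option autoImplicit false
open scoped NumberField

namespace Pool.Agent.MPca71W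

section galois

variable {k Ω : Type} [Field k] [NumberField k] [Field Ω] [Algebra k Ω] [IsAlgClosed Ω]
  [Algebra.IsAlgebraic k Ω]

theorem isGalois_acl : IsGalois k Ω := by
  have : IsAlgClosure k Ω := ⟨inferInstance, inferInstance⟩
  have : Normal k Ω := IsAlgClosure.normal k Ω
  exact ⟨⟩

/-- The finite Galois extension attached to an open normal subgroup. -/
theorem exists_field_of_open (N : Subgroup (Ω ≃ₐ[k] Ω)) (hN : N.Normal)
    (hopen : IsOpen (N : Set (Ω ≃ₐ[k] Ω))) :
    ∃ L : IntermediateField k Ω, L.fixingSubgroup = N ∧ L = IntermediateField.fixedField N ∧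
      FiniteDimensional k L ∧ IsGalois k L ∧ Module.finrank k L = N.index := by
  have hG : IsGalois k Ω := isGalois_acl
  have hclosed : IsClosed (N : Set (Ω ≃ₐ[k] Ω)) := Subgroup.isClosed_of_isOpen _ hopen
  let Hc : ClosedSubgroup (Ω ≃ₐ[k] Ω) := ⟨N, hclosed⟩
  have hfix : (IntermediateField.fixedField N).fixingSubgroup = N :=
    InfiniteGalois.fixingSubgroup_fixedField Hc
  refine ⟨IntermediateField.fixedField N, hfix, rfl, ?_, ?_, ?_⟩
  · rw [← InfiniteGalois.isOpen_iff_finite, hfix]; exact hopen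
  · rw [← InfiniteGalois.normal_iff_isGalois, hfix]; exact hN
  · rw [IntermediateField.finrank_eq_fixingSubgroup_index, hfix]

/-- The same, with the inertia condition. -/
theorem exists_unramified_of_open (N : Subgroup (Ω ≃ₐ[k] Ω)) (hN : N.Normal)
    (hopen : IsOpen (N : Set (Ω ≃ₐ[k] Ω)))
    (hI : ∀ h : Ω ≃ₐ[k] Ω, Inertial Ω h.toRingEquiv → h ∈ N) :
    ∃ L : IntermediateField k Ω, L.fixingSubgroup = N ∧ L = IntermediateField.fixedField N ∧
      FiniteDimensional k L ∧ IsGalois k L ∧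
      Module.finrank k L = N.index ∧ Algebra.Unramified (𝓞 k) (𝓞 L) := by
  obtain ⟨L, h1, h1', h2, h3, h4⟩ := exists_field_of_open N hN hopen
  refine ⟨L, h1, h1', h2, h3, h4, ?_⟩
  refine unramified_of_inertial L fun h hh x => ?_
  have h5 : h ∈ L.fixingSubgroup := by rw [h1]; exact hI h hh
  rw [IntermediateField.mem_fixingSubgroup_iff] at h5
  exact h5 x x.2

end galois

/-- A proper normal subgroup of `p`-power index is contained in a normal subgroup of index `p`. -/
theorem exists_index_p (p s : ℕ) [Fact p.Prime] {G : Type} [Group G] (N : Subgroup G)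
    (hN : N.Normal) (hi : N.index = p ^ s) (hne : N ≠ ⊤) :
    ∃ M : Subgroup G, M.Normal ∧ N ≤ M ∧ M.index = p := by
  have hp : p.Prime := Fact.out
  have hcard : Nat.card (G ⧸ N) = p ^ s := by rw [← hi]; rfl
  have hfin : Finite (G ⧸ N) := Nat.finite_of_card_ne_zero (by rw [hcard]; exact pow_ne_zero _ hp.ne_zero)
  have hs : s ≠ 0 := by
    rintro rfl
    apply hne
    rw [← Subgroup.index_eq_one, hi, pow_zero]
  obtain ⟨s, rfl⟩ := Nat.exists_eq_succ_of_ne_zero hs
  obtain ⟨M0, hM0⟩ := Sylow.exists_subgroup_card_pow_prime p (G := G ⧸ N) (n := s)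
    (by rw [hcard]; exact pow_dvd_pow p (Nat.le_succ s))
  have hidx : M0.index = p := by
    have h1 := M0.card_mul_index
    rw [hM0, hcard, pow_succ] at h1
    exact Nat.eq_of_mul_eq_mul_left (pow_pos hp.pos s) h1
  have hM0n : M0.Normal := by
    apply Subgroup.normal_of_index_eq_minFac_card
    rw [hidx, hcard, Nat.Prime.pow_minFac hp (Nat.succ_ne_zero s)]
  refine ⟨M0.comap (QuotientGroup.mk' N), inferInstance, ?_, ?_⟩
  · intro x hx
    rw [Subgroup.mem_comap]
    have : QuotientGroup.mk' N x = 1 := by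
      rw [QuotientGroup.mk'_apply, QuotientGroup.eq_one_iff]; exact hx
    rw [this]; exact one_mem _
  · rw [Subgroup.index_comap_of_surjective _ (QuotientGroup.mk'_surjective N), hidx]

end Pool.Agent.MPca71W
end
end

section

section
set_option autoImplicit false

/-! FR1: characters separating a point from `U ⊔ PhiG p G` (MP_ca71b5_nt, paper 206). -/

namespace Pool.Agent.MPca71W

theorem exists_addchar_field (K : Type) [Field K] (A : Type) [AddCommGroup A] [Module K A] (x : A)
    (hx : x ≠ 0) : ∃ φ : A →+ K, φ x ≠ 0 := by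
  obtain ⟨φ, hφ⟩ := Module.Projective.exists_dual_ne_zero (V := A) K hx
  exact ⟨φ.toAddMonoidHom, hφ⟩

theorem exists_addchar (p : ℕ) [Fact p.Prime] (A : Type) [AddCommGroup A]
    (hexp : ∀ x : A, p • x = 0) (x : A) (hx : x ≠ 0) : ∃ φ : A →+ ZMod p, φ x ≠ 0 := by
  let inst : Module (ZMod p) A := AddCommGroup.zmodModule hexp
  exact exists_addchar_field (ZMod p) A x hx

/-- FR1. -/
theorem exists_char (p : ℕ) [Fact p.Prime] {G : Type} [Group G] (U : Subgroup G) [U.Normal]
    (h : G) (hh : h ∉ U ⊔ PhiG p G) :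
    ∃ χ : G →* Multiplicative (ZMod p), U ≤ χ.ker ∧ χ h ≠ 1 := by
  classical
  -- PhiG is normal
  have hΦn : (PhiG p G).Normal := by
    constructor
    intro x hx g
    have h1 : g * x * g⁻¹ = (g * x * g⁻¹ * x⁻¹) * x := by group
    rw [h1]
    refine mul_mem ?_ hx
    exact Subgroup.subset_closure (Or.inr ⟨g, x, rfl⟩)
  have hNn : (U ⊔ PhiG p G).Normal := Subgroup.sup_normal _ _
  set N : Subgroup G := U ⊔ PhiG p G with hN
  have hcomm : ∀ a b : G ⧸ N, a * b = b * a := by
    intro a b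
    induction a using QuotientGroup.induction_on with
    | H a =>
      induction b using QuotientGroup.induction_on with
      | H b =>
        rw [← QuotientGroup.mk_mul, ← QuotientGroup.mk_mul, QuotientGroup.eq]
        have h1 : (a * b)⁻¹ * (b * a) = b⁻¹ * a⁻¹ * (b⁻¹)⁻¹ * (a⁻¹)⁻¹ := by group
        rw [h1]
        apply (le_sup_right : PhiG p G ≤ N)
        exact Subgroup.subset_closure (Or.inr ⟨b⁻¹, a⁻¹, rfl⟩)
  let _ : CommGroup (G ⧸ N) := { (inferInstance : Group (G ⧸ N)) with mul_comm := hcomm }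
  have hexp : ∀ x : Additive (G ⧸ N), p • x = 0 := by
    intro x
    obtain ⟨g, hg⟩ := QuotientGroup.mk_surjective (Additive.toMul x)
    have h2 : (Additive.toMul x) ^ p = 1 := by
      rw [← hg, ← QuotientGroup.mk_pow, QuotientGroup.eq_one_iff]
      apply (le_sup_right : PhiG p G ≤ N)
      exact Subgroup.subset_closure (Or.inl ⟨g, rfl⟩)
    exact congrArg Additive.ofMul h2
  have hne : Additive.ofMul (QuotientGroup.mk h : G ⧸ N) ≠ 0 := by
    intro h0
    apply hh
    have h3 : (QuotientGroup.mk h : G ⧸ N) = 1 := Additive.ofMul.injective h0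
    exact (QuotientGroup.eq_one_iff h).mp h3
  obtain ⟨φ, hφ⟩ := exists_addchar p (Additive (G ⧸ N)) hexp _ hne
  refine ⟨(AddMonoidHom.toMultiplicativeRight φ).comp (QuotientGroup.mk' N), ?_, ?_⟩
  · intro u hu
    rw [MonoidHom.mem_ker, MonoidHom.comp_apply]
    have h4 : (QuotientGroup.mk' N) u = 1 :=
      (QuotientGroup.eq_one_iff u).mpr ((le_sup_left : U ≤ N) hu)
    rw [h4]
    exact map_one _
  · intro h5
    apply hφ
    exact Multiplicative.ofAdd.injective h5

end Pool.Agent.MPca71W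
end

section
set_option autoImplicit false

namespace Pool.Agent.MPca71W

variable {E : Type} {G : Type} [NormedField E] [Group G]

/-- Functions on `ZMod q` with matrix values. -/
abbrev BF (E : Type) (q n : ℕ) := ZMod q → Matrix (Fin n) (Fin n) E

/-- The sup norm. -/
noncomputable def NF (E : Type) [NormedField E] (q n : ℕ) [NeZero q] (f : BF E q n) : ℝ :=
  ‖(fun t : ZMod q × Fin n × Fin n => f t.1 t.2.1 t.2.2)‖

theorem NF_le_iff (q n : ℕ) [NeZero q] (f : BF E q n) {r : ℝ} (hr : 0 ≤ r) :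
    NF E q n f ≤ r ↔ ∀ i a b, ‖f i a b‖ ≤ r := by
  unfold NF
  rw [pi_norm_le_iff_of_nonneg hr]
  constructor
  · intro h i a b
    exact h (i, a, b)
  · intro h t
    exact h t.1 t.2.1 t.2.2

theorem NF_nonneg (q n : ℕ) [NeZero q] (f : BF E q n) : 0 ≤ NF E q n f := norm_nonneg _

theorem le_NF (q n : ℕ) [NeZero q] (f : BF E q n) (i : ZMod q) (a b : Fin n) :
    ‖f i a b‖ ≤ NF E q n f :=
  norm_le_pi_norm (fun t : ZMod q × Fin n × Fin n => f t.1 t.2.1 t.2.2) (i, a, b)

theorem ultra_sum (hu : ∀ x y : E, ‖x + y‖ ≤ max ‖x‖ ‖y‖) {ι : Type} (s : Finset ι) (f : ι → E)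
    {r : ℝ} (hr : 0 ≤ r) (hf : ∀ i ∈ s, ‖f i‖ ≤ r) : ‖∑ i ∈ s, f i‖ ≤ r := by
  classical
  induction s using Finset.induction_on with
  | empty => simpa using hr
  | insert x s hx ih =>
    rw [Finset.sum_insert hx]
    refine (hu _ _).trans (max_le (hf x (Finset.mem_insert_self x s)) (ih ?_))
    intro i hi
    exact hf i (Finset.mem_insert_of_mem hi)

/-- The sup norm as an ultrametric algebra norm. -/
noncomputable def UF (q n : ℕ) [NeZero q] (hu : ∀ x y : E, ‖x + y‖ ≤ max ‖x‖ ‖y‖) :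
    UNorm E (BF E q n) where
  N := NF E q n
  nonneg' := NF_nonneg q n
  eq_zero' := by
    intro f hf
    funext i
    ext a b
    have h1 := le_NF q n f i a b
    rw [hf] at h1
    exact norm_le_zero_iff.mp h1
  zero' := by
    apply le_antisymm
    · rw [NF_le_iff q n _ le_rfl]
      intro i a b
      simp
    · exact NF_nonneg q n 0
  add' := by
    intro f g
    rw [NF_le_iff q n _ (le_max_of_le_left (NF_nonneg q n f))]
    intro i a b
    exact (hu _ _).trans (max_le_max (le_NF q n f i a b) (le_NF q n g i a b))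
  mul' := by
    intro f g
    rw [NF_le_iff q n _ (mul_nonneg (NF_nonneg q n f) (NF_nonneg q n g))]
    intro i a b
    rw [Pi.mul_apply, Matrix.mul_apply]
    apply ultra_sum hu _ _ (mul_nonneg (NF_nonneg q n f) (NF_nonneg q n g))
    intro k _
    rw [norm_mul]
    exact mul_le_mul (le_NF q n f i a k) (le_NF q n g i k b) (norm_nonneg _) (NF_nonneg q n f)
  smul' := by
    intro c f
    unfold NF
    rw [← norm_smul]
    rfl
  one' := by
    rw [NF_le_iff q n _ zero_le_one]
    intro i a b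
    rw [Pi.one_apply, Matrix.one_apply]
    split_ifs <;> simp

/-- The shift. -/
def TF (E : Type) [NormedField E] (q n : ℕ) : BF E q n ≃ₐ[E] BF E q n where
  toFun f := fun i => f (i + 1)
  invFun f := fun i => f (i - 1)
  left_inv f := by
    funext i
    simp
  right_inv f := by
    funext i
    simp
  map_mul' f g := rfl
  map_add' f g := rfl
  commutes' c := rfl

theorem TF_apply (q n : ℕ) (f : BF E q n) (i : ZMod q) : TF E q n f i = f (i + 1) := rfl

theorem TF_iter (q n : ℕ) (f : BF E q n) (k : ℕ) (i : ZMod q) :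
    ((TF E q n)^[k] f) i = f (i + k) := by
  induction k generalizing i with
  | zero => simp
  | succ k ih =>
    rw [Function.iterate_succ_apply', TF_apply, ih]
    congr 1
    push_cast
    ring

theorem NF_TF (q n : ℕ) [NeZero q] (f : BF E q n) : NF E q n (TF E q n f) = NF E q n f := by
  apply le_antisymm
  · rw [NF_le_iff q n _ (NF_nonneg q n f)]
    intro i a b
    rw [TF_apply]
    exact le_NF q n f (i + 1) a b
  · rw [NF_le_iff q n _ (NF_nonneg q n _)]
    intro i a b
    have h1 := le_NF q n (TF E q n f) (i - 1) a b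
    rw [TF_apply, sub_add_cancel] at h1
    exact h1

/-- The representation with values in functions on `ZMod q`. -/
def RF {q n : ℕ} (r : G →* Matrix (Fin n) (Fin n) E) (σ : G ≃* G) : G →* BF E q n where
  toFun h := fun i => r (σ^[i.val] h)
  map_one' := by
    funext i
    rw [iterate_map_one, map_one]
    rfl
  map_mul' g h := by
    funext i
    rw [iterate_map_mul, map_mul]
    rfl

theorem RF_apply {q n : ℕ} (r : G →* Matrix (Fin n) (Fin n) E) (σ : G ≃* G) (h : G) (i : ZMod q) :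
    (RF r σ h : BF E q n) i = r (σ^[i.val] h) := rfl

end Pool.Agent.MPca71W
end
end
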