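import Pool.Agent.Lib.MP_ca71b5_ntW.Defs
set_option autoImplicit false
open scoped NumberField

/-! Definitions for the explicit family over `ℚ` (MP_ca71b5_nt, paper 206). -/

namespace Pool.Agent.MPca71W

/-- In an algebraically closed field of characteristic zero there are `N` roots of unity of
order dividing `N`. -/
theorem card_rootsOfUnity_acl (Ω : Type) [Field Ω] [Algebra ℚ Ω] [IsAlgClosed Ω] (N : ℕ)
    [NeZero N] : Nat.card { x // x ∈ rootsOfUnity N Ω } = N := by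
  have : CharZero Ω := charZero_of_injective_algebraMap (algebraMap ℚ Ω).injective
  have : NeZero (N : Ω) := ⟨Nat.cast_ne_zero.2 (NeZero.ne N)⟩
  exact HasEnoughRootsOfUnity.natCard_rootsOfUnity Ω N

/-- The cyclotomic character `Gal(Ω/ℚ) → (ℤ/N)ˣ` (Mathlib's `modularCyclotomicCharacter`):
`g ζ = ζ ^ (kap g)` for all `N`-th roots of unity `ζ` in `Ω`. -/
noncomputable def kap (Ω : Type) [Field Ω] [Algebra ℚ Ω] [IsAlgClosed Ω] (N : ℕ) [NeZero N] :
    (Ω ≃ₐ[ℚ] Ω) →* (ZMod N)ˣ where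
  toFun g := modularCyclotomicCharacter Ω (card_rootsOfUnity_acl Ω N) (g : Ω ≃+* Ω)
  map_one' := map_one (modularCyclotomicCharacter Ω (card_rootsOfUnity_acl Ω N))
  map_mul' g h := map_mul (modularCyclotomicCharacter Ω (card_rootsOfUnity_acl Ω N))
    (g : Ω ≃+* Ω) (h : Ω ≃+* Ω)

/-- The inertia group of the maximal ideal `Q` of the ring of all algebraic integers. -/
def inG {F Ω : Type} [Field F] [Field Ω] [Algebra F Ω] (Q : Ideal (𝓞 Ω)) : Set (Ω ≃ₐ[F] Ω) :=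
  {g | ∀ x : 𝓞 Ω, ∃ y : 𝓞 Ω, y ∈ Q ∧ g (x : Ω) - (x : Ω) = (y : Ω)}

/-- `f` restricts to a nonzero homomorphism from the unit group of `ℤ/N` to the additive group of
`ℤ/p` (a discrete logarithm modulo `p`). -/
def IsLog (p N : ℕ) (f : ZMod N → ZMod p) : Prop :=
  (∀ x y : ZMod N, IsUnit x → IsUnit y → f (x * y) = f x + f y) ∧ ∃ x : ZMod N, IsUnit x ∧ f x ≠ 0

/-- The field fixed by all automorphisms `g` of `Ω` with `∑ i, lg i (kap g) = 0` in `ℤ/p`: the
field cut out by the character `∑ i, lg i` of `(ℤ/∏ N i)ˣ`. -/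
noncomputable def KF (Ω : Type) [Field Ω] [Algebra ℚ Ω] [IsAlgClosed Ω] (p : ℕ) {t : ℕ}
    (N : Fin t → ℕ) [∀ i, NeZero (N i)] (lg : ∀ i, ZMod (N i) → ZMod p) : IntermediateField ℚ Ω :=
  IntermediateField.fixedField (Subgroup.closure
    {g : Ω ≃ₐ[ℚ] Ω | ∑ i, lg i ((kap Ω (N i) g : (ZMod (N i))ˣ) : ZMod (N i)) = 0})

/-- The Rédei matrix of the prime numbers `q i` and the characters `lg i` has rank `t - 1`: its
kernel consists of the constant vectors. -/
def RedeiMax (p : ℕ) {t : ℕ} (q N : Fin t → ℕ) (lg : ∀ i, ZMod (N i) → ZMod p) : Prop :=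
  ∀ v : Fin t → ZMod p, (∀ j, ∑ i, lg i ((q j : ℕ) : ZMod (N i)) * (v i - v j) = 0) →
    ∀ i j, v i = v j

/-- The data of the family: distinct prime numbers `q i`, prime powers `N i = q i ^ e`, and
nonzero homomorphisms `lg i : (ℤ/N i)ˣ → ℤ/p` with Rédei matrix of rank `t - 1`. -/
def RedeiData (p : ℕ) {t : ℕ} (q N : Fin t → ℕ) (lg : ∀ i, ZMod (N i) → ZMod p) : Prop :=
  (∀ i, (q i).Prime) ∧ Function.Injective q ∧ (∀ i, ∃ e, N i = q i ^ e) ∧
    (∀ i, IsLog p (N i) (lg i)) ∧ RedeiMax p q N lg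

end Pool.Agent.MPca71W
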