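import Pool.Agent.Lib.MP_ca71b5_ntW.Defs
set_option autoImplicit false
open scoped NumberField

/-! The hypothesis of the general theorem (MP_ca71b5_nt, paper 206). -/

namespace Pool.Agent.MPca71W

/-- The compositum of the fields `τ^i(L)`, `i ≥ 0`, over `F`. -/
def conjComp {F Ω : Type} [Field F] [Field Ω] [Algebra F Ω] (τ : Ω ≃ₐ[F] Ω)
    (L : IntermediateField F Ω) : IntermediateField F Ω :=
  ⨆ i : ℕ, L.map ((τ ^ i : Ω ≃ₐ[F] Ω) : Ω →ₐ[F] Ω)

/-- The hypothesis (H)_a: for every Galois extension `L/K` of degree `p` unramified at all finite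
primes and every `τ` in an inertia group of `Gal(Ω/F)`, the compositum of the conjugates `τ^i(L)`
has degree at most `p^a [K : F]` over `F`. -/
def HypI (p a : ℕ) (F K Ω : Type) [Field F] [Field K] [Algebra F K] [Field Ω] [Algebra F Ω]
    [Algebra K Ω] [IsScalarTower F K Ω] : Prop :=
  ∀ τ : Ω ≃ₐ[F] Ω, Inertial Ω τ.toRingEquiv → ∀ L : IntermediateField K Ω, IsGalois K L →
    Module.finrank K L = p → Algebra.Unramified (𝓞 K) (𝓞 L) →
    Module.finrank F (conjComp τ (L.restrictScalars F)) ≤ p ^ a * Module.finrank F K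

end Pool.Agent.MPca71W
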