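import Pool.Agent.Lib.MP_ca71b5_ntW.Defs
import Pool.Agent.Lib.MP_ca71b5_ntW.FR2
import Pool.Agent.Lib.MP_ca71b5_ntW.AR2

set_option autoImplicit false
open scoped NumberField

namespace Pool.Agent.MPca71W

section FR3
variable {F K Ω : Type} [Field F] [NumberField F] [Field K] [NumberField K] [Algebra F K]
  [Field Ω] [Algebra F Ω] [Algebra K Ω] [IsScalarTower F K Ω] [IsAlgClosed Ω]
  [Algebra.IsAlgebraic K Ω]

/-- FR3. -/
theorem frattini_of_HypA (p r : ℕ) [Fact p.Prime] [IsGalois F K]
    (hdeg : Module.finrank F K = p ^ r) (a : ℕ) (hA : HypA p a F K Ω)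
    (τ : Ω ≃ₐ[F] Ω) (σ : (Ω ≃ₐ[K] Ω) ≃* (Ω ≃ₐ[K] Ω))
    (hσ : ∀ (h : Ω ≃ₐ[K] Ω) (x : Ω), σ h x = τ⁻¹ (h (τ x)))
    (t : Ω ≃ₐ[K] Ω) (ht : ∀ x, t x = (τ ^ (p ^ r)) x)
    (χ : (Ω ≃ₐ[K] Ω) →* Multiplicative (ZMod p)) (hopen : IsOpen (χ.ker : Set (Ω ≃ₐ[K] Ω)))
    (hin : ∀ h : Ω ≃ₐ[K] Ω, Inertial Ω h.toRingEquiv → χ h = 1) (h : Ω ≃ₐ[K] Ω) :
    χ ((stepG σ)^[a] h) = 1 := by
  by_contra hne
  have hcharK : CharZero K := inferInstance
  have hGal : IsGalois K Ω := by
    have : Algebra.IsSeparable K Ω := inferInstance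
    have : IsAlgClosure K Ω := ⟨inferInstance, inferInstance⟩
    have : Normal K Ω := IsAlgClosure.normal K Ω
    exact ⟨⟩
  have hfinFK : FiniteDimensional F K := by
    apply Module.finite_of_finrank_pos
    rw [hdeg]
    exact pow_pos (Nat.Prime.pos Fact.out) r
  have hAlgF : Algebra.IsAlgebraic F Ω := Algebra.IsAlgebraic.trans F K Ω
  have hACF : IsAlgClosure F Ω := ⟨inferInstance, inferInstance⟩
  have hNorF : Normal F Ω := IsAlgClosure.normal F Ω
  -- the field `L`
  have hclosed : IsClosed (χ.ker : Set (Ω ≃ₐ[K] Ω)) := Subgroup.isClosed_of_isOpen _ hopen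
  let Hc : ClosedSubgroup (Ω ≃ₐ[K] Ω) := ⟨χ.ker, hclosed⟩
  let L : IntermediateField K Ω := IntermediateField.fixedField χ.ker
  have hfix : L.fixingSubgroup = χ.ker := InfiniteGalois.fixingSubgroup_fixedField Hc
  have hLfin : FiniteDimensional K L := by
    rw [← InfiniteGalois.isOpen_iff_finite]
    rw [hfix]
    exact hopen
  have hLgal : IsGalois K L := by
    rw [← InfiniteGalois.normal_iff_isGalois, hfix]
    infer_instance
  have hrange : χ.range = ⊤ := by
    have hcard : Nat.card (Multiplicative (ZMod p)) = p := by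
      rw [Nat.card_congr Multiplicative.toAdd, Nat.card_zmod]
    have hdv : Nat.card χ.range ∣ p := by
      have := Subgroup.card_subgroup_dvd_card χ.range
      rwa [hcard] at this
    have hfinM : Finite (Multiplicative (ZMod p)) := Nat.finite_of_card_ne_zero (by
      rw [hcard]; exact (Nat.Prime.pos Fact.out).ne')
    rcases (Nat.dvd_prime (Fact.out : p.Prime)).mp hdv with h1 | h1
    · exfalso
      apply hne
      have h2 : χ.range = ⊥ := Subgroup.eq_bot_of_card_eq _ h1
      have h3 : χ ((stepG σ)^[a] h) ∈ χ.range := ⟨_, rfl⟩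
      rw [h2] at h3
      exact Subgroup.mem_bot.mp h3
    · apply Subgroup.eq_top_of_card_eq
      rw [h1, hcard]
  have hLdeg : Module.finrank K L = p := by
    rw [IntermediateField.finrank_eq_fixingSubgroup_index, hfix, Subgroup.index_ker, hrange]
    rw [Subgroup.card_top, Nat.card_congr Multiplicative.toAdd, Nat.card_zmod]
  have hLun : Algebra.Unramified (𝓞 K) (𝓞 L) := by
    apply unramified_of_inertial L
    intro g hg x
    have h1 : g ∈ L.fixingSubgroup := by
      rw [hfix, MonoidHom.mem_ker]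
      exact hin g hg
    rw [IntermediateField.mem_fixingSubgroup_iff] at h1
    exact h1 x x.2
  have hbound := hA L hLgal hLdeg hLun
  -- the normal closure
  let M : IntermediateField F Ω := IntermediateField.normalClosure F L Ω
  have hMnor : Normal F M := normalClosure.normal F L Ω
  have hFLΩ : IsScalarTower F L Ω := IsScalarTower.of_algebraMap_eq (fun x => by
    rw [IsScalarTower.algebraMap_apply F K Ω, IsScalarTower.algebraMap_apply F K L]
    rfl)
  have hLM : ∀ x : Ω, x ∈ L → x ∈ M := by
    intro x hx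
    have h1 : (IsScalarTower.toAlgHom F L Ω).fieldRange ≤ M :=
      AlgHom.fieldRange_le_normalClosure _
    exact h1 ⟨⟨x, hx⟩, rfl⟩
  let M' : IntermediateField K Ω :=
    { M with
      algebraMap_mem' := fun y => hLM _ (L.algebraMap_mem y) }
  have hMM' : ∀ x : Ω, x ∈ M' ↔ x ∈ M := fun x => Iff.rfl
  have hfinFL : FiniteDimensional F L := FiniteDimensional.trans F K L
  have hfinFM : FiniteDimensional F M := normalClosure.is_finiteDimensional F L Ω
  have hrs : M'.restrictScalars F = M := by
    ext x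
    exact Iff.rfl
  have hfinFM' : FiniteDimensional F M' := by
    have : FiniteDimensional F (M'.restrictScalars F) := by rw [hrs]; exact hfinFM
    exact this
  have hfinKM' : FiniteDimensional K M' := FiniteDimensional.right F K M'
  have hfr : Module.finrank F M = Module.finrank F K * Module.finrank K M' := by
    have h1 : Module.finrank F M = Module.finrank F (M'.restrictScalars F) := by rw [hrs]
    rw [h1]
    have h2 : Module.finrank F (M'.restrictScalars F) = Module.finrank F M' := rfl
    rw [h2, Module.finrank_mul_finrank]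
  have hτM : ∀ x : Ω, x ∈ M → τ x ∈ M := by
    intro x hx
    have h1 := (IntermediateField.normal_iff_forall_map_le'.mp hMnor) τ
    exact h1 ⟨x, hx, rfl⟩
  have hiter : ∀ (j : ℕ) (g : Ω ≃ₐ[K] Ω) (x : Ω), (σ^[j] g) ((τ ^ j)⁻¹ x) = (τ ^ j)⁻¹ (g x) := by
    intro j
    induction j with
    | zero => intro g x; rfl
    | succ j ih =>
      intro g x
      rw [Function.iterate_succ_apply', hσ]
      have h1 : τ ((τ ^ (j + 1))⁻¹ x) = (τ ^ j)⁻¹ x := by
        rw [pow_succ]
        simp only [mul_inv_rev, AlgEquiv.mul_apply]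
        exact AlgEquiv.apply_symm_apply τ _
      rw [h1, ih, pow_succ]
      simp only [mul_inv_rev, AlgEquiv.mul_apply]
  have hχσ : ∀ g, χ (σ^[p ^ r] g) = χ g := by
    intro g
    have h1 : σ^[p ^ r] g = t⁻¹ * g * t := by
      ext x
      have h2 := hiter (p ^ r) g (t x)
      have h3 : (τ ^ (p ^ r))⁻¹ (t x) = x := by
        rw [ht]
        exact AlgEquiv.symm_apply_apply (τ ^ (p ^ r)) x
      rw [h3] at h2
      rw [h2]
      have h4 : ∀ y, (τ ^ (p ^ r))⁻¹ y = t⁻¹ y := by
        intro y
        apply t.injective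
        have h5 : t (t⁻¹ y) = y := AlgEquiv.apply_symm_apply t y
        rw [h5, ht]
        exact AlgEquiv.apply_symm_apply (τ ^ (p ^ r)) y
      rw [h4]
      rfl
    rw [h1, map_mul, map_mul, map_inv]
    rw [mul_comm, ← mul_assoc, mul_inv_cancel, one_mul]
  have hindex := index_ge p r σ χ hχσ a h hne M'.fixingSubgroup (by
      intro g hg
      rw [IntermediateField.mem_fixingSubgroup_iff] at hg ⊢
      intro x hx
      rw [hσ]
      rw [hg (τ x) (hτM x hx)]
      exact AlgEquiv.symm_apply_apply τ x) (by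
      rw [← hfix]
      exact IntermediateField.fixingSubgroup_antitone (fun x hx => hLM x hx)) (by
      constructor
      rw [← IntermediateField.finrank_eq_fixingSubgroup_index]
      exact Module.finrank_pos.ne')
  rw [← IntermediateField.finrank_eq_fixingSubgroup_index] at hindex
  have hb2 : Module.finrank F M ≤ p ^ a * Module.finrank F K := hbound
  rw [hfr] at hb2
  have hFKpos : 0 < Module.finrank F K := Module.finrank_pos
  have h1 : Module.finrank K M' ≤ p ^ a := by
    rw [mul_comm] at hb2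
    exact Nat.le_of_mul_le_mul_right hb2 hFKpos
  have h2 : p ^ a < p ^ (a + 1) := Nat.pow_lt_pow_right (Nat.Prime.one_lt Fact.out) (by omega)
  omega

end FR3

end Pool.Agent.MPca71W
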