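import Mathlib
import Pool.Agent.Lib.MP_ca71b5_ntW.Defs
import Pool.Agent.Lib.MP_ca71b5_ntW.C2
import Pool.Agent.Lib.MP_ca71b5_ntW.C4a
import Pool.Agent.Lib.MP_ca71b5_ntW.AR2

section

section
set_option autoImplicit false

/-! AD1: a basis adapted to the chain of a nilpotent set of matrices (MP_ca71b5_nt, paper 206). -/

namespace Pool.Agent.MPca71W

namespace AD1aux

variable {k V : Type} [Field k] [AddCommGroup V] [Module k V]

theorem exists_chain_basis (m : ℕ) : ∀ W : ℕ → Submodule k V, (∀ l, W (l + 1) ≤ W l) → W m = ⊥ →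
    ∃ B : ℕ → Set V, (∀ l, B (l + 1) ⊆ B l) ∧ (∀ l, LinearIndepOn k id (B l)) ∧
      ∀ l, Submodule.span k (B l) = W l := by
  induction m with
  | zero =>
    intro W hW h0
    have hbot : ∀ l, W l = ⊥ := by
      intro l
      induction l with
      | zero => exact h0
      | succ l ih => exact le_bot_iff.mp (ih ▸ hW l)
    refine ⟨fun _ => ∅, fun _ => le_rfl, fun _ => ?_, fun l => ?_⟩
    · exact linearIndepOn_empty _ _
    · rw [hbot l, Submodule.span_empty]
  | succ m ih =>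
    intro W hW h0
    obtain ⟨B, hB1, hB2, hB3⟩ := ih (fun l => W (l + 1)) (fun l => hW (l + 1)) h0
    have hsub : B 0 ⊆ (W 0 : Set V) := by
      have h1 : B 0 ⊆ (Submodule.span k (B 0) : Set V) := Submodule.subset_span
      rw [hB3 0] at h1
      exact h1.trans (hW 0)
    obtain ⟨C, hC1, hC2, hC3, hC4⟩ := exists_linearIndepOn_id_extension (hB2 0) hsub
    refine ⟨fun l => Nat.casesOn l C (fun l => B l), ?_, ?_, ?_⟩
    · intro l
      cases l with
      | zero => exact hC2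
      | succ l => exact hB1 l
    · intro l
      cases l with
      | zero => exact hC4
      | succ l => exact hB2 l
    · intro l
      cases l with
      | zero => exact le_antisymm (Submodule.span_le.mpr hC1) hC3
      | succ l => exact hB3 l

end AD1aux

open AD1aux in
/-- AD1: a basis adapted to the chain of a nilpotent set of matrices over a field. -/
theorem adapted_basis {k : Type} [Field k] {n m : ℕ} (hm : 1 ≤ m)
    (S : Set (Matrix (Fin n) (Fin n) k))
    (hS : ∀ f : Fin m → Matrix (Fin n) (Fin n) k, (∀ i, f i ∈ S) → (List.ofFn f).prod = 0) :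
    ∃ (A A' : Matrix (Fin n) (Fin n) k) (w : Fin n → ℕ), A * A' = 1 ∧ A' * A = 1 ∧
      (∀ i, w i < m) ∧ ∀ s ∈ S, ∀ i j, (A' * s * A) i j ≠ 0 → w j + 1 ≤ w i := by
  classical
  -- the chain
  let W : ℕ → Submodule k (Fin n → k) := fun l =>
    Nat.rec ⊤ (fun _ U => Submodule.span k {x | ∃ s ∈ S, ∃ v ∈ U, x = s.mulVec v}) l
  have hW0 : W 0 = ⊤ := rfl
  have hWs : ∀ l, W (l + 1) = Submodule.span k {x | ∃ s ∈ S, ∃ v ∈ W l, x = s.mulVec v} :=
    fun l => rfl
  have hanti : ∀ l, W (l + 1) ≤ W l := by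
    intro l
    induction l with
    | zero => rw [hW0]; exact le_top
    | succ l ih =>
      rw [hWs (l + 1), hWs l]
      apply Submodule.span_mono
      rintro x ⟨s, hs, v, hv, rfl⟩
      exact ⟨s, hs, v, ih hv, rfl⟩
  -- W l is spanned by products of length l
  have hprod : ∀ l, W l ≤ Submodule.span k
      {x | ∃ f : Fin l → Matrix (Fin n) (Fin n) k, (∀ i, f i ∈ S) ∧
        ∃ v, x = (List.ofFn f).prod.mulVec v} := by
    intro l
    induction l with
    | zero =>
      intro x _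
      apply Submodule.subset_span
      exact ⟨fun i => i.elim0, fun i => i.elim0, x, by simp⟩
    | succ l ih =>
      rw [hWs]
      apply Submodule.span_le.mpr
      rintro x ⟨s, hs, v, hv, rfl⟩
      have hv' := ih hv
      have hmap : s.mulVecLin v ∈ Submodule.map s.mulVecLin (Submodule.span k
        {x | ∃ f : Fin l → Matrix (Fin n) (Fin n) k, (∀ i, f i ∈ S) ∧
          ∃ v, x = (List.ofFn f).prod.mulVec v}) := Submodule.mem_map_of_mem hv'
      rw [Submodule.map_span] at hmap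
      refine Submodule.span_mono ?_ hmap
      rintro y ⟨z, ⟨f, hf, v', rfl⟩, rfl⟩
      refine ⟨Fin.cons s f, ?_, v', ?_⟩
      · intro i
        refine Fin.cases ?_ (fun i => ?_) i
        · exact hs
        · exact hf i
      · rw [List.ofFn_succ, List.prod_cons, Matrix.mulVecLin_apply, Matrix.mulVec_mulVec]
        simp
  have hWm : W m = ⊥ := by
    rw [eq_bot_iff]
    refine (hprod m).trans (Submodule.span_le.mpr ?_)
    rintro x ⟨f, hf, v, rfl⟩
    rw [hS f hf]
    simp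
  obtain ⟨B, hB1, hB2, hB3⟩ := exists_chain_basis m W hanti hWm
  have hBm : B m = ∅ := by
    by_contra hne
    obtain ⟨x, hx⟩ := Set.nonempty_iff_ne_empty.mpr hne
    have h1 : x ∈ Submodule.span k (B m) := Submodule.subset_span hx
    rw [hB3, hWm, Submodule.mem_bot] at h1
    exact (hB2 m).ne_zero hx h1
  -- the basis
  have hli : LinearIndependent k (fun x : B 0 => (x : Fin n → k)) := hB2 0
  have hsp : ⊤ ≤ Submodule.span k (Set.range (fun x : B 0 => (x : Fin n → k))) := by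
    rw [Subtype.range_coe, hB3, hW0]
  let b0 : Module.Basis (B 0) k (Fin n → k) := Module.Basis.mk hli hsp
  have e : B 0 ≃ Fin n := by
    have : Fintype (B 0) := Module.Basis.fintypeIndexOfRankLtAleph0 b0 (Module.rank_lt_aleph0 _ _)
    apply Fintype.equivFinOfCardEq
    rw [← Module.finrank_eq_card_basis b0, Module.finrank_fin_fun]
  let b : Module.Basis (Fin n) k (Fin n → k) := b0.reindex e
  have hb : ∀ j, b j = ((e.symm j : B 0) : Fin n → k) := by
    intro j
    rw [Module.Basis.reindex_apply, Module.Basis.mk_apply]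
  let w : Fin n → ℕ := fun j => Nat.findGreatest (fun l => b j ∈ B l) m
  have hbB : ∀ j, b j ∈ B (w j) := by
    intro j
    refine Nat.findGreatest_spec (P := fun l => b j ∈ B l) (Nat.zero_le m) ?_
    rw [hb]
    exact (e.symm j).2
  have hwm : ∀ j, w j < m := by
    intro j
    refine lt_of_le_of_ne (Nat.findGreatest_le m) ?_
    intro h
    have := hbB j
    rw [h, hBm] at this
    exact this
  refine ⟨(Pi.basisFun k (Fin n)).toMatrix b, b.toMatrix (Pi.basisFun k (Fin n)), w,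
    Module.Basis.toMatrix_mul_toMatrix_flip _ _, Module.Basis.toMatrix_mul_toMatrix_flip _ _, hwm, ?_⟩
  intro s hs i j hne
  have hent : (b.toMatrix (Pi.basisFun k (Fin n)) * s * (Pi.basisFun k (Fin n)).toMatrix b) i j
      = b.repr (s.mulVec (b j)) i := by
    have h1 : b.toMatrix (Pi.basisFun k (Fin n)) * s * (Pi.basisFun k (Fin n)).toMatrix b
        = b.toMatrix (Pi.basisFun k (Fin n)) * (s * (Pi.basisFun k (Fin n)).toMatrix b) :=
      Matrix.mul_assoc _ _ _
    rw [h1]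
    have h2 := congrFun (Module.Basis.toMatrix_mulVec_repr (Pi.basisFun k (Fin n)) b
      (s.mulVec (b j))) i
    rw [← h2, Matrix.mul_apply, Matrix.mulVec, dotProduct]
    refine Finset.sum_congr rfl ?_
    intro t _
    congr 1
  rw [hent] at hne
  -- s b_j lies in W (w j + 1)
  have hmem : s.mulVec (b j) ∈ W (w j + 1) := by
    rw [hWs (w j)]
    apply Submodule.subset_span
    refine ⟨s, hs, b j, ?_, rfl⟩
    rw [← hB3 (w j)]
    exact Submodule.subset_span (hbB j)
  rw [← hB3 (w j + 1)] at hmem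
  have hBsub : B (w j + 1) ⊆ B 0 := by
    have : ∀ l, B l ⊆ B 0 := by
      intro l
      induction l with
      | zero => exact le_rfl
      | succ l ih => exact (hB1 l).trans ih
    exact this _
  have hBrange : B (w j + 1) = b '' {t | b t ∈ B (w j + 1)} := by
    ext x
    constructor
    · intro hx
      refine ⟨e ⟨x, hBsub hx⟩, ?_, ?_⟩
      · rw [Set.mem_setOf_eq, hb]
        simpa using hx
      · rw [hb]; simp
    · rintro ⟨t, ht, rfl⟩
      exact ht
  rw [hBrange] at hmem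
  have h3 := (Module.Basis.mem_span_image b).mp hmem
  have h4 : i ∈ (b.repr (s.mulVec (b j))).support := Finsupp.mem_support_iff.mpr hne
  have h5 : b i ∈ B (w j + 1) := h3 h4
  exact Nat.le_findGreatest (by have := hwm j; omega) h5

end Pool.Agent.MPca71W
end

section
set_option autoImplicit false

/-! AD2: conjugation to a small neighbourhood of the identity (MP_ca71b5_nt, paper 206). -/

namespace Pool.Agent.MPca71W

namespace AD2aux

theorem toZMod_eq_zero_iff (p : ℕ) [Fact p.Prime] (z : ℤ_[p]) :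
    PadicInt.toZMod z = 0 ↔ (p : ℤ_[p]) ∣ z := by
  rw [← RingHom.mem_ker, PadicInt.ker_toZMod, PadicInt.maximalIdeal_eq_span_p,
    Ideal.mem_span_singleton]

end AD2aux

open AD2aux in
/-- AD2: conjugation to a small neighbourhood of the identity. -/
theorem exists_conj (p : ℕ) [Fact p.Prime] {n m : ℕ} (hm : 1 ≤ m)
    (S : Set (Matrix (Fin n) (Fin n) ℤ_[p]))
    (hS : ∀ f : Fin m → Matrix (Fin n) (Fin n) ℤ_[p], (∀ i, f i ∈ S) →
      ∀ i j, (p : ℤ_[p]) ∣ (List.ofFn f).prod i j)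
    (ϖ : PadicAlgCl p) (hϖ : ϖ ^ m = (p : PadicAlgCl p)) :
    ∃ (A A' : Matrix (Fin n) (Fin n) (PadicAlgCl p)), A * A' = 1 ∧ A' * A = 1 ∧
      ∀ s ∈ S, ∀ i j, ‖(A * s.map (fun z => algebraMap ℚ_[p] (PadicAlgCl p) (z : ℚ_[p])) * A') i j‖
        ≤ ‖ϖ‖ := by
  classical
  let red : Matrix (Fin n) (Fin n) ℤ_[p] →+* Matrix (Fin n) (Fin n) (ZMod p) :=
    (PadicInt.toZMod (p := p)).mapMatrix
  have hred : ∀ (M : Matrix (Fin n) (Fin n) ℤ_[p]) i j, red M i j = PadicInt.toZMod (M i j) :=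
    fun M i j => rfl
  -- the nilpotent set mod p
  have hS' : ∀ f : Fin m → Matrix (Fin n) (Fin n) (ZMod p), (∀ i, f i ∈ red '' S) →
      (List.ofFn f).prod = 0 := by
    intro f hf
    choose g hg hgf using hf
    have h1 : (List.ofFn f).prod = red (List.ofFn g).prod := by
      rw [map_list_prod, List.map_ofFn]
      congr 2
      funext i
      exact (hgf i).symm
    rw [h1]
    ext i j
    rw [hred, Matrix.zero_apply, toZMod_eq_zero_iff]
    exact hS g hg i j
  obtain ⟨A0, A0', w, h01, h10, hw, hadj⟩ := adapted_basis hm (red '' S) hS'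
  -- lift A0
  have hsurj : Function.Surjective (PadicInt.toZMod (p := p)) := ZMod.ringHom_surjective _
  choose lft hlft using hsurj
  let Q : Matrix (Fin n) (Fin n) ℤ_[p] := Matrix.of fun i j => lft (A0 i j)
  have hQ : red Q = A0 := by
    ext i j
    rw [hred]
    exact hlft _
  have hdet : PadicInt.toZMod Q.det = A0.det := by
    rw [RingHom.map_det]
    exact congrArg Matrix.det hQ
  have hunit : IsUnit Q.det := by
    by_contra hnu
    have h2 : Q.det ∈ IsLocalRing.maximalIdeal ℤ_[p] := (IsLocalRing.mem_maximalIdeal _).mpr hnu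
    rw [← PadicInt.ker_toZMod, RingHom.mem_ker, hdet] at h2
    have h3 : A0.det * A0'.det = 1 := by rw [← Matrix.det_mul, h01, Matrix.det_one]
    rw [h2, zero_mul] at h3
    exact zero_ne_one h3
  have hQ1 : Q * Q⁻¹ = 1 := Matrix.mul_nonsing_inv Q hunit
  have hQ2 : Q⁻¹ * Q = 1 := Matrix.nonsing_inv_mul Q hunit
  have hQi : red Q⁻¹ = A0' := by
    have h4 : red Q⁻¹ * A0 = 1 := by rw [← hQ, ← map_mul, hQ2, map_one]
    calc red Q⁻¹ = red Q⁻¹ * (A0 * A0') := by rw [h01, mul_one]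
      _ = (red Q⁻¹ * A0) * A0' := (mul_assoc _ _ _).symm
      _ = A0' := by rw [h4, one_mul]
  -- the embedding into the algebraic closure
  let ι : ℤ_[p] →+* PadicAlgCl p :=
    (algebraMap ℚ_[p] (PadicAlgCl p)).comp (PadicInt.Coe.ringHom (p := p))
  have hι : ∀ z : ℤ_[p], ι z = algebraMap ℚ_[p] (PadicAlgCl p) (z : ℚ_[p]) := fun z => rfl
  have hιn : ∀ z : ℤ_[p], ‖ι z‖ = ‖z‖ := by
    intro z
    rw [hι]
    exact (PadicAlgCl.norm_extends p (z : ℚ_[p])).trans rfl
  let emb : Matrix (Fin n) (Fin n) ℤ_[p] →+* Matrix (Fin n) (Fin n) (PadicAlgCl p) := ι.mapMatrix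
  have hemb : ∀ (M : Matrix (Fin n) (Fin n) ℤ_[p]) i j, emb M i j = ι (M i j) := fun M i j => rfl
  have hp1 : ‖(p : ℤ_[p])‖ < 1 := by
    rw [PadicInt.norm_p]
    exact inv_lt_one_of_one_lt₀ (by exact_mod_cast (Fact.out : p.Prime).one_lt)
  have hϖn : ‖ϖ‖ ^ m = ‖(p : ℤ_[p])‖ := by
    rw [← norm_pow, hϖ, ← hιn, map_natCast]
  have hp0 : 0 < ‖(p : ℤ_[p])‖ := by
    rw [norm_pos_iff]
    exact_mod_cast (Fact.out : p.Prime).ne_zero
  have hϖ0 : ϖ ≠ 0 := by
    intro h
    rw [h, norm_zero, zero_pow (by omega)] at hϖn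
    rw [← hϖn] at hp0
    exact lt_irrefl _ hp0
  have hϖpos : 0 < ‖ϖ‖ := norm_pos_iff.mpr hϖ0
  have hϖ1 : ‖ϖ‖ ≤ 1 := by
    by_contra h
    have h := lt_of_not_ge h
    have : 1 ≤ ‖ϖ‖ ^ m := one_le_pow₀ h.le
    rw [hϖn] at this
    linarith
  refine ⟨Matrix.diagonal (fun i => ϖ ^ (w i)) * emb Q⁻¹,
    emb Q * Matrix.diagonal (fun i => (ϖ ^ (w i))⁻¹), ?_, ?_, ?_⟩
  · calc Matrix.diagonal (fun i => ϖ ^ (w i)) * emb Q⁻¹ *
        (emb Q * Matrix.diagonal (fun i => (ϖ ^ (w i))⁻¹))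
        = Matrix.diagonal (fun i => ϖ ^ (w i)) * emb (Q⁻¹ * Q) *
            Matrix.diagonal (fun i => (ϖ ^ (w i))⁻¹) := by
          rw [map_mul]; simp only [mul_assoc]
      _ = 1 := by
          rw [hQ2, map_one, mul_one, Matrix.diagonal_mul_diagonal]
          rw [← Matrix.diagonal_one]
          congr 1
          funext i
          exact mul_inv_cancel₀ (pow_ne_zero _ hϖ0)
  · calc emb Q * Matrix.diagonal (fun i => (ϖ ^ (w i))⁻¹) *
        (Matrix.diagonal (fun i => ϖ ^ (w i)) * emb Q⁻¹)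
        = emb Q * (Matrix.diagonal (fun i => (ϖ ^ (w i))⁻¹) *
            Matrix.diagonal (fun i => ϖ ^ (w i))) * emb Q⁻¹ := by
          simp only [mul_assoc]
      _ = emb Q * emb Q⁻¹ := by
          rw [Matrix.diagonal_mul_diagonal]
          have : (fun i => (ϖ ^ (w i))⁻¹ * ϖ ^ (w i)) = fun _ => (1 : PadicAlgCl p) := by
            funext i
            exact inv_mul_cancel₀ (pow_ne_zero _ hϖ0)
          rw [this, Matrix.diagonal_one, mul_one]
      _ = 1 := by rw [← map_mul, hQ1, map_one]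
  · intro s hs i j
    have hs' : s.map (fun z => algebraMap ℚ_[p] (PadicAlgCl p) (z : ℚ_[p])) = emb s := by
      ext i j
      rfl
    rw [hs']
    have hent : (Matrix.diagonal (fun i => ϖ ^ (w i)) * emb Q⁻¹ * emb s *
        (emb Q * Matrix.diagonal (fun i => (ϖ ^ (w i))⁻¹))) i j
        = ϖ ^ (w i) * ι ((Q⁻¹ * s * Q) i j) * (ϖ ^ (w j))⁻¹ := by
      have : Matrix.diagonal (fun i => ϖ ^ (w i)) * emb Q⁻¹ * emb s *
        (emb Q * Matrix.diagonal (fun i => (ϖ ^ (w i))⁻¹))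
          = Matrix.diagonal (fun i => ϖ ^ (w i)) * (emb (Q⁻¹ * s * Q) *
            Matrix.diagonal (fun i => (ϖ ^ (w i))⁻¹)) := by
        rw [map_mul, map_mul]; simp only [mul_assoc]
      rw [this, Matrix.diagonal_mul, Matrix.mul_diagonal, hemb]
      exact (mul_assoc _ _ _).symm
    rw [hent, norm_mul, norm_mul, norm_inv, norm_pow, norm_pow, hιn]
    have hwj : 0 < ‖ϖ‖ ^ (w j) := pow_pos hϖpos _
    rw [mul_inv_le_iff₀ hwj, ← pow_succ']
    by_cases hc : w j + 1 ≤ w i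
    · calc ‖ϖ‖ ^ (w i) * ‖(Q⁻¹ * s * Q) i j‖ ≤ ‖ϖ‖ ^ (w i) * 1 := by
            exact mul_le_mul_of_nonneg_left (PadicInt.norm_le_one _) (by positivity)
        _ ≤ ‖ϖ‖ ^ (w j + 1) := by
            rw [mul_one]
            exact pow_le_pow_of_le_one hϖpos.le hϖ1 hc
    · have hz : (A0' * red s * A0) i j = 0 := by
        by_contra hne
        exact hc (hadj (red s) ⟨s, hs, rfl⟩ i j hne)
      have hz' : PadicInt.toZMod ((Q⁻¹ * s * Q) i j) = 0 := by
        rw [← hred, map_mul, map_mul, hQi, hQ]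
        exact hz
      rw [toZMod_eq_zero_iff] at hz'
      obtain ⟨t, ht⟩ := hz'
      have hle : ‖(Q⁻¹ * s * Q) i j‖ ≤ ‖ϖ‖ ^ m := by
        rw [ht, norm_mul, hϖn]
        calc ‖(p : ℤ_[p])‖ * ‖t‖ ≤ ‖(p : ℤ_[p])‖ * 1 :=
              mul_le_mul_of_nonneg_left (PadicInt.norm_le_one _) hp0.le
          _ = ‖(p : ℤ_[p])‖ := mul_one _
      calc ‖ϖ‖ ^ (w i) * ‖(Q⁻¹ * s * Q) i j‖ ≤ ‖ϖ‖ ^ (w i) * ‖ϖ‖ ^ m :=
            mul_le_mul_of_nonneg_left hle (by positivity)
        _ = ‖ϖ‖ ^ (w i + m) := (pow_add _ _ _).symm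
        _ ≤ ‖ϖ‖ ^ (w j + 1) := by
            apply pow_le_pow_of_le_one hϖpos.le hϖ1
            have := hw j
            omega

end Pool.Agent.MPca71W
end
end

section

section
set_option autoImplicit false

namespace Pool.Agent.MPca71W

/-- the list form of AD3 -/
theorem pgroup_nilpotent_list (p : ℕ) [Fact p.Prime] {n : ℕ} {P : Type} [Group P] [Finite P]
    (hP : IsPGroup p P) (r : P →* Matrix (Fin n) (Fin n) (ZMod p)) (l : List P)
    (hl : n ≤ l.length) : (l.map (fun g => r g - 1)).prod = 0 := by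
  classical
  let e : Matrix (Fin n) (Fin n) (ZMod p) ≃ₐ[ZMod p] Module.End (ZMod p) (Fin n → ZMod p) :=
    Matrix.toLinAlgEquiv'
  let r' : P →* Module.End (ZMod p) (Fin n → ZMod p) := (e : Matrix (Fin n) (Fin n) (ZMod p) →* _).comp r
  have h := ad3_list p hP n (Fin n → ZMod p) r' (by simp) l hl
  apply e.injective
  rw [map_zero, map_list_prod]
  rw [← h]
  congr 1
  rw [List.map_map]
  congr 1
  funext i
  simp only [Function.comp, map_sub, map_one]
  rfl

/-- AD4: a pro-`p` representation of dimension `n ≤ m` satisfies `(N)_m`. -/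
theorem nilp_of_le (p : ℕ) [Fact p.Prime] {K Ω : Type} [Field K] [NumberField K] [Field Ω]
    [Algebra K Ω] [IsAlgClosed Ω] [Algebra.IsAlgebraic K Ω] {n m : ℕ} (hnm : n ≤ m)
    (ρ : (Ω ≃ₐ[K] Ω) →* Matrix.GeneralLinearGroup (Fin n) (PadicInt p)) (hc : Continuous ρ)
    (hu : UnrProP p K Ω ρ) (f : Fin m → (Ω ≃ₐ[K] Ω)) (i j : Fin n) :
    (p : ℤ_[p]) ∣
      (List.ofFn (fun s => ((ρ (f s) : Matrix (Fin n) (Fin n) ℤ_[p]) - 1))).prod i j := by
  classical
  have hnorm : Normal K Ω := by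
    have := IsAlgClosure.mk (R := K) (K := Ω) inferInstance inferInstance
    exact IsAlgClosure.normal K Ω
  have hgal : IsGalois K Ω := ⟨⟩
  set red : Matrix (Fin n) (Fin n) ℤ_[p] →+* Matrix (Fin n) (Fin n) (ZMod p) :=
    (PadicInt.toZMod (p := p)).mapMatrix with hred
  set rb : (Ω ≃ₐ[K] Ω) →* (Matrix (Fin n) (Fin n) (ZMod p)) :=
    ((red : Matrix (Fin n) (Fin n) ℤ_[p] →* _).comp (Units.coeHom _)).comp ρ with hrb
  have hrbapp : ∀ g, rb g = red (ρ g : Matrix (Fin n) (Fin n) ℤ_[p]) := fun g => rfl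
  set rbu : (Ω ≃ₐ[K] Ω) →* (Matrix (Fin n) (Fin n) (ZMod p))ˣ := rb.toHomUnits with hrbu
  have hrbu' : ∀ g, ((rbu g : (Matrix (Fin n) (Fin n) (ZMod p))ˣ) : Matrix _ _ _) = rb g :=
    fun g => rfl
  set N : Subgroup (Ω ≃ₐ[K] Ω) := rbu.ker with hN
  have hmem : ∀ g, g ∈ N ↔ ∀ a b, ‖((ρ g : Matrix (Fin n) (Fin n) ℤ_[p]) - 1) a b‖ < 1 := by
    intro g
    rw [hN, MonoidHom.mem_ker, ← Units.val_inj, hrbu', hrbapp]
    constructor
    · intro h a b
      rw [PadicInt.norm_lt_one_iff_dvd, ← Ideal.mem_span_singleton,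
        ← PadicInt.maximalIdeal_eq_span_p, ← PadicInt.ker_toZMod, RingHom.mem_ker]
      have h1 : red ((ρ g : Matrix (Fin n) (Fin n) ℤ_[p]) - 1) = 0 := by
        rw [map_sub, h]; simp
      have h2 := congrFun (congrFun h1 a) b
      simpa [hred, RingHom.mapMatrix_apply, Matrix.map_apply] using h2
    · intro h
      have h1 : red ((ρ g : Matrix (Fin n) (Fin n) ℤ_[p]) - 1) = 0 := by
        ext a b
        have h2 := h a b
        rw [PadicInt.norm_lt_one_iff_dvd, ← Ideal.mem_span_singleton,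
          ← PadicInt.maximalIdeal_eq_span_p, ← PadicInt.ker_toZMod, RingHom.mem_ker] at h2
        simpa [hred, RingHom.mapMatrix_apply, Matrix.map_apply] using h2
      rw [map_sub, map_one, sub_eq_zero] at h1
      rw [h1]; rfl
  have hcoe : Continuous (fun g => ((ρ g : Matrix (Fin n) (Fin n) ℤ_[p]) - 1)) :=
    (Units.continuous_val.comp hc).sub continuous_const
  have hopen : IsOpen (N : Set (Ω ≃ₐ[K] Ω)) := by
    have : (N : Set (Ω ≃ₐ[K] Ω)) =
        ⋂ a, ⋂ b, {g | ‖((ρ g : Matrix (Fin n) (Fin n) ℤ_[p]) - 1) a b‖ < 1} := by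
      ext g
      simp only [SetLike.mem_coe, hmem, Set.mem_iInter, Set.mem_setOf_eq]
    rw [this]
    refine isOpen_iInter_of_finite fun a => isOpen_iInter_of_finite fun b => ?_
    exact isOpen_lt (continuous_norm.comp
      ((continuous_apply b).comp ((continuous_apply a).comp hcoe))) continuous_const
  have hNn : N.Normal := MonoidHom.normal_ker _
  let H : ClosedSubgroup (Ω ≃ₐ[K] Ω) := ⟨N, Subgroup.isClosed_of_isOpen N hopen⟩
  have hHN : H.toSubgroup = N := rfl
  have hHn : H.Normal := hNn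
  set L : IntermediateField K Ω := IntermediateField.fixedField N with hL
  have hfix : L.fixingSubgroup = N := InfiniteGalois.fixingSubgroup_fixedField H
  have hfin : FiniteDimensional K L := by
    rw [← InfiniteGalois.isOpen_iff_finite, hfix]
    exact hopen
  have hgalL : IsGalois K L := by
    rw [← InfiniteGalois.normal_iff_isGalois, hfix]
    exact hNn
  have hle : L ≤ IntermediateField.fixedField ρ.ker := by
    apply IntermediateField.fixedField_le
    intro g hg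
    rw [MonoidHom.mem_ker] at hg
    rw [hmem]
    intro a b
    rw [hg]
    simp
  obtain ⟨⟨e, he⟩, -⟩ := hu L hle hfin hgalL
  let E := InfiniteGalois.normalAutEquivQuotient H
  have hcard : Nat.card ((Ω ≃ₐ[K] Ω) ⧸ N) = p ^ e := by
    rw [Nat.card_congr E.toEquiv, ← he]
    exact IsGalois.card_aut_eq_finrank K L
  have hPg : IsPGroup p ((Ω ≃ₐ[K] Ω) ⧸ N) := IsPGroup.of_card hcard
  have hPf : Finite ((Ω ≃ₐ[K] Ω) ⧸ N) := by
    apply Nat.finite_of_card_ne_zero
    rw [hcard]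
    exact pow_ne_zero _ (Fact.out : p.Prime).ne_zero
  let r : ((Ω ≃ₐ[K] Ω) ⧸ N) →* Matrix (Fin n) (Fin n) (ZMod p) :=
    (Units.coeHom _).comp (QuotientGroup.kerLift rbu)
  have hr : ∀ g : Ω ≃ₐ[K] Ω, r (QuotientGroup.mk g) = rb g := fun g => rfl
  have h0 := pgroup_nilpotent_list p hPg r
    (List.ofFn (fun s => (QuotientGroup.mk (f s) : (Ω ≃ₐ[K] Ω) ⧸ N))) (by simpa using hnm)
  have h1 : red (List.ofFn (fun s => ((ρ (f s) : Matrix (Fin n) (Fin n) ℤ_[p]) - 1))).prod = 0 := by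
    rw [map_list_prod, ← h0, List.map_ofFn, List.map_ofFn]
    congr 2
    funext s
    simp only [Function.comp, map_sub, map_one, hr]
    rfl
  have h2 := congrFun (congrFun h1 i) j
  rw [← Ideal.mem_span_singleton,
      ← PadicInt.maximalIdeal_eq_span_p, ← PadicInt.ker_toZMod, RingHom.mem_ker]
  simpa [hred, RingHom.mapMatrix_apply, Matrix.map_apply] using h2

end Pool.Agent.MPca71W
end

section
set_option autoImplicit false

namespace Pool.Agent.MPca71W

variable {E B G : Type} [NormedField E] [Ring B] [Algebra E B] [Group G]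

/-! ### auxiliary facts on `Dop` -/

theorem Dop_add3 (T : B ≃ₐ[E] B) (x y : B) : Dop T (x + y) = Dop T x + Dop T y := by
  simp only [Dop, map_add]; abel

theorem Dop_sub3 (T : B ≃ₐ[E] B) (x y : B) : Dop T (x - y) = Dop T x - Dop T y := by
  simp only [Dop, map_sub]; abel

theorem Dop_one3 (T : B ≃ₐ[E] B) : Dop T (1 : B) = 0 := by simp [Dop]

theorem Dop_zero3 (T : B ≃ₐ[E] B) : Dop T (0 : B) = 0 := by simp [Dop]

theorem Dop_smul3 (T : B ≃ₐ[E] B) (l : E) (x : B) : Dop T (l • x) = l • Dop T x := by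
  simp only [Dop, map_smul, smul_sub]

theorem Dop_mul3 (T : B ≃ₐ[E] B) (x y : B) : Dop T (x * y) = Dop T x * T y + x * Dop T y := by
  simp only [Dop, map_mul]; noncomm_ring

theorem Dop_sum3 (T : B ≃ₐ[E] B) {ι : Type} (s : Finset ι) (f : ι → B) :
    Dop T (∑ i ∈ s, f i) = ∑ i ∈ s, Dop T (f i) := by
  simp only [Dop, map_sum, Finset.sum_sub_distrib]

/-- The bound for the elements of `PhiG`. -/
theorem core_phi {p : ℕ} (hp : p.Prime) {a : ℕ} (ha : 1 ≤ a) {d : ℝ} (hd0 : 0 < d) (hd1 : d ≤ 1)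
    (T : B ≃ₐ[E] B) (R : G →* B) (n2 : B → ℝ)
    (hple : ‖(p : E)‖ ≤ d ^ (2 * a - 1)) (hint : ∀ m : ℕ, ‖(m : E)‖ ≤ 1)
    (h0 : ∀ x, 0 ≤ n2 x) (hadd : ∀ x y, n2 (x + y) ≤ max (n2 x) (n2 y))
    (hneg : ∀ x, n2 (-x) = n2 x) (hmul : ∀ x y, n2 (x * y) ≤ n2 x * n2 y)
    (hsmul : ∀ (l : E) x, n2 (l • x) = ‖l‖ * n2 x) (hone : n2 1 ≤ 1)
    (hTi : ∀ x, n2 (T x) = n2 x)
    (hr : ∀ g, n2 (R g - 1) ≤ d ^ a) {M : ℝ} (hM : 0 ≤ M) (hDM : ∀ g, n2 (Dop T (R g)) ≤ M) :
    ∀ u ∈ PhiG p G, n2 (Dop T (R u)) ≤ M * d ^ a := by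
  have hr1 : d ^ a ≤ 1 := pow_le_one₀ hd0.le hd1
  have hr0 : 0 < d ^ a := pow_pos hd0 a
  have hz : n2 0 = 0 := by
    have := hsmul (0 : E) (0 : B)
    simpa using this
  have hg1 : ∀ g, n2 (R g) ≤ 1 := by
    intro g
    have h := hadd (R g - 1) 1
    rw [sub_add_cancel] at h
    exact h.trans (max_le ((hr g).trans hr1) hone)
  have hsub : ∀ x y, n2 (x - y) ≤ max (n2 x) (n2 y) := by
    intro x y
    rw [sub_eq_add_neg]
    have h := hadd x (-y)
    rwa [hneg] at h
  have hsum : ∀ (s : Finset ℕ) (f : ℕ → B) (K : ℝ), 0 ≤ K → (∀ i ∈ s, n2 (f i) ≤ K) →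
      n2 (∑ i ∈ s, f i) ≤ K := by
    intro s f K hK hf
    induction s using Finset.induction_on with
    | empty => simpa [hz] using hK
    | insert i s his ih =>
      rw [Finset.sum_insert his]
      refine (hadd _ _).trans (max_le (hf i (Finset.mem_insert_self i s)) (ih ?_))
      intro j hj
      exact hf j (Finset.mem_insert_of_mem hj)
  have hmulle : ∀ x y (α β : ℝ), n2 x ≤ α → n2 y ≤ β → n2 (x * y) ≤ α * β := by
    intro x y α β hα hβ
    exact (hmul x y).trans (mul_le_mul hα hβ (h0 y) ((h0 x).trans hα))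
  have hDx : ∀ g, n2 (Dop T (R g - 1)) ≤ M := by
    intro g
    rw [Dop_sub3, Dop_one3, sub_zero]
    exact hDM g
  have hpow : ∀ (g : G) (i : ℕ), n2 ((R g - 1) ^ i) ≤ (d ^ a) ^ i := by
    intro g i
    induction i with
    | zero => simpa using hone
    | succ i ih =>
      rw [pow_succ, pow_succ]
      exact hmulle _ _ _ _ ih (hr g)
  have hDpow : ∀ (g : G) (i : ℕ), n2 (Dop T ((R g - 1) ^ (i + 1))) ≤ (d ^ a) ^ i * M := by
    intro g i
    induction i with
    | zero => simpa using hDM g |> fun _ => hDx g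
    | succ i ih =>
      rw [pow_succ, Dop_mul3]
      refine (hadd _ _).trans (max_le ?_ ?_)
      · have := hmulle _ (T (R g - 1)) _ _ ih ((hTi (R g - 1)).le.trans (hr g))
        calc _ ≤ (d ^ a) ^ i * M * d ^ a := this
          _ = (d ^ a) ^ (i + 1) * M := by ring
      · exact hmulle _ _ _ _ (hpow g (i + 1)) (hDx g)
  intro u hu
  induction hu using Subgroup.closure_induction with
  | mem x hx =>
    rcases hx with ⟨g, rfl⟩ | ⟨g, h, rfl⟩
    · -- p-th power
      have e1 : R (g ^ p) = ∑ m ∈ Finset.range (p + 1), ((p.choose m : ℕ) : E) • (R g - 1) ^ m := by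
        rw [map_pow]
        conv_lhs => rw [← sub_add_cancel (R g) 1]
        rw [(Commute.one_right (R g - 1)).add_pow]
        refine Finset.sum_congr rfl ?_
        intro m _
        rw [one_pow, mul_one, Nat.cast_smul_eq_nsmul, nsmul_eq_mul]
        exact (Nat.cast_commute _ _).eq.symm
      rw [e1, Dop_sum3]
      refine hsum _ _ _ (by positivity) ?_
      intro m hm
      rw [Dop_smul3, hsmul]
      rcases Nat.eq_zero_or_pos m with hm0 | hm0
      · subst hm0
        rw [pow_zero, Dop_one3, hz, mul_zero]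
        positivity
      · obtain ⟨i, rfl⟩ : ∃ i, m = i + 1 := ⟨m - 1, by omega⟩
        have hb := hDpow g i
        rcases lt_or_ge (i + 1) p with hlt | hge
        · have hdvd : p ∣ p.choose (i + 1) := hp.dvd_choose_self (by omega) hlt
          obtain ⟨t, ht⟩ := hdvd
          have hc : ‖((p.choose (i + 1) : ℕ) : E)‖ ≤ d ^ a := by
            rw [ht, Nat.cast_mul, norm_mul]
            calc ‖(p : E)‖ * ‖(t : E)‖ ≤ d ^ (2 * a - 1) * 1 :=
                  mul_le_mul hple (hint t) (norm_nonneg _) (by positivity)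
              _ = d ^ (2 * a - 1) := mul_one _
              _ ≤ d ^ a := pow_le_pow_of_le_one hd0.le hd1 (by omega)
          have hi1 : (d ^ a) ^ i * M ≤ M := by
            have : (d ^ a) ^ i ≤ 1 := pow_le_one₀ hr0.le hr1
            nlinarith
          calc _ ≤ d ^ a * M := mul_le_mul hc (hb.trans hi1) (h0 _) hr0.le
            _ = M * d ^ a := mul_comm _ _
        · have hp2 := hp.two_le
          have hi1 : (d ^ a) ^ i * M ≤ d ^ a * M := by
            have : (d ^ a) ^ i ≤ (d ^ a) ^ 1 := pow_le_pow_of_le_one hr0.le hr1 (by omega)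
            rw [pow_one] at this
            exact mul_le_mul_of_nonneg_right this hM
          calc _ ≤ 1 * (d ^ a * M) := mul_le_mul (hint _) (hb.trans hi1) (h0 _) zero_le_one
            _ = M * d ^ a := by ring
    · -- commutator
      have e1 : R (g * h * g⁻¹ * h⁻¹) =
          ((R g - 1) * (R h - 1) - (R h - 1) * (R g - 1)) * R ((h * g)⁻¹) + 1 := by
        have e2 : (R g - 1) * (R h - 1) - (R h - 1) * (R g - 1) = R g * R h - R h * R g := by
          noncomm_ring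
        rw [e2, sub_mul, ← map_mul, ← map_mul, ← map_mul, ← map_mul, mul_inv_cancel, map_one,
          sub_add_cancel, mul_inv_rev, mul_assoc, mul_assoc]
      rw [e1, Dop_add3, Dop_one3, add_zero, Dop_mul3]
      have hxy : ∀ g h : G, n2 (Dop T ((R g - 1) * (R h - 1))) ≤ M * d ^ a := by
        intro g h
        rw [Dop_mul3]
        refine (hadd _ _).trans (max_le ?_ ?_)
        · exact hmulle _ _ _ _ (hDx g) ((hTi _).le.trans (hr h))
        · rw [mul_comm M]
          exact hmulle _ _ _ _ (hr g) (hDx h)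
      refine (hadd _ _).trans (max_le ?_ ?_)
      · have h1 : n2 (Dop T ((R g - 1) * (R h - 1) - (R h - 1) * (R g - 1))) ≤ M * d ^ a := by
          rw [Dop_sub3]
          exact (hsub _ _).trans (max_le (hxy g h) (hxy h g))
        have := hmulle _ (T (R ((h * g)⁻¹))) _ _ h1 ((hTi _).le.trans (hg1 _))
        simpa using this
      · have h1 : n2 ((R g - 1) * (R h - 1) - (R h - 1) * (R g - 1)) ≤ d ^ a := by
          have hh : ∀ g h : G, n2 ((R g - 1) * (R h - 1)) ≤ d ^ a := by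
            intro g h
            have := hmulle _ _ _ _ (hr g) (hr h)
            nlinarith
          exact (hsub _ _).trans (max_le (hh g h) (hh h g))
        have := hmulle _ (Dop T (R ((h * g)⁻¹))) _ _ h1 (hDM _)
        rw [mul_comm M]
        exact this
  | one =>
    rw [map_one, Dop_one3, hz]
    positivity
  | mul u v _ _ hu hv =>
    rw [map_mul, Dop_mul3]
    refine (hadd _ _).trans (max_le ?_ ?_)
    · have := hmulle _ (T (R v)) _ _ hu ((hTi _).le.trans (hg1 v))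
      simpa using this
    · have := hmulle _ _ _ _ (hg1 u) hv
      simpa using this
  | inv u _ hu =>
    have e1 : Dop T (R u⁻¹) = -(R u⁻¹ * (Dop T (R u) * T (R u⁻¹))) := by
      have h1 : Dop T (R u * R u⁻¹) = 0 := by
        rw [← map_mul, mul_inv_cancel, map_one, Dop_one3]
      rw [Dop_mul3] at h1
      have h2 : R u⁻¹ * (Dop T (R u) * T (R u⁻¹) + R u * Dop T (R u⁻¹)) = 0 := by
        rw [h1, mul_zero]
      rw [mul_add, ← mul_assoc (R u⁻¹) (R u), ← map_mul, inv_mul_cancel, map_one, one_mul] at h2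
      exact eq_neg_of_add_eq_zero_right h2
    rw [e1, hneg]
    have h1 := hmulle _ (T (R u⁻¹)) _ _ hu ((hTi _).le.trans (hg1 u⁻¹))
    have h2 := hmulle _ _ _ _ (hg1 u⁻¹) h1
    simpa using h2

/-- C3 (paper 1c): the core theorem. -/
theorem core {p q a : ℕ} {ζ : E} {c d : ℝ}
    (P : PData E p q a ζ c d) (U : UNorm E B) (T : B ≃ₐ[E] B) (hTN : ∀ x, U.N (T x) = U.N x)
    (hT : ∀ x, T^[q] x = x)
    (σ : G ≃* G) (R : G →* B) (hTR : ∀ g, T (R g) = R (σ g))
    (hR : ∀ g, U.N (R g - 1) ≤ d ^ (2 * a - 1))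
    (hF : ∀ g : G, ∀ ε : ℝ, 0 < ε →
      ∃ u ∈ PhiG p G, U.N (R ((stepG σ)^[a] g) - R u) ≤ ε) :
    ∀ g : G, T (R g) = R g := by
  obtain ⟨h0, hN, hq, hadd, hneg, hmul, hsmul, hone, hTi, hD, hDD, hlast⟩ :=
    N2_props P U T hTN hT
  have h1a := core1a P U T hTN σ R hTR hR hF
  set n2 : B → ℝ := N2 U q ζ T with hn2
  have hd0 := P.dpos
  have hdc := P.dlt
  have hc1 := P.clt
  have hd1 : d ≤ 1 := (hdc.trans hc1).le
  have hc0 : 0 < c := hd0.trans hdc
  have ha := P.apos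
  have hint : ∀ m : ℕ, ‖(m : E)‖ ≤ 1 := by
    intro m
    induction m with
    | zero => simp
    | succ m ih =>
      rw [Nat.cast_succ]
      refine (P.ultra _ _).trans (max_le ih ?_)
      simp
  have hkey : ∀ g, n2 (R g - 1) ≤ d ^ a ∧ n2 (Dop T (R g - 1)) ≤ d * d ^ a := by
    intro g
    refine hlast (R g - 1) (d ^ a) (by positivity) ?_
    intro k
    rw [← pow_add]
    exact h1a k g
  have hr : ∀ g, n2 (R g - 1) ≤ d ^ a := fun g => (hkey g).1
  have hDR : ∀ g, n2 (Dop T (R g)) ≤ d * d ^ a := by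
    intro g
    have h := (hkey g).2
    rwa [Dop_sub3, Dop_one3, sub_zero] at h
  have hr1 : d ^ a ≤ 1 := pow_le_one₀ hd0.le hd1
  have hr0 : 0 < d ^ a := pow_pos hd0 a
  have hg1 : ∀ g, n2 (R g) ≤ 1 := by
    intro g
    have h := hadd (R g - 1) 1
    rw [sub_add_cancel] at h
    exact h.trans (max_le ((hr g).trans hr1) hone)
  have hmulle : ∀ x y (α β : ℝ), n2 x ≤ α → n2 y ≤ β → n2 (x * y) ≤ α * β := by
    intro x y α β hα hβ
    exact (hmul x y).trans (mul_le_mul hα hβ (h0 y) ((h0 x).trans hα))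
  -- one step down
  have hstep1 : ∀ h : G, c * n2 (Dop T (R h)) ≤ n2 (Dop T (R (stepG σ h))) := by
    intro h
    have e1 : R (stepG σ h) = 1 + Dop T (R h) * R h⁻¹ := by
      rw [stepG, map_mul, ← hTR, Dop, sub_mul, ← map_mul R h, mul_inv_cancel, map_one]
      abel
    have e2 : Dop T (R (stepG σ h)) =
        Dop T (Dop T (R h)) * T (R h⁻¹) + Dop T (R h) * Dop T (R h⁻¹) := by
      rw [e1, Dop_add3, Dop_one3, zero_add, Dop_mul3]
    have e3 : Dop T (Dop T (R h)) =
        (Dop T (R (stepG σ h)) - Dop T (R h) * Dop T (R h⁻¹)) * T (R h) := by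
      rw [e2, add_sub_cancel_right, mul_assoc, ← map_mul T, ← map_mul R, inv_mul_cancel, map_one,
        map_one, mul_one]
    have h1 : n2 (Dop T (Dop T (R h))) ≤
        max (n2 (Dop T (R (stepG σ h)))) (n2 (Dop T (R h)) * (d * d ^ a)) := by
      rw [e3]
      have h2 : n2 (Dop T (R (stepG σ h)) - Dop T (R h) * Dop T (R h⁻¹)) ≤
          max (n2 (Dop T (R (stepG σ h)))) (n2 (Dop T (R h)) * (d * d ^ a)) := by
        rw [sub_eq_add_neg]
        refine (hadd _ _).trans (max_le_max le_rfl ?_)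
        rw [hneg]
        exact hmulle _ _ _ _ le_rfl (hDR _)
      have h3 := hmulle _ (T (R h)) _ _ h2 ((hTi _).le.trans (hg1 h))
      simpa using h3
    have h4 := (hDD (R h)).trans h1
    rcases le_max_iff.mp h4 with h5 | h5
    · exact h5
    · have h6 : d * d ^ a < c := by nlinarith
      have h7 : n2 (Dop T (R h)) = 0 := by
        by_contra hne
        have hpos : 0 < n2 (Dop T (R h)) := lt_of_le_of_ne (h0 _) (Ne.symm hne)
        nlinarith
      rw [h7, mul_zero]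
      exact h0 _
  have hstep : ∀ (i : ℕ) (g : G), c ^ i * n2 (Dop T (R g)) ≤ n2 (Dop T (R ((stepG σ)^[i] g))) := by
    intro i g
    induction i with
    | zero => simp
    | succ i ih =>
      rw [Function.iterate_succ_apply']
      refine le_trans ?_ (hstep1 _)
      rw [pow_succ, mul_comm (c ^ i) c, mul_assoc]
      exact mul_le_mul_of_nonneg_left ih hc0.le
  have hqE : 0 < ‖(q : E)‖ := norm_pos_iff.2 P.qne
  have himp : ∀ M : ℝ, 0 ≤ M → (∀ g, n2 (Dop T (R g)) ≤ M) →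
      ∀ g, n2 (Dop T (R g)) ≤ M * (d / c) ^ a := by
    intro M hM hDM g
    have hphi := core_phi P.prime ha hd0 hd1 T R n2 P.ple hint h0 hadd hneg hmul hsmul hone hTi hr
      hM hDM
    have hga : n2 (Dop T (R ((stepG σ)^[a] g))) ≤ M * d ^ a := by
      rcases hM.eq_or_lt with hM0 | hM0
      · have := hDM ((stepG σ)^[a] g)
        rw [← hM0] at this ⊢
        simpa using this
      · obtain ⟨u, hu, hε⟩ := hF g (‖(q : E)‖ * (M * d ^ a)) (by positivity)
        have e1 : Dop T (R ((stepG σ)^[a] g)) =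
            Dop T (R ((stepG σ)^[a] g) - R u) + Dop T (R u) := by
          rw [Dop_sub3, sub_add_cancel]
        rw [e1]
        refine (hadd _ _).trans (max_le ?_ (hphi u hu))
        calc n2 (Dop T (R ((stepG σ)^[a] g) - R u)) ≤ n2 (R ((stepG σ)^[a] g) - R u) := hD _
          _ ≤ ‖(q : E)‖⁻¹ * U.N (R ((stepG σ)^[a] g) - R u) := hq _
          _ ≤ ‖(q : E)‖⁻¹ * (‖(q : E)‖ * (M * d ^ a)) := by gcongr
          _ = M * d ^ a := by field_simp
    have h1 := (hstep a g).trans hga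
    have hca : 0 < c ^ a := pow_pos hc0 a
    rw [div_pow, mul_div_assoc', le_div_iff₀ hca, mul_comm]
    exact h1
  have hiter : ∀ (n : ℕ) (g : G), n2 (Dop T (R g)) ≤ ((d / c) ^ a) ^ n := by
    intro n
    induction n with
    | zero =>
      intro g
      rw [pow_zero]
      refine (hDR g).trans ?_
      nlinarith
    | succ n ih =>
      have := himp _ (by positivity) ih
      intro g
      rw [pow_succ]
      exact this g
  intro g
  have hlt : (d / c) ^ a < 1 := by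
    refine pow_lt_one₀ (by positivity) ?_ (by omega)
    rw [div_lt_one hc0]
    exact hdc
  have hlim := tendsto_pow_atTop_nhds_zero_of_lt_one (r := (d / c) ^ a) (by positivity) hlt
  have hle : n2 (Dop T (R g)) ≤ 0 := ge_of_tendsto' hlim (fun n => hiter n g)
  have hN0 : U.N (Dop T (R g)) = 0 := le_antisymm ((hN _).trans hle) (U.nonneg' _)
  have := U.eq_zero' _ hN0
  rw [Dop, sub_eq_zero] at this
  exact this

end Pool.Agent.MPca71W
end

section
set_option autoImplicit false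

namespace Pool.Agent.MPca71W

variable {E : Type} {G : Type} [NormedField E] [Group G]

/-- C4: the core theorem for a matrix representation. -/
theorem repCore {p q a n : ℕ} {ζ : E} {c d : ℝ} (P : PData E p q a ζ c d)
    (r : G →* Matrix (Fin n) (Fin n) E) (σ : G ≃* G)
    (hper : ∀ h : G, r (σ^[q] h) = r h)
    (hr : ∀ h i j, ‖(r h - 1) i j‖ ≤ d ^ (2 * a - 1))
    (hF : ∀ h : G, ∀ ε : ℝ, 0 < ε → ∃ u ∈ PhiG p G, ∀ k < q, ∀ i j,
      ‖(r (σ^[k] ((stepG σ)^[a] h)) - r (σ^[k] u)) i j‖ ≤ ε) :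
    ∀ h : G, r (σ h) = r h := by
  intro h
  have hq0 : q ≠ 0 := by
    rintro rfl
    exact P.qne Nat.cast_zero
  by_cases hq1 : q = 1
  · have := hper h
    rw [hq1] at this
    simpa using this
  have hqn : NeZero q := ⟨hq0⟩
  have hq2 : 1 < q := by omega
  have hval1 : (1 : ZMod q).val = 1 := by
    have : Fact (1 < q) := ⟨hq2⟩
    exact ZMod.val_one q
  have key := core P (UF q n P.ultra) (TF E q n) (NF_TF q n) (by
      intro f
      funext i
      rw [TF_iter]
      simp) σ (RF r σ) (by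
      intro g
      funext i
      rw [TF_apply, RF_apply, RF_apply, ← Function.iterate_succ_apply]
      have h1 : (i + 1).val = (i.val + 1) % q := by
        rw [ZMod.val_add, hval1]
      rw [h1]
      have h2 : i.val < q := ZMod.val_lt i
      rcases Nat.lt_or_ge (i.val + 1) q with h3 | h3
      · rw [Nat.mod_eq_of_lt h3]
      · have h4 : i.val + 1 = q := by omega
        rw [h4, Nat.mod_self]
        have := hper g
        rw [Nat.succ_eq_add_one, h4, this]
        rfl) (by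
      intro g
      change NF E q n _ ≤ _
      rw [NF_le_iff q n _ (pow_nonneg P.dpos.le _)]
      intro i a b
      exact hr _ a b) (by
      intro g ε hε
      obtain ⟨u, hu, hu2⟩ := hF g ε hε
      refine ⟨u, hu, ?_⟩
      change NF E q n _ ≤ _
      rw [NF_le_iff q n _ hε.le]
      intro i a b
      exact hu2 i.val (ZMod.val_lt i) a b) h
  have h5 := congrFun key 0
  rw [TF_apply, RF_apply, RF_apply, zero_add, hval1, ZMod.val_zero] at h5
  exact h5

end Pool.Agent.MPca71W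
end

section
set_option autoImplicit false
open scoped NumberField

namespace Pool.Agent.MPca71W

section closedker

variable {p : ℕ} [Fact p.Prime] {K Ω : Type} [Field K] [NumberField K]
  [Field Ω] [Algebra K Ω] [IsAlgClosed Ω] [Algebra.IsAlgebraic K Ω]

/-- An inertial element of `Gal(Ω/K)` is in the kernel of an unramified representation. -/
theorem rho_inertial {n : ℕ}
    (ρ : (Ω ≃ₐ[K] Ω) →* Matrix.GeneralLinearGroup (Fin n) (PadicInt p)) (hc : Continuous ρ)
    (hu : UnrProP p K Ω ρ) (h : Ω ≃ₐ[K] Ω) (hI : Inertial Ω h.toRingEquiv) : ρ h = 1 := by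
  have : IsAlgClosure K Ω := ⟨inferInstance, inferInstance⟩
  have : IsGalois K Ω := by
    have : Normal K Ω := IsAlgClosure.normal K Ω
    exact ⟨⟩
  have hker : IsClosed ((ρ.ker : Subgroup (Ω ≃ₐ[K] Ω)) : Set (Ω ≃ₐ[K] Ω)) := by
    have : ((ρ.ker : Subgroup (Ω ≃ₐ[K] Ω)) : Set (Ω ≃ₐ[K] Ω)) = ρ ⁻¹' {1} := by
      ext x; simp [MonoidHom.mem_ker]
    rw [this]
    exact isClosed_singleton.preimage hc
  let Kc : ClosedSubgroup (Ω ≃ₐ[K] Ω) := ⟨ρ.ker, hker⟩
  have hfix : (IntermediateField.fixedField ρ.ker).fixingSubgroup = ρ.ker :=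
    InfiniteGalois.fixingSubgroup_fixedField Kc
  have hnorm : Normal K (IntermediateField.fixedField ρ.ker) := by
    have := (InfiniteGalois.normal_iff_isGalois (IntermediateField.fixedField ρ.ker)).1
      (by rw [hfix]; infer_instance)
    exact this.to_normal
  suffices h ∈ ρ.ker from MonoidHom.mem_ker.1 this
  rw [← hfix, IntermediateField.mem_fixingSubgroup_iff]
  intro x hx
  let x' : IntermediateField.fixedField ρ.ker := ⟨x, hx⟩
  -- the normal closure of `K(x)`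
  let L : IntermediateField K Ω := IntermediateField.normalClosure K (IntermediateField.adjoin K {x}) Ω
  have hint : IsIntegral K x := Algebra.IsIntegral.isIntegral x
  have : FiniteDimensional K (IntermediateField.adjoin K {x}) :=
    IntermediateField.adjoin.finiteDimensional hint
  have hLfin : FiniteDimensional K L := inferInstance
  have hLnorm : Normal K L := inferInstance
  have hLG : IsGalois K L := ⟨⟩
  have hxL : x ∈ L := by
    have h1 : x ∈ IntermediateField.adjoin K {x} := IntermediateField.mem_adjoin_simple_self K x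
    exact (IntermediateField.le_normalClosure (IntermediateField.adjoin K {x})) h1
  have hLle : L ≤ IntermediateField.fixedField ρ.ker := by
    have h1 : IntermediateField.adjoin K {x} ≤ IntermediateField.fixedField ρ.ker := by
      rw [IntermediateField.adjoin_simple_le_iff]; exact hx
    exact (IntermediateField.normalClosure_le_iff_of_normal).2 h1
  obtain ⟨-, hunr⟩ := hu L hLle hLfin hLG
  exact inertial_fixes L hunr h hI ⟨x, hxL⟩

end closedker

section maps

variable (p : ℕ) [Fact p.Prime]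

/-- The embedding `ℤ_p → ℚ̄_p`. -/
noncomputable def emb : ℤ_[p] →+* PadicAlgCl p :=
  (algebraMap ℚ_[p] (PadicAlgCl p)).comp PadicInt.Coe.ringHom

theorem emb_norm (x : ℤ_[p]) : ‖emb p x‖ = ‖x‖ := by
  change ‖algebraMap ℚ_[p] (PadicAlgCl p) (x : ℚ_[p])‖ = ‖x‖
  have := PadicAlgCl.norm_extends p (x : ℚ_[p])
  simpa using this

theorem emb_inj : Function.Injective (emb p) := by
  intro x y hxy
  have : ‖emb p (x - y)‖ = 0 := by rw [map_sub, hxy, sub_self, norm_zero]
  rw [emb_norm] at this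
  exact sub_eq_zero.1 (norm_eq_zero.1 this)

/-- entrywise ultrametric bound for a product of three matrices -/
theorem mul3_bound {n : ℕ} (A A' : Matrix (Fin n) (Fin n) (PadicAlgCl p)) :
    ∃ C : ℝ, 0 < C ∧ ∀ (Z : Matrix (Fin n) (Fin n) (PadicAlgCl p)) (δ : ℝ), 0 ≤ δ →
      (∀ i j, ‖Z i j‖ ≤ δ) → ∀ i j, ‖(A * Z * A') i j‖ ≤ C * δ := by
  obtain ⟨C1, hC1⟩ : ∃ C1 : ℝ, ∀ i j, ‖A i j‖ ≤ C1 := by
    refine ⟨∑ i, ∑ j, ‖A i j‖, fun i j => ?_⟩
    refine le_trans ?_ (Finset.single_le_sum (f := fun i => ∑ j, ‖A i j‖)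
      (fun i _ => Finset.sum_nonneg fun j _ => norm_nonneg _) (Finset.mem_univ i))
    exact Finset.single_le_sum (f := fun j => ‖A i j‖) (fun j _ => norm_nonneg _)
      (Finset.mem_univ j)
  obtain ⟨C2, hC2⟩ : ∃ C2 : ℝ, ∀ i j, ‖A' i j‖ ≤ C2 := by
    refine ⟨∑ i, ∑ j, ‖A' i j‖, fun i j => ?_⟩
    refine le_trans ?_ (Finset.single_le_sum (f := fun i => ∑ j, ‖A' i j‖)
      (fun i _ => Finset.sum_nonneg fun j _ => norm_nonneg _) (Finset.mem_univ i))
    exact Finset.single_le_sum (f := fun j => ‖A' i j‖) (fun j _ => norm_nonneg _)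
      (Finset.mem_univ j)
  refine ⟨(n * n) * (max C1 0 * max C2 0) + 1, by positivity, fun Z δ hδ hZ i j => ?_⟩
  have h1 : ‖(A * Z * A') i j‖ ≤ ∑ l : Fin n, ∑ k : Fin n, max C1 0 * δ * max C2 0 := by
    rw [Matrix.mul_apply]
    refine (norm_sum_le _ _).trans (Finset.sum_le_sum fun l _ => ?_)
    rw [norm_mul, Matrix.mul_apply]
    refine (mul_le_mul_of_nonneg_right (norm_sum_le _ _) (norm_nonneg _)).trans ?_
    rw [Finset.sum_mul]
    refine Finset.sum_le_sum fun k _ => ?_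
    rw [norm_mul]
    exact mul_le_mul (mul_le_mul ((hC1 _ _).trans (le_max_left _ _)) (hZ _ _) (norm_nonneg _)
      (le_max_right _ _)) ((hC2 _ _).trans (le_max_left _ _)) (norm_nonneg _)
      (mul_nonneg (le_max_right _ _) hδ)
  refine h1.trans ?_
  simp only [Finset.sum_const, Finset.card_univ, Fintype.card_fin, nsmul_eq_mul]
  nlinarith

end maps

section conj

variable {F K Ω : Type} [Field F] [Field K] [Algebra F K]
  [Field Ω] [Algebra F Ω] [Algebra K Ω] [IsScalarTower F K Ω]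

theorem inertial_congr {f g : Ω ≃+* Ω} (h : ∀ x, f x = g x) (hf : Inertial Ω f) :
    Inertial Ω g := by
  obtain ⟨Q, hQ, hx⟩ := hf
  refine ⟨Q, hQ, fun x => ?_⟩
  obtain ⟨y, hy, he⟩ := hx x
  exact ⟨y, hy, by rw [← he, h]⟩

theorem sigma_iter (τ : Ω ≃ₐ[F] Ω) (σ : (Ω ≃ₐ[K] Ω) ≃* (Ω ≃ₐ[K] Ω))
    (hσ : ∀ (h : Ω ≃ₐ[K] Ω) (x : Ω), σ h x = τ⁻¹ (h (τ x))) (k : ℕ) (h : Ω ≃ₐ[K] Ω) (x : Ω) :
    (σ^[k] h) x = (τ ^ k)⁻¹ (h ((τ ^ k) x)) := by
  induction k generalizing x with
  | zero => simp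
  | succ k ih =>
    rw [Function.iterate_succ_apply', hσ, ih, pow_succ, mul_inv_rev, AlgEquiv.mul_apply,
      AlgEquiv.mul_apply]

theorem inertial_sigma (τ : Ω ≃ₐ[F] Ω) (σ : (Ω ≃ₐ[K] Ω) ≃* (Ω ≃ₐ[K] Ω))
    (hσ : ∀ (h : Ω ≃ₐ[K] Ω) (x : Ω), σ h x = τ⁻¹ (h (τ x))) (k : ℕ) (h : Ω ≃ₐ[K] Ω)
    (hI : Inertial Ω h.toRingEquiv) : Inertial Ω (σ^[k] h).toRingEquiv := by
  have h1 : Inertial Ω (h.restrictScalars F).toRingEquiv := inertial_congr (fun x => rfl) hI
  have h2 := inertial_conj (τ ^ k)⁻¹ (h.restrictScalars F) h1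
  refine inertial_congr (fun x => ?_) h2
  change (((τ ^ k)⁻¹ * (h.restrictScalars F) * (τ ^ k)⁻¹⁻¹) x) = (σ^[k] h) x
  rw [sigma_iter τ σ hσ, inv_inv, AlgEquiv.mul_apply, AlgEquiv.mul_apply]
  rfl

end conj

section inv

variable {F K Ω : Type} [Field F] [NumberField F] [Field K] [NumberField K] [Algebra F K]
  [Field Ω] [Algebra F Ω] [Algebra K Ω] [IsScalarTower F K Ω] [IsAlgClosed Ω]
  [Algebra.IsAlgebraic K Ω]

/-- The congruence subgroup `{x : ρ(σ^k x) ≡ 1 mod p^N for k < q}`. -/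
def congrSub (p : ℕ) [Fact p.Prime] {n : ℕ}
    (ρ : (Ω ≃ₐ[K] Ω) →* Matrix.GeneralLinearGroup (Fin n) (PadicInt p))
    (σ : (Ω ≃ₐ[K] Ω) ≃* (Ω ≃ₐ[K] Ω)) (q N : ℕ) : Subgroup (Ω ≃ₐ[K] Ω) where
  carrier := {x | ∀ k < q, ∀ i j, ‖((ρ (σ^[k] x) : Matrix (Fin n) (Fin n) ℤ_[p]) - 1) i j‖ ≤
    (p : ℝ) ^ (-(N : ℤ))}
  one_mem' := by
    intro k hk i j
    have h1 : σ^[k] (1 : Ω ≃ₐ[K] Ω) = 1 := by
      clear hk
      induction k with
      | zero => rfl
      | succ k ih => rw [Function.iterate_succ_apply', ih, map_one]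
    rw [h1, map_one]
    simp only [Units.val_one, sub_self, Matrix.zero_apply, norm_zero]
    positivity
  mul_mem' := by
    intro x y hx hy k hk i j
    have h1 : σ^[k] (x * y) = σ^[k] x * σ^[k] y := by
      clear hk
      induction k with
      | zero => rfl
      | succ k ih => rw [Function.iterate_succ_apply', ih, map_mul, Function.iterate_succ_apply',
          Function.iterate_succ_apply']
    rw [h1, map_mul, Units.val_mul]
    have h2 : (ρ (σ^[k] x) : Matrix (Fin n) (Fin n) ℤ_[p]) * (ρ (σ^[k] y)) - 1 =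
        ((ρ (σ^[k] x) : Matrix (Fin n) (Fin n) ℤ_[p]) - 1) * (ρ (σ^[k] y)) +
          ((ρ (σ^[k] y) : Matrix (Fin n) (Fin n) ℤ_[p]) - 1) := by noncomm_ring
    rw [h2, Matrix.add_apply]
    refine (PadicInt.nonarchimedean _ _).trans (max_le ?_ (hy k hk i j))
    rw [Matrix.mul_apply]
    refine IsUltrametricDist.norm_sum_le_of_forall_le_of_nonneg (by positivity) fun l _ => ?_
    rw [norm_mul]
    calc _ ≤ (p : ℝ) ^ (-(N : ℤ)) * 1 :=
          mul_le_mul (hx k hk i l) (PadicInt.norm_le_one _) (norm_nonneg _) (by positivity)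
      _ = _ := mul_one _
  inv_mem' := by
    intro x hx k hk i j
    have h1 : σ^[k] (x⁻¹) = (σ^[k] x)⁻¹ := by
      clear hk
      induction k with
      | zero => rfl
      | succ k ih => rw [Function.iterate_succ_apply', ih, map_inv, Function.iterate_succ_apply']
    rw [h1, map_inv]
    have h2 : ((ρ (σ^[k] x))⁻¹ : Matrix.GeneralLinearGroup (Fin n) (PadicInt p)).val - 1 =
        - (((ρ (σ^[k] x) : Matrix (Fin n) (Fin n) ℤ_[p]) - 1) *
          ((ρ (σ^[k] x))⁻¹ : Matrix.GeneralLinearGroup (Fin n) (PadicInt p)).val) := by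
      rw [sub_mul, one_mul, ← Units.val_mul, mul_inv_cancel, Units.val_one]
      abel
    rw [h2, Matrix.neg_apply, norm_neg, Matrix.mul_apply]
    refine IsUltrametricDist.norm_sum_le_of_forall_le_of_nonneg (by positivity) fun l _ => ?_
    rw [norm_mul]
    calc _ ≤ (p : ℝ) ^ (-(N : ℤ)) * 1 :=
          mul_le_mul (hx k hk i l) (PadicInt.norm_le_one _) (norm_nonneg _) (by positivity)
      _ = _ := mul_one _

theorem sigma_iter_mul (σ : (Ω ≃ₐ[K] Ω) ≃* (Ω ≃ₐ[K] Ω)) (k : ℕ) (x y : Ω ≃ₐ[K] Ω) :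
    σ^[k] (x * y) = σ^[k] x * σ^[k] y := by
  induction k with
  | zero => rfl
  | succ k ih => rw [Function.iterate_succ_apply', ih, map_mul, Function.iterate_succ_apply',
      Function.iterate_succ_apply']

theorem sigma_iter_inv (σ : (Ω ≃ₐ[K] Ω) ≃* (Ω ≃ₐ[K] Ω)) (k : ℕ) (x : Ω ≃ₐ[K] Ω) :
    σ^[k] (x⁻¹) = (σ^[k] x)⁻¹ := by
  induction k with
  | zero => rfl
  | succ k ih => rw [Function.iterate_succ_apply', ih, map_inv, Function.iterate_succ_apply']

theorem congrSub_normal (p : ℕ) [Fact p.Prime] {n : ℕ}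
    (ρ : (Ω ≃ₐ[K] Ω) →* Matrix.GeneralLinearGroup (Fin n) (PadicInt p))
    (σ : (Ω ≃ₐ[K] Ω) ≃* (Ω ≃ₐ[K] Ω)) (q N : ℕ) : (congrSub p ρ σ q N).Normal := by
  constructor
  intro x hx g k hk i j
  rw [sigma_iter_mul, sigma_iter_mul, sigma_iter_inv, map_mul, map_mul, map_inv]
  have h2 : ((ρ (σ^[k] g) * ρ (σ^[k] x) * (ρ (σ^[k] g))⁻¹ :
      Matrix.GeneralLinearGroup (Fin n) (PadicInt p)) : Matrix (Fin n) (Fin n) ℤ_[p]) - 1 =
      (ρ (σ^[k] g) : Matrix (Fin n) (Fin n) ℤ_[p]) *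
        ((ρ (σ^[k] x) : Matrix (Fin n) (Fin n) ℤ_[p]) - 1) *
        ((ρ (σ^[k] g))⁻¹ : Matrix.GeneralLinearGroup (Fin n) (PadicInt p)).val := by
    have h3 : (ρ (σ^[k] g) : Matrix (Fin n) (Fin n) ℤ_[p]) *
        ((ρ (σ^[k] g))⁻¹ : Matrix.GeneralLinearGroup (Fin n) (PadicInt p)).val = 1 :=
      Units.mul_inv _
    rw [Units.val_mul, Units.val_mul, mul_sub, sub_mul, mul_one, h3]
  rw [h2, Matrix.mul_apply]
  refine IsUltrametricDist.norm_sum_le_of_forall_le_of_nonneg (by positivity) fun l _ => ?_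
  rw [norm_mul, Matrix.mul_apply]
  calc _ ≤ (p : ℝ) ^ (-(N : ℤ)) * 1 := by
        refine mul_le_mul ?_ (PadicInt.norm_le_one _) (norm_nonneg _) (by positivity)
        refine IsUltrametricDist.norm_sum_le_of_forall_le_of_nonneg (by positivity) fun l' _ => ?_
        rw [norm_mul]
        calc _ ≤ 1 * (p : ℝ) ^ (-(N : ℤ)) :=
              mul_le_mul (PadicInt.norm_le_one _) (hx k hk _ _) (norm_nonneg _) zero_le_one
          _ = _ := one_mul _
    _ = _ := mul_one _

theorem congrSub_open (p : ℕ) [Fact p.Prime] {n : ℕ}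
    (ρ : (Ω ≃ₐ[K] Ω) →* Matrix.GeneralLinearGroup (Fin n) (PadicInt p)) (hc : Continuous ρ)
    (σ : (Ω ≃ₐ[K] Ω) ≃* (Ω ≃ₐ[K] Ω)) (hσc : Continuous σ) (q N : ℕ) :
    IsOpen ((congrSub p ρ σ q N : Subgroup (Ω ≃ₐ[K] Ω)) : Set (Ω ≃ₐ[K] Ω)) := by
  have hp : (0 : ℝ) < p := by exact_mod_cast (Fact.out : p.Prime).pos
  refine Subgroup.isOpen_of_mem_nhds _ (g := 1) ?_
  have h1 : ∀ k : ℕ, ∀ i j : Fin n, ∀ᶠ x in nhds (1 : Ω ≃ₐ[K] Ω),
      ‖((ρ (σ^[k] x) : Matrix (Fin n) (Fin n) ℤ_[p]) - 1) i j‖ < (p : ℝ) ^ (-(N : ℤ)) := by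
    intro k i j
    have hcont : Continuous fun x : Ω ≃ₐ[K] Ω =>
        ‖((ρ (σ^[k] x) : Matrix (Fin n) (Fin n) ℤ_[p]) - 1) i j‖ := by
      have e1 : Continuous fun x : Ω ≃ₐ[K] Ω => ρ (σ^[k] x) := hc.comp (hσc.iterate k)
      have e2 : Continuous fun x : Ω ≃ₐ[K] Ω =>
          (ρ (σ^[k] x) : Matrix (Fin n) (Fin n) ℤ_[p]) := Units.continuous_val.comp e1
      have e3 : Continuous fun x : Ω ≃ₐ[K] Ω =>
          (ρ (σ^[k] x) : Matrix (Fin n) (Fin n) ℤ_[p]) i j :=
        (continuous_apply j).comp ((continuous_apply i).comp e2)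
      simp only [Matrix.sub_apply]
      exact (e3.sub continuous_const).norm
    have h0 : ‖((ρ (σ^[k] (1 : Ω ≃ₐ[K] Ω)) : Matrix (Fin n) (Fin n) ℤ_[p]) - 1) i j‖ <
        (p : ℝ) ^ (-(N : ℤ)) := by
      have h1 : σ^[k] (1 : Ω ≃ₐ[K] Ω) = 1 := by
        induction k with
        | zero => rfl
        | succ k ih =>
          have := sigma_iter_mul σ (k+1) (1 : Ω ≃ₐ[K] Ω) 1
          rw [mul_one] at this
          exact (mul_eq_left.1 this.symm)
      rw [h1, map_one]
      simp only [Units.val_one, sub_self, Matrix.zero_apply, norm_zero]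
      positivity
    exact hcont.continuousAt.eventually_lt continuousAt_const h0
  have h2 : ∀ᶠ x in nhds (1 : Ω ≃ₐ[K] Ω), ∀ k ∈ Finset.range q, ∀ i ∈ (Finset.univ : Finset (Fin n)),
      ∀ j ∈ (Finset.univ : Finset (Fin n)),
      ‖((ρ (σ^[k] x) : Matrix (Fin n) (Fin n) ℤ_[p]) - 1) i j‖ < (p : ℝ) ^ (-(N : ℤ)) := by
    rw [Filter.eventually_all_finset]
    intro k _
    rw [Filter.eventually_all_finset]
    intro i _
    rw [Filter.eventually_all_finset]
    intro j _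
    exact h1 k i j
  filter_upwards [h2] with x hx k hk i j
  exact (hx k (Finset.mem_range.2 hk) i (Finset.mem_univ _) j (Finset.mem_univ _)).le

/-- The main theorem, Part 1: `ρ` is invariant under conjugation by inertial elements of
`Gal(Ω/F)`. -/
theorem invariant_main (p q : ℕ) [Fact p.Prime] (hp2 : p ≠ 2) [IsGalois F K] (hq0 : q ≠ 0)
    (hdeg : Module.finrank F K = q) (a m n : ℕ) (ha : 1 ≤ a) (hm : 1 ≤ m)
    (ham : m * (2 * a - 1) + 1 < p)
    (ρ : (Ω ≃ₐ[K] Ω) →* Matrix.GeneralLinearGroup (Fin n) (PadicInt p)) (hc : Continuous ρ)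
    (hu : UnrProP p K Ω ρ)
    (hN : ∀ f : Fin m → (Ω ≃ₐ[K] Ω), ∀ i j, (p : ℤ_[p]) ∣
      (List.ofFn (fun s => ((ρ (f s) : Matrix (Fin n) (Fin n) ℤ_[p]) - 1))).prod i j)
    (τ : Ω ≃ₐ[F] Ω) (hτ : Inertial Ω τ.toRingEquiv)
    (σ : (Ω ≃ₐ[K] Ω) ≃* (Ω ≃ₐ[K] Ω))
    (hσ : ∀ (h : Ω ≃ₐ[K] Ω) (x : Ω), σ h x = τ⁻¹ (h (τ x)))
    (hX : ∀ χ : (Ω ≃ₐ[K] Ω) →* Multiplicative (ZMod p),
      IsOpen (χ.ker : Set (Ω ≃ₐ[K] Ω)) → (∀ h : Ω ≃ₐ[K] Ω, Inertial Ω h.toRingEquiv → χ h = 1) →
      ∀ h : Ω ≃ₐ[K] Ω, χ ((stepG σ)^[a] h) = 1)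
    (h : Ω ≃ₐ[K] Ω) :
    ρ (σ h) = ρ h := by
  have hKacl : IsAlgClosure K Ω := ⟨inferInstance, inferInstance⟩
  have : FiniteDimensional F K := by
    refine Module.finite_of_finrank_pos ?_
    rw [hdeg]; exact Nat.pos_of_ne_zero hq0
  have : Algebra.IsAlgebraic F Ω := Algebra.IsAlgebraic.trans F K Ω
  have hFacl : IsAlgClosure F Ω := ⟨inferInstance, inferInstance⟩
  have : Normal F Ω := IsAlgClosure.normal F Ω
  have hσc : Continuous σ := continuous_sigma τ σ hσ
  obtain ⟨t, ht⟩ := exists_pow_eq (K := K) τ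
  rw [hdeg] at ht
  have htI : Inertial Ω t.toRingEquiv := by
    refine inertial_congr (fun x => ?_) (inertial_pow τ hτ q)
    exact (ht x).symm
  have hρt : ρ t = 1 := rho_inertial ρ hc hu t htI
  have hσq : ∀ y : Ω ≃ₐ[K] Ω, σ^[q] y = t⁻¹ * y * t := by
    intro y
    ext x
    rw [sigma_iter τ σ hσ, AlgEquiv.mul_apply, AlgEquiv.mul_apply, ht]
    have h1 : ∀ z, (τ ^ q)⁻¹ z = t⁻¹ z := by
      intro z
      obtain ⟨w, rfl⟩ : ∃ w, z = (τ ^ q) w := ⟨(τ ^ q)⁻¹ z, by
        rw [← AlgEquiv.mul_apply, mul_inv_cancel, AlgEquiv.one_apply]⟩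
      rw [← AlgEquiv.mul_apply, inv_mul_cancel, AlgEquiv.one_apply, ← ht,
        ← AlgEquiv.mul_apply, inv_mul_cancel, AlgEquiv.one_apply]
    exact h1 _
  obtain ⟨ζ, ϖ, c, d, P, hϖ, hϖn⟩ := exists_data p hp2 a m q hq0 ha hm ham
  obtain ⟨A, A', hAA', hA'A, hconj⟩ := exists_conj p hm
    {s : Matrix (Fin n) (Fin n) ℤ_[p] | ∃ y : Ω ≃ₐ[K] Ω, s = (ρ y : Matrix (Fin n) (Fin n) ℤ_[p]) - 1}
    (by
      intro f hf i j
      choose g hg using hf
      have : f = fun s => ((ρ (g s) : Matrix (Fin n) (Fin n) ℤ_[p]) - 1) := funext hg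
      rw [this]
      exact hN g i j) ϖ hϖ
  have hmapeq : ∀ s : Matrix (Fin n) (Fin n) ℤ_[p],
      s.map (fun z => algebraMap ℚ_[p] (PadicAlgCl p) (z : ℚ_[p])) = s.map (emb p) := fun s => rfl
  -- the representation over `E`
  let R : (Ω ≃ₐ[K] Ω) →* Matrix (Fin n) (Fin n) (PadicAlgCl p) :=
    { toFun := fun y => A * (ρ y : Matrix (Fin n) (Fin n) ℤ_[p]).map (emb p) * A'
      map_one' := by
        rw [map_one, Units.val_one, Matrix.map_one _ (map_zero _) (map_one _), mul_one, hAA']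
      map_mul' := by
        intro x y
        rw [map_mul, Units.val_mul, Matrix.map_mul]
        calc _ = A * ((ρ x : Matrix (Fin n) (Fin n) ℤ_[p]).map (emb p) * (A' * A) *
              (ρ y : Matrix (Fin n) (Fin n) ℤ_[p]).map (emb p)) * A' := by rw [hA'A, mul_one]
          _ = _ := by noncomm_ring }
  have hRdef : ∀ y, R y = A * (ρ y : Matrix (Fin n) (Fin n) ℤ_[p]).map (emb p) * A' := fun y => rfl
  have hRsub : ∀ y, R y - 1 = A * ((ρ y : Matrix (Fin n) (Fin n) ℤ_[p]) - 1).map (emb p) * A' := by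
    intro y
    rw [hRdef, Matrix.map_sub _ (map_sub _), Matrix.map_one _ (map_zero _) (map_one _), mul_sub,
      sub_mul, mul_one, hAA']
  have hRn : ∀ y i j, ‖(R y - 1) i j‖ ≤ d ^ (2 * a - 1) := by
    intro y i j
    rw [hRsub, ← hϖn, ← hmapeq]
    exact hconj _ ⟨y, rfl⟩ i j
  have hper : ∀ y, R (σ^[q] y) = R y := by
    intro y
    rw [hRdef, hRdef, hσq, map_mul, map_mul, map_inv, hρt, inv_one, one_mul, mul_one]
  obtain ⟨C, hC0, hC⟩ := mul3_bound p A A'
  have hR1 : ∀ y i j, ‖((ρ y : Matrix (Fin n) (Fin n) ℤ_[p]).map (emb p)) i j‖ ≤ 1 := by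
    intro y i j
    rw [Matrix.map_apply, emb_norm]; exact PadicInt.norm_le_one _
  have hF : ∀ y : Ω ≃ₐ[K] Ω, ∀ ε : ℝ, 0 < ε → ∃ u ∈ PhiG p (Ω ≃ₐ[K] Ω), ∀ k < q, ∀ i j,
      ‖(R (σ^[k] ((stepG σ)^[a] y)) - R (σ^[k] u)) i j‖ ≤ ε := by
    intro y ε hε
    have hp1 : (1 : ℝ) < p := by exact_mod_cast (Fact.out : p.Prime).one_lt
    have hp0 : (0 : ℝ) < p := by linarith
    obtain ⟨N, hN'⟩ : ∃ N : ℕ, C * (p : ℝ) ^ (-(N : ℤ)) ≤ ε := by
      obtain ⟨N, hN'⟩ := pow_unbounded_of_one_lt (C / ε) hp1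
      refine ⟨N, ?_⟩
      rw [zpow_neg, zpow_natCast, ← div_eq_mul_inv, div_le_iff₀ (by positivity)]
      rw [div_lt_iff₀ hε] at hN'
      linarith
    have hU := congrSub_normal p ρ σ q N
    have hmem : (stepG σ)^[a] y ∈ congrSub p ρ σ q N ⊔ PhiG p (Ω ≃ₐ[K] Ω) := by
      by_contra hne
      obtain ⟨χ, hχ1, hχ2⟩ := exists_char p (congrSub p ρ σ q N) _ hne
      apply hχ2
      refine hX χ ?_ ?_ y
      · exact Subgroup.isOpen_mono hχ1 (congrSub_open p ρ hc σ hσc q N)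
      · intro g hg
        apply hχ1
        intro k hk i j
        rw [rho_inertial ρ hc hu _ (inertial_sigma τ σ hσ k g hg)]
        simp only [Units.val_one, sub_self, Matrix.zero_apply, norm_zero]
        positivity
    obtain ⟨u0, hu0, u, hu', he⟩ := Subgroup.mem_sup_of_normal_left.1 hmem
    refine ⟨u, hu', fun k hk i j => ?_⟩
    rw [← he, sigma_iter_mul, map_mul]
    have h2 : R (σ^[k] u0) * R (σ^[k] u) - R (σ^[k] u) =
        A * ((((ρ (σ^[k] u0) : Matrix (Fin n) (Fin n) ℤ_[p]) - 1).map (emb p)) *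
          (ρ (σ^[k] u) : Matrix (Fin n) (Fin n) ℤ_[p]).map (emb p)) * A' := by
      have h3 : R (σ^[k] u0) * R (σ^[k] u) - R (σ^[k] u) =
        (R (σ^[k] u0) - 1) * R (σ^[k] u) := by noncomm_ring
      rw [h3, hRsub, hRdef]
      calc _ = A * ((((ρ (σ^[k] u0) : Matrix (Fin n) (Fin n) ℤ_[p]) - 1).map (emb p)) * (A' * A) *
          (ρ (σ^[k] u) : Matrix (Fin n) (Fin n) ℤ_[p]).map (emb p)) * A' := by noncomm_ring
        _ = _ := by rw [hA'A, mul_one]
    rw [h2]
    refine (hC _ ((p : ℝ) ^ (-(N : ℤ))) (by positivity) ?_ i j).trans hN'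
    intro i j
    rw [Matrix.mul_apply]
    refine IsUltrametricDist.norm_sum_le_of_forall_le_of_nonneg (by positivity) fun l _ => ?_
    rw [norm_mul]
    calc _ ≤ (p : ℝ) ^ (-(N : ℤ)) * 1 := by
          refine mul_le_mul ?_ (hR1 _ _ _) (norm_nonneg _) (by positivity)
          rw [Matrix.map_apply, emb_norm]
          exact hu0 k hk i l
      _ = _ := mul_one _
  have hfin := repCore P R σ hper hRn hF h
  -- back to `ρ`
  rw [hRdef, hRdef] at hfin
  have h5 : A' * (A * (ρ (σ h) : Matrix (Fin n) (Fin n) ℤ_[p]).map (emb p) * A') * A =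
      A' * (A * (ρ h : Matrix (Fin n) (Fin n) ℤ_[p]).map (emb p) * A') * A := by rw [hfin]
  have h6 : ∀ Z : Matrix (Fin n) (Fin n) (PadicAlgCl p), A' * (A * Z * A') * A = Z := by
    intro Z
    calc _ = (A' * A) * Z * (A' * A) := by noncomm_ring
      _ = Z := by rw [hA'A, one_mul, mul_one]
  rw [h6, h6] at h5
  apply Units.ext
  ext i j
  have h7 := congrFun (congrFun h5 i) j
  rw [Matrix.map_apply, Matrix.map_apply] at h7
  exact emb_inj p h7

end inv

end Pool.Agent.MPca71W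
end

section
set_option autoImplicit false
open scoped NumberField

namespace Pool.Agent.MPca71W

/-- The image of `ρ` is torsion free if `(N)_m` holds with `m < p - 1`. -/
theorem rho_torsion_free (p : ℕ) [Fact p.Prime] (hp2 : p ≠ 2) (a m n : ℕ) (ha : 1 ≤ a) (hm : 1 ≤ m)
    (ham : m * (2 * a - 1) + 1 < p) {G : Type} [Group G]
    (ρ : G →* Matrix.GeneralLinearGroup (Fin n) (PadicInt p))
    (hN : ∀ f : Fin m → G, ∀ i j, (p : ℤ_[p]) ∣
      (List.ofFn (fun s => ((ρ (f s) : Matrix (Fin n) (Fin n) ℤ_[p]) - 1))).prod i j)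
    (h : G) (s : ℕ) (hs0 : s ≠ 0) (hs : ρ h ^ s = 1) : ρ h = 1 := by
  obtain ⟨ζ, ϖ, c, d, P, hϖ, hϖn⟩ := exists_data p hp2 a m 1 one_ne_zero ha hm ham
  obtain ⟨A, A', hAA', hA'A, hconj⟩ := exists_conj p hm
    {s : Matrix (Fin n) (Fin n) ℤ_[p] | ∃ y : G, s = (ρ y : Matrix (Fin n) (Fin n) ℤ_[p]) - 1}
    (by
      intro f hf i j
      choose g hg using hf
      have : f = fun s => ((ρ (g s) : Matrix (Fin n) (Fin n) ℤ_[p]) - 1) := funext hg
      rw [this]
      exact hN g i j) ϖ hϖ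
  have hmapeq : ∀ s : Matrix (Fin n) (Fin n) ℤ_[p],
      s.map (fun z => algebraMap ℚ_[p] (PadicAlgCl p) (z : ℚ_[p])) = s.map (emb p) := fun s => rfl
  let R : G →* Matrix (Fin n) (Fin n) (PadicAlgCl p) :=
    { toFun := fun y => A * (ρ y : Matrix (Fin n) (Fin n) ℤ_[p]).map (emb p) * A'
      map_one' := by
        rw [map_one, Units.val_one, Matrix.map_one _ (map_zero _) (map_one _), mul_one, hAA']
      map_mul' := by
        intro x y
        rw [map_mul, Units.val_mul, Matrix.map_mul]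
        calc _ = A * ((ρ x : Matrix (Fin n) (Fin n) ℤ_[p]).map (emb p) * (A' * A) *
              (ρ y : Matrix (Fin n) (Fin n) ℤ_[p]).map (emb p)) * A' := by rw [hA'A, mul_one]
          _ = _ := by noncomm_ring }
  have hRdef : ∀ y, R y = A * (ρ y : Matrix (Fin n) (Fin n) ℤ_[p]).map (emb p) * A' := fun y => rfl
  have hRsub : ∀ y, R y - 1 = A * ((ρ y : Matrix (Fin n) (Fin n) ℤ_[p]) - 1).map (emb p) * A' := by
    intro y
    rw [hRdef, Matrix.map_sub _ (map_sub _), Matrix.map_one _ (map_zero _) (map_one _), mul_sub,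
      sub_mul, mul_one, hAA']
  have hRn : ∀ y i j, ‖(R y - 1) i j‖ ≤ d ^ (2 * a - 1) := by
    intro y i j
    rw [hRsub, ← hϖn, ← hmapeq]
    exact hconj _ ⟨y, rfl⟩ i j
  have hpow : R h ^ s = 1 := by
    rw [← map_pow, hRdef, map_pow, hs, Units.val_one, Matrix.map_one _ (map_zero _) (map_one _),
      mul_one, hAA']
  have hR1 := torsion_free_all P (R h) (hRn h) s hs0 hpow
  rw [hRdef] at hR1
  have h6 : (ρ h : Matrix (Fin n) (Fin n) ℤ_[p]).map (emb p) = 1 := by
    calc _ = (A' * A) * (ρ h : Matrix (Fin n) (Fin n) ℤ_[p]).map (emb p) * (A' * A) := by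
          rw [hA'A, one_mul, mul_one]
      _ = A' * (A * (ρ h : Matrix (Fin n) (Fin n) ℤ_[p]).map (emb p) * A') * A := by noncomm_ring
      _ = 1 := by rw [hR1, mul_one, hA'A]
  apply Units.ext
  ext i j
  have h7 := congrFun (congrFun h6 i) j
  rw [Matrix.map_apply] at h7
  rw [Units.val_one]
  apply emb_inj p
  rw [h7]
  by_cases hij : i = j
  · subst hij; simp
  · simp [Matrix.one_apply_ne hij]

section rs

variable {F K Ω : Type} [Field F] [NumberField F] [Field K] [NumberField K] [Algebra F K]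
  [Field Ω] [Algebra F Ω] [Algebra K Ω] [IsScalarTower F K Ω] [IsAlgClosed Ω]
  [Algebra.IsAlgebraic K Ω]

/-- The image of `Gal(Ω/K)` in `Gal(Ω/F)`. -/
noncomputable def HK (F K Ω : Type) [Field F] [Field K] [Algebra F K]
    [Field Ω] [Algebra F Ω] [Algebra K Ω] [IsScalarTower F K Ω] : Subgroup (Ω ≃ₐ[F] Ω) :=
  (AlgEquiv.restrictScalarsHom F : (Ω ≃ₐ[K] Ω) →* (Ω ≃ₐ[F] Ω)).range

omit [NumberField F] [NumberField K] [IsAlgClosed Ω] [Algebra.IsAlgebraic K Ω] in
theorem mem_HK (g : Ω ≃ₐ[F] Ω) : g ∈ HK F K Ω ↔ ∀ x : K, g (algebraMap K Ω x) = algebraMap K Ω x := by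
  constructor
  · rintro ⟨h, rfl⟩ x
    exact h.commutes x
  · intro h
    exact ⟨{ g with commutes' := h }, by ext x; rfl⟩

omit [NumberField F] [NumberField K] [IsAlgClosed Ω] [Algebra.IsAlgebraic K Ω] in
theorem HK_eq_fixing : HK F K Ω = (IsScalarTower.toAlgHom F K Ω).fieldRange.fixingSubgroup := by
  ext g
  rw [mem_HK, IntermediateField.mem_fixingSubgroup_iff]
  constructor
  · rintro h x ⟨y, rfl⟩
    exact h y
  · intro h x
    exact h _ ⟨x, rfl⟩

/-- `K` as an intermediate field is `F`-isomorphic to `K`. -/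
noncomputable def Kequiv (F K Ω : Type) [Field F] [Field K] [Algebra F K]
    [Field Ω] [Algebra F Ω] [Algebra K Ω] [IsScalarTower F K Ω] :
    K ≃ₐ[F] (IsScalarTower.toAlgHom F K Ω).fieldRange :=
  AlgEquiv.ofInjectiveField (IsScalarTower.toAlgHom F K Ω)

theorem HK_normal [IsGalois F K] : (HK F K Ω).Normal := by
  have : Algebra.IsAlgebraic F K := inferInstance
  have : Algebra.IsAlgebraic F Ω := Algebra.IsAlgebraic.trans F K Ω
  have hG : IsGalois F Ω := isGalois_acl
  rw [HK_eq_fixing]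
  have : IsGalois F (IsScalarTower.toAlgHom F K Ω).fieldRange :=
    IsGalois.of_algEquiv (Kequiv F K Ω)
  rw [InfiniteGalois.normal_iff_isGalois]
  exact this

theorem HK_index [IsGalois F K] : (HK F K Ω).index = Module.finrank F K := by
  have : Algebra.IsAlgebraic F K := inferInstance
  have : Algebra.IsAlgebraic F Ω := Algebra.IsAlgebraic.trans F K Ω
  have hG : IsGalois F Ω := isGalois_acl
  rw [HK_eq_fixing, ← IntermediateField.finrank_eq_fixingSubgroup_index]
  exact (LinearEquiv.finrank_eq (Kequiv F K Ω).toLinearEquiv).symm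

theorem HK_open [FiniteDimensional F K] : IsOpen (HK F K Ω : Set (Ω ≃ₐ[F] Ω)) := by
  have : Algebra.IsAlgebraic F K := inferInstance
  have : Algebra.IsAlgebraic F Ω := Algebra.IsAlgebraic.trans F K Ω
  have hG : IsGalois F Ω := isGalois_acl
  rw [HK_eq_fixing]
  have : FiniteDimensional F (IsScalarTower.toAlgHom F K Ω).fieldRange :=
    (Kequiv F K Ω).toLinearEquiv.finiteDimensional
  exact IntermediateField.fixingSubgroup_isOpen _

/-- A subgroup of `Gal(Ω/F)` is open if its pull back to `Gal(Ω/K)` is open. -/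
theorem nhds_of_restrict [FiniteDimensional F K] (V : Set (Ω ≃ₐ[F] Ω))
    (hV : {h : Ω ≃ₐ[K] Ω | h.restrictScalars F ∈ V} ∈ nhds (1 : Ω ≃ₐ[K] Ω)) :
    V ∈ nhds (1 : Ω ≃ₐ[F] Ω) := by
  rw [krullTopology_mem_nhds_one_iff] at hV ⊢
  obtain ⟨E, hE, hEV⟩ := hV
  have h1 : FiniteDimensional F (E.restrictScalars F) := by
    have : FiniteDimensional F E := FiniteDimensional.trans F K E
    exact this
  refine ⟨E.restrictScalars F, h1, ?_⟩
  intro g hg
  have hg' := (IntermediateField.mem_fixingSubgroup_iff _ _).1 hg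
  have hgK : g ∈ HK F K Ω := by
    rw [mem_HK]
    intro x
    exact hg' _ (E.algebraMap_mem x)
  obtain ⟨h, rfl⟩ := hgK
  refine hEV ?_
  rw [SetLike.mem_coe, IntermediateField.mem_fixingSubgroup_iff]
  intro x hx
  exact hg' x hx

end rs

end Pool.Agent.MPca71W
end

section
set_option autoImplicit false
open scoped NumberField

namespace Pool.Agent.MPca71W

section ext

variable {F K Ω : Type} [Field F] [NumberField F] [Field K] [NumberField K] [Algebra F K]
  [Field Ω] [Algebra F Ω] [Algebra K Ω] [IsScalarTower F K Ω] [IsAlgClosed Ω]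
  [Algebra.IsAlgebraic K Ω]

/-- The extension theorem. -/
theorem ext_main (p : ℕ) [Fact p.Prime] (hp2 : p ≠ 2) [IsGalois F K]
    (a m n : ℕ) (ha : 1 ≤ a) (hm : 1 ≤ m)
    (ham : m * (2 * a - 1) + 1 < p) (hX : HypX p a F K Ω)
    (ρ : (Ω ≃ₐ[K] Ω) →* Matrix.GeneralLinearGroup (Fin n) (PadicInt p)) (hc : Continuous ρ)
    (hu : UnrProP p K Ω ρ)
    (hN : ∀ f : Fin m → (Ω ≃ₐ[K] Ω), ∀ i j, (p : ℤ_[p]) ∣
      (List.ofFn (fun s => ((ρ (f s) : Matrix (Fin n) (Fin n) ℤ_[p]) - 1))).prod i j)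
    (hnu : ∀ L : IntermediateField F Ω, L ≤ (IsScalarTower.toAlgHom F K Ω).fieldRange →
      IsGalois F L → 1 < Module.finrank F L → ¬ Algebra.Unramified (𝓞 F) (𝓞 L)) :
    ∃ ρ' : (Ω ≃ₐ[F] Ω) →* Matrix.GeneralLinearGroup (Fin n) (PadicInt p),
      Continuous ρ' ∧ UnrProP p F Ω ρ' ∧ (∀ h : Ω ≃ₐ[K] Ω, ρ' (h.restrictScalars F) = ρ h) ∧
        ρ'.range = ρ.range := by
  have hp : p.Prime := Fact.out
  have hfin : FiniteDimensional F K := FiniteDimensional.right ℚ F K
  obtain ⟨q, hdeg⟩ : ∃ q, Module.finrank F K = q := ⟨_, rfl⟩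
  have hq0 : q ≠ 0 := by rw [← hdeg]; exact Module.finrank_pos.ne'
  have : Algebra.IsAlgebraic F Ω := Algebra.IsAlgebraic.trans F K Ω
  have hGF : IsGalois F Ω := isGalois_acl
  have hGK : IsGalois K Ω := isGalois_acl
  have hHn : (HK F K Ω).Normal := HK_normal
  have hHi : (HK F K Ω).index = q := by rw [HK_index, hdeg]
  have hHo : IsOpen (HK F K Ω : Set (Ω ≃ₐ[F] Ω)) := HK_open
  have hinj : Function.Injective (AlgEquiv.restrictScalarsHom F : (Ω ≃ₐ[K] Ω) →* (Ω ≃ₐ[F] Ω)) :=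
    AlgEquiv.restrictScalarsHom_injective F
  let e : (Ω ≃ₐ[K] Ω) ≃* HK F K Ω := MonoidHom.ofInjective hinj
  have he : ∀ h : Ω ≃ₐ[K] Ω, ((e h : HK F K Ω) : Ω ≃ₐ[F] Ω) = h.restrictScalars F := fun h => rfl
  have hex : ∀ (h : HK F K Ω) (x : Ω), e.symm h x = (h : Ω ≃ₐ[F] Ω) x := by
    intro h x
    obtain ⟨h, rfl⟩ := e.surjective h
    rw [e.symm_apply_apply]; rfl
  let ρH : HK F K Ω →* Matrix.GeneralLinearGroup (Fin n) (PadicInt p) := ρ.comp e.symm.toMonoidHom
  have hρH : ∀ h, ρH h = ρ (e.symm h) := fun h => rfl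
  let S : Set (Ω ≃ₐ[F] Ω) := {g | Inertial Ω g.toRingEquiv}
  have hSconj : ∀ s ∈ S, ∀ g : Ω ≃ₐ[F] Ω, g * s * g⁻¹ ∈ S := fun s hs g => inertial_conj g s hs
  -- generation by inertia
  have hJn : (Subgroup.closure S).Normal := by
    constructor
    intro n hn g
    induction hn using Subgroup.closure_induction with
    | mem s hs => exact Subgroup.subset_closure (hSconj s hs g)
    | one => simp
    | mul a b _ _ iha ihb =>
      have : g * (a * b) * g⁻¹ = (g * a * g⁻¹) * (g * b * g⁻¹) := by group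
      rw [this]; exact (Subgroup.closure S).mul_mem iha ihb
    | inv a _ iha =>
      have : g * a⁻¹ * g⁻¹ = (g * a * g⁻¹)⁻¹ := by group
      rw [this]; exact (Subgroup.closure S).inv_mem iha
  have hgen : HK F K Ω ⊔ Subgroup.closure S = ⊤ := by
    by_contra hne
    have hn1 : (HK F K Ω ⊔ Subgroup.closure S).Normal := Subgroup.sup_normal _ _
    have hHM : HK F K Ω ≤ HK F K Ω ⊔ Subgroup.closure S := le_sup_left
    have hMo : IsOpen ((HK F K Ω ⊔ Subgroup.closure S : Subgroup (Ω ≃ₐ[F] Ω)) :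
        Set (Ω ≃ₐ[F] Ω)) := Subgroup.isOpen_mono hHM hHo
    obtain ⟨L, hL1, hL1', hL2, hL3, hL4, hL5⟩ := exists_unramified_of_open
      (HK F K Ω ⊔ Subgroup.closure S) hn1 hMo
      (fun h hh => Subgroup.mem_sup_right (Subgroup.subset_closure hh))
    have hLpos : 0 < Module.finrank F L := Module.finrank_pos
    have hL1ne : Module.finrank F L ≠ 1 := by
      rw [hL4]
      intro h1
      exact hne (Subgroup.index_eq_one.1 h1)
    refine hnu L ?_ hL3 (by omega) hL5
    have h2 : L ≤ IntermediateField.fixedField (HK F K Ω) := by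
      rw [hL1']; exact IntermediateField.fixedField_antitone hHM
    rw [HK_eq_fixing, InfiniteGalois.fixedField_fixingSubgroup] at h2
    exact h2
  obtain ⟨ρ', hρ'1, hρ'2⟩ := extend_hom q hq0 (HK F K Ω) hHi ρH
    (fun h s hs0 hs => rho_torsion_free p hp2 a m n ha hm ham ρ hN (e.symm h) s hs0 hs)
    S hSconj hgen
    (by
      intro s hs h h' hh'
      obtain ⟨σ, hσ⟩ := exists_sigma (K := K) s
      have h1 := invariant_main p q hp2 hq0 hdeg a m n ha hm ham ρ hc hu hN s hs σ hσ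
        (hX s hs σ hσ) (e.symm h)
      rw [hρH, hρH, ← h1]
      congr 1
      ext x
      rw [hσ, hex, hex, hh', AlgEquiv.mul_apply, AlgEquiv.mul_apply])
    (by
      intro s hs h hh
      rw [hρH]
      refine rho_inertial ρ hc hu _ ?_
      refine inertial_congr (fun x => ?_) (inertial_pow s hs q)
      change (s ^ q) x = e.symm h x
      rw [hex, hh])
  have hρ'K : ∀ h : Ω ≃ₐ[K] Ω, ρ' (h.restrictScalars F) = ρ h := by
    intro h
    have h1 := hρ'1 (e h)
    rw [he, hρH, e.symm_apply_apply] at h1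
    exact h1
  have hcl : ∀ g ∈ Subgroup.closure S, ρ' g = 1 := by
    intro g hg
    have h1 : Subgroup.closure S ≤ ρ'.ker := by
      rw [Subgroup.closure_le]
      intro s hs
      exact hρ'2 s hs
    exact h1 hg
  have hrange' : ∀ g : Ω ≃ₐ[F] Ω, ∃ h : Ω ≃ₐ[K] Ω, ρ' g = ρ h := by
    intro g
    have hg : g ∈ HK F K Ω ⊔ Subgroup.closure S := by rw [hgen]; trivial
    obtain ⟨h, hh, j, hj, rfl⟩ := Subgroup.mem_sup_of_normal_right.mp hg
    refine ⟨e.symm ⟨h, hh⟩, ?_⟩
    rw [map_mul, hcl j hj, mul_one]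
    exact hρ'1 ⟨h, hh⟩
  have hrange : ρ'.range = ρ.range := by
    apply le_antisymm
    · rintro _ ⟨g, rfl⟩
      obtain ⟨h, hh⟩ := hrange' g
      exact ⟨h, hh.symm⟩
    · rintro _ ⟨h, rfl⟩
      exact ⟨h.restrictScalars F, hρ'K h⟩
  have hcont : Continuous ρ' := by
    apply continuous_of_continuousAt_one
    intro V hV
    rw [Filter.mem_map]
    rw [map_one] at hV
    refine nhds_of_restrict (F := F) (K := K) _ ?_
    have h1 : {h : Ω ≃ₐ[K] Ω | h.restrictScalars F ∈ ρ' ⁻¹' V} = ρ ⁻¹' V := by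
      ext h
      simp only [Set.mem_ofPred_eq, Set.mem_preimage, hρ'K]
    rw [h1]
    have h2 : Filter.Tendsto ρ (nhds 1) (nhds (ρ 1)) := hc.continuousAt
    rw [map_one] at h2
    exact h2 hV
  refine ⟨ρ', hcont, ?_, hρ'K, hrange⟩
  intro L hLle hLfin hLG
  have hker : ρ'.ker ≤ L.fixingSubgroup := by
    have h1 := IntermediateField.fixingSubgroup_antitone hLle
    refine le_trans ?_ h1
    exact IntermediateField.le_iff_le _ _ |>.1 le_rfl
  constructor
  · -- the degree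
    let N : Subgroup (Ω ≃ₐ[F] Ω) := L.fixingSubgroup
    have hNn : N.Normal := by rw [InfiniteGalois.normal_iff_isGalois]; exact hLG
    have hNo : IsOpen (N : Set (Ω ≃ₐ[F] Ω)) := IntermediateField.fixingSubgroup_isOpen L
    let N' : Subgroup (Ω ≃ₐ[K] Ω) :=
      N.comap (AlgEquiv.restrictScalarsHom F : (Ω ≃ₐ[K] Ω) →* (Ω ≃ₐ[F] Ω))
    have hN'n : N'.Normal := hNn.comap _
    have hN'o : IsOpen (N' : Set (Ω ≃ₐ[K] Ω)) := by
      let b := Module.finBasis F L
      let T : Set Ω := Set.range fun i => ((b i : L) : Ω)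
      have hT : FiniteDimensional K (IntermediateField.adjoin K T) :=
        IntermediateField.finiteDimensional_adjoin fun x _ => Algebra.IsIntegral.isIntegral x
      refine Subgroup.isOpen_mono ?_ (IntermediateField.fixingSubgroup_isOpen
        (IntermediateField.adjoin K T))
      intro h hh
      rw [IntermediateField.mem_fixingSubgroup_iff] at hh
      change h.restrictScalars F ∈ L.fixingSubgroup
      rw [IntermediateField.mem_fixingSubgroup_iff]
      intro x hx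
      have h1 : ((⟨x, hx⟩ : L) : Ω) = ∑ i, (b.repr ⟨x, hx⟩ i) • ((b i : L) : Ω) := by
        conv_lhs => rw [← b.sum_repr ⟨x, hx⟩]
        rw [← IntermediateField.coe_val, map_sum]
        refine Finset.sum_congr rfl fun i _ => ?_
        rw [map_smul]
      change (h.restrictScalars F) ((⟨x, hx⟩ : L) : Ω) = ((⟨x, hx⟩ : L) : Ω)
      rw [h1, map_sum]
      refine Finset.sum_congr rfl fun i _ => ?_
      rw [map_smul]
      congr 1
      exact hh _ (IntermediateField.subset_adjoin K T ⟨i, rfl⟩)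
    obtain ⟨L', hL'1, hL'1', hL'2, hL'3, hL'4⟩ := exists_field_of_open N' hN'n hN'o
    have hle : L' ≤ IntermediateField.fixedField ρ.ker := by
      rw [hL'1']
      apply IntermediateField.fixedField_antitone
      intro h hh
      change h.restrictScalars F ∈ N
      apply hker
      rw [MonoidHom.mem_ker, hρ'K]
      exact hh
    obtain ⟨⟨j, hj⟩, -⟩ := hu L' hle hL'2 hL'3
    refine ⟨j, ?_⟩
    rw [← hj, hL'4, IntermediateField.finrank_eq_fixingSubgroup_index]
    change N.index = N'.index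
    have h1 : (AlgEquiv.restrictScalarsHom F : (Ω ≃ₐ[K] Ω) →* (Ω ≃ₐ[F] Ω)).range ⊔ N = ⊤ := by
      rw [eq_top_iff]
      intro g _
      obtain ⟨h, hh⟩ := hrange' g
      rw [← hρ'K] at hh
      have h2 : (h.restrictScalars F)⁻¹ * g ∈ N := by
        apply hker
        rw [MonoidHom.mem_ker, map_mul, map_inv, hh, inv_mul_cancel]
      have h3 : g = (h.restrictScalars F) * ((h.restrictScalars F)⁻¹ * g) := by group
      rw [h3]
      exact Subgroup.mul_mem_sup ⟨h, rfl⟩ h2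
    rw [Subgroup.index_comap, ← Subgroup.relIndex_sup_right, h1, Subgroup.relIndex_top_right]
  · refine unramified_of_inertial L fun h hh x => ?_
    have h5 : h ∈ L.fixingSubgroup := hker (hρ'2 h hh)
    rw [IntermediateField.mem_fixingSubgroup_iff] at h5
    exact h5 x x.2

end ext

end Pool.Agent.MPca71W
end

section
set_option autoImplicit false
open scoped NumberField

namespace Pool.Agent.MPca71W

section one

variable {K Ω : Type} [Field K] [NumberField K]
  [Field Ω] [Algebra K Ω] [IsAlgClosed Ω] [Algebra.IsAlgebraic K Ω]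

/-- If `K` has no Galois extension of degree `p` unramified at all finite primes then every
unramified pro-`p` representation is trivial. -/
theorem trivial_of_no_unramified (p : ℕ) [Fact p.Prime] {n : ℕ}
    (hK : ∀ L : IntermediateField K Ω, IsGalois K L → Module.finrank K L = p →
      ¬ Algebra.Unramified (𝓞 K) (𝓞 L))
    (ρ : (Ω ≃ₐ[K] Ω) →* Matrix.GeneralLinearGroup (Fin n) (PadicInt p)) (hc : Continuous ρ)
    (hu : UnrProP p K Ω ρ) : ρ = 1 := by
  have hp : p.Prime := Fact.out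
  by_contra hne
  obtain ⟨g, hg⟩ : ∃ g, ρ g ≠ 1 := by
    by_contra hcon
    push Not at hcon
    exact hne (MonoidHom.ext hcon)
  obtain ⟨i, j, hij⟩ : ∃ i j, ((ρ g : Matrix (Fin n) (Fin n) ℤ_[p]) - 1) i j ≠ 0 := by
    by_contra hcon
    push Not at hcon
    apply hg
    apply Units.ext
    rw [Units.val_one, ← sub_eq_zero]
    ext i j
    exact hcon i j
  have hp1 : (1 : ℝ) < p := by exact_mod_cast hp.one_lt
  have hp0 : (0 : ℝ) < p := by linarith
  have hnorm : 0 < ‖((ρ g : Matrix (Fin n) (Fin n) ℤ_[p]) - 1) i j‖ := norm_pos_iff.2 hij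
  obtain ⟨N, hN⟩ := pow_unbounded_of_one_lt
    (‖((ρ g : Matrix (Fin n) (Fin n) ℤ_[p]) - 1) i j‖⁻¹) hp1
  let σ : (Ω ≃ₐ[K] Ω) ≃* (Ω ≃ₐ[K] Ω) := MulEquiv.refl _
  have hσc : Continuous σ := continuous_id
  let U := congrSub p ρ σ 1 N
  have hUn : U.Normal := congrSub_normal p ρ σ 1 N
  have hUo : IsOpen (U : Set (Ω ≃ₐ[K] Ω)) := congrSub_open p ρ hc σ hσc 1 N
  have hgU : g ∉ U := by
    intro hgU
    have h1 := hgU 0 (by norm_num) i j
    have h2 : ‖((ρ g : Matrix (Fin n) (Fin n) ℤ_[p]) - 1) i j‖ ≤ (p : ℝ) ^ (-(N : ℤ)) := h1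
    rw [zpow_neg, zpow_natCast] at h2
    have h3 : (p : ℝ) ^ N ≤ ‖((ρ g : Matrix (Fin n) (Fin n) ℤ_[p]) - 1) i j‖⁻¹ := by
      rw [le_inv_comm₀ (by positivity) hnorm]
      exact h2
    linarith
  have hkU : ∀ h, ρ h = 1 → h ∈ U := by
    intro h hh k hk a b
    have hk0 : k = 0 := by omega
    subst hk0
    change ‖((ρ h : Matrix (Fin n) (Fin n) ℤ_[p]) - 1) a b‖ ≤ _
    rw [hh]
    simp only [Units.val_one, sub_self, Matrix.zero_apply, norm_zero]
    positivity
  obtain ⟨L, hL1, hL1', hL2, hL3, hL4⟩ := exists_field_of_open U hUn hUo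
  have hLle : L ≤ IntermediateField.fixedField ρ.ker := by
    rw [hL1']
    exact IntermediateField.fixedField_antitone fun h hh => hkU h hh
  obtain ⟨⟨s, hs⟩, -⟩ := hu L hLle hL2 hL3
  obtain ⟨M, hMn, hMle, hMi⟩ := exists_index_p p s U hUn (by rw [← hL4, hs])
    (fun h => hgU (by rw [h]; trivial))
  have hMo : IsOpen (M : Set (Ω ≃ₐ[K] Ω)) := Subgroup.isOpen_mono hMle hUo
  obtain ⟨L2, -, -, -, h3, h4, h5⟩ := exists_unramified_of_open M hMn hMo
    (fun h hh => hMle (hkU h (rho_inertial ρ hc hu h hh)))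
  exact hK L2 h3 (h4.trans hMi) h5

/-- An unramified pro-`p` representation with finite image: every element of the image has
`p`-power order. -/
theorem pow_eq_one_of_finite (p : ℕ) [Fact p.Prime] {n : ℕ}
    (ρ : (Ω ≃ₐ[K] Ω) →* Matrix.GeneralLinearGroup (Fin n) (PadicInt p)) (hc : Continuous ρ)
    (hu : UnrProP p K Ω ρ) (hfin : (Set.range ρ).Finite) (h : Ω ≃ₐ[K] Ω) :
    ∃ s : ℕ, ρ h ^ (p ^ s) = 1 := by
  have hG : IsGalois K Ω := isGalois_acl
  have hfr : Finite ρ.range := hfin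
  have hker : IsClosed ((ρ.ker : Subgroup (Ω ≃ₐ[K] Ω)) : Set (Ω ≃ₐ[K] Ω)) := by
    have : ((ρ.ker : Subgroup (Ω ≃ₐ[K] Ω)) : Set (Ω ≃ₐ[K] Ω)) = ρ ⁻¹' {1} := by
      ext x; simp [MonoidHom.mem_ker]
    rw [this]
    exact isClosed_singleton.preimage hc
  have hidx : ρ.ker.index = Nat.card ρ.range := Subgroup.index_ker ρ
  have hfi : ρ.ker.FiniteIndex := ⟨by rw [hidx]; exact Nat.card_pos.ne'⟩
  have hopen : IsOpen ((ρ.ker : Subgroup (Ω ≃ₐ[K] Ω)) : Set (Ω ≃ₐ[K] Ω)) :=
    Subgroup.isOpen_of_isClosed_of_finiteIndex _ hker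
  obtain ⟨L, hL1, hL1', hL2, hL3, hL4⟩ := exists_field_of_open ρ.ker inferInstance hopen
  obtain ⟨⟨s, hs⟩, -⟩ := hu L (le_of_eq hL1') hL2 hL3
  refine ⟨s, ?_⟩
  rw [← hs, hL4, hidx]
  have h1 : (⟨ρ h, h, rfl⟩ : ρ.range) ^ Nat.card ρ.range = 1 := pow_card_eq_one'
  exact congrArg Subtype.val h1

end one

section final

variable {F K Ω : Type} [Field F] [NumberField F] [Field K] [NumberField K] [Algebra F K]
  [Field Ω] [Algebra F Ω] [Algebra K Ω] [IsScalarTower F K Ω] [IsAlgClosed Ω]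
  [Algebra.IsAlgebraic K Ω]

/-- The theorem with hypothesis `HypX`. -/
theorem main_X (p : ℕ) [Fact p.Prime] (hp2 : p ≠ 2) [IsGalois F K]
    (a m n : ℕ) (ha : 1 ≤ a) (hm : 1 ≤ m)
    (ham : m * (2 * a - 1) + 1 < p) (hX : HypX p a F K Ω)
    (ρ : (Ω ≃ₐ[K] Ω) →* Matrix.GeneralLinearGroup (Fin n) (PadicInt p)) (hc : Continuous ρ)
    (hu : UnrProP p K Ω ρ) (hN : n ≤ m ∨ NilpMod p m ρ)
    (hnu : ∀ L : IntermediateField F Ω, L ≤ (IsScalarTower.toAlgHom F K Ω).fieldRange →
      IsGalois F L → 1 < Module.finrank F L → ¬ Algebra.Unramified (𝓞 F) (𝓞 L)) :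
    (∃ ρ' : (Ω ≃ₐ[F] Ω) →* Matrix.GeneralLinearGroup (Fin n) (PadicInt p),
      Continuous ρ' ∧ UnrProP p F Ω ρ' ∧ (∀ h : Ω ≃ₐ[K] Ω, ρ' (h.restrictScalars F) = ρ h) ∧
        ρ'.range = ρ.range) ∧ (FMdim p F Ω n → ρ = 1) := by
  have hN' : NilpMod p m ρ := by
    rcases hN with h | h
    · intro f i j
      exact nilp_of_le p h ρ hc hu f i j
    · exact h
  obtain ⟨ρ', h1, h2, h3, h4⟩ := ext_main p hp2 a m n ha hm ham hX ρ hc hu hN' hnu
  refine ⟨⟨ρ', h1, h2, h3, h4⟩, fun hFM => ?_⟩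
  have h5 := hFM ρ' h1 h2
  have h6 : (Set.range ρ).Finite := by
    have h7 : Set.range ρ = Set.range ρ' := by
      rw [← MonoidHom.coe_range, ← MonoidHom.coe_range, h4]
    rw [h7]; exact h5
  ext1 h
  obtain ⟨s, hs⟩ := pow_eq_one_of_finite p ρ hc hu h6 h
  exact rho_torsion_free p hp2 a m n ha hm ham ρ hN' h (p ^ s) (pow_ne_zero _ (Fact.out : p.Prime).ne_zero) hs

/-- If `F` has no unramified Galois extension of degree `p` then `FMdim` holds. -/
theorem fmdim_of_no_unramified (p : ℕ) [Fact p.Prime] [Algebra.IsAlgebraic F Ω] (n : ℕ)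
    (hF : NoUnr p F Ω) : FMdim p F Ω n := by
  intro ρ hc hu
  rw [trivial_of_no_unramified p hF ρ hc hu]
  exact Set.Finite.subset (Set.finite_singleton 1) (by rintro _ ⟨g, rfl⟩; rfl)

/-- `ℚ` has no unramified extension of degree `p`. -/
theorem no_unramified_Q (p : ℕ) [Fact p.Prime] {Ω : Type} [Field Ω] [Algebra ℚ Ω]
    (L : IntermediateField ℚ Ω) (hL : Module.finrank ℚ L = p) :
    ¬ Algebra.Unramified (𝓞 ℚ) (𝓞 L) := by
  have hp : p.Prime := Fact.out
  refine no_unramified_rat L (Module.finite_of_finrank_pos ?_) ?_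
  · rw [hL]; exact hp.pos
  · rw [hL]; exact hp.one_lt

end final

end Pool.Agent.MPca71W
end
end
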