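import Mathlib
import Pool.Agent.Lib.MP_ca71b5_ntW.C2
import Pool.Agent.Lib.MP_ca71b5_ntW.Fin4

section

section
set_option autoImplicit false

/-! The matrix logarithm is injective (MP_ca71b5_nt, paper 206, part LB). -/

namespace Pool.Agent.MPca71W

namespace LB

/-- All entries of `X` have norm at most `c`. -/
def Bd {p : ℕ} [Fact p.Prime] {n : ℕ} (c : ℝ) (X : Matrix (Fin n) (Fin n) ℚ_[p]) : Prop :=
  ∀ i j, ‖X i j‖ ≤ c

theorem Bd.mul {p : ℕ} [Fact p.Prime] {n : ℕ} {a b : ℝ} {X Y : Matrix (Fin n) (Fin n) ℚ_[p]}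
    (ha : 0 ≤ a) (hb : 0 ≤ b) (hX : Bd a X) (hY : Bd b Y) : Bd (a * b) (X * Y) := by
  intro i j
  rw [Matrix.mul_apply]
  refine IsUltrametricDist.norm_sum_le_of_forall_le_of_nonneg (mul_nonneg ha hb) ?_
  intro k _
  rw [norm_mul]
  exact mul_le_mul (hX i k) (hY k j) (norm_nonneg _) ha

theorem Bd.add {p : ℕ} [Fact p.Prime] {n : ℕ} {a : ℝ} {X Y : Matrix (Fin n) (Fin n) ℚ_[p]}
    (hX : Bd a X) (hY : Bd a Y) : Bd a (X + Y) := by
  intro i j
  rw [Matrix.add_apply]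
  exact (IsUltrametricDist.norm_add_le_max _ _).trans (max_le (hX i j) (hY i j))

theorem Bd.pow {p : ℕ} [Fact p.Prime] {n : ℕ} {a : ℝ} {X : Matrix (Fin n) (Fin n) ℚ_[p]}
    (ha : 0 ≤ a) (hX : Bd a X) (k : ℕ) : Bd (a ^ (k + 1)) (X ^ (k + 1)) := by
  induction k with
  | zero => simpa using hX
  | succ k ih =>
    rw [pow_succ X, pow_succ a]
    exact Bd.mul (pow_nonneg ha _) ha ih hX

theorem Bd.pow_sub {p : ℕ} [Fact p.Prime] {n : ℕ} {a d : ℝ}
    {X Y : Matrix (Fin n) (Fin n) ℚ_[p]} (ha : 0 ≤ a) (hd : 0 ≤ d) (hX : Bd a X) (hY : Bd a Y)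
    (hXY : Bd d (X - Y)) (k : ℕ) : Bd (a ^ k * d) (X ^ (k + 1) - Y ^ (k + 1)) := by
  induction k with
  | zero => simpa using hXY
  | succ k ih =>
    have e : X ^ (k + 1 + 1) - Y ^ (k + 1 + 1) =
        X ^ (k + 1) * (X - Y) + (X ^ (k + 1) - Y ^ (k + 1)) * Y := by
      rw [pow_succ X (k + 1), pow_succ Y (k + 1)]
      noncomm_ring
    rw [e]
    refine Bd.add (Bd.mul (pow_nonneg ha _) hd (Bd.pow ha hX k) hXY) ?_
    have := Bd.mul (mul_nonneg (pow_nonneg ha k) hd) ha ih hY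
    have e2 : a ^ (k + 1) * d = a ^ k * d * a := by ring
    rw [e2]
    exact this

theorem norm_inv_natCast_le (p : ℕ) [hp : Fact p.Prime] (k : ℕ) :
    ‖(((k + 1 : ℕ) : ℚ_[p])⁻¹)‖ ≤ (k : ℝ) + 1 := by
  have hne : ((k + 1 : ℕ) : ℚ_[p]) ≠ 0 := by exact_mod_cast Nat.succ_ne_zero k
  rw [norm_inv, Padic.norm_eq_zpow_neg_valuation hne, Padic.valuation_natCast]
  rw [zpow_neg, inv_inv, zpow_natCast]
  have h1 : p ^ padicValNat p (k + 1) ≤ k + 1 :=
    Nat.le_of_dvd (Nat.succ_pos k) pow_padicValNat_dvd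
  exact_mod_cast h1

theorem toQp_sub {p : ℕ} [Fact p.Prime] {n : ℕ} (u v : Matrix (Fin n) (Fin n) ℤ_[p]) :
    toQp p (u - 1) - toQp p (v - 1) = toQp p u - toQp p v := by
  ext i j
  simp [toQp]

theorem toQp_inj {p : ℕ} [Fact p.Prime] {n : ℕ} {u v : Matrix (Fin n) (Fin n) ℤ_[p]}
    (h : toQp p u = toQp p v) : u = v := by
  ext i j
  have := congrFun (congrFun h i) j
  simp only [toQp, Matrix.map_apply] at this
  exact Subtype.ext this

theorem Bd_toQp {p : ℕ} [Fact p.Prime] {n : ℕ} {u : Matrix (Fin n) (Fin n) ℤ_[p]}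
    (hu : ∀ i j, (p : ℤ_[p]) ∣ u i j) : Bd ((p : ℝ)⁻¹) (toQp p u) := by
  intro i j
  obtain ⟨c, hc⟩ := hu i j
  simp only [toQp, Matrix.map_apply]
  rw [hc]
  push_cast
  rw [norm_mul, Padic.norm_p]
  have hp0 : (0 : ℝ) ≤ (p : ℝ)⁻¹ := by positivity
  have hc1 : ‖(c : ℚ_[p])‖ ≤ 1 := PadicInt.norm_le_one c
  calc (p : ℝ)⁻¹ * ‖(c : ℚ_[p])‖ ≤ (p : ℝ)⁻¹ * 1 := mul_le_mul_of_nonneg_left hc1 hp0
    _ = (p : ℝ)⁻¹ := mul_one _

/-- `k`-th term of the logarithm series. -/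
noncomputable def coef (p : ℕ) [Fact p.Prime] (k : ℕ) : ℚ_[p] :=
  (-1 : ℚ_[p]) ^ k * ((k + 1 : ℕ) : ℚ_[p])⁻¹

theorem norm_coef_le (p : ℕ) [Fact p.Prime] (k : ℕ) : ‖coef p k‖ ≤ (k : ℝ) + 1 := by
  unfold coef
  rw [norm_mul, norm_pow, norm_neg, norm_one, one_pow, one_mul]
  exact norm_inv_natCast_le p k

theorem entry_summable {p : ℕ} [hp : Fact p.Prime] {n : ℕ}
    {X : Matrix (Fin n) (Fin n) ℚ_[p]} (hX : Bd ((p : ℝ)⁻¹) X) :
    Summable fun k : ℕ => coef p k • X ^ (k + 1) := by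
  have hp1 : (1 : ℝ) < p := by exact_mod_cast hp.out.one_lt
  have ha0 : (0 : ℝ) ≤ (p : ℝ)⁻¹ := by positivity
  have ha1 : (p : ℝ)⁻¹ < 1 := inv_lt_one_of_one_lt₀ hp1
  rw [show (fun k : ℕ => coef p k • X ^ (k + 1)) =
    fun k : ℕ => (fun i j => (coef p k • X ^ (k + 1)) i j : Fin n → Fin n → ℚ_[p]) from rfl]
  refine Pi.summable.2 fun i => Pi.summable.2 fun j => ?_
  refine NonarchimedeanAddGroup.summable_of_tendsto_cofinite_zero ?_
  rw [Nat.cofinite_eq_atTop]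
  have h1 : Filter.Tendsto (fun k : ℕ => ((k : ℝ) + 1) * ((p : ℝ)⁻¹) ^ (k + 1))
      Filter.atTop (nhds 0) := by
    have h2 : Filter.Tendsto (fun k : ℕ => (k : ℝ) * ((p : ℝ)⁻¹) ^ k)
      Filter.atTop (nhds 0) := tendsto_self_mul_const_pow_of_lt_one ha0 ha1
    have h3 := h2.comp (Filter.tendsto_add_atTop_nat 1)
    refine h3.congr fun k => ?_
    simp
  refine squeeze_zero_norm (fun k => ?_) h1
  rw [Matrix.smul_apply, smul_eq_mul, norm_mul]
  exact mul_le_mul (norm_coef_le p k) (Bd.pow ha0 hX k i j) (norm_nonneg _) (by positivity)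

theorem pow_bound (k : ℕ) {q : ℝ} (hq : 3 ≤ q) :
    ((k : ℝ) + 2) * (q⁻¹) ^ (k + 1) ≤ 2 / 3 := by
  have hq0 : 0 < q := by linarith
  have h0 : (0 : ℝ) ≤ q⁻¹ := by positivity
  have h3 : q⁻¹ ≤ 1 / 3 := by
    rw [inv_eq_one_div]
    exact one_div_le_one_div_of_le (by norm_num) hq
  induction k with
  | zero => simp; linarith
  | succ k ih =>
    have h4 : ((k : ℝ) + 3) * (q⁻¹) ≤ (k : ℝ) + 2 := by
      have : ((k : ℝ) + 3) * (q⁻¹) ≤ ((k : ℝ) + 3) * (1 / 3) :=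
        mul_le_mul_of_nonneg_left h3 (by positivity)
      have hk : (0 : ℝ) ≤ k := by positivity
      linarith
    have h5 : (0 : ℝ) ≤ (q⁻¹) ^ (k + 1) := by positivity
    calc (((k + 1 : ℕ) : ℝ) + 2) * (q⁻¹) ^ (k + 1 + 1)
        = (((k : ℝ) + 3) * q⁻¹) * (q⁻¹) ^ (k + 1) := by push_cast; ring
      _ ≤ ((k : ℝ) + 2) * (q⁻¹) ^ (k + 1) := mul_le_mul_of_nonneg_right h4 h5
      _ ≤ 2 / 3 := ih

end LB

open LB in
/-- LB: the logarithm is injective on matrices congruent to `1` modulo `p`, `p` odd. -/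
theorem mlog_inj (p : ℕ) [Fact p.Prime] (hp2 : p ≠ 2) {n : ℕ}
    (u v : Matrix (Fin n) (Fin n) ℤ_[p])
    (hu : ∀ i j, (p : ℤ_[p]) ∣ (u - 1) i j) (hv : ∀ i j, (p : ℤ_[p]) ∣ (v - 1) i j)
    (h : mlog p u = mlog p v) : u = v := by
  have hp : p.Prime := Fact.out
  have hp3 : 3 ≤ p := by
    have := hp.two_le
    omega
  have hp3' : (3 : ℝ) ≤ p := by exact_mod_cast hp3
  have ha0 : (0 : ℝ) ≤ (p : ℝ)⁻¹ := by positivity
  set x := toQp p (u - 1) with hx
  set y := toQp p (v - 1) with hy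
  have hX : Bd ((p : ℝ)⁻¹) x := Bd_toQp hu
  have hY : Bd ((p : ℝ)⁻¹) y := Bd_toQp hv
  have hsx := entry_summable hX
  have hsy := entry_summable hY
  have h0 : (∑' k : ℕ, coef p k • (x ^ (k + 1) - y ^ (k + 1))) = 0 := by
    have e : (fun k : ℕ => coef p k • (x ^ (k + 1) - y ^ (k + 1))) =
        fun k : ℕ => coef p k • x ^ (k + 1) - coef p k • y ^ (k + 1) := by
      funext k
      rw [smul_sub]
    rw [e, hsx.tsum_sub hsy]
    have h' : (∑' k : ℕ, coef p k • x ^ (k + 1)) = ∑' k : ℕ, coef p k • y ^ (k + 1) := h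
    rw [h', sub_self]
  have hs : Summable fun k : ℕ => coef p k • (x ^ (k + 1) - y ^ (k + 1)) := by
    have := hsx.sub hsy
    refine this.congr fun k => ?_
    rw [smul_sub]
  have hD : x - y = - ∑' k : ℕ, coef p (k + 1) • (x ^ (k + 1 + 1) - y ^ (k + 1 + 1)) := by
    have h1 := hs.tsum_eq_zero_add
    rw [h0] at h1
    have h2 : coef p 0 • (x ^ (0 + 1) - y ^ (0 + 1)) = x - y := by simp [coef]
    rw [h2] at h1
    exact eq_neg_of_add_eq_zero_left h1.symm
  have hs1 : Summable fun k : ℕ => coef p (k + 1) • (x ^ (k + 1 + 1) - y ^ (k + 1 + 1)) :=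
    (summable_nat_add_iff (f := fun k : ℕ => coef p k • (x ^ (k + 1) - y ^ (k + 1))) 1).2 hs
  have hstep : ∀ d : ℝ, 0 ≤ d → Bd d (x - y) → Bd (2 / 3 * d) (x - y) := by
    intro d hd hB i j
    have hij : (x - y) i j =
        - ∑' k : ℕ, (coef p (k + 1) • (x ^ (k + 1 + 1) - y ^ (k + 1 + 1))) i j := by
      have hs2 : Summable fun k : ℕ => (fun i j =>
          (coef p (k + 1) • (x ^ (k + 1 + 1) - y ^ (k + 1 + 1))) i j :
            Fin n → Fin n → ℚ_[p]) := hs1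
      have e1 := congrFun (congrFun hD i) j
      rw [e1, Matrix.neg_apply]
      congr 1
      have e2 : (∑' k : ℕ, (fun i j =>
          (coef p (k + 1) • (x ^ (k + 1 + 1) - y ^ (k + 1 + 1))) i j :
            Fin n → Fin n → ℚ_[p])) i j =
          ∑' k : ℕ, (coef p (k + 1) • (x ^ (k + 1 + 1) - y ^ (k + 1 + 1))) i j := by
        rw [tsum_apply hs2, tsum_apply (Pi.summable.1 hs2 i)]
      exact e2
    rw [hij, norm_neg]
    refine IsUltrametricDist.norm_tsum_le_of_forall_le_of_nonneg (by positivity) ?_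
    intro k
    rw [Matrix.smul_apply, smul_eq_mul, norm_mul]
    have h1 := norm_coef_le p (k + 1)
    have h2 := Bd.pow_sub ha0 hd hX hY hB (k + 1) i j
    calc ‖coef p (k + 1)‖ * ‖(x ^ (k + 1 + 1) - y ^ (k + 1 + 1)) i j‖
        ≤ (((k + 1 : ℕ) : ℝ) + 1) * ((p : ℝ)⁻¹ ^ (k + 1) * d) :=
          mul_le_mul h1 h2 (norm_nonneg _) (by positivity)
      _ = (((k : ℝ) + 2) * (p : ℝ)⁻¹ ^ (k + 1)) * d := by push_cast; ring
      _ ≤ 2 / 3 * d := mul_le_mul_of_nonneg_right (pow_bound k hp3') hd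
  have hmax : ∀ m : ℕ, Bd ((2 / 3) ^ m) (x - y) := by
    intro m
    induction m with
    | zero =>
      intro i j
      rw [pow_zero, Matrix.sub_apply]
      have hx1 : ‖x i j‖ ≤ 1 := PadicInt.norm_le_one ((u - 1) i j)
      have hy1 : ‖y i j‖ ≤ 1 := PadicInt.norm_le_one ((v - 1) i j)
      rw [sub_eq_add_neg]
      refine (IsUltrametricDist.norm_add_le_max _ _).trans (max_le hx1 ?_)
      rw [norm_neg]
      exact hy1
    | succ m ih =>
      have := hstep _ (by positivity) ih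
      rw [pow_succ, mul_comm]
      exact this
  have hzero : x - y = 0 := by
    ext i j
    have h1 : Filter.Tendsto (fun m : ℕ => ((2 : ℝ) / 3) ^ m) Filter.atTop (nhds 0) :=
      tendsto_pow_atTop_nhds_zero_of_lt_one (by norm_num) (by norm_num)
    have h2 : ‖(x - y) i j‖ ≤ 0 := ge_of_tendsto' h1 fun m => hmax m i j
    have h3 : ‖(x - y) i j‖ = 0 := le_antisymm h2 (norm_nonneg _)
    simpa using norm_eq_zero.1 h3
  rw [hx, hy, toQp_sub, sub_eq_zero] at hzero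
  exact toQp_inj hzero

end Pool.Agent.MPca71W
end

section
set_option autoImplicit false

/-! The matrix logarithm: summability and conjugation (MP_ca71b5_nt, paper 206). -/

namespace Pool.Agent.MPca71W

theorem norm_natCast_inv_le (p : ℕ) [Fact p.Prime] (m : ℕ) (hm : m ≠ 0) :
    ‖((m : ℕ) : ℚ_[p])⁻¹‖ ≤ (m : ℝ) := by
  have hp1 : (1 : ℝ) < p := by exact_mod_cast (Fact.out : p.Prime).one_lt
  have hne : ((m : ℕ) : ℚ_[p]) ≠ 0 := by exact_mod_cast hm
  rw [norm_inv, Padic.norm_eq_zpow_neg_valuation hne, Padic.valuation_natCast, ← zpow_neg,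
    neg_neg, zpow_natCast]
  have h1 : p ^ (padicValNat p m) ≤ m := Nat.le_of_dvd (Nat.pos_of_ne_zero hm) pow_padicValNat_dvd
  exact_mod_cast h1

theorem toQp_mul (p : ℕ) [Fact p.Prime] {n : ℕ} (A B : Matrix (Fin n) (Fin n) ℤ_[p]) :
    toQp p (A * B) = toQp p A * toQp p B :=
  Matrix.map_mul (f := (PadicInt.Coe.ringHom : ℤ_[p] →+* ℚ_[p]))

theorem toQp_one (p : ℕ) [Fact p.Prime] {n : ℕ} :
    toQp p (1 : Matrix (Fin n) (Fin n) ℤ_[p]) = 1 :=
  Matrix.map_one _ (by simp) (by simp)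

theorem toQp_sub_one_entry (p : ℕ) [Fact p.Prime] {n : ℕ} (u : Matrix (Fin n) (Fin n) ℤ_[p])
    (hu : ∀ i j, (p : ℤ_[p]) ∣ (u - 1) i j) (i j : Fin n) :
    ‖(toQp p (u - 1)) i j‖ ≤ (p : ℝ)⁻¹ := by
  obtain ⟨c, hc⟩ := hu i j
  have h1 : (toQp p (u - 1)) i j = ((p : ℤ_[p]) * c : ℤ_[p]) := by
    rw [← hc]; rfl
  rw [h1, PadicInt.coe_mul, norm_mul]
  have h2 : ‖((p : ℤ_[p]) : ℚ_[p])‖ = (p : ℝ)⁻¹ := by
    have : ((p : ℤ_[p]) : ℚ_[p]) = (p : ℚ_[p]) := by norm_cast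
    rw [this, Padic.norm_p]
  rw [h2]
  have h3 : ‖(c : ℚ_[p])‖ ≤ 1 := c.2
  have h4 : (0 : ℝ) ≤ (p : ℝ)⁻¹ := by positivity
  calc (p : ℝ)⁻¹ * ‖(c : ℚ_[p])‖ ≤ (p : ℝ)⁻¹ * 1 := mul_le_mul_of_nonneg_left h3 h4
    _ = (p : ℝ)⁻¹ := mul_one _

theorem pow_entry (p : ℕ) [Fact p.Prime] {n : ℕ} (A : Matrix (Fin n) (Fin n) ℚ_[p])
    (r : ℝ) (hr : 0 ≤ r) (hA : ∀ i j, ‖A i j‖ ≤ r) (m : ℕ) :
    ∀ i j, ‖(A ^ m) i j‖ ≤ r ^ m := by
  induction m with
  | zero =>
    intro i j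
    rw [pow_zero, pow_zero, Matrix.one_apply]
    split_ifs
    · simp
    · simp
  | succ m ih =>
    intro i j
    rw [pow_succ, Matrix.mul_apply]
    apply IsUltrametricDist.norm_sum_le_of_forall_le_of_nonneg (by positivity)
    intro l _
    rw [norm_mul, pow_succ]
    exact mul_le_mul (ih i l) (hA l j) (norm_nonneg _) (by positivity)

/-- LA1: the series converges. -/
theorem mlog_summable (p : ℕ) [Fact p.Prime] {n : ℕ} (u : Matrix (Fin n) (Fin n) ℤ_[p])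
    (hu : ∀ i j, (p : ℤ_[p]) ∣ (u - 1) i j) :
    Summable fun k : ℕ => ((-1 : ℚ_[p]) ^ k * ((k + 1 : ℕ) : ℚ_[p])⁻¹) •
      (toQp p (u - 1)) ^ (k + 1) := by
  have hp1 : (1 : ℝ) < p := by exact_mod_cast (Fact.out : p.Prime).one_lt
  refine Pi.summable.2 fun i => Pi.summable.2 fun j => ?_
  have hs : Summable fun k : ℕ => ((k + 1 : ℕ) : ℝ) * ((p : ℝ)⁻¹) ^ (k + 1) := by
    have h0 := summable_pow_mul_geometric_of_norm_lt_one (R := ℝ) 1 (r := (p : ℝ)⁻¹)
      (by rw [norm_inv, Real.norm_of_nonneg (by positivity)]; exact inv_lt_one_of_one_lt₀ hp1)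
    have h1 := (summable_nat_add_iff 1).2 h0
    simpa using h1
  refine Summable.of_norm_bounded hs ?_
  intro k
  have h1 : (((-1 : ℚ_[p]) ^ k * ((k + 1 : ℕ) : ℚ_[p])⁻¹) • (toQp p (u - 1)) ^ (k + 1)) i j =
      ((-1 : ℚ_[p]) ^ k * ((k + 1 : ℕ) : ℚ_[p])⁻¹) * ((toQp p (u - 1)) ^ (k + 1)) i j := rfl
  rw [h1, norm_mul, norm_mul]
  have h2 : ‖(-1 : ℚ_[p]) ^ k‖ = 1 := by rw [norm_pow, norm_neg, norm_one, one_pow]
  rw [h2, one_mul]
  exact mul_le_mul (norm_natCast_inv_le p (k + 1) (Nat.succ_ne_zero k))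
    (pow_entry p _ _ (by positivity) (toQp_sub_one_entry p u hu) (k + 1) i j) (norm_nonneg _)
    (by positivity)

theorem conj_pow_aux {R : Type*} [Ring R] (G H A : R) (hHG : H * G = 1) (k : ℕ) :
    (G * A * H) ^ (k + 1) = G * A ^ (k + 1) * H := by
  induction k with
  | zero => simp
  | succ k ih =>
    rw [pow_succ, ih]
    calc G * A ^ (k + 1) * H * (G * A * H) = G * A ^ (k + 1) * (H * G) * A * H := by
          simp only [mul_assoc]
      _ = G * (A ^ (k + 1) * A) * H := by rw [hHG]; simp only [mul_assoc, mul_one]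
      _ = G * A ^ (k + 1 + 1) * H := by rw [← pow_succ]

/-- LA2: the logarithm commutes with conjugation. -/
theorem mlog_conj (p : ℕ) [Fact p.Prime] {n : ℕ} (u : Matrix (Fin n) (Fin n) ℤ_[p])
    (hu : ∀ i j, (p : ℤ_[p]) ∣ (u - 1) i j) (g : Matrix.GeneralLinearGroup (Fin n) (PadicInt p)) :
    mlog p ((g : Matrix (Fin n) (Fin n) ℤ_[p]) * u *
      ((g⁻¹ : Matrix.GeneralLinearGroup (Fin n) (PadicInt p)) : Matrix (Fin n) (Fin n) ℤ_[p])) =
    toQp p (g : Matrix (Fin n) (Fin n) ℤ_[p]) * mlog p u *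
      toQp p ((g⁻¹ : Matrix.GeneralLinearGroup (Fin n) (PadicInt p)) :
        Matrix (Fin n) (Fin n) ℤ_[p]) := by
  set g1 : Matrix (Fin n) (Fin n) ℤ_[p] := (g : Matrix (Fin n) (Fin n) ℤ_[p]) with hg1
  set g2 : Matrix (Fin n) (Fin n) ℤ_[p] :=
    ((g⁻¹ : Matrix.GeneralLinearGroup (Fin n) (PadicInt p)) : Matrix (Fin n) (Fin n) ℤ_[p])
    with hg2
  have h12 : g1 * g2 = 1 := g.mul_inv
  have h21 : g2 * g1 = 1 := g.inv_mul
  have hQ : toQp p g2 * toQp p g1 = 1 := by rw [← toQp_mul, h21, toQp_one]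
  have hsub : toQp p (g1 * u * g2 - 1) = toQp p g1 * toQp p (u - 1) * toQp p g2 := by
    rw [← toQp_mul, ← toQp_mul]
    congr 1
    rw [mul_sub, sub_mul, mul_one, h12]
  have hsum := (mlog_summable p u hu).hasSum
  let F : Matrix (Fin n) (Fin n) ℚ_[p] →+ Matrix (Fin n) (Fin n) ℚ_[p] :=
    { toFun := fun X => toQp p g1 * X * toQp p g2
      map_zero' := by simp
      map_add' := fun X Y => by rw [mul_add, add_mul] }
  have hF : Continuous F := by
    change Continuous fun X : Matrix (Fin n) (Fin n) ℚ_[p] => toQp p g1 * X * toQp p g2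
    exact (continuous_const.mul continuous_id).mul continuous_const
  have h1 := hsum.map F hF
  have h2 : (F ∘ fun k : ℕ => ((-1 : ℚ_[p]) ^ k * ((k + 1 : ℕ) : ℚ_[p])⁻¹) •
      (toQp p (u - 1)) ^ (k + 1)) = fun k : ℕ => ((-1 : ℚ_[p]) ^ k * ((k + 1 : ℕ) : ℚ_[p])⁻¹) •
      (toQp p (g1 * u * g2 - 1)) ^ (k + 1) := by
    funext k
    change toQp p g1 * (((-1 : ℚ_[p]) ^ k * ((k + 1 : ℕ) : ℚ_[p])⁻¹) •
      (toQp p (u - 1)) ^ (k + 1)) * toQp p g2 = _
    rw [hsub, conj_pow_aux _ _ _ hQ, Matrix.mul_smul, Matrix.smul_mul]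
  rw [h2] at h1
  exact h1.tsum_eq

end Pool.Agent.MPca71W
end
end

section

section

/-!
# The action on a stable subspace gives an integral representation
-/

set_option autoImplicit false
open scoped nonZeroDivisors

namespace Pool.Agent.MPca71W

/-- `toQp` as a ring homomorphism is `ℤ_p`-linear -/
noncomputable def lcToQ (p : ℕ) [Fact p.Prime] (n : ℕ) :
    Matrix (Fin n) (Fin n) ℤ_[p] →ₗ[ℤ_[p]] Matrix (Fin n) (Fin n) ℚ_[p] where
  toFun := toQp p
  map_add' x y := by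
    ext i j
    simp [toQp]
  map_smul' c x := by
    ext i j
    change ((c * x i j : ℤ_[p]) : ℚ_[p]) = c • ((x i j : ℤ_[p]) : ℚ_[p])
    rw [Algebra.smul_def, PadicInt.coe_mul]
    rfl

theorem lcToQ_apply (p : ℕ) [Fact p.Prime] {n : ℕ} (x : Matrix (Fin n) (Fin n) ℤ_[p]) :
    lcToQ p n x = toQp p x := rfl

theorem toQp_mul' (p : ℕ) [Fact p.Prime] {n : ℕ} (x y : Matrix (Fin n) (Fin n) ℤ_[p]) :
    toQp p (x * y) = toQp p x * toQp p y := by
  ext i j
  simp only [toQp, Matrix.map_apply, Matrix.mul_apply]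
  rw [show (∑ k, x i k * y k j : ℤ_[p]) = ∑ k ∈ Finset.univ, x i k * y k j from rfl,
    PadicInt.coe_sum]
  simp

theorem toQp_one' (p : ℕ) [Fact p.Prime] {n : ℕ} :
    toQp p (1 : Matrix (Fin n) (Fin n) ℤ_[p]) = 1 := by
  ext i j
  simp only [toQp, Matrix.map_apply, Matrix.one_apply]
  split_ifs <;> simp

theorem toQp_inj' (p : ℕ) [Fact p.Prime] {n : ℕ} :
    Function.Injective (toQp p : Matrix (Fin n) (Fin n) ℤ_[p] → _) := by
  intro x y h
  ext i j
  have := congrFun (congrFun h i) j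
  exact Subtype.ext this

theorem continuous_toQp' (p : ℕ) [Fact p.Prime] {n : ℕ} :
    Continuous (toQp p : Matrix (Fin n) (Fin n) ℤ_[p] → _) := by
  refine continuous_matrix fun i j => ?_
  have h1 : Continuous fun a : Matrix (Fin n) (Fin n) ℤ_[p] => a i j :=
    (continuous_apply j).comp (continuous_apply i)
  exact continuous_subtype_val.comp h1

/-- the lattice of integral matrices in `W` -/
noncomputable def lcL (p : ℕ) [Fact p.Prime] {n : ℕ}
    (W : Submodule ℚ_[p] (Matrix (Fin n) (Fin n) ℚ_[p])) :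
    Submodule ℤ_[p] (Matrix (Fin n) (Fin n) ℤ_[p]) :=
  (W.restrictScalars ℤ_[p]).comap (lcToQ p n)

theorem mem_lcL (p : ℕ) [Fact p.Prime] {n : ℕ}
    (W : Submodule ℚ_[p] (Matrix (Fin n) (Fin n) ℚ_[p])) (x : Matrix (Fin n) (Fin n) ℤ_[p]) :
    x ∈ lcL p W ↔ toQp p x ∈ W := Iff.rfl

/-- the inclusion of the lattice in the space -/
noncomputable def lcf (p : ℕ) [Fact p.Prime] {n : ℕ}
    (W : Submodule ℚ_[p] (Matrix (Fin n) (Fin n) ℚ_[p])) : lcL p W →ₗ[ℤ_[p]] W where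
  toFun x := ⟨toQp p x.1, x.2⟩
  map_add' x y := Subtype.ext ((lcToQ p n).map_add x.1 y.1)
  map_smul' c x := Subtype.ext ((lcToQ p n).map_smul c x.1)

theorem exists_integral_multiple (p : ℕ) [Fact p.Prime] {n : ℕ}
    (X : Matrix (Fin n) (Fin n) ℚ_[p]) :
    ∃ (k : ℕ) (Y : Matrix (Fin n) (Fin n) ℤ_[p]), ((p : ℤ_[p]) ^ k) • X = toQp p Y := by
  have h1 : ∃ k : ℕ, ∀ i j, ‖X i j‖ ≤ (p : ℝ) ^ k := by
    have hp : (1 : ℝ) < p := by exact_mod_cast (Fact.out : p.Prime).one_lt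
    obtain ⟨C, hC⟩ : ∃ C : ℝ, ∀ i j, ‖X i j‖ ≤ C := by
      refine ⟨∑ i, ∑ j, ‖X i j‖, fun i j => ?_⟩
      calc ‖X i j‖ ≤ ∑ j, ‖X i j‖ :=
            Finset.single_le_sum (f := fun j => ‖X i j‖) (fun _ _ => norm_nonneg _)
              (Finset.mem_univ j)
        _ ≤ _ := Finset.single_le_sum (f := fun i => ∑ j, ‖X i j‖)
              (fun _ _ => Finset.sum_nonneg fun _ _ => norm_nonneg _) (Finset.mem_univ i)
    obtain ⟨k, hk⟩ := pow_unbounded_of_one_lt C hp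
    exact ⟨k, fun i j => (hC i j).trans hk.le⟩
  obtain ⟨k, hk⟩ := h1
  have h2 : ∀ i j, ‖(p : ℚ_[p]) ^ k * X i j‖ ≤ 1 := by
    intro i j
    rw [norm_mul, norm_pow, Padic.norm_p, inv_pow]
    have hp : (0 : ℝ) < (p : ℝ) ^ k := by
      have : (0 : ℝ) < p := by exact_mod_cast (Fact.out : p.Prime).pos
      positivity
    rw [inv_mul_le_iff₀ hp, mul_one]
    exact hk i j
  refine ⟨k, Matrix.of fun i j => ⟨(p : ℚ_[p]) ^ k * X i j, h2 i j⟩, ?_⟩
  ext i j
  simp only [toQp, Matrix.map_apply, Matrix.smul_apply, Matrix.of_apply, Algebra.smul_def]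
  rw [map_pow]
  rfl

instance lcf_isLocalized (p : ℕ) [Fact p.Prime] {n : ℕ}
    (W : Submodule ℚ_[p] (Matrix (Fin n) (Fin n) ℚ_[p])) :
    IsLocalizedModule (ℤ_[p])⁰ (lcf p W) where
  map_units := by
    intro x
    have hx : algebraMap ℤ_[p] ℚ_[p] x ≠ 0 := by
      intro h0
      have := (IsFractionRing.injective ℤ_[p] ℚ_[p]) (h0.trans (map_zero _).symm)
      exact nonZeroDivisors.ne_zero x.2 this
    rw [Module.End.isUnit_iff]
    constructor
    · intro a b hab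
      have h1 : (x : ℤ_[p]) • a = (x : ℤ_[p]) • b := hab
      rw [← algebraMap_smul ℚ_[p] (x : ℤ_[p]) a, ← algebraMap_smul ℚ_[p] (x : ℤ_[p]) b] at h1
      exact smul_right_injective _ hx h1
    · intro b
      refine ⟨(algebraMap ℤ_[p] ℚ_[p] x)⁻¹ • b, ?_⟩
      change (x : ℤ_[p]) • ((algebraMap ℤ_[p] ℚ_[p] x)⁻¹ • b) = b
      rw [← algebraMap_smul ℚ_[p] (x : ℤ_[p]), smul_smul, mul_inv_cancel₀ hx, one_smul]
  surj := by
    intro y
    obtain ⟨k, Y, hY⟩ := exists_integral_multiple p (y : Matrix (Fin n) (Fin n) ℚ_[p])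
    have hp : (p : ℤ_[p]) ≠ 0 := by exact_mod_cast (Fact.out : p.Prime).ne_zero
    have hYW : Y ∈ lcL p W := by
      rw [mem_lcL, ← hY]
      exact (W.restrictScalars ℤ_[p]).smul_mem _ y.2
    refine ⟨(⟨Y, hYW⟩, ⟨(p : ℤ_[p]) ^ k, mem_nonZeroDivisors_of_ne_zero (pow_ne_zero _ hp)⟩), ?_⟩
    apply Subtype.ext
    exact hY
  exists_of_eq := by
    intro x y h
    refine ⟨1, ?_⟩
    have : x = y := by
      apply Subtype.ext
      apply toQp_inj' p
      exact congrArg Subtype.val h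
    rw [this]

/-- conjugation on the lattice -/
noncomputable def lcAct (p : ℕ) [Fact p.Prime] {G : Type} [Group G] {n : ℕ}
    (ρ : G →* Matrix.GeneralLinearGroup (Fin n) (PadicInt p))
    (W : Submodule ℚ_[p] (Matrix (Fin n) (Fin n) ℚ_[p]))
    (hW : ∀ g : G, ∀ X ∈ W, toQp p (ρ g : Matrix (Fin n) (Fin n) ℤ_[p]) * X *
      toQp p ((ρ g)⁻¹ : Matrix.GeneralLinearGroup (Fin n) (PadicInt p)).val ∈ W) :
    G →* Module.End ℤ_[p] (lcL p W) where
  toFun g :=
    { toFun := fun x => ⟨(ρ g).val * x.1 * ((ρ g)⁻¹).val, by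
        rw [mem_lcL, toQp_mul', toQp_mul']
        exact hW g _ x.2⟩
      map_add' := fun x y => Subtype.ext (by
        change (ρ g).val * (x.1 + y.1) * ((ρ g)⁻¹).val =
          (ρ g).val * x.1 * ((ρ g)⁻¹).val + (ρ g).val * y.1 * ((ρ g)⁻¹).val
        rw [mul_add, add_mul])
      map_smul' := fun c x => Subtype.ext (by
        change (ρ g).val * (c • x.1) * ((ρ g)⁻¹).val = c • ((ρ g).val * x.1 * ((ρ g)⁻¹).val)
        rw [Matrix.mul_smul, Matrix.smul_mul]) }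
  map_one' := by
    ext1 x
    apply Subtype.ext
    change (ρ 1).val * x.1 * ((ρ 1)⁻¹).val = x.1
    rw [map_one, inv_one, Units.val_one, one_mul, mul_one]
  map_mul' g h := by
    ext1 x
    apply Subtype.ext
    change (ρ (g * h)).val * x.1 * ((ρ (g * h))⁻¹).val =
      (ρ g).val * ((ρ h).val * x.1 * ((ρ h)⁻¹).val) * ((ρ g)⁻¹).val
    rw [map_mul, mul_inv_rev, Units.val_mul, Units.val_mul]
    noncomm_ring

theorem lcAct_apply (p : ℕ) [Fact p.Prime] {G : Type} [Group G] {n : ℕ}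
    (ρ : G →* Matrix.GeneralLinearGroup (Fin n) (PadicInt p))
    (W : Submodule ℚ_[p] (Matrix (Fin n) (Fin n) ℚ_[p]))
    (hW : ∀ g : G, ∀ X ∈ W, toQp p (ρ g : Matrix (Fin n) (Fin n) ℤ_[p]) * X *
      toQp p ((ρ g)⁻¹ : Matrix.GeneralLinearGroup (Fin n) (PadicInt p)).val ∈ W) (g : G)
    (x : lcL p W) : (lcAct p ρ W hW g x).1 = (ρ g).val * x.1 * ((ρ g)⁻¹).val := rfl

/-- LC: the action on a stable subspace of `M_n(ℚ_p)` gives a representation over `ℤ_p`. -/
theorem exists_lattice_rep (p : ℕ) [Fact p.Prime] {G : Type} [Group G] [TopologicalSpace G]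
    [IsTopologicalGroup G] {n : ℕ}
    (ρ : G →* Matrix.GeneralLinearGroup (Fin n) (PadicInt p)) (hc : Continuous ρ)
    (W : Submodule ℚ_[p] (Matrix (Fin n) (Fin n) ℚ_[p]))
    (hW : ∀ g : G, ∀ X ∈ W, toQp p (ρ g : Matrix (Fin n) (Fin n) ℤ_[p]) * X *
      toQp p ((ρ g)⁻¹ : Matrix.GeneralLinearGroup (Fin n) (PadicInt p)).val ∈ W) :
    ∃ ρW : G →* Matrix.GeneralLinearGroup (Fin (Module.finrank ℚ_[p] W)) (PadicInt p),
      Continuous ρW ∧ (∀ g, ρ g = 1 → ρW g = 1) ∧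
      ∀ g, ρW g = 1 → ∀ X ∈ W, toQp p (ρ g : Matrix (Fin n) (Fin n) ℤ_[p]) * X =
        X * toQp p (ρ g : Matrix (Fin n) (Fin n) ℤ_[p]) := by
  have b0 := Module.finBasis ℤ_[p] (lcL p W)
  have hfr : Module.finrank ℤ_[p] (lcL p W) = Module.finrank ℚ_[p] W := by
    rw [Module.finrank_eq_card_basis (b0.ofIsLocalizedModule ℚ_[p] (ℤ_[p])⁰ (lcf p W)),
      Fintype.card_fin]
  let b : Module.Basis (Fin (Module.finrank ℚ_[p] W)) ℤ_[p] (lcL p W) :=
    b0.reindex (finCongr hfr)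
  let bQ : Module.Basis (Fin (Module.finrank ℚ_[p] W)) ℚ_[p] W :=
    b.ofIsLocalizedModule ℚ_[p] (ℤ_[p])⁰ (lcf p W)
  let A : G →* Module.End ℤ_[p] (lcL p W) := lcAct p ρ W hW
  let Mh : G →* Matrix (Fin (Module.finrank ℚ_[p] W)) (Fin (Module.finrank ℚ_[p] W)) ℤ_[p] :=
    ((LinearMap.toMatrixAlgEquiv b : _ →* _)).comp A
  -- entries
  have hentry : ∀ g i j, (Mh g) i j = b.repr (A g (b j)) i := by
    intro g i j
    exact LinearMap.toMatrixAlgEquiv_apply b (A g) i j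
  -- continuity of the entries
  have hcM : Continuous fun g => Mh g := by
    refine continuous_matrix fun i j => ?_
    obtain ⟨c, hcW⟩ := LinearMap.exists_extend (p := W) (bQ.coord i)
    have hcc : Continuous c := LinearMap.continuous_of_finiteDimensional c
    have h1 : ∀ g, ((Mh g i j : ℤ_[p]) : ℚ_[p]) =
        c (toQp p ((ρ g).val * (b j).1 * ((ρ g)⁻¹).val)) := by
      intro g
      have h2 : c (toQp p ((ρ g).val * (b j).1 * ((ρ g)⁻¹).val)) =
          bQ.coord i (lcf p W (A g (b j))) := by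
        rw [← hcW]
        rfl
      rw [h2, hentry, Module.Basis.coord_apply, Module.Basis.ofIsLocalizedModule_repr_apply]
      rfl
    have h3 : Continuous fun g => ((Mh g i j : ℤ_[p]) : ℚ_[p]) := by
      simp_rw [h1]
      refine hcc.comp ((continuous_toQp' p).comp ?_)
      have h4 : Continuous fun g => (ρ g).val := Units.continuous_val.comp hc
      have h5 : Continuous fun g => ((ρ g)⁻¹).val := Units.continuous_val.comp hc.inv
      exact (h4.matrix_mul continuous_const).matrix_mul h5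
    exact continuous_induced_rng.2 h3
  refine ⟨Mh.toHomUnits, ?_, ?_, ?_⟩
  · rw [Units.continuous_iff]
    refine ⟨hcM, ?_⟩
    have h1 : (fun x => ((Mh.toHomUnits x)⁻¹ : (Matrix (Fin (Module.finrank ℚ_[p] W))
        (Fin (Module.finrank ℚ_[p] W)) ℤ_[p])ˣ).val) = fun x => Mh x⁻¹ := by
      funext x
      rw [← map_inv]
      rfl
    rw [h1]
    exact hcM.comp continuous_inv
  · intro g hg
    apply Units.ext
    change Mh g = 1
    have h1 : A g = 1 := by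
      ext1 x
      apply Subtype.ext
      rw [lcAct_apply, hg, inv_one, Units.val_one, one_mul, mul_one]
      rfl
    change LinearMap.toMatrixAlgEquiv b (A g) = 1
    rw [h1, map_one]
  · intro g hg X hX
    have h0 : Mh g = 1 := congrArg Units.val hg
    have h1 : A g = 1 := by
      have : LinearMap.toMatrixAlgEquiv b (A g) = 1 := h0
      exact (LinearMap.toMatrixAlgEquiv b).injective (this.trans (map_one _).symm)
    obtain ⟨k, Y, hY⟩ := exists_integral_multiple p X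
    have hYW : Y ∈ lcL p W := by
      rw [mem_lcL, ← hY]
      exact (W.restrictScalars ℤ_[p]).smul_mem _ hX
    have h2 : (ρ g).val * Y * ((ρ g)⁻¹).val = Y := by
      have := congrArg (fun f : Module.End ℤ_[p] (lcL p W) => (f ⟨Y, hYW⟩).1) h1
      exact this
    have h3 : (ρ g).val * Y = Y * (ρ g).val := by
      calc (ρ g).val * Y = (ρ g).val * Y * (((ρ g)⁻¹).val * (ρ g).val) := by
            rw [Units.inv_mul, mul_one]
        _ = ((ρ g).val * Y * ((ρ g)⁻¹).val) * (ρ g).val := by noncomm_ring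
        _ = _ := by rw [h2]
    have h4 := congrArg (toQp p) h3
    rw [toQp_mul', toQp_mul', ← hY, Matrix.mul_smul, Matrix.smul_mul] at h4
    have hp : algebraMap ℤ_[p] ℚ_[p] ((p : ℤ_[p]) ^ k) ≠ 0 := by
      intro h0
      have h5 := (IsFractionRing.injective ℤ_[p] ℚ_[p]) (h0.trans (map_zero _).symm)
      have : (p : ℤ_[p]) ≠ 0 := by exact_mod_cast (Fact.out : p.Prime).ne_zero
      exact pow_ne_zero _ this h5
    rw [← algebraMap_smul ℚ_[p] ((p : ℤ_[p]) ^ k), ← algebraMap_smul ℚ_[p] ((p : ℤ_[p]) ^ k)] at h4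
    exact smul_right_injective _ hp h4

end Pool.Agent.MPca71W
end

section
set_option autoImplicit false

/-! LD: the power homomorphism by transfer. -/

namespace Pool.Agent.MPca71W

/-- LD: if `ρ(U)` is central in `ρ(G)` and `U` has finite index then `g ↦ ρ(g)^[G:U]` is a
homomorphism (transfer). -/
theorem exists_pow_hom {G M : Type} [Group G] [Group M] (ρ : G →* M) (U : Subgroup G)
    (hU : U.FiniteIndex) (hcomm : ∀ u ∈ U, ∀ g : G, ρ u * ρ g = ρ g * ρ u) :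
    ∃ ρ1 : G →* M, ∀ g, ρ1 g = ρ g ^ U.index := by
  classical
  -- the subgroup of all `g` with central image contains `U`
  set Z : Subgroup G := (Subgroup.center ρ.range).comap ρ.rangeRestrict with hZ
  have hUZ : U ≤ Z := by
    intro u hu
    rw [hZ, Subgroup.mem_comap, Subgroup.mem_center_iff]
    rintro ⟨_, g, rfl⟩
    apply Subtype.ext
    exact (hcomm u hu g).symm
  have hZind : Z.index = (Subgroup.center ρ.range).index :=
    Subgroup.index_comap_of_surjective _ ρ.rangeRestrict_surjective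
  have hdvd : Z.index ∣ U.index := Subgroup.index_dvd_of_le hUZ
  have hne : Z.index ≠ 0 := by
    intro h0
    rw [h0] at hdvd
    exact hU.index_ne_zero (Nat.eq_zero_of_zero_dvd hdvd)
  have hfi : (Subgroup.center ρ.range).FiniteIndex := ⟨by rw [← hZind]; exact hne⟩
  obtain ⟨k, hk⟩ := hdvd
  have hmul : ∀ a b : G, ρ (a * b) ^ Z.index = ρ a ^ Z.index * ρ b ^ Z.index := by
    intro a b
    have h1 := map_mul (MonoidHom.transferCenterPow ρ.range) (ρ.rangeRestrict a)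
      (ρ.rangeRestrict b)
    have h2 := congrArg (fun z : Subgroup.center ρ.range => ((z : ρ.range) : M)) h1
    rw [hZind, map_mul ρ]
    exact h2
  have hcen : ∀ a b : G, Commute (ρ a ^ Z.index) (ρ b) := by
    intro a b
    have h1 : (ρ.rangeRestrict a) ^ Z.index ∈ Subgroup.center ρ.range := by
      rw [hZind]
      exact Subgroup.pow_index_mem _ _
    rw [Subgroup.mem_center_iff] at h1
    have h2 := congrArg (fun z : ρ.range => (z : M)) (h1 (ρ.rangeRestrict b))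
    simp only [Subgroup.coe_mul, Subgroup.coe_pow, MonoidHom.coe_rangeRestrict] at h2
    exact h2.symm
  refine ⟨MonoidHom.mk' (fun g => ρ g ^ U.index) fun a b => ?_, fun g => rfl⟩
  rw [hk, pow_mul, pow_mul, pow_mul, hmul, ((hcen a b).pow_right _).mul_pow]

end Pool.Agent.MPca71W
end

section
set_option autoImplicit false
open scoped NumberField

namespace Pool.Agent.MPca71W

section lie

variable {K Ω : Type} [Field K] [NumberField K] [Field Ω] [Algebra K Ω] [IsAlgClosed Ω]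
  [Algebra.IsAlgebraic K Ω]

/-- The hypothesis on the kernel passes to a representation with a larger kernel. -/
theorem unrProP_of_ker_le {p : ℕ} [Fact p.Prime] {n n' : ℕ}
    (ρ : (Ω ≃ₐ[K] Ω) →* Matrix.GeneralLinearGroup (Fin n) (PadicInt p))
    (ρ' : (Ω ≃ₐ[K] Ω) →* Matrix.GeneralLinearGroup (Fin n') (PadicInt p))
    (hu : UnrProP p K Ω ρ) (h : ∀ g, ρ g = 1 → ρ' g = 1) : UnrProP p K Ω ρ' := by
  intro L hL
  refine hu L (hL.trans ?_)
  exact IntermediateField.fixedField_antitone fun g hg => h g hg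

/-- If all unramified pro-`p` representations of dimension `≤ m` and all residually trivial ones
are trivial, then every unramified pro-`p` image of dimension `≤ m` is finite. -/
theorem finite_of_lie (p : ℕ) [Fact p.Prime] (hp2 : p ≠ 2) (m : ℕ)
    (h1 : ∀ (n : ℕ) (ρ : (Ω ≃ₐ[K] Ω) →* Matrix.GeneralLinearGroup (Fin n) (PadicInt p)),
      Continuous ρ → UnrProP p K Ω ρ → (n ≤ m ∨
        ∀ g i j, (p : ℤ_[p]) ∣ ((ρ g : Matrix (Fin n) (Fin n) ℤ_[p]) - 1) i j) → ρ = 1)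
    (n : ℕ) (ρ : (Ω ≃ₐ[K] Ω) →* Matrix.GeneralLinearGroup (Fin n) (PadicInt p))
    (hc : Continuous ρ) (hu : UnrProP p K Ω ρ)
    (hd : Module.finrank ℚ_[p] (lieSpan p ρ) ≤ m) : (Set.range ρ).Finite := by
  have hp : p.Prime := Fact.out
  have hdvd : ∀ x : ℤ_[p], ‖x‖ ≤ (p : ℝ) ^ (-(1 : ℕ) : ℤ) ↔ (p : ℤ_[p]) ∣ x := by
    intro x
    have := PadicInt.norm_le_pow_iff_mem_span_pow x 1
    rw [pow_one, Ideal.mem_span_singleton] at this
    exact this
  -- the congruence subgroup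
  let σ : (Ω ≃ₐ[K] Ω) ≃* (Ω ≃ₐ[K] Ω) := MulEquiv.refl _
  let U := congrSub p ρ σ 1 1
  have hUn : U.Normal := congrSub_normal p ρ σ 1 1
  have hUo : IsOpen (U : Set (Ω ≃ₐ[K] Ω)) := congrSub_open p ρ hc σ continuous_id 1 1
  have hU : ∀ g, g ∈ U ↔ ∀ i j, (p : ℤ_[p]) ∣ ((ρ g : Matrix (Fin n) (Fin n) ℤ_[p]) - 1) i j := by
    intro g
    constructor
    · intro hg i j
      rw [← hdvd]
      exact hg 0 (by norm_num) i j
    · intro hg k hk i j
      have hk0 : k = 0 := by omega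
      subst hk0
      exact (hdvd _).2 (hg i j)
  -- the span of the logarithms is stable
  have hstab : ∀ g : Ω ≃ₐ[K] Ω, ∀ X ∈ lieSpan p ρ, toQp p (ρ g : Matrix (Fin n) (Fin n) ℤ_[p]) * X *
      toQp p ((ρ g)⁻¹ : Matrix.GeneralLinearGroup (Fin n) (PadicInt p)).val ∈ lieSpan p ρ := by
    intro g X hX
    induction hX using Submodule.span_induction with
    | mem X hX =>
      obtain ⟨u, hu1, rfl⟩ := hX
      rw [← mlog_conj p _ hu1 (ρ g)]
      refine Submodule.subset_span ⟨g * u * g⁻¹, ?_, ?_⟩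
      · exact (hU _).1 (hUn.conj_mem u ((hU u).2 hu1) g)
      · rw [map_mul, map_mul, map_inv, Units.val_mul, Units.val_mul]
    | zero => simp
    | add X Y _ _ hX hY =>
      rw [mul_add, add_mul]
      exact Submodule.add_mem _ hX hY
    | smul c X _ hX =>
      rw [Matrix.mul_smul, Matrix.smul_mul]
      exact Submodule.smul_mem _ c hX
  obtain ⟨ρW, hWc, hW1, hW2⟩ := exists_lattice_rep p ρ hc (lieSpan p ρ) hstab
  have hWt : ρW = 1 := h1 _ ρW hWc (unrProP_of_ker_le ρ ρW hu hW1) (Or.inl hd)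
  -- hence `ρ(U)` is central
  have hcomm : ∀ u ∈ U, ∀ g : Ω ≃ₐ[K] Ω, ρ u * ρ g = ρ g * ρ u := by
    intro u hu0 g
    have hu1 := (hU u).1 hu0
    have h2 : mlog p (ρ u : Matrix (Fin n) (Fin n) ℤ_[p]) ∈ lieSpan p ρ :=
      Submodule.subset_span ⟨u, hu1, rfl⟩
    have h3 := hW2 g (by rw [hWt]; rfl) _ h2
    have h4 := mlog_conj p _ hu1 (ρ g)
    rw [h3, mul_assoc (mlog p (ρ u : Matrix (Fin n) (Fin n) ℤ_[p]))] at h4
    have h5 : toQp p (ρ g : Matrix (Fin n) (Fin n) ℤ_[p]) *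
        toQp p ((ρ g)⁻¹ : Matrix.GeneralLinearGroup (Fin n) (PadicInt p)).val = 1 := by
      have h6 : (ρ g : Matrix (Fin n) (Fin n) ℤ_[p]) *
        ((ρ g)⁻¹ : Matrix.GeneralLinearGroup (Fin n) (PadicInt p)).val = 1 := Units.mul_inv _
      have h7 := congrArg (fun M : Matrix (Fin n) (Fin n) ℤ_[p] =>
        M.map (PadicInt.Coe.ringHom (p := p))) h6
      simp only [Matrix.map_mul] at h7
      have h8 : (1 : Matrix (Fin n) (Fin n) ℤ_[p]).map (PadicInt.Coe.ringHom (p := p)) = 1 :=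
        Matrix.map_one _ (map_zero _) (map_one _)
      rw [h8] at h7
      exact h7
    rw [h5, mul_one] at h4
    have h9 : ∀ i j, (p : ℤ_[p]) ∣ ((ρ g : Matrix (Fin n) (Fin n) ℤ_[p]) * ρ u *
        ((ρ g)⁻¹ : Matrix.GeneralLinearGroup (Fin n) (PadicInt p)).val - 1) i j := by
      have := (hU _).1 (hUn.conj_mem u hu0 g)
      rw [map_mul, map_mul, map_inv, Units.val_mul, Units.val_mul] at this
      exact this
    have h10 := mlog_inj p hp2 _ _ h9 hu1 h4
    have h11 : ρ g * ρ u * (ρ g)⁻¹ = ρ u := by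
      apply Units.ext
      rw [Units.val_mul, Units.val_mul]
      exact h10
    rw [mul_inv_eq_iff_eq_mul] at h11
    exact h11.symm
  obtain ⟨L, -, hL', hLf, hLG, hLi⟩ := exists_field_of_open U hUn hUo
  have hidx : U.index ≠ 0 := by rw [← hLi]; exact Module.finrank_pos.ne'
  obtain ⟨ρ1, hρ1⟩ := exists_pow_hom ρ U ⟨hidx⟩ hcomm
  -- the power homomorphism is residually trivial, hence trivial
  have hpowU : ∀ g, g ^ U.index ∈ U := fun g => Subgroup.pow_index_mem U g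
  have h1c : Continuous ρ1 := by
    have : (ρ1 : (Ω ≃ₐ[K] Ω) → Matrix.GeneralLinearGroup (Fin n) (PadicInt p)) =
        fun g => ρ g ^ U.index := funext hρ1
    rw [this]
    exact hc.pow _
  have h1t : ρ1 = 1 := by
    refine h1 n ρ1 h1c (unrProP_of_ker_le ρ ρ1 hu fun g hg => by rw [hρ1, hg, one_pow]) (Or.inr ?_)
    intro g
    rw [hρ1, ← map_pow]
    exact (hU _).1 (hpowU g)
  have hpow1 : ∀ g, ρ g ^ U.index = 1 := fun g => by rw [← hρ1, h1t]; rfl
  -- `ρ` is trivial on `U`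
  have hkU : ρ.ker ≤ U := by
    intro g hg
    rw [hU, MonoidHom.mem_ker.1 hg]
    intro i j
    rw [Units.val_one, sub_self, Matrix.zero_apply]
    exact dvd_zero _
  have hUk : U ≤ ρ.ker := by
    intro u hu0
    have h2 := rho_torsion_free p hp2 1 1 n le_rfl le_rfl (by
      have := hp.two_le
      omega) (ρ.comp U.subtype) (by
        intro f i j
        rw [List.ofFn_succ, List.ofFn_zero, List.prod_cons, List.prod_nil, mul_one]
        exact (hU _).1 (f 0).2 i j) ⟨u, hu0⟩ U.index hidx (hpow1 u)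
    exact h2
  have hki : ρ.ker.index ≠ 0 := by
    rw [le_antisymm hkU hUk]; exact hidx
  rw [Subgroup.index_ker] at hki
  have hfin : Finite ρ.range := Nat.finite_of_card_ne_zero hki
  have h3 : ((ρ.range : Subgroup _) : Set (Matrix.GeneralLinearGroup (Fin n) (PadicInt p))).Finite :=
    hfin
  rwa [MonoidHom.coe_range] at h3

end lie

end Pool.Agent.MPca71W
end
end
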