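import Pool.Agent.Lib.MP_ca71b5_ntW.RED4

section
set_option autoImplicit false
open scoped NumberField

namespace Pool.Agent.MPca71W

section RED5

open Multiplicative

attribute [-instance] DivisionRing.toRatAlgebra

variable {Ω : Type} [Field Ω] [Algebra ℚ Ω] [IsAlgClosed Ω] [Algebra.IsAlgebraic ℚ Ω]

/-- Basic facts on `KF`. -/
theorem KF_facts (p : ℕ) [Fact p.Prime] {t : ℕ} (q N : Fin t → ℕ) [∀ i, NeZero (N i)]
    (lg : ∀ i, ZMod (N i) → ZMod p) (hlg : ∀ i, IsLog p (N i) (lg i)) :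
    FiniteDimensional ℚ (KF Ω p N lg) ∧ IsGalois ℚ (KF Ω p N lg) ∧
      (KF Ω p N lg).fixingSubgroup = (∏ i, lamH Ω (hlg i)).ker ∧
      Module.finrank ℚ (KF Ω p N lg) = (∏ i, lamH Ω (hlg i)).ker.index := by
  obtain ⟨L, h1, h2, h3, h4, h5⟩ := exists_field_of_open (∏ i, lamH Ω (hlg i)).ker inferInstance
    (Lam_open (Ω := Ω) p N lg hlg)
  have h6 : KF Ω p N lg = L := by rw [h2]; exact KF_eq p N lg hlg _ rfl
  rw [h6]
  exact ⟨h3, h4, h1, h5⟩

theorem index_ker_dvd (p : ℕ) [Fact p.Prime] {G : Type} [Group G]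
    (f : G →* Multiplicative (ZMod p)) : f.ker.index ∣ p := by
  have hp : p.Prime := Fact.out
  have hpne : NeZero p := ⟨hp.ne_zero⟩
  rw [Subgroup.index_ker]
  have h1 := Subgroup.card_subgroup_dvd_card f.range
  rwa [Nat.card_congr Multiplicative.toAdd, Nat.card_zmod] at h1

variable (K : IntermediateField ℚ Ω)

theorem hypX_of_redei [NumberField K] (p : ℕ) [Fact p.Prime] {t : ℕ} (q N : Fin t → ℕ)
    [∀ i, NeZero (N i)] (lg : ∀ i, ZMod (N i) → ZMod p) (hq : ∀ i, (q i).Prime)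
    (hinj : Function.Injective q) (hN : ∀ i, ∃ e, N i = q i ^ e)
    (hlg : ∀ i, IsLog p (N i) (lg i)) (hR : RedeiMax p q N lg) (hK : K = KF Ω p N lg) :
    HypX p 1 ℚ K Ω := by
  intro τ hτ σ hσ χ hχo hχI h
  obtain ⟨Lam, hLam⟩ : ∃ L : (Ω ≃ₐ[ℚ] Ω) →* Multiplicative (ZMod p), L = ∏ i, lamH Ω (hlg i) :=
    ⟨_, rfl⟩
  have hfix : K.fixingSubgroup = Lam.ker := by
    rw [hK, hLam]; exact (KF_facts p q N lg hlg).2.2.1
  have hHK : HK ℚ K Ω = Lam.ker := by
    rw [← hfix]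
    ext g
    rw [mem_HK, IntermediateField.mem_fixingSubgroup_iff]
    constructor
    · intro h x hx; exact h ⟨x, hx⟩
    · intro h x; exact h x x.2
  have hinj' : Function.Injective (AlgEquiv.restrictScalarsHom ℚ : (Ω ≃ₐ[K] Ω) →* (Ω ≃ₐ[ℚ] Ω)) :=
    AlgEquiv.restrictScalarsHom_injective ℚ
  let e : (Ω ≃ₐ[K] Ω) ≃* Lam.ker :=
    (MonoidHom.ofInjective hinj').trans (MulEquiv.subgroupCongr hHK)
  have he : ∀ h : Ω ≃ₐ[K] Ω, ((e h : Lam.ker) : Ω ≃ₐ[ℚ] Ω) = h.restrictScalars ℚ := fun h => rfl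
  let χ' : Lam.ker →* Multiplicative (ZMod p) := χ.comp e.symm.toMonoidHom
  have hχ' : ∀ x, χ' (e x) = χ x := fun x => by
    change χ (e.symm (e x)) = χ x
    rw [e.symm_apply_apply]
  have hfin : FiniteDimensional ℚ K := by rw [hK]; exact (KF_facts p q N lg hlg).1
  have hopen : IsOpen (χ'.ker.map Lam.ker.subtype : Set (Ω ≃ₐ[ℚ] Ω)) := by
    refine Subgroup.isOpen_of_mem_nhds _ (g := 1) ?_
    refine nhds_of_restrict (F := ℚ) (K := K) _ ?_
    have h1 : (χ.ker : Set (Ω ≃ₐ[K] Ω)) ⊆ {h : Ω ≃ₐ[K] Ω | h.restrictScalars ℚ ∈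
        (χ'.ker.map Lam.ker.subtype : Set (Ω ≃ₐ[ℚ] Ω))} := by
      intro x hx
      refine ⟨e x, ?_, he x⟩
      rw [SetLike.mem_coe, MonoidHom.mem_ker, hχ']
      exact hx
    exact Filter.mem_of_superset (hχo.mem_nhds (one_mem χ.ker)) h1
  have key : ∀ x : Ω ≃ₐ[K] Ω, χ (σ x) = χ x := by
    intro x
    rw [← hχ', ← hχ' x]
    refine redei_inv p q N lg hq hinj hN hlg hR Lam hLam χ' hopen ?_ τ (e x) (e (σ x)) ?_
    · intro y hy
      obtain ⟨y, rfl⟩ := e.surjective y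
      rw [hχ']
      apply hχI
      exact inertial_congr (fun z => by rw [he]; rfl) hy
    · rw [he, he]
      ext z
      rw [AlgEquiv.mul_apply, AlgEquiv.mul_apply]
      exact hσ x z
  change χ (σ h * h⁻¹) = 1
  rw [map_mul, map_inv, key, mul_inv_cancel]

/-- The explicit family. -/
theorem family_trivial [NumberField K] (p : ℕ) [Fact p.Prime] (hp2 : p ≠ 2) {t : ℕ}
    (q N : Fin t → ℕ) [∀ i, NeZero (N i)] (lg : ∀ i, ZMod (N i) → ZMod p)
    (hq : ∀ i, (q i).Prime) (hinj : Function.Injective q) (hN : ∀ i, ∃ e, N i = q i ^ e)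
    (hlg : ∀ i, IsLog p (N i) (lg i)) (hR : RedeiMax p q N lg) (hK : K = KF Ω p N lg) (n : ℕ)
    (ρ : (Ω ≃ₐ[K] Ω) →* Matrix.GeneralLinearGroup (Fin n) (PadicInt p)) (hc : Continuous ρ)
    (hu : UnrProP p K Ω ρ) (hn : n + 2 ≤ p ∨ NilpMod p (p - 2) ρ) : ρ = 1 := by
  have hp : p.Prime := Fact.out
  have hp3 : 3 ≤ p := by
    rcases hp.eq_two_or_odd with h | h
    · exact absurd h hp2
    · have := hp.two_le; omega
  have hX := hypX_of_redei K p q N lg hq hinj hN hlg hR hK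
  have hG : IsGalois ℚ K := by rw [hK]; exact (KF_facts p q N lg hlg).2.1
  have hno1 : ∀ L : IntermediateField ℚ Ω, 1 < Module.finrank ℚ L →
      ¬ Algebra.Unramified (𝓞 ℚ) (𝓞 L) := by
    intro L hL
    exact no_unramified_rat' L (Module.finite_of_finrank_pos (by omega)) hL _
  have hno : NoUnr p ℚ Ω := fun L _ hL => hno1 L (by rw [hL]; exact hp.one_lt)
  refine (main_X (F := ℚ) (K := K) p hp2 1 (p - 2) n le_rfl (by omega) (by omega) hX ρ hc hu
    ?_ (fun L _ _ => hno1 L)).2 (fmdim_of_no_unramified p n hno)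
  rcases hn with h | h
  · left; omega
  · right; exact h

end RED5

end Pool.Agent.MPca71W
end

section
set_option autoImplicit false
open scoped NumberField

namespace Pool.Agent.MPca71W

section comap

/-- The restriction map `Gal(Ω/K) → Gal(Ω/F)` is continuous: preimages of open subgroups are
open. -/
theorem comap_rs_open {F K Ω : Type} [Field F] [Field K] [Algebra F K] [Field Ω] [Algebra F Ω]
    [Algebra K Ω] [IsScalarTower F K Ω] [Algebra.IsAlgebraic K Ω] (D : Subgroup (Ω ≃ₐ[F] Ω))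
    (hD : IsOpen (D : Set (Ω ≃ₐ[F] Ω))) :
    IsOpen ((D.comap (AlgEquiv.restrictScalarsHom F : (Ω ≃ₐ[K] Ω) →* (Ω ≃ₐ[F] Ω)) :
      Subgroup (Ω ≃ₐ[K] Ω)) : Set (Ω ≃ₐ[K] Ω)) := by
  have h1 := hD.mem_nhds (one_mem D)
  rw [krullTopology_mem_nhds_one_iff] at h1
  obtain ⟨E, hE, hED⟩ := h1
  let b := Module.finBasis F E
  let T : Set Ω := Set.range fun i => ((b i : E) : Ω)
  have hT : FiniteDimensional K (IntermediateField.adjoin K T) :=
    IntermediateField.finiteDimensional_adjoin fun x _ => Algebra.IsIntegral.isIntegral x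
  refine Subgroup.isOpen_mono ?_ (IntermediateField.fixingSubgroup_isOpen
    (IntermediateField.adjoin K T))
  intro h hh
  rw [IntermediateField.mem_fixingSubgroup_iff] at hh
  apply hED
  change h.restrictScalars F ∈ E.fixingSubgroup
  rw [IntermediateField.mem_fixingSubgroup_iff]
  intro x hx
  have h1 : ((⟨x, hx⟩ : E) : Ω) = ∑ i, (b.repr ⟨x, hx⟩ i) • ((b i : E) : Ω) := by
    conv_lhs => rw [← b.sum_repr ⟨x, hx⟩]
    rw [← IntermediateField.coe_val, map_sum]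
    refine Finset.sum_congr rfl fun i _ => ?_
    rw [map_smul]
  change (h.restrictScalars F) ((⟨x, hx⟩ : E) : Ω) = ((⟨x, hx⟩ : E) : Ω)
  rw [h1, map_sum]
  refine Finset.sum_congr rfl fun i _ => ?_
  rw [map_smul]
  congr 1
  exact hh _ (IntermediateField.subset_adjoin K T ⟨i, rfl⟩)

end comap

section RED6

open Multiplicative

attribute [-instance] DivisionRing.toRatAlgebra

variable {Ω : Type} [Field Ω] [Algebra ℚ Ω] [IsAlgClosed Ω] [Algebra.IsAlgebraic ℚ Ω]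

/-- The characters `lamH i` are independent. -/
theorem lam_index (p : ℕ) [Fact p.Prime] {t : ℕ} (q N : Fin t → ℕ) [∀ i, NeZero (N i)]
    (lg : ∀ i, ZMod (N i) → ZMod p) (hq : ∀ i, (q i).Prime) (hinj : Function.Injective q)
    (hN : ∀ i, ∃ e, N i = q i ^ e) (hlg : ∀ i, IsLog p (N i) (lg i)) :
    (⨅ i, (lamH Ω (hlg i)).ker : Subgroup (Ω ≃ₐ[ℚ] Ω)).index = p ^ t ∧
      (0 < t → (∏ i, lamH Ω (hlg i)).ker.index = p) := by
  classical
  have hp : p.Prime := Fact.out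
  have hpne : NeZero p := ⟨hp.ne_zero⟩
  have hqF : ∀ i, Fact (q i).Prime := fun i => ⟨hq i⟩
  choose Q hQm hQq τ hτQ hτ1 using fun j => exists_tau (Ω := Ω) p (q j) (N j) (hq j) (hN j) (hlg j)
  have hnot : ∀ i j, i ≠ j → ((q i : ℕ) : 𝓞 Ω) ∉ Q j := fun i j hij =>
    prime_mem_unique (Q j) (hQm j) (q j) (q i) (hq j) (hq i) (fun h => hij (hinj h.symm)) (hQq j)
  have hτ0 : ∀ i j, i ≠ j → lamH Ω (hlg i) (τ j) = 1 := by
    intro i j hij
    rw [lamH_apply, kap_inertial (q i) (N i) (hN i) (Q j) (hQm j) (hnot i j hij) (τ j) (hτQ j),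
      Units.val_one, (hlg i).map_one, ofAdd_zero]
  constructor
  · let Φ : (Ω ≃ₐ[ℚ] Ω) →* (Fin t → Multiplicative (ZMod p)) := MonoidHom.pi fun i => lamH Ω (hlg i)
    have hker : (⨅ i, (lamH Ω (hlg i)).ker : Subgroup (Ω ≃ₐ[ℚ] Ω)) = Φ.ker := by
      ext x
      rw [Subgroup.mem_iInf, MonoidHom.mem_ker, funext_iff]
      rfl
    have hsurj : Function.Surjective Φ := by
      intro v
      refine ⟨(List.ofFn fun j => τ j ^ (toAdd (v j)).val).prod, ?_⟩
      rw [map_list_prod, List.map_ofFn, List.prod_ofFn]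
      funext i
      rw [Finset.prod_apply, Finset.prod_eq_single i]
      · change lamH Ω (hlg i) (τ i ^ (toAdd (v i)).val) = v i
        have h6 : lamH Ω (hlg i) (τ i) = ofAdd 1 := hτ1 i
        rw [map_pow, h6, ← ofAdd_nsmul, nsmul_one, ZMod.natCast_zmod_val, ofAdd_toAdd]
      · intro j _ hji
        change lamH Ω (hlg i) (τ j ^ (toAdd (v j)).val) = 1
        rw [map_pow, hτ0 i j (Ne.symm hji), one_pow]
      · intro h; exact absurd (Finset.mem_univ i) h
    rw [hker, Subgroup.index_ker, MonoidHom.range_eq_top.2 hsurj, Subgroup.card_top,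
      Nat.card_fun, Nat.card_congr Multiplicative.toAdd, Nat.card_zmod, Nat.card_fin]
  · intro ht
    rcases (Nat.dvd_prime hp).1 (index_ker_dvd p (∏ i, lamH Ω (hlg i))) with h | h
    · exfalso
      rw [Subgroup.index_eq_one] at h
      let j0 : Fin t := ⟨0, ht⟩
      have h1 : τ j0 ∈ (∏ i, lamH Ω (hlg i)).ker := by rw [h]; trivial
      rw [MonoidHom.mem_ker, MonoidHom.finsetProd_apply, Finset.prod_eq_single j0] at h1
      · have h6 : lamH Ω (hlg j0) (τ j0) = ofAdd 1 := hτ1 j0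
        rw [h6] at h1
        have h2 : (1 : ZMod p) = 0 := ofAdd.injective (h1.trans ofAdd_zero.symm)
        have : Nontrivial (ZMod p) := ZMod.nontrivial_iff.2 hp.ne_one
        exact one_ne_zero h2
      · intro i _ hi; exact hτ0 i j0 hi
      · intro h; exact absurd (Finset.mem_univ j0) h
    · exact h

/-- The field `KF` has an unramified Galois extension of degree `p ^ (t - 1)` and exponent `p`. -/
theorem KF_unramified (K : IntermediateField ℚ Ω) [NumberField K] (p : ℕ) [Fact p.Prime] {t : ℕ}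
    (q N : Fin t → ℕ) [∀ i, NeZero (N i)] (lg : ∀ i, ZMod (N i) → ZMod p)
    (hq : ∀ i, (q i).Prime) (hinj : Function.Injective q)
    (hN : ∀ i, ∃ e, N i = q i ^ e) (hlg : ∀ i, IsLog p (N i) (lg i)) (hK : K = KF Ω p N lg)
    (ht : 0 < t) :
    ∃ L : IntermediateField K Ω, IsGalois K L ∧ Module.finrank K L = p ^ (t - 1) ∧
      Algebra.Unramified (𝓞 K) (𝓞 L) ∧ ∀ s : L ≃ₐ[K] L, s ^ p = 1 := by
  classical
  have hp : p.Prime := Fact.out
  have hpne : NeZero p := ⟨hp.ne_zero⟩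
  have hqF : ∀ i, Fact (q i).Prime := fun i => ⟨hq i⟩
  have hfin : FiniteDimensional ℚ K := by rw [hK]; exact (KF_facts p q N lg hlg).1
  have hAlg : Algebra.IsAlgebraic K Ω := Algebra.IsAlgebraic.tower_top (K := ℚ) K
  have hfix : K.fixingSubgroup = (∏ i, lamH Ω (hlg i)).ker := by
    rw [hK]; exact (KF_facts p q N lg hlg).2.2.1
  have hHK : HK ℚ K Ω = (∏ i, lamH Ω (hlg i)).ker := by
    rw [← hfix]
    ext g
    rw [mem_HK, IntermediateField.mem_fixingSubgroup_iff]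
    constructor
    · intro h x hx; exact h ⟨x, hx⟩
    · intro h x; exact h x x.2
  let D : Subgroup (Ω ≃ₐ[ℚ] Ω) := ⨅ i, (lamH Ω (hlg i)).ker
  have hD : D.Normal := Subgroup.normal_iInf_normal fun i => inferInstance
  have hDo : IsOpen (D : Set (Ω ≃ₐ[ℚ] Ω)) := by
    rw [Subgroup.coe_iInf]
    exact isOpen_iInter_of_finite fun i => lamH_open (hlg i)
  have hDle : D ≤ (∏ i, lamH Ω (hlg i)).ker := by
    intro x hx
    rw [MonoidHom.mem_ker, MonoidHom.finsetProd_apply]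
    refine Finset.prod_eq_one fun i _ => ?_
    exact (Subgroup.mem_iInf.1 hx) i
  let N' : Subgroup (Ω ≃ₐ[K] Ω) :=
    D.comap (AlgEquiv.restrictScalarsHom ℚ : (Ω ≃ₐ[K] Ω) →* (Ω ≃ₐ[ℚ] Ω))
  have hN'n : N'.Normal := hD.comap _
  have hN'o : IsOpen (N' : Set (Ω ≃ₐ[K] Ω)) := comap_rs_open D hDo
  have hidx : N'.index = p ^ (t - 1) := by
    have h1 : N'.index = D.relIndex (HK ℚ K Ω) := Subgroup.index_comap D _
    have h2 := Subgroup.relIndex_mul_index hDle
    rw [(lam_index (Ω := Ω) p q N lg hq hinj hN hlg).1,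
      (lam_index (Ω := Ω) p q N lg hq hinj hN hlg).2 ht] at h2
    rw [h1, hHK]
    obtain ⟨s, rfl⟩ : ∃ s, t = s + 1 := ⟨t - 1, by omega⟩
    rw [pow_succ] at h2
    exact Nat.eq_of_mul_eq_mul_right hp.pos h2
  obtain ⟨L, hL1, -, hL2, hL3, hL4, hL5⟩ := exists_unramified_of_open N' hN'n hN'o (by
    rintro h ⟨Q, hQ, hh⟩
    change h.restrictScalars ℚ ∈ D
    have hg : h.restrictScalars ℚ ∈ inG Q := hh
    have hΛ : ∏ i, lamH Ω (hlg i) (h.restrictScalars ℚ) = 1 := by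
      have h1 : h.restrictScalars ℚ ∈ HK ℚ K Ω := ⟨h, rfl⟩
      rw [hHK, MonoidHom.mem_ker, MonoidHom.finsetProd_apply] at h1
      exact h1
    refine Subgroup.mem_iInf.2 fun i => ?_
    rw [MonoidHom.mem_ker]
    have key : ∀ i, ((q i : ℕ) : 𝓞 Ω) ∉ Q → lamH Ω (hlg i) (h.restrictScalars ℚ) = 1 := by
      intro i hi
      rw [lamH_apply, kap_inertial (q i) (N i) (hN i) Q hQ hi _ hg,
        Units.val_one, (hlg i).map_one, ofAdd_zero]
    by_cases hi : ((q i : ℕ) : 𝓞 Ω) ∈ Q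
    · rw [Finset.prod_eq_single i] at hΛ
      · exact hΛ
      · intro j _ hj
        exact key j (prime_mem_unique Q hQ (q i) (q j) (hq i) (hq j)
          (fun h => hj (hinj h.symm)) hi)
      · intro h; exact absurd (Finset.mem_univ i) h
    · exact key i hi)
  refine ⟨L, hL3, hL4.trans hidx, hL5, ?_⟩
  intro s
  have hGK : IsGalois K Ω := isGalois_acl
  obtain ⟨g, rfl⟩ := AlgEquiv.restrictNormalHom_surjective (F := K) (K₁ := L) Ω s
  rw [← map_pow]
  have h1 : g ^ p ∈ L.fixingSubgroup := by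
    rw [hL1]
    change (AlgEquiv.restrictScalarsHom ℚ : (Ω ≃ₐ[K] Ω) →* (Ω ≃ₐ[ℚ] Ω)) (g ^ p) ∈ D
    refine Subgroup.mem_iInf.2 fun i => ?_
    rw [MonoidHom.mem_ker, map_pow, map_pow]
    apply toAdd.injective
    rw [toAdd_pow, nsmul_eq_mul, ZMod.natCast_self, zero_mul]
    rfl
  rw [IntermediateField.mem_fixingSubgroup_iff] at h1
  ext x
  have h2 := AlgEquiv.restrictNormal_commutes (g ^ p) L x
  have h3 : ((AlgEquiv.restrictNormalHom L (g ^ p)) x : Ω) = (g ^ p) (x : Ω) := h2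
  rw [h3, h1 x x.2]
  rfl

end RED6

end Pool.Agent.MPca71W
end
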