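import Pool.Agent.Lib.MP_ca71b5_ntW.Defs2
import Pool.Agent.Lib.MP_ca71b5_ntW.RED6
import Pool.Agent.Lib.MP_ca71b5_ntW.Fin5

section
set_option autoImplicit false
open scoped NumberField

/-! Infinitely many fields in the explicit family (Dirichlet's theorem). -/

namespace Pool.Agent.MPca71W

/-- existence of a discrete logarithm -/
private theorem ke_log (p q : ℕ) [Fact p.Prime] (hq : q.Prime) (h : q % p = 1) :
    ∃ f : ZMod q → ZMod p, IsLog p q f := by
  classical
  have : Fact q.Prime := ⟨hq⟩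
  have hcard : Nat.card (ZMod q)ˣ = q - 1 := by
    rw [Nat.card_eq_fintype_card, ZMod.card_units]
  have hdvd : p ∣ Nat.card (ZMod q)ˣ := by
    rw [hcard]
    exact ⟨q / p, by have := Nat.div_add_mod q p; omega⟩
  let e := zmodCyclicMulEquiv (inferInstance : IsCyclic (ZMod q)ˣ)
  let c := ZMod.castHom hdvd (ZMod p)
  refine ⟨fun x => if hx : IsUnit x then c (Multiplicative.toAdd (e.symm hx.unit)) else 0, ?_, ?_⟩
  · intro x y hx hy
    have hxy : IsUnit (x * y) := hx.mul hy
    simp only [hx, hy, hxy, dif_pos]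
    have : hxy.unit = hx.unit * hy.unit := by
      ext
      simp
    rw [this, map_mul, toAdd_mul, map_add]
  · refine ⟨((e (Multiplicative.ofAdd 1) : (ZMod q)ˣ) : ZMod q), Units.isUnit _, ?_⟩
    have hx : IsUnit ((e (Multiplicative.ofAdd 1) : (ZMod q)ˣ) : ZMod q) := Units.isUnit _
    simp only [hx, dif_pos]
    have : hx.unit = e (Multiplicative.ofAdd 1) := by
      ext
      simp
    rw [this, MulEquiv.symm_apply_apply, toAdd_ofAdd, map_one]
    exact one_ne_zero

/-- a discrete logarithm for every modulus -/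
private theorem ke_ell (p : ℕ) [Fact p.Prime] :
    ∃ F : ∀ q : ℕ, ZMod q → ZMod p, ∀ q, q.Prime → q % p = 1 → IsLog p q (F q) := by
  classical
  have h : ∀ q : ℕ, ∃ f : ZMod q → ZMod p, q.Prime → q % p = 1 → IsLog p q f := by
    intro q
    by_cases hq : q.Prime ∧ q % p = 1
    · obtain ⟨f, hf⟩ := ke_log p q hq.1 hq.2
      exact ⟨f, fun _ _ => hf⟩
    · exact ⟨fun _ => 0, fun h1 h2 => absurd ⟨h1, h2⟩ hq⟩
  choose F hF using h
  exact ⟨F, hF⟩

private theorem ke_log_one {p N : ℕ} {f : ZMod N → ZMod p} (h : IsLog p N f) : f 1 = 0 := by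
  have := h.1 1 1 isUnit_one isUnit_one
  rw [mul_one] at this
  exact left_eq_add.mp this

private theorem ke_log_smul {p N : ℕ} [Fact p.Prime] {f : ZMod N → ZMod p} (h : IsLog p N f)
    {b : ZMod p} (hb : b ≠ 0) : IsLog p N (fun x => b * f x) := by
  refine ⟨?_, ?_⟩
  · intro x y hx hy
    show b * f (x * y) = b * f x + b * f y
    rw [h.1 x y hx hy, mul_add]
  · obtain ⟨x, hx, hx2⟩ := h.2
    exact ⟨x, hx, mul_ne_zero hb hx2⟩

/-- an endomorphism of a space of dimension less than `p - 1` over the field with `p` elements has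
a nonzero non-eigenvalue -/
private theorem ke_eig (p s : ℕ) [Fact p.Prime] (hs : s < p - 1)
    (M : Module.End (ZMod p) (Fin s → ZMod p)) :
    ∃ μ : ZMod p, μ ≠ 0 ∧ ¬ M.HasEigenvalue μ := by
  classical
  by_contra hcon
  push Not at hcon
  have hne : M.charpoly ≠ 0 := M.charpoly_monic.ne_zero
  have hsub : (Finset.univ.erase (0 : ZMod p)) ⊆ M.charpoly.roots.toFinset := by
    intro μ hμ
    rw [Finset.mem_erase] at hμ
    rw [Multiset.mem_toFinset, Polynomial.mem_roots hne]
    exact (Module.End.hasEigenvalue_iff_isRoot_charpoly M μ).mp (hcon μ hμ.1)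
  have h1 := Finset.card_le_card hsub
  rw [Finset.card_erase_of_mem (Finset.mem_univ _), Finset.card_univ, ZMod.card] at h1
  have h2 := Multiset.toFinset_card_le M.charpoly.roots
  have h3 := Polynomial.card_roots' M.charpoly
  rw [LinearMap.charpoly_natDegree, Module.finrank_fin_fun] at h3
  omega

/-- the matrix step: perturbing the Rédei matrix by a diagonal one -/
private theorem ke_matrix (p s : ℕ) [Fact p.Prime] (hs : s < p - 1)
    (a : Fin (s + 1) → Fin (s + 1) → ZMod p) (f : Fin (s + 1) → ZMod p)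
    (h : ∀ v : Fin (s + 1) → ZMod p, (∀ j, ∑ i, a i j * (v i - v j) = 0) → ∀ i j, v i = v j) :
    ∃ b : ZMod p, b ≠ 0 ∧ ∀ v : Fin (s + 1) → ZMod p,
      (∀ j, ∑ i, a i j * (v i - v j) + b * f j * (v 0 - v j) = 0) → ∀ i j, v i = v j := by
  classical
  let Ex : (Fin s → ZMod p) →ₗ[ZMod p] (Fin (s + 1) → ZMod p) :=
    { toFun := fun x i => Fin.cases 0 x i
      map_add' := by
        intro x y
        funext i
        refine Fin.cases ?_ (fun i => ?_) i <;> simp
      map_smul' := by
        intro c x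
        funext i
        refine Fin.cases ?_ (fun i => ?_) i <;> simp }
  let A0 : (Fin (s + 1) → ZMod p) →ₗ[ZMod p] (Fin (s + 1) → ZMod p) :=
    { toFun := fun v j => ∑ i, a i j * (v i - v j)
      map_add' := by
        intro x y
        funext j
        simp only [Pi.add_apply]
        rw [← Finset.sum_add_distrib]
        exact Finset.sum_congr rfl fun i _ => by ring
      map_smul' := by
        intro c x
        funext j
        simp only [Pi.smul_apply, smul_eq_mul, RingHom.id_apply]
        rw [Finset.mul_sum]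
        exact Finset.sum_congr rfl fun i _ => by ring }
  let D0 : (Fin (s + 1) → ZMod p) →ₗ[ZMod p] (Fin (s + 1) → ZMod p) :=
    { toFun := fun v j => f j * (v 0 - v j)
      map_add' := by
        intro x y
        funext j
        simp only [Pi.add_apply]
        ring
      map_smul' := by
        intro c x
        funext j
        simp only [Pi.smul_apply, smul_eq_mul, RingHom.id_apply]
        ring }
  have hEx0 : ∀ x, Ex x 0 = 0 := fun x => rfl
  have hExs : ∀ x i, Ex x (Fin.succ i) = x i := fun x i => rfl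
  have hinj : LinearMap.ker (A0 ∘ₗ Ex) = ⊥ := by
    rw [LinearMap.ker_eq_bot']
    intro x hx
    have h1 := h (Ex x) (fun j => congrFun hx j)
    funext i
    have := h1 (Fin.succ i) 0
    rw [hEx0, hExs] at this
    exact this
  obtain ⟨W, hW⟩ := LinearMap.exists_leftInverse_of_injective _ hinj
  obtain ⟨μ, hμ0, hμ⟩ := ke_eig p s hs (W ∘ₗ D0 ∘ₗ Ex)
  refine ⟨-μ⁻¹, neg_ne_zero.mpr (inv_ne_zero hμ0), ?_⟩
  intro v hv
  set x : Fin s → ZMod p := fun i => v (Fin.succ i) - v 0 with hx
  have hExx : ∀ i, Ex x i = v i - v 0 := by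
    intro i
    refine Fin.cases ?_ (fun i => ?_) i
    · rw [hEx0, sub_self]
    · rw [hExs]
  have h1 : A0 (Ex x) = μ⁻¹ • D0 (Ex x) := by
    funext j
    have e1 : A0 (Ex x) j = ∑ i, a i j * (v i - v j) := by
      show ∑ i, a i j * (Ex x i - Ex x j) = _
      exact Finset.sum_congr rfl fun i _ => by rw [hExx, hExx]; ring
    have e2 : D0 (Ex x) j = f j * (v 0 - v j) := by
      show f j * (Ex x 0 - Ex x j) = _
      rw [hExx, hExx]; ring
    rw [e1, Pi.smul_apply, smul_eq_mul, e2]
    have := hv j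
    linear_combination this
  have h2 : x = μ⁻¹ • (W ∘ₗ D0 ∘ₗ Ex) x := by
    have e1 := congrArg W h1
    rw [map_smul] at e1
    have e2 : W (A0 (Ex x)) = x := by
      have := LinearMap.congr_fun hW x
      exact this
    rw [e2] at e1
    exact e1
  have h3 : (W ∘ₗ D0 ∘ₗ Ex) x = μ • x := by
    conv_rhs => rw [h2]
    rw [smul_smul, mul_inv_cancel₀ hμ0, one_smul]
  have h4 : x = 0 := by
    by_contra hne
    apply hμ
    exact Module.End.hasEigenvalue_of_hasEigenvector
      ⟨Module.End.mem_eigenspace_iff.mpr h3, hne⟩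
  have h5 : ∀ i, v i = v 0 := by
    intro i
    have := hExx i
    rw [h4, map_zero] at this
    exact (sub_eq_zero.mp this.symm)
  intro i j
  rw [h5 i, h5 j]

/-- choice of the next prime number -/
private theorem ke_prime (p s : ℕ) [Fact p.Prime] (B : ℕ) (q : Fin (s + 1) → ℕ)
    (hq : ∀ i, (q i).Prime) (hinj : Function.Injective q) (hmod : ∀ i, q i % p = 1)
    (c0 : ZMod (q 0)) (hc0 : IsUnit c0) :
    ∃ r : ℕ, r.Prime ∧ B < r ∧ (∀ i, q i < r) ∧ r % p = 1 ∧ (r : ZMod (q 0)) = c0 ∧
      ∀ i : Fin s, (r : ZMod (q i.succ)) = 1 := by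
  classical
  have hp : p.Prime := Fact.out
  have hne : NeZero (q 0) := ⟨(hq 0).ne_zero⟩
  set M : ℕ := p * ∏ i : Fin s, q i.succ with hM
  have hMpos : M ≠ 0 := by
    rw [hM]
    exact mul_ne_zero hp.ne_zero (Finset.prod_ne_zero_iff.mpr fun i _ => (hq _).ne_zero)
  have hcop : (q 0).Coprime M := by
    rw [hM]
    apply Nat.Coprime.mul_right
    · rw [Nat.coprime_primes (hq 0) hp]
      intro h
      have := hmod 0
      rw [h, Nat.mod_self] at this
      exact absurd this (by norm_num)
    · apply Nat.Coprime.prod_right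
      intro i _
      rw [Nat.coprime_primes (hq 0) (hq _)]
      intro h
      exact absurd (hinj h) (Fin.succ_ne_zero i).symm
  obtain ⟨c, hc1, hc2⟩ := Nat.chineseRemainder hcop c0.val 1
  have hc0cop : Nat.Coprime c0.val (q 0) := by
    have h1 : IsUnit ((c0.val : ℕ) : ZMod (q 0)) := by
      rw [ZMod.natCast_zmod_val]
      exact hc0
    exact (ZMod.isUnit_iff_coprime _ _).mp h1
  have hccop : Nat.Coprime c (q 0 * M) := by
    apply Nat.Coprime.mul_right
    · have := hc1.gcd_eq
      unfold Nat.Coprime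
      rw [Nat.gcd_comm, Nat.gcd_comm] at this
      rw [this]
      exact hc0cop
    · have := hc2.gcd_eq
      unfold Nat.Coprime
      rw [this, Nat.gcd_one_left]
  obtain ⟨r, hr1, hr2, hr3⟩ := Nat.forall_exists_prime_gt_and_modEq (max B (∑ i, q i))
    (mul_ne_zero (hq 0).ne_zero hMpos) hccop
  have hr0 : r ≡ c0.val [MOD q 0] := (hr3.of_mul_right M).trans hc1
  have hrM : r ≡ 1 [MOD M] := (hr3.of_mul_left (q 0)).trans hc2
  refine ⟨r, hr2, lt_of_le_of_lt (le_max_left _ _) hr1, ?_, ?_, ?_, ?_⟩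
  · intro i
    refine lt_of_le_of_lt ?_ hr1
    exact le_trans (Finset.single_le_sum (fun _ _ => Nat.zero_le _) (Finset.mem_univ i))
      (le_max_right _ _)
  · have h1 : r ≡ 1 [MOD p] := Nat.ModEq.of_mul_right _ (hM ▸ hrM)
    have h2 : r % p = 1 % p := h1
    rw [h2, Nat.mod_eq_of_lt hp.one_lt]
  · have h1 := (ZMod.natCast_eq_natCast_iff _ _ _).mpr hr0
    rw [h1, ZMod.natCast_zmod_val]
  · intro i
    have h1 : r ≡ 1 [MOD q i.succ] := by
      refine Nat.ModEq.of_dvd ?_ hrM
      rw [hM]
      exact Dvd.dvd.mul_left (Finset.dvd_prod_of_mem (fun i : Fin s => q i.succ) (Finset.mem_univ i)) _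
    have h2 := (ZMod.natCast_eq_natCast_iff _ _ _).mpr h1
    rw [h2, Nat.cast_one]

private def keEll {p : ℕ} (F : ∀ q : ℕ, ZMod q → ZMod p) (q n : ℕ) : ZMod p := F q (n : ZMod q)

private theorem ke_main (p : ℕ) [Fact p.Prime] (B : ℕ) (F : ∀ q : ℕ, ZMod q → ZMod p)
    (hF : ∀ q, q.Prime → q % p = 1 → IsLog p q (F q)) (t : ℕ) (ht : t ≤ p) :
    ∃ (q : Fin t → ℕ) (b : Fin t → ZMod p), (∀ i, (q i).Prime) ∧ (∀ i, B < q i) ∧
      Function.Injective q ∧ (∀ i, q i % p = 1) ∧ (∀ i, b i ≠ 0) ∧
      ∀ v : Fin t → ZMod p, (∀ j, ∑ i, (b i * keEll F (q i) (q j)) * (v i - v j) = 0) →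
        ∀ i j, v i = v j := by
  classical
  have hp : p.Prime := Fact.out
  induction t with
  | zero =>
    exact ⟨fun i => i.elim0, fun i => i.elim0, fun i => i.elim0, fun i => i.elim0,
      fun i => i.elim0, fun i => i.elim0, fun i => i.elim0, fun v _ i => i.elim0⟩
  | succ t ih =>
    obtain ⟨q, b, h1, h2, h3, h4, h5, h6⟩ := ih (by omega)
    rcases t with _ | s
    · -- one prime
      obtain ⟨r, hr1, hr2, hr3⟩ := Nat.forall_exists_prime_gt_and_modEq B hp.ne_zero
        (Nat.coprime_one_left p)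
      refine ⟨fun _ => r, fun _ => 1, fun _ => hr2, fun _ => hr1, ?_, fun _ => ?_,
        fun _ => one_ne_zero, ?_⟩
      · intro i j _
        exact Subsingleton.elim (α := Fin 1) i j
      · have : r % p = 1 % p := hr3
        rw [this, Nat.mod_eq_of_lt hp.one_lt]
      · intro v _ i j
        rw [Subsingleton.elim (α := Fin 1) i j]
    · obtain ⟨c0, hc0, hc0'⟩ := (hF (q 0) (h1 0) (h4 0)).2
      obtain ⟨r, hr1, hr2, hr3, hr4, hr5, hr6⟩ := ke_prime p s B q h1 h3 h4 c0 hc0
      obtain ⟨β, hβ, hmat⟩ := ke_matrix p s (by omega)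
        (fun i j => b i * keEll F (q i) (q j)) (fun j => keEll F r (q j)) h6
      refine ⟨Fin.snoc q r, Fin.snoc b β, ?_, ?_, ?_, ?_, ?_, ?_⟩
      · intro i
        refine Fin.lastCases ?_ (fun i => ?_) i
        · rw [Fin.snoc_last]; exact hr1
        · rw [Fin.snoc_castSucc]; exact h1 i
      · intro i
        refine Fin.lastCases ?_ (fun i => ?_) i
        · rw [Fin.snoc_last]; exact hr2
        · rw [Fin.snoc_castSucc]; exact h2 i
      · rw [Fin.snoc_injective_iff]
        refine ⟨h3, ?_⟩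
        rintro ⟨i, hi⟩
        exact absurd hi (hr3 i).ne
      · intro i
        refine Fin.lastCases ?_ (fun i => ?_) i
        · rw [Fin.snoc_last]; exact hr4
        · rw [Fin.snoc_castSucc]; exact h4 i
      · intro i
        refine Fin.lastCases ?_ (fun i => ?_) i
        · rw [Fin.snoc_last]; exact hβ
        · rw [Fin.snoc_castSucc]; exact h5 i
      · intro v hv
        set q' : Fin (s + 1 + 1) → ℕ := Fin.snoc q r with hq'
        set b' : Fin (s + 1 + 1) → ZMod p := Fin.snoc b β with hb'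
        have eql : q' (Fin.last (s + 1)) = r := by rw [hq', Fin.snoc_last]
        have eqc : ∀ i, q' (Fin.castSucc i) = q i := fun i => by rw [hq', Fin.snoc_castSucc]
        have ebl : b' (Fin.last (s + 1)) = β := by rw [hb', Fin.snoc_last]
        have ebc : ∀ i, b' (Fin.castSucc i) = b i := fun i => by rw [hb', Fin.snoc_castSucc]
        have hlast : v (Fin.castSucc 0) = v (Fin.last (s + 1)) := by
          have := hv (Fin.last (s + 1))
          rw [Fin.sum_univ_castSucc, sub_self, mul_zero, add_zero] at this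
          simp only [eqc, ebc, eql] at this
          rw [Fin.sum_univ_succ] at this
          have hz : ∑ i : Fin s, (b i.succ * keEll F (q i.succ) r) *
              (v (Fin.castSucc i.succ) - v (Fin.last (s + 1))) = 0 := by
            apply Finset.sum_eq_zero
            intro i _
            unfold keEll
            rw [hr6 i, ke_log_one (hF _ (h1 _) (h4 _))]
            ring
          rw [hz, add_zero] at this
          unfold keEll at this
          rw [hr5] at this
          have hne : b 0 * F (q 0) c0 ≠ 0 := mul_ne_zero (h5 0) hc0'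
          exact sub_eq_zero.mp ((mul_eq_zero.mp this).resolve_left hne)
        have hrest := hmat (fun i => v (Fin.castSucc i)) (by
          intro j
          have := hv (Fin.castSucc j)
          rw [Fin.sum_univ_castSucc] at this
          simp only [eqc, ebc, eql, ebl] at this
          rw [← hlast] at this
          exact this)
        intro i j
        have hi : ∀ i, v i = v (Fin.last (s + 1)) := by
          intro i
          refine Fin.lastCases rfl (fun i => ?_) i
          rw [← hlast]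
          exact hrest i 0
        rw [hi i, hi j]

/-- KE: infinitely many fields in the family (Dirichlet's theorem). -/
theorem exists_redei (p : ℕ) [Fact p.Prime] (t : ℕ) (ht : t ≤ p) (B : ℕ) :
    ∃ (q : Fin t → ℕ) (lg : ∀ i, ZMod (q i) → ZMod p), (∀ i, (q i).Prime) ∧ (∀ i, B < q i) ∧
      Function.Injective q ∧ (∀ i, q i % p = 1) ∧ (∀ i, IsLog p (q i) (lg i)) ∧
      RedeiMax p q q lg := by
  obtain ⟨F, hF⟩ := ke_ell p
  obtain ⟨q, b, h1, h2, h3, h4, h5, h6⟩ := ke_main p B F hF t ht
  exact ⟨q, fun i x => b i * F (q i) x, h1, h2, h3, h4,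
    fun i => ke_log_smul (hF _ (h1 i) (h4 i)) (h5 i), h6⟩

end Pool.Agent.MPca71W
end

section
set_option autoImplicit false
open scoped NumberField

namespace Pool.Agent.MPca71W

section Fam

variable {Ω : Type} [Field Ω] [Algebra ℚ Ω] [IsAlgClosed Ω] [Algebra.IsAlgebraic ℚ Ω]

/-- Everything about the family, for the field `K = KF`. -/
theorem family_all (p : ℕ) [Fact p.Prime] (hp2 : p ≠ 2) {t : ℕ}
    (q N : Fin t → ℕ) [∀ i, NeZero (N i)] (lg : ∀ i, ZMod (N i) → ZMod p)
    (hq : ∀ i, (q i).Prime) (hinj : Function.Injective q) (hN : ∀ i, ∃ e, N i = q i ^ e)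
    (hlg : ∀ i, IsLog p (N i) (lg i)) (hR : RedeiMax p q N lg) (K : IntermediateField ℚ Ω)
    (hK : K = KF Ω p N lg) :
    (0 < t → @IsGalois ℚ _ K _ K.algebra' ∧ @Module.finrank ℚ K _ _ K.module' = p ∧
      ∃ L : IntermediateField K Ω, IsGalois K L ∧
        Module.finrank K L = p ^ (t - 1) ∧ Algebra.Unramified (𝓞 K) (𝓞 L) ∧
        ∀ s : L ≃ₐ[K] L, s ^ p = 1) ∧
    ∀ (n : ℕ) (ρ : (Ω ≃ₐ[K] Ω) →* Matrix.GeneralLinearGroup (Fin n) (PadicInt p)),
      Continuous ρ → UnrProP p K Ω ρ →
        ((n + 2 ≤ p ∨ NilpMod p (p - 2) ρ) → ρ = 1) ∧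
        (Module.finrank ℚ_[p] (lieSpan p ρ) + 2 ≤ p → (Set.range ρ).Finite) := by
  have hp : p.Prime := Fact.out
  have hp3 : 3 ≤ p := by
    rcases hp.eq_two_or_odd with h | h
    · exact absurd h hp2
    · have := hp.two_le; omega
  have hfin : @FiniteDimensional ℚ K _ _ K.module' := by
    rw [hK]; exact (KF_facts p q N lg hlg).1
  have hch : CharZero K := algebraRat.charZero K
  have hNF : NumberField K := by
    refine @NumberField.mk K _ hch ?_
    have halg : (DivisionRing.toRatAlgebra : Algebra ℚ K) = K.algebra' := Subsingleton.elim _ _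
    rw [halg]
    exact hfin
  constructor
  · intro ht
    refine ⟨?_, ?_, KF_unramified K p q N lg hq hinj hN hlg hK ht⟩
    · rw [hK]; exact (KF_facts p q N lg hlg).2.1
    · rw [hK]
      exact ((KF_facts p q N lg hlg).2.2.2).trans
        ((lam_index (Ω := Ω) p q N lg hq hinj hN hlg).2 ht)
  · intro n ρ hc hu
    have hAlg : Algebra.IsAlgebraic K Ω := Algebra.IsAlgebraic.tower_top (K := ℚ) K
    have key : ∀ (n : ℕ) (ρ : (Ω ≃ₐ[K] Ω) →* Matrix.GeneralLinearGroup (Fin n) (PadicInt p)),
        Continuous ρ → UnrProP p K Ω ρ → (n + 2 ≤ p ∨ NilpMod p (p - 2) ρ) → ρ = 1 :=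
      fun n ρ hc hu hn => family_trivial K p hp2 q N lg hq hinj hN hlg hR hK n ρ hc hu hn
    refine ⟨key n ρ hc hu, ?_⟩
    intro hd
    refine finite_of_lie p hp2 (p - 2) ?_ n ρ hc hu (by omega)
    intro n' ρ' hc' hu' hn'
    refine key n' ρ' hc' hu' ?_
    rcases hn' with h | h
    · left; omega
    · right
      intro f i j
      obtain ⟨m', hm'⟩ : ∃ m', p - 2 = m' + 1 := ⟨p - 3, by omega⟩
      have hgen : ∀ (M : ℕ) (hM : M = m' + 1) (f : Fin M → (Ω ≃ₐ[K] Ω)), (p : ℤ_[p]) ∣
          (List.ofFn (fun s => ((ρ' (f s) : Matrix (Fin n') (Fin n') ℤ_[p]) - 1))).prod i j := by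
        intro M hM f
        subst hM
        rw [List.ofFn_succ, List.prod_cons, Matrix.mul_apply]
        exact Finset.dvd_sum fun l _ => Dvd.dvd.mul_right (h _ _ _) _
      exact hgen _ hm' f

end Fam

end Pool.Agent.MPca71W
end
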