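import Pool.Agent.Lib.MP_ca71b5_ntW.Defs
import Pool.Agent.Lib.MP_ca71b5_ntW.Defs2
import Pool.Agent.Lib.MP_ca71b5_ntW.Fin4

section

set_option autoImplicit false

namespace Pool.Agent.MPca71W

section FR2aux

variable {G : Type} [Group G] {p : ℕ} [Fact p.Prime]

/-- The difference operator on characters. -/
noncomputable def DhFR2 (σ : G ≃* G) (χ : G →* Multiplicative (ZMod p)) :
    G →* Multiplicative (ZMod p) :=
  (χ.comp σ.toMonoidHom) * χ⁻¹

theorem DhFR2_apply (σ : G ≃* G) (χ : G →* Multiplicative (ZMod p)) (x : G) :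
    DhFR2 σ χ x = χ (stepG σ x) := by
  simp [DhFR2, stepG]

theorem DhFR2_iter (σ : G ≃* G) (i : ℕ) : ∀ (χ : G →* Multiplicative (ZMod p)) (x : G),
    ((DhFR2 σ)^[i] χ) x = χ ((stepG σ)^[i] x) := by
  induction i with
  | zero => intro χ x; rfl
  | succ i ih =>
    intro χ x
    rw [Function.iterate_succ_apply, ih, DhFR2_apply, Function.iterate_succ_apply']

/-- Translation operator on functions. -/
noncomputable def TopFR2 (σ : G ≃* G) (p : ℕ) [Fact p.Prime] :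
    Module.End (ZMod p) (G → ZMod p) where
  toFun f := fun x => f (σ x)
  map_add' _ _ := rfl
  map_smul' _ _ := rfl

theorem TopFR2_pow (σ : G ≃* G) (i : ℕ) (f : G → ZMod p) (x : G) :
    ((TopFR2 σ p) ^ i) f x = f (σ^[i] x) := by
  induction i generalizing f with
  | zero => rfl
  | succ i ih =>
    rw [pow_succ, Module.End.mul_apply, ih, Function.iterate_succ_apply']
    rfl

theorem TopFR2_sub_pow (σ : G ≃* G) (i : ℕ) (χ : G →* Multiplicative (ZMod p)) :
    ((TopFR2 σ p - 1) ^ i) (fun x => (χ x).toAdd) = fun x => (((DhFR2 σ)^[i] χ) x).toAdd := by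
  induction i generalizing χ with
  | zero => rfl
  | succ i ih =>
    rw [pow_succ, Module.End.mul_apply]
    have h1 : (TopFR2 σ p - 1) (fun x => (χ x).toAdd) = fun x => ((DhFR2 σ χ) x).toAdd := by
      funext x
      rw [LinearMap.sub_apply, Module.End.one_apply, Pi.sub_apply, DhFR2]
      simp [TopFR2, sub_eq_add_neg]
    rw [h1, ih, Function.iterate_succ_apply]

theorem DhFR2_pow_eq_one (σ : G ≃* G) (r : ℕ) (χ : G →* Multiplicative (ZMod p))
    (hσ : ∀ x, χ (σ^[p ^ r] x) = χ x) (x : G) : ((DhFR2 σ)^[p ^ r] χ) x = 1 := by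
  have : Nontrivial (Module.End (ZMod p) (G → ZMod p)) := inferInstance
  have : CharP (Module.End (ZMod p) (G → ZMod p)) p :=
    charP_of_injective_algebraMap (algebraMap (ZMod p) (Module.End (ZMod p) (G → ZMod p))).injective p
  have h1 := TopFR2_sub_pow σ (p ^ r) χ
  have h2 : (TopFR2 σ p - 1) ^ (p ^ r) = (TopFR2 σ p) ^ (p ^ r) - 1 ^ (p ^ r) :=
    sub_pow_char_pow_of_commute _ _ (Commute.one_right _)
  rw [h2, one_pow] at h1
  have h3 := congrFun h1 x
  rw [LinearMap.sub_apply, Module.End.one_apply, Pi.sub_apply, TopFR2_pow, hσ, sub_self] at h3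
  have h4 : Multiplicative.toAdd (((DhFR2 σ)^[p ^ r] χ) x) = 0 := h3.symm
  exact Multiplicative.toAdd.injective (by rw [h4]; rfl)

end FR2aux

/-- FR2. -/
theorem index_ge (p r : ℕ) [Fact p.Prime] {G : Type} [Group G] (σ : G ≃* G)
    (χ : G →* Multiplicative (ZMod p)) (hσ : ∀ x, χ (σ^[p ^ r] x) = χ x) (a : ℕ) (h : G)
    (hne : χ ((stepG σ)^[a] h) ≠ 1) (N' : Subgroup G) (hN : ∀ x ∈ N', σ x ∈ N')
    (hχ : N' ≤ χ.ker) (hfin : N'.FiniteIndex) :
    p ^ (a + 1) ≤ N'.index := by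
  classical
  set E : ℕ → (G →* Multiplicative (ZMod p)) := fun i => (DhFR2 σ)^[i] χ with hE
  have hE1 : ∀ i x, E i x = χ ((stepG σ)^[i] x) := fun i x => DhFR2_iter σ i χ x
  have hE2 : ∀ i j x, E i ((stepG σ)^[j] x) = E (i + j) x := by
    intro i j x
    rw [hE1, hE1, Function.iterate_add_apply]
  have hE3 : ∀ j x, E (p ^ r + j) x = 1 := by
    intro j x
    rw [← hE2]
    exact DhFR2_pow_eq_one σ r χ hσ _
  -- maximal index
  have hex : ∃ b, a ≤ b ∧ (∃ g, E b g ≠ 1) ∧ ∀ j, b < j → ∀ x, E j x = 1 := by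
    by_contra hcon
    push Not at hcon
    have key : ∀ m : ℕ, ∃ b, a + m ≤ b ∧ ∃ g, E b g ≠ 1 := by
      intro m
      induction m with
      | zero => exact ⟨a, le_refl _, h, by rw [hE1]; exact hne⟩
      | succ m ih =>
        obtain ⟨b, hb, g, hg⟩ := ih
        obtain ⟨j, hj, x, hx⟩ := hcon b (by omega) ⟨g, hg⟩
        exact ⟨j, by omega, x, hx⟩
    obtain ⟨b, hb, g, hg⟩ := key (p ^ r)
    apply hg
    obtain ⟨c, rfl⟩ : ∃ c, b = p ^ r + c := ⟨b - p ^ r, by omega⟩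
    exact hE3 c g
  obtain ⟨b, hab, ⟨g, hg⟩, hmax⟩ := hex
  -- the map to (ZMod p)^(a+1)
  let Φ : G →* Multiplicative (Fin (a + 1) → ZMod p) :=
    { toFun := fun x => Multiplicative.ofAdd (fun i : Fin (a + 1) => (E i x).toAdd)
      map_one' := by
        simp only [map_one, toAdd_one]
        rfl
      map_mul' := by
        intro x y
        simp only [map_mul, toAdd_mul]
        rfl }
  have hΦ : ∀ x (i : Fin (a + 1)), (Φ x).toAdd i = (E i x).toAdd := fun _ _ => rfl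
  -- surjective
  have hsurj : Function.Surjective Φ := by
    let S : AddSubgroup (Fin (a + 1) → ZMod p) := (Φ.range).toAddSubgroup'
    have hmemS : ∀ v, v ∈ S ↔ ∃ x, (Φ x).toAdd = v := by
      intro v
      constructor
      · intro hv
        obtain ⟨x, hx⟩ : Multiplicative.ofAdd v ∈ Φ.range := hv
        exact ⟨x, by rw [hx]; rfl⟩
      · rintro ⟨x, rfl⟩
        exact ⟨x, rfl⟩
    let W : Submodule (ZMod p) (Fin (a + 1) → ZMod p) := AddSubgroup.toZModSubmodule p S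
    have hW : W = ⊤ := by
      by_contra hWt
      obtain ⟨f, hf0, hfW⟩ := Submodule.exists_le_ker_of_lt_top W (lt_top_iff_ne_top.mpr hWt)
      -- coordinates
      set c : Fin (a + 1) → ZMod p := fun i => f (Pi.single i 1) with hc
      have hfc : ∀ v, f v = ∑ i, v i * c i := by
        intro v
        conv_lhs => rw [← Finset.univ_sum_single v]
        rw [map_sum]
        apply Finset.sum_congr rfl
        intro i _
        rw [hc]
        have : Pi.single i (v i) = (v i) • (Pi.single i (1 : ZMod p) : Fin (a + 1) → ZMod p) := by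
          rw [← Pi.single_smul, smul_eq_mul, mul_one]
        rw [this, map_smul, smul_eq_mul]
      have hcne : ∃ i, c i ≠ 0 := by
        by_contra hall
        push Not at hall
        apply hf0
        ext v
        simp only [LinearMap.comp_apply, LinearMap.zero_apply]
        exact hall v
      obtain ⟨i0, hi0, himin⟩ : ∃ i0, c i0 ≠ 0 ∧ ∀ j, j < i0 → c j = 0 := by
        let s := Finset.univ.filter (fun i => c i ≠ 0)
        have hs : s.Nonempty := by
          obtain ⟨i, hi⟩ := hcne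
          exact ⟨i, by simp [s, hi]⟩
        refine ⟨s.min' hs, ?_, ?_⟩
        · have := s.min'_mem hs
          simpa [s] using this
        · intro j hj
          by_contra hcj
          have : s.min' hs ≤ j := s.min'_le j (by simp [s, hcj])
          exact absurd hj (not_lt.mpr this)
      have hx0 : f ((Φ ((stepG σ)^[b - i0] g)).toAdd) = 0 := by
        have : (Φ ((stepG σ)^[b - i0] g)).toAdd ∈ W := by
          change _ ∈ S
          rw [hmemS]
          exact ⟨_, rfl⟩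
        exact hfW this
      rw [hfc, Finset.sum_eq_single i0] at hx0
      · rw [hΦ, hE2] at hx0
        have hi0b : (i0 : ℕ) + (b - i0) = b := by
          have := i0.isLt
          omega
        rw [hi0b] at hx0
        rcases mul_eq_zero.mp hx0 with h1 | h1
        · apply hg
          exact Multiplicative.toAdd.injective (by rw [h1]; rfl)
        · exact hi0 h1
      · intro i _ hi
        rw [hΦ, hE2]
        rcases lt_or_gt_of_ne hi with h1 | h1
        · rw [himin i h1, mul_zero]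
        · have h2 : b < (i : ℕ) + (b - i0) := by
            have h3 : (i0 : ℕ) < i := h1
            have := i0.isLt
            omega
          rw [hmax _ h2 g, toAdd_one, zero_mul]
      · intro hh
        exact absurd (Finset.mem_univ _) hh
    intro v
    have hv : v.toAdd ∈ W := by rw [hW]; trivial
    have hv2 : v.toAdd ∈ S := hv
    rw [hmemS] at hv2
    obtain ⟨x, hx⟩ := hv2
    exact ⟨x, Multiplicative.toAdd.injective hx⟩
  have hker : N' ≤ Φ.ker := by
    have hit : ∀ i x, x ∈ N' → (stepG σ)^[i] x ∈ N' := by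
      intro i
      induction i with
      | zero => intro x hx; exact hx
      | succ i ih =>
        intro x hx
        rw [Function.iterate_succ_apply]
        apply ih
        exact N'.mul_mem (hN x hx) (N'.inv_mem hx)
    intro x hx
    rw [MonoidHom.mem_ker]
    apply Multiplicative.toAdd.injective
    funext i
    rw [hΦ, hE1]
    have h1 := hχ (hit i x hx)
    rw [MonoidHom.mem_ker] at h1
    rw [h1]
    rfl
  have h1 : Φ.ker.index ∣ N'.index := Subgroup.index_dvd_of_le hker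
  have h2 : Φ.ker.index = p ^ (a + 1) := by
    rw [Subgroup.index_ker, MonoidHom.range_eq_top.mpr hsurj]
    have h3 : Nat.card (⊤ : Subgroup (Multiplicative (Fin (a + 1) → ZMod p)))
        = Nat.card (Multiplicative (Fin (a + 1) → ZMod p)) := Subgroup.card_top
    rw [h3]
    have h4 : Nat.card (Multiplicative (Fin (a + 1) → ZMod p)) = Nat.card (Fin (a + 1) → ZMod p) :=
      Nat.card_congr Multiplicative.toAdd
    rw [h4]
    simp [Nat.card_eq_fintype_card, ZMod.card]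
  rw [h2] at h1
  exact Nat.le_of_dvd (Nat.pos_of_ne_zero hfin.index_ne_zero) h1

end Pool.Agent.MPca71W
end

section

section
set_option autoImplicit false
open scoped NumberField

/-! The cyclotomic character: characterization, surjectivity, open kernel (MP_ca71b5_nt). -/

namespace Pool.Agent.MPca71W

variable {Ω : Type} [Field Ω] [Algebra ℚ Ω] [IsAlgClosed Ω]

/-- KA0. -/
theorem kap_spec (N : ℕ) [NeZero N] (g : Ω ≃ₐ[ℚ] Ω) (z : Ω) (hz : z ^ N = 1) :
    g z = z ^ ((kap Ω N g : (ZMod N)ˣ) : ZMod N).val := by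
  have h := modularCyclotomicCharacter.spec Ω (card_rootsOfUnity_acl Ω N) (g : Ω ≃+* Ω)
    (t := (rootsOfUnity.mkOfPowEq z hz : Ωˣ)) (rootsOfUnity.mkOfPowEq z hz).2
  rw [rootsOfUnity.val_mkOfPowEq_coe] at h
  exact h

private theorem kap_charZero (Ω : Type) [Field Ω] [Algebra ℚ Ω] : CharZero Ω :=
  charZero_of_injective_algebraMap (algebraMap ℚ Ω).injective

private theorem kap_exists_prim (Ω : Type) [Field Ω] [Algebra ℚ Ω] [IsAlgClosed Ω] (N : ℕ)
    [NeZero N] : ∃ z : Ω, IsPrimitiveRoot z N := by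
  have := kap_charZero Ω
  have : NeZero (N : Ω) := ⟨Nat.cast_ne_zero.2 (NeZero.ne N)⟩
  exact HasEnoughRootsOfUnity.exists_primitiveRoot Ω N

private theorem kap_eq_of_apply (N : ℕ) [NeZero N] (g : Ω ≃ₐ[ℚ] Ω) (z : Ω)
    (hz : IsPrimitiveRoot z N) (u : (ZMod N)ˣ) (h : g z = z ^ (u : ZMod N).val) :
    kap Ω N g = u := by
  rw [kap_spec N g z hz.pow_eq_one] at h
  apply Units.ext
  apply ZMod.val_injective
  exact hz.pow_inj (ZMod.val_lt _) (ZMod.val_lt _) h

/-- KA1. -/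
theorem kap_surj [Algebra.IsAlgebraic ℚ Ω] (N : ℕ) [NeZero N] :
    Function.Surjective (kap Ω N) := by
  intro u
  have := kap_charZero Ω
  obtain ⟨z, hz⟩ := kap_exists_prim Ω N
  have hN : 0 < N := Nat.pos_of_neZero N
  have hz' : IsPrimitiveRoot (z ^ (u : ZMod N).val) N :=
    hz.pow_of_coprime _ (ZMod.val_coe_unit_coprime u)
  have h1 : Polynomial.cyclotomic N ℚ = minpoly ℚ z := by
    convert Polynomial.cyclotomic_eq_minpoly_rat hz hN
    exact Subsingleton.elim _ _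
  have h2 : Polynomial.cyclotomic N ℚ = minpoly ℚ (z ^ (u : ZMod N).val) := by
    convert Polynomial.cyclotomic_eq_minpoly_rat hz' hN
    exact Subsingleton.elim _ _
  have hc : IsConjRoot ℚ (z ^ (u : ZMod N).val) z := by
    unfold IsConjRoot
    rw [← h1, ← h2]
  have hn : Normal ℚ Ω := by
    have : IsAlgClosure ℚ Ω := ⟨inferInstance, inferInstance⟩
    exact IsAlgClosure.normal ℚ Ω
  obtain ⟨g, hg⟩ := isConjRoot_iff_exists_algEquiv.1 hc
  exact ⟨g, kap_eq_of_apply N g z hz u hg⟩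

/-- KA2. -/
theorem kap_ker_open [Algebra.IsAlgebraic ℚ Ω] (N : ℕ) [NeZero N] :
    IsOpen ((kap Ω N).ker : Set (Ω ≃ₐ[ℚ] Ω)) := by
  obtain ⟨z, hz⟩ := kap_exists_prim Ω N
  have hint : IsIntegral ℚ z := Algebra.IsIntegral.isIntegral z
  have hfd : FiniteDimensional ℚ (IntermediateField.adjoin ℚ {z}) :=
    IntermediateField.adjoin.finiteDimensional hint
  refine Subgroup.isOpen_mono ?_ (IntermediateField.fixingSubgroup_isOpen
    (IntermediateField.adjoin ℚ {z}))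
  intro g hg
  rw [IntermediateField.mem_fixingSubgroup_iff] at hg
  have hgz : g z = z := hg z (IntermediateField.mem_adjoin_simple_self ℚ z)
  rw [MonoidHom.mem_ker]
  refine kap_eq_of_apply N g z hz 1 ?_
  rw [hgz]
  by_cases h1 : N = 1
  · subst h1
    rw [show z = 1 by simpa using hz.pow_eq_one]
    simp
  · have : Fact (1 < N) := ⟨by have := Nat.pos_of_neZero N; omega⟩
    rw [Units.val_one, ZMod.val_one, pow_one]

end Pool.Agent.MPca71W
end

section
set_option autoImplicit false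
open scoped NumberField

/-! Inertia and Frobenius elements acting on roots of unity (MP_ca71b5_nt, paper 206). -/

namespace Pool.Agent.MPca71W

/-- If `z ^ N = 1`, `z ≠ 1` and `z - 1` lies in the ideal `Q`, then so does `N`. -/
private theorem natCast_mem_of_root {R : Type} [CommRing R] [IsDomain R] (Q : Ideal R) (z : R)
    (N : ℕ) (hz : z ^ N = 1) (h1 : z ≠ 1) (hQ : z - 1 ∈ Q) : (N : R) ∈ Q := by
  have hsum : ∑ i ∈ Finset.range N, z ^ i = 0 := by
    have h := mul_geom_sum z N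
    rw [hz, sub_self] at h
    rcases mul_eq_zero.1 h with h | h
    · exact absurd (sub_eq_zero.1 h) h1
    · exact h
  have hmem : ∑ i ∈ Finset.range N, (z ^ i - 1) ∈ Q := by
    refine Ideal.sum_mem Q (fun i _ => ?_)
    have hd : z - 1 ∣ z ^ i - 1 := by
      have := sub_dvd_pow_sub_pow z 1 i
      rwa [one_pow] at this
    exact Ideal.mem_of_dvd Q hd hQ
  rw [Finset.sum_sub_distrib, hsum, zero_sub, Finset.sum_const, Finset.card_range,
    nsmul_eq_mul, mul_one] at hmem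
  exact (neg_mem_iff).1 hmem

variable {Ω : Type} [Field Ω] [Algebra ℚ Ω] [IsAlgClosed Ω]

private theorem pow_eq_of_sub_mem (l N : ℕ) [NeZero N] (hN : ∃ e, N = l ^ e)
    (Q : Ideal (𝓞 Ω)) (hQ : Q.IsMaximal) (hl : (l : 𝓞 Ω) ∉ Q) (z : 𝓞 Ω) (hz : z ^ N = 1)
    (a m : ℕ) (h : z ^ a - z ^ m ∈ Q) : z ^ a = z ^ m := by
  set w : 𝓞 Ω := z ^ a * (z ^ (N - 1)) ^ m with hw
  have hN1 : N - 1 + 1 = N := Nat.sub_add_cancel (Nat.pos_of_neZero N)
  have hzz : (z ^ (N - 1)) ^ m * z ^ m = 1 := by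
    rw [← mul_pow, ← pow_succ, hN1, hz, one_pow]
  have hwN : w ^ N = 1 := by
    rw [hw, mul_pow, ← pow_mul, ← pow_mul, ← pow_mul]
    have e1 : z ^ (a * N) = 1 := by rw [mul_comm, pow_mul, hz, one_pow]
    have e2 : z ^ ((N - 1) * (m * N)) = 1 := by
      rw [show (N - 1) * (m * N) = N * ((N - 1) * m) by ring, pow_mul, hz, one_pow]
    rw [e1, one_mul]
    exact e2
  have hwQ : w - 1 ∈ Q := by
    have : w - 1 = (z ^ (N - 1)) ^ m * (z ^ a - z ^ m) := by
      rw [mul_sub, hzz, hw, mul_comm]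
    rw [this]
    exact Ideal.mul_mem_left Q _ h
  have hw1 : w = 1 := by
    by_contra hne
    have hmem := natCast_mem_of_root Q w N hwN hne hwQ
    obtain ⟨e, he⟩ := hN
    rw [he, Nat.cast_pow] at hmem
    exact hl (hQ.isPrime.mem_of_pow_mem e hmem)
  calc z ^ a = z ^ a * ((z ^ (N - 1)) ^ m * z ^ m) := by rw [hzz, mul_one]
    _ = w * z ^ m := by rw [hw]; ring
    _ = z ^ m := by rw [hw1, one_mul]

private theorem kap_val_of_mem (l N : ℕ) [NeZero N] (hN : ∃ e, N = l ^ e)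
    (Q : Ideal (𝓞 Ω)) (hQ : Q.IsMaximal) (hl : (l : 𝓞 Ω) ∉ Q) (g : Ω ≃ₐ[ℚ] Ω) (m : ℕ)
    (hg : ∀ x : 𝓞 Ω, ∃ y : 𝓞 Ω, y ∈ Q ∧ g (x : Ω) - (x : Ω) ^ m = (y : Ω)) :
    ((kap Ω N g : (ZMod N)ˣ) : ZMod N) = (m : ZMod N) := by
  have hch : CharZero Ω := charZero_of_injective_algebraMap (algebraMap ℚ Ω).injective
  have hNΩ : NeZero (N : Ω) := ⟨Nat.cast_ne_zero.2 (NeZero.ne N)⟩
  obtain ⟨ζ, hζ⟩ := HasEnoughRootsOfUnity.exists_primitiveRoot Ω N
  have hpos : 0 < N := Nat.pos_of_neZero N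
  have hint : IsIntegral ℤ ζ := by
    refine ⟨Polynomial.X ^ N - 1, Polynomial.monic_X_pow_sub_C (1 : ℤ) hpos.ne', ?_⟩
    simp [hζ.pow_eq_one]
  obtain ⟨z, hzζ⟩ : ∃ z : 𝓞 Ω, (z : Ω) = ζ := ⟨⟨ζ, hint⟩, rfl⟩
  have hinj : Function.Injective (fun x : 𝓞 Ω => (x : Ω)) := NumberField.RingOfIntegers.coe_injective
  have hzN : z ^ N = 1 := by
    apply hinj
    simp [hzζ, hζ.pow_eq_one]
  -- the action of g
  set a : ℕ := ((kap Ω N g : (ZMod N)ˣ) : ZMod N).val with ha
  have hspec : g ζ = ζ ^ a := by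
    have hu : IsUnit ζ := hζ.isUnit hpos.ne'
    have ht : hu.unit ∈ rootsOfUnity N Ω := by
      rw [mem_rootsOfUnity]
      ext
      simp [hζ.pow_eq_one]
    have := modularCyclotomicCharacter.spec (L := Ω) (card_rootsOfUnity_acl Ω N)
      (g : Ω ≃+* Ω) ht
    simpa [kap, ha] using this
  obtain ⟨y, hy, hgy⟩ := hg z
  have hy2 : y = z ^ a - z ^ m := by
    apply hinj
    show (y : Ω) = ((z ^ a - z ^ m : 𝓞 Ω) : Ω)
    rw [← hgy, hzζ, hspec]
    simp [hzζ]
  rw [hy2] at hy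
  have hpow := pow_eq_of_sub_mem l N hN Q hQ hl z hzN a m hy
  have hpow2 : ζ ^ a = ζ ^ m := by
    have := congrArg (fun x : 𝓞 Ω => (x : Ω)) hpow
    simpa [hzζ] using this
  have hmod : a ≡ m [MOD N] := by
    have h3 : ζ ^ a = ζ ^ m ↔ a ≡ m [MOD orderOf ζ] := by
      have hu : IsUnit ζ := hζ.isUnit hpos.ne'
      have h4 : (hu.unit ^ a = hu.unit ^ m) ↔ a ≡ m [MOD orderOf hu.unit] :=
        pow_eq_pow_iff_modEq
      have h5 : orderOf hu.unit = orderOf ζ := by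
        rw [← orderOf_units, IsUnit.unit_spec]
      rw [h5] at h4
      rw [← h4]
      constructor
      · intro h
        ext
        simpa using h
      · intro h
        have := congrArg (fun u : Ωˣ => (u : Ω)) h
        simpa using this
    have h6 := h3.1 hpow2
    rwa [← hζ.eq_orderOf] at h6
  have h7 : ((a : ℕ) : ZMod N) = (m : ZMod N) := (ZMod.natCast_eq_natCast_iff a m N).2 hmod
  rw [← h7, ha, ZMod.natCast_val, ZMod.cast_id]

/-- KB1: inertia at a prime not above `l` acts trivially on `l`-power roots of unity. -/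
theorem kap_inertial (l N : ℕ) [Fact l.Prime] [NeZero N] (hN : ∃ e, N = l ^ e)
    (Q : Ideal (𝓞 Ω)) (hQ : Q.IsMaximal)
    (hl : (l : 𝓞 Ω) ∉ Q) (g : Ω ≃ₐ[ℚ] Ω) (hg : g ∈ inG Q) : kap Ω N g = 1 := by
  have h := kap_val_of_mem l N hN Q hQ hl g 1 (fun x => by
    obtain ⟨y, hy, hxy⟩ := hg x
    exact ⟨y, hy, by rw [pow_one]; exact hxy⟩)
  apply Units.ext
  rw [h]
  simp

/-- KB2: a Frobenius element acts on the `l`-power roots of unity by `q`. -/
theorem kap_frob (q l N : ℕ) [Fact l.Prime] [NeZero N] (hN : ∃ e, N = l ^ e)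
    (Q : Ideal (𝓞 Ω)) (hQ : Q.IsMaximal)
    (hl : (l : 𝓞 Ω) ∉ Q) (g : Ω ≃ₐ[ℚ] Ω)
    (hg : ∀ x : 𝓞 Ω, ∃ y : 𝓞 Ω, y ∈ Q ∧ g (x : Ω) - (x : Ω) ^ q = (y : Ω)) :
    ((kap Ω N g : (ZMod N)ˣ) : ZMod N) = (q : ZMod N) :=
  kap_val_of_mem l N hN Q hQ hl g q hg

end Pool.Agent.MPca71W
end

section
set_option autoImplicit false
open scoped NumberField Pointwise

/-! Frobenius elements and conjugate primes in `Gal(Ω/ℚ)` (MP_ca71b5_nt). -/

namespace Pool.Agent.MPca71W

variable {Ω : Type} [Field Ω] [Algebra ℚ Ω] [IsAlgClosed Ω]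

private theorem kc_isInvariant [Algebra.IsAlgebraic ℚ Ω] :
    Algebra.IsInvariant ℤ (𝓞 Ω) (Ω ≃ₐ[ℚ] Ω) := by
  have : CharZero Ω := charZero_of_injective_algebraMap (algebraMap ℚ Ω).injective
  have hAC : IsAlgClosure ℚ Ω := ⟨inferInstance, inferInstance⟩
  have : Normal ℚ Ω := IsAlgClosure.normal ℚ Ω
  have : IsGalois ℚ Ω := inferInstance
  constructor
  intro b hb
  have h1 : (b : Ω) ∈ Set.range (algebraMap ℚ Ω) := by
    rw [InfiniteGalois.mem_range_algebraMap_iff_fixed]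
    intro f
    have := congrArg (fun z : 𝓞 Ω => (z : Ω)) (hb f)
    exact this
  obtain ⟨a, ha⟩ := h1
  have hai : IsIntegral ℤ a := by
    have h2 : IsIntegral ℤ (algebraMap ℚ Ω a) := by
      rw [ha]
      exact NumberField.RingOfIntegers.isIntegral_coe b
    exact (isIntegral_algebraMap_iff (algebraMap ℚ Ω).injective).mp h2
  obtain ⟨n, hn⟩ := IsIntegrallyClosed.isIntegral_iff.mp hai
  refine ⟨n, ?_⟩
  apply NumberField.RingOfIntegers.ext
  rw [← ha, ← hn]
  simp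

omit [IsAlgClosed Ω] in
private theorem kc_contSMul [Algebra.IsAlgebraic ℚ Ω] :
    letI : TopologicalSpace (𝓞 Ω) := ⊥
    ContinuousSMul (Ω ≃ₐ[ℚ] Ω) (𝓞 Ω) := by
  let _ : TopologicalSpace (𝓞 Ω) := ⊥
  have : DiscreteTopology (𝓞 Ω) := ⟨rfl⟩
  rw [continuousSMul_iff_stabilizer_isOpen]
  intro x
  have h1 := stabilizer_isOpen_of_isIntegral (K := ℚ) (L := Ω) (x : Ω)
  convert h1 using 2
  ext n
  simp only [MulAction.mem_stabilizer_iff]
  constructor
  · intro h
    have := congrArg (fun z : 𝓞 Ω => (z : Ω)) h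
    exact this
  · intro h
    apply NumberField.RingOfIntegers.ext
    exact h

/-- KC1: existence of a Frobenius element. -/
theorem exists_frob [Algebra.IsAlgebraic ℚ Ω] (q : ℕ) [Fact q.Prime] (Q : Ideal (𝓞 Ω))
    (hQ : Q.IsMaximal) (hq : (q : 𝓞 Ω) ∈ Q) :
    ∃ φ : Ω ≃ₐ[ℚ] Ω, ∀ x : 𝓞 Ω, ∃ y : 𝓞 Ω, y ∈ Q ∧ φ (x : Ω) - (x : Ω) ^ q = (y : Ω) := by
  have : CharZero Ω := charZero_of_injective_algebraMap (algebraMap ℚ Ω).injective
  have hAC : IsAlgClosure ℚ Ω := ⟨inferInstance, inferInstance⟩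
  have : Normal ℚ Ω := IsAlgClosure.normal ℚ Ω
  have : IsGalois ℚ Ω := inferInstance
  let _ : TopologicalSpace (𝓞 Ω) := ⊥
  have : DiscreteTopology (𝓞 Ω) := ⟨rfl⟩
  have := kc_contSMul (Ω := Ω)
  have := kc_isInvariant (Ω := Ω)
  let _ : Field (𝓞 Ω ⧸ Q) := Ideal.Quotient.field Q
  have hq0 : ((q : ℕ) : 𝓞 Ω ⧸ Q) = 0 := by
    rw [← map_natCast (Ideal.Quotient.mk Q) q]
    exact Ideal.Quotient.eq_zero_iff_mem.mpr hq
  have : CharP (𝓞 Ω ⧸ Q) q := by
    have h1 : ringChar (𝓞 Ω ⧸ Q) = q :=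
      ((Fact.out : q.Prime).eq_one_or_self_of_dvd _ (ringChar.dvd hq0)).resolve_left
        (CharP.char_ne_one (𝓞 Ω ⧸ Q) (ringChar (𝓞 Ω ⧸ Q)))
    exact ringChar.of_eq h1
  have hQp : Q.IsPrime := hQ.isPrime
  let σ0 : (𝓞 Ω ⧸ Q) ≃+* (𝓞 Ω ⧸ Q) := RingEquiv.ofBijective (frobenius (𝓞 Ω ⧸ Q) q) (by
    refine ⟨frobenius_inj _ q, ?_⟩
    intro y
    obtain ⟨y, rfl⟩ := Ideal.Quotient.mk_surjective y
    obtain ⟨z, hz⟩ := IsAlgClosed.exists_pow_nat_eq (y : Ω) (Fact.out : q.Prime).pos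
    have hzi : IsIntegral ℤ z := by
      apply IsIntegral.of_pow (Fact.out : q.Prime).pos
      rw [hz]
      exact NumberField.RingOfIntegers.isIntegral_coe y
    refine ⟨Ideal.Quotient.mk Q ⟨z, hzi⟩, ?_⟩
    rw [frobenius_def, ← map_pow]
    congr 1
    apply NumberField.RingOfIntegers.ext
    exact hz)
  have hσ0 : ∀ x, σ0 x = x ^ q := fun x => rfl
  let σ : (𝓞 Ω ⧸ Q) ≃ₐ[ℤ ⧸ Q.under ℤ] (𝓞 Ω ⧸ Q) := AlgEquiv.ofRingEquiv (f := σ0) (by
    intro r
    obtain ⟨r, rfl⟩ := Ideal.Quotient.mk_surjective r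
    have h1 : algebraMap (ℤ ⧸ Q.under ℤ) (𝓞 Ω ⧸ Q) (Ideal.Quotient.mk (Q.under ℤ) r) =
        (r : 𝓞 Ω ⧸ Q) := by
      change algebraMap (ℤ ⧸ Q.under ℤ) (𝓞 Ω ⧸ Q) ((r : ℤ) : ℤ ⧸ Q.under ℤ) = _
      simp
    rw [h1, map_intCast])
  obtain ⟨m, hm⟩ := Ideal.Quotient.stabilizerHom_surjective_of_profinite (G := Ω ≃ₐ[ℚ] Ω)
    (Q.under ℤ) Q σ
  refine ⟨(m : Ω ≃ₐ[ℚ] Ω), fun x => ⟨(m : Ω ≃ₐ[ℚ] Ω) • x - x ^ q, ?_, ?_⟩⟩
  · rw [← Ideal.Quotient.eq]
    have h1 := congrArg (fun f : (𝓞 Ω ⧸ Q) ≃ₐ[ℤ ⧸ Q.under ℤ] (𝓞 Ω ⧸ Q) =>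
      f (Ideal.Quotient.mk Q x)) hm
    rw [map_pow]
    exact h1
  · rw [show (((m : Ω ≃ₐ[ℚ] Ω) • x - x ^ q : 𝓞 Ω) : Ω) =
        (((m : Ω ≃ₐ[ℚ] Ω) • x : 𝓞 Ω) : Ω) - ((x ^ q : 𝓞 Ω) : Ω) from
        map_sub (algebraMap (𝓞 Ω) Ω) _ _, show ((x ^ q : 𝓞 Ω) : Ω) = (x : Ω) ^ q from
        map_pow (algebraMap (𝓞 Ω) Ω) x q]
    rfl

/-- KC2: the maximal ideals above a prime are conjugate. -/
theorem exists_conj_prime [Algebra.IsAlgebraic ℚ Ω] (q : ℕ) [Fact q.Prime] (Q Q' : Ideal (𝓞 Ω))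
    (hQ : Q.IsMaximal) (hQ' : Q'.IsMaximal) (hq : (q : 𝓞 Ω) ∈ Q) (hq' : (q : 𝓞 Ω) ∈ Q') :
    ∃ g : Ω ≃ₐ[ℚ] Ω, ∀ f : Ω ≃ₐ[ℚ] Ω, f ∈ inG Q → g * f * g⁻¹ ∈ inG Q' := by
  have : CharZero Ω := charZero_of_injective_algebraMap (algebraMap ℚ Ω).injective
  have hAC : IsAlgClosure ℚ Ω := ⟨inferInstance, inferInstance⟩
  have : Normal ℚ Ω := IsAlgClosure.normal ℚ Ω
  have : IsGalois ℚ Ω := inferInstance
  let _ : TopologicalSpace (𝓞 Ω) := ⊥
  have : DiscreteTopology (𝓞 Ω) := ⟨rfl⟩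
  have := kc_contSMul (Ω := Ω)
  have := kc_isInvariant (Ω := Ω)
  have hQp : Q.IsPrime := hQ.isPrime
  have hQp' : Q'.IsPrime := hQ'.isPrime
  have hspan : ∀ P : Ideal (𝓞 Ω), P.IsPrime → (q : 𝓞 Ω) ∈ P →
      P.under ℤ = Ideal.span {(q : ℤ)} := by
    intro P hP hqP
    have h1 : (Ideal.span {(q : ℤ)}).IsMaximal := by
      have : Fact q.Prime := inferInstance
      apply PrincipalIdealRing.isMaximal_of_irreducible
      exact (Nat.prime_iff_prime_int.mp (Fact.out : q.Prime)).irreducible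
    symm
    apply h1.eq_of_le
    · exact (Ideal.IsPrime.under ℤ P).ne_top
    · rw [Ideal.span_singleton_le_iff_mem, Ideal.under_def, Ideal.mem_comap]
      simpa using hqP
  have hunder : Q.under ℤ = Q'.under ℤ := by
    rw [hspan Q hQp hq, hspan Q' hQp' hq']
  obtain ⟨g, hg⟩ := Algebra.IsInvariant.exists_smul_of_under_eq_of_profinite (A := ℤ) (B := 𝓞 Ω)
    (G := Ω ≃ₐ[ℚ] Ω) Q Q' hunder
  refine ⟨g, fun f hf x => ?_⟩
  obtain ⟨y, hy, hyx⟩ := hf (g⁻¹ • x)
  refine ⟨g • y, ?_, ?_⟩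
  · rw [hg, Ideal.smul_mem_pointwise_smul_iff]
    exact hy
  · change g (f (g⁻¹ (x : Ω))) - (x : Ω) = g (y : Ω)
    rw [← hyx, map_sub]
    congr 1
    exact (g.apply_symm_apply (x : Ω)).symm

end Pool.Agent.MPca71W
end

section
set_option autoImplicit false

/-! Maximal ideals of the ring of all algebraic integers; inertia groups. -/

namespace Pool.Agent.MPca71W

open scoped NumberField
variable {Ω : Type} [Field Ω] [Algebra ℚ Ω] [IsAlgClosed Ω]

/-- KD1: every maximal ideal contains exactly one prime number. -/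
theorem exists_prime_mem (Q : Ideal (𝓞 Ω)) (hQ : Q.IsMaximal) :
    ∃ q : ℕ, q.Prime ∧ (q : 𝓞 Ω) ∈ Q := by
  have hint : Algebra.IsIntegral ℤ (𝓞 Ω) := inferInstance
  have hm : (Q.comap (algebraMap ℤ (𝓞 Ω))).IsMaximal :=
    Ideal.isMaximal_comap_of_isIntegral_of_isMaximal Q
  have hne : Q.comap (algebraMap ℤ (𝓞 Ω)) ≠ ⊥ :=
    Ring.ne_bot_of_isMaximal_of_not_isField hm Int.not_isField
  have hp : Prime (Submodule.IsPrincipal.generator (Q.comap (algebraMap ℤ (𝓞 Ω)))) :=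
    Submodule.IsPrincipal.prime_generator_of_isPrime (is_prime := hm.isPrime) _ hne
  have hmem := Submodule.IsPrincipal.generator_mem (Q.comap (algebraMap ℤ (𝓞 Ω)))
  refine ⟨(Submodule.IsPrincipal.generator (Q.comap (algebraMap ℤ (𝓞 Ω)))).natAbs,
    Int.prime_iff_natAbs_prime.1 hp, ?_⟩
  rw [Ideal.mem_comap] at hmem
  rcases Int.natAbs_eq (Submodule.IsPrincipal.generator (Q.comap (algebraMap ℤ (𝓞 Ω)))) with h | h
  · rw [h] at hmem
    simpa using hmem
  · rw [h] at hmem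
    simpa using hmem

theorem prime_mem_unique (Q : Ideal (𝓞 Ω)) (hQ : Q.IsMaximal) (q l : ℕ) (hq : q.Prime)
    (hl : l.Prime) (h : q ≠ l) (hqQ : (q : 𝓞 Ω) ∈ Q) : (l : 𝓞 Ω) ∉ Q := by
  intro hlQ
  have hc : Nat.Coprime q l := (Nat.coprime_primes hq hl).2 h
  obtain ⟨a, b, hab⟩ := Nat.isCoprime_iff_coprime.2 hc
  apply hQ.ne_top
  rw [Ideal.eq_top_iff_one]
  have h1 : (1 : 𝓞 Ω) = (a : 𝓞 Ω) * (q : 𝓞 Ω) + (b : 𝓞 Ω) * (l : 𝓞 Ω) := by
    have h2 := congrArg (fun z : ℤ => (z : 𝓞 Ω)) hab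
    push_cast at h2
    exact h2.symm
  rw [h1]
  exact Q.add_mem (Q.mul_mem_left _ hqQ) (Q.mul_mem_left _ hlQ)

/-- The induced map on algebraic integers. -/
theorem KD_exists_int {F : Type} [Field F] [Algebra F Ω] (g : Ω ≃ₐ[F] Ω) (x : 𝓞 Ω) :
    ∃ y : 𝓞 Ω, (y : Ω) = g (x : Ω) :=
  ⟨NumberField.RingOfIntegers.mapRingHom g x, rfl⟩

/-- KD2: normality of inertia in decomposition: if `φ` is a Frobenius element for `Q` (residue
exponent `q`) then `φ⁻¹ f φ` is inertial at `Q` for `f` inertial at `Q`, and so is `φ f φ⁻¹`. -/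
theorem inG_frob_conj (q : ℕ) [Fact q.Prime] (Q : Ideal (𝓞 Ω))
    (hQ : Q.IsMaximal) (φ : Ω ≃ₐ[ℚ] Ω)
    (hφ : ∀ x : 𝓞 Ω, ∃ y : 𝓞 Ω, y ∈ Q ∧ φ (x : Ω) - (x : Ω) ^ q = (y : Ω))
    (f : Ω ≃ₐ[ℚ] Ω) (hf : f ∈ inG Q) : φ⁻¹ * f * φ ∈ inG Q ∧ φ * f * φ⁻¹ ∈ inG Q := by
  have hinj : ∀ x y : 𝓞 Ω, (x : Ω) = (y : Ω) → x = y := fun x y h =>
    NumberField.RingOfIntegers.ext h
  constructor
  · intro x
    obtain ⟨x', hx'⟩ := KD_exists_int φ x
    obtain ⟨y, hyQ, hy⟩ := hf x'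
    obtain ⟨z, hz⟩ := KD_exists_int φ⁻¹ y
    refine ⟨z, ?_, ?_⟩
    · obtain ⟨u, huQ, hu⟩ := hφ z
      have h1 : φ (z : Ω) = (y : Ω) := by
        rw [hz]
        exact φ.apply_symm_apply _
      have h2 : z ^ q = y - u := by
        apply hinj
        have h3 : ((z ^ q : 𝓞 Ω) : Ω) = (z : Ω) ^ q := map_pow _ _ _
        have h4 : ((y - u : 𝓞 Ω) : Ω) = (y : Ω) - (u : Ω) := map_sub _ _ _
        rw [h3, h4, ← hu, h1]
        ring
      have h5 : z ^ q ∈ Q := by
        rw [h2]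
        exact Q.sub_mem hyQ huQ
      exact hQ.isPrime.mem_of_pow_mem q h5
    · have h1 : (φ⁻¹ * f * φ) (x : Ω) = φ⁻¹ (f (x' : Ω)) := by
        rw [hx']
        rfl
      have h2 : (x : Ω) = φ⁻¹ (x' : Ω) := by
        rw [hx']
        exact (φ.symm_apply_apply _).symm
      rw [h1, hz, ← hy, map_sub, ← h2]
  · intro x
    obtain ⟨x', hx'⟩ := KD_exists_int φ⁻¹ x
    obtain ⟨y, hyQ, hy⟩ := hf x'
    obtain ⟨u, huQ, hu⟩ := hφ y
    refine ⟨y ^ q + u, ?_, ?_⟩
    · exact Q.add_mem (Q.pow_mem_of_mem hyQ q (Fact.out : q.Prime).pos) huQ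
    · have h1 : (φ * f * φ⁻¹) (x : Ω) = φ (f (x' : Ω)) := by
        rw [hx']
        rfl
      have h2 : (x : Ω) = φ (x' : Ω) := by
        rw [hx']
        exact (φ.apply_symm_apply _).symm
      have h3 : ((y ^ q + u : 𝓞 Ω) : Ω) = (y : Ω) ^ q + (u : Ω) :=
        (map_add (algebraMap (𝓞 Ω) Ω) (y ^ q) u).trans
          (congrArg (fun t => t + (u : Ω)) (map_pow (algebraMap (𝓞 Ω) Ω) y q))
      have h4 : φ (f (x' : Ω)) - (x : Ω) = φ (y : Ω) := by
        rw [← hy, map_sub, ← h2]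
      rw [h1, h3, h4, ← hu]
      ring

/-- KD3: `inG Q` is a subgroup. -/
theorem inG_mul {F : Type} [Field F] [Algebra F Ω] (Q : Ideal (𝓞 Ω)) (f g : Ω ≃ₐ[F] Ω)
    (hf : f ∈ inG Q) (hg : g ∈ inG Q) : f * g ∈ inG Q := by
  intro x
  obtain ⟨x', hx'⟩ := KD_exists_int g x
  obtain ⟨y, hyQ, hy⟩ := hf x'
  obtain ⟨z, hzQ, hz⟩ := hg x
  refine ⟨y + z, Q.add_mem hyQ hzQ, ?_⟩
  have h3 : ((y + z : 𝓞 Ω) : Ω) = (y : Ω) + (z : Ω) := map_add _ _ _
  have h1 : (f * g) (x : Ω) = f (x' : Ω) := by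
    rw [hx']
    rfl
  rw [h3, h1, ← hy, ← hz, hx']
  ring

theorem inG_inv {F : Type} [Field F] [Algebra F Ω] (Q : Ideal (𝓞 Ω)) (f : Ω ≃ₐ[F] Ω)
    (hf : f ∈ inG Q) : f⁻¹ ∈ inG Q := by
  intro x
  obtain ⟨x', hx'⟩ := KD_exists_int f⁻¹ x
  obtain ⟨y, hyQ, hy⟩ := hf x'
  refine ⟨-y, Q.neg_mem hyQ, ?_⟩
  have h3 : ((-y : 𝓞 Ω) : Ω) = -(y : Ω) := map_neg _ _
  have h1 : f (x' : Ω) = (x : Ω) := by
    rw [hx']
    exact f.apply_symm_apply _
  rw [h3, ← hy, h1, hx']
  ring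

end Pool.Agent.MPca71W
end

section
set_option autoImplicit false

namespace Pool.Agent.MPca71W

section RED

/-- Extension of an invariant character from the kernel of a character. -/
theorem extend_char (p : ℕ) [Fact p.Prime] {G A : Type} [Group G] [CommGroup A]
    (Lam : G →* Multiplicative (ZMod p)) (τ : G) (hτ : Lam τ = Multiplicative.ofAdd 1)
    (ψ : Lam.ker →* A) (hinv : ∀ h h' : Lam.ker, (h' : G) = τ⁻¹ * h * τ → ψ h' = ψ h)
    (hpow : ∀ h : Lam.ker, (h : G) = τ ^ p → ψ h = 1) :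
    ∃ f : G →* A, (∀ h : Lam.ker, f h = ψ h) ∧ f τ = 1 := by
  have hp : p.Prime := Fact.out
  have hne : NeZero p := ⟨hp.ne_zero⟩
  have hLk : ∀ k : ℕ, Lam (τ ^ k) = Multiplicative.ofAdd (k : ZMod p) := by
    intro k
    rw [map_pow, hτ, ← ofAdd_nsmul, nsmul_one]
  have hLv : ∀ g : G, Lam (τ ^ (Lam g).toAdd.val) = Lam g := by
    intro g
    rw [hLk, ZMod.natCast_zmod_val, ofAdd_toAdd]
  -- iterated invariance
  have hinvk : ∀ (k : ℕ) (h h' : Lam.ker), (h' : G) = (τ ^ k)⁻¹ * h * τ ^ k → ψ h' = ψ h := by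
    intro k
    induction k with
    | zero => intro h h' hh; congr 1; ext; simpa using hh
    | succ k ih =>
      intro h h' hh
      have h1 : τ⁻¹ * (h : G) * τ ∈ Lam.ker := by
        rw [MonoidHom.mem_ker]; simp [MonoidHom.mem_ker.1 h.2]
      rw [ih ⟨_, h1⟩ h' (by rw [hh, pow_succ']; simp only; group), hinv h ⟨_, h1⟩ rfl]
  have hmem : ∀ g : G, g * (τ ^ (Lam g).toAdd.val)⁻¹ ∈ Lam.ker := by
    intro g
    rw [MonoidHom.mem_ker, map_mul, map_inv, hLv, mul_inv_cancel]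
  -- powers of `τ` in the kernel
  have hpk : ∀ (k : ℕ) (h : Lam.ker), (h : G) = τ ^ k → ψ h = 1 := by
    intro k h hh
    have h1 : Lam (τ ^ k) = 1 := by rw [← hh]; exact h.2
    rw [hLk] at h1
    have h2 : (k : ZMod p) = 0 := Multiplicative.ofAdd.injective (h1.trans ofAdd_zero.symm)
    obtain ⟨c, rfl⟩ := (ZMod.natCast_eq_zero_iff k p).1 h2
    have h3 : τ ^ p ∈ Lam.ker := by
      rw [MonoidHom.mem_ker, hLk, ZMod.natCast_self, ofAdd_zero]
    have h4 : h = (⟨τ ^ p, h3⟩ : Lam.ker) ^ c := by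
      ext; rw [hh, pow_mul]; rfl
    rw [h4, map_pow, hpow ⟨τ ^ p, h3⟩ rfl, one_pow]
  let F : G → A := fun g => ψ ⟨_, hmem g⟩
  have hF : ∀ (g : G) (h : Lam.ker) (k : ℕ), g = h * τ ^ k → F g = ψ h := by
    intro g h k hg
    have h1 : (Lam g).toAdd = (k : ZMod p) := by
      rw [hg, map_mul, MonoidHom.mem_ker.1 h.2, one_mul, hLk]; rfl
    -- compare exponents
    set v := (Lam g).toAdd.val with hv
    have h2 : (v : ZMod p) = (k : ZMod p) := by rw [hv, ZMod.natCast_zmod_val, h1]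
    have h5 : ∀ (h' : Lam.ker), (h' : G) = h * τ ^ k * (τ ^ v)⁻¹ → ψ h' = ψ h := by
      intro h' hh'
      rcases le_total v k with hvk | hvk
      · obtain ⟨c, rfl⟩ := Nat.exists_eq_add_of_le hvk
        have h6 : τ ^ c ∈ Lam.ker := by
          rw [MonoidHom.mem_ker, hLk]
          have : ((c : ℕ) : ZMod p) = 0 := by
            rw [Nat.cast_add] at h2
            exact (left_eq_add.1 h2)
          rw [this, ofAdd_zero]
        have h7 : h' = h * ⟨τ ^ c, h6⟩ := by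
          ext; rw [hh', add_comm v c, pow_add]; simp [mul_assoc]
        rw [h7, map_mul, hpk c ⟨_, h6⟩ rfl, mul_one]
      · obtain ⟨c, hc⟩ := Nat.exists_eq_add_of_le hvk
        have h6 : τ ^ c ∈ Lam.ker := by
          rw [MonoidHom.mem_ker, hLk]
          have : ((c : ℕ) : ZMod p) = 0 := by
            rw [hc, Nat.cast_add] at h2
            exact (add_eq_left.1 h2)
          rw [this, ofAdd_zero]
        have h7 : h = h' * ⟨τ ^ c, h6⟩ := by
          ext
          rw [Subgroup.coe_mul, hh', hc, pow_add]; simp only; group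
        rw [h7, map_mul, hpk c ⟨_, h6⟩ rfl, mul_one]
    apply h5
    change g * (τ ^ v)⁻¹ = _
    rw [hg]
  refine ⟨⟨⟨F, ?_⟩, ?_⟩, ?_, ?_⟩
  · rw [hF 1 1 0 (by simp), map_one]
  · intro g g'
    change F (g * g') = F g * F g'
    obtain ⟨k, hk⟩ : ∃ k, k = (Lam g).toAdd.val := ⟨_, rfl⟩
    obtain ⟨k', hk'⟩ : ∃ k, k = (Lam g').toAdd.val := ⟨_, rfl⟩
    have hm1 : g * (τ ^ k)⁻¹ ∈ Lam.ker := by rw [hk]; exact hmem g
    have hm2 : g' * (τ ^ k')⁻¹ ∈ Lam.ker := by rw [hk']; exact hmem g'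
    -- g = h τ^k, g' = h' τ^k', g g' = h (τ^k h' τ^-k) τ^(k+k')
    have h1 : τ ^ k * (g' * (τ ^ k')⁻¹) * (τ ^ k)⁻¹ ∈ Lam.ker := by
      have := MonoidHom.mem_ker.1 hm2
      rw [MonoidHom.mem_ker, map_mul, map_mul, map_inv, this]; simp
    rw [hF (g * g') (⟨_, hm1⟩ * ⟨_, h1⟩) (k + k') (by
      rw [Subgroup.coe_mul, pow_add]; simp only; group), map_mul,
      hF g ⟨_, hm1⟩ k (by simp only; group), hF g' ⟨_, hm2⟩ k' (by simp only; group)]
    congr 1
    symm
    exact hinvk k ⟨_, h1⟩ ⟨_, hm2⟩ (by simp only; group)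
  · intro h
    exact hF h h 0 (by simp)
  · change F τ = 1
    rw [hF τ 1 1 (by simp), map_one]

end RED

end Pool.Agent.MPca71W
end

section
set_option autoImplicit false

namespace Pool.Agent.MPca71W

section RED2

open Multiplicative

/-- `h ↦ g⁻¹ h g` on a normal subgroup. -/
def cjH {G : Type} [Group G] (H : Subgroup G) [H.Normal] (g : G) : H ≃* H :=
  MulAut.conjNormal g⁻¹

theorem cjH_coe {G : Type} [Group G] (H : Subgroup G) [H.Normal] (g : G) (h : H) :
    ((cjH H g h : H) : G) = g⁻¹ * h * g := by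
  simp [cjH]

/-- The group theoretic part of the proof that the Rédei condition implies the hypothesis on
unramified characters. -/
theorem redei_abs (p : ℕ) [Fact p.Prime] {t : ℕ} {G : Type} [Group G] [TopologicalSpace G]
    [IsTopologicalGroup G] (lam : Fin t → (G →* Multiplicative (ZMod p)))
    (hlam : ∀ i, IsOpen ((lam i).ker : Set G)) (S : Set G)
    (hSc : ∀ s ∈ S, ∀ g : G, g * s * g⁻¹ ∈ S) (hSp : ∀ s ∈ S, ∀ k : ℕ, s ^ k ∈ S)
    (τ φ : Fin t → G) (l : Fin t → Fin t → ZMod p)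
    (h1 : ∀ j, τ j ∈ S) (h1' : ∀ j, lam j (τ j) = ofAdd 1) (h1'' : ∀ i j, i ≠ j → lam i (τ j) = 1)
    (h2 : ∀ i j, i ≠ j → lam i (φ j) = ofAdd (l i j))
    (h2' : ∀ j, (τ j)⁻¹ * (φ j * τ j * (φ j)⁻¹) ∈ S)
    (h3 : ∀ s ∈ S, (∀ i, lam i s = 1) ∨ ∃ (j : Fin t) (g : G) (k : ℕ), ∃ z ∈ S,
      (∀ i, lam i z = 1) ∧ g * s * g⁻¹ = (τ j) ^ k * z)
    (h4 : ∀ f : G →* Multiplicative (ZMod p), IsOpen (f.ker : Set G) → (∀ s ∈ S, f s = 1) → f = 1)
    (hR : ∀ v : Fin t → ZMod p, (∀ j, ∑ i, l i j * (v i - v j) = 0) → ∀ i j, v i = v j)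
    (Lam : G →* Multiplicative (ZMod p)) (hLam : Lam = ∏ i, lam i)
    (χ : Lam.ker →* Multiplicative (ZMod p))
    (hχo : IsOpen (χ.ker.map Lam.ker.subtype : Set G))
    (hχS : ∀ h : Lam.ker, (h : G) ∈ S → χ h = 1) (g : G) (h h' : Lam.ker)
    (hh : (h' : G) = g⁻¹ * h * g) : χ h' = χ h := by
  classical
  have hp : p.Prime := Fact.out
  have hpne : NeZero p := ⟨hp.ne_zero⟩
  -- case `t = 0`
  rcases Nat.eq_zero_or_pos t with ht | ht
  · subst ht
    have hL1 : Lam = 1 := by rw [hLam]; simp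
    have hmem : ∀ x : G, x ∈ Lam.ker := fun x => by rw [MonoidHom.mem_ker, hL1]; rfl
    let χ' : G →* Multiplicative (ZMod p) :=
      { toFun := fun x => χ ⟨x, hmem x⟩
        map_one' := map_one χ
        map_mul' := fun x y => map_mul χ ⟨x, hmem x⟩ ⟨y, hmem y⟩ }
    have h5 : χ' = 1 := by
      refine h4 χ' ?_ fun s hs => hχS ⟨s, hmem s⟩ hs
      refine Subgroup.isOpen_mono ?_ hχo
      rintro _ ⟨x, hx, rfl⟩
      exact hx
    have h6 : ∀ x : Lam.ker, χ x = 1 := fun x => DFunLike.congr_fun h5 (x : G)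
    rw [h6, h6]
  -- now `t > 0`
  let j0 : Fin t := ⟨0, ht⟩
  have hLτ : ∀ j, Lam (τ j) = ofAdd 1 := by
    intro j
    rw [hLam, MonoidHom.finsetProd_apply, Finset.prod_eq_single j]
    · exact h1' j
    · intro i _ hij
      exact h1'' i j hij
    · intro hj; exact absurd (Finset.mem_univ j) hj
  have hLk : ∀ (j : Fin t) (k : ℕ), Lam (τ j ^ k) = ofAdd (k : ZMod p) := by
    intro j k
    rw [map_pow, hLτ, ← ofAdd_nsmul, nsmul_one]
  have hLopen : IsOpen (Lam.ker : Set G) := by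
    have h5 : (⨅ i, (lam i).ker : Subgroup G) ≤ Lam.ker := by
      intro x hx
      rw [MonoidHom.mem_ker, hLam, MonoidHom.finsetProd_apply]
      refine Finset.prod_eq_one fun i _ => ?_
      rw [Subgroup.mem_iInf] at hx
      exact hx i
    refine Subgroup.isOpen_mono h5 ?_
    rw [Subgroup.coe_iInf]
    exact isOpen_iInter_of_finite hlam
  -- inner invariance
  have hin : ∀ (ψ : Lam.ker →* Multiplicative (ZMod p)) (x : G) (hx : x ∈ Lam.ker)
      (h h' : Lam.ker), (h' : G) = x⁻¹ * h * x → ψ h' = ψ h := by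
    intro ψ x hx h h' hh
    have : h' = (⟨x, hx⟩ : Lam.ker)⁻¹ * h * ⟨x, hx⟩ := by ext; exact hh
    rw [this, map_mul, map_mul, map_inv, mul_comm, mul_inv_cancel_left]
  -- reduction to invariance under `τ j0`
  suffices hmain : ∀ x : Lam.ker, χ (cjH Lam.ker (τ j0) x) = χ x by
    have hk : ∀ (k : ℕ) (x x' : Lam.ker), (x' : G) = (τ j0 ^ k)⁻¹ * x * (τ j0 ^ k) →
        χ x' = χ x := by
      intro k
      induction k with
      | zero => intro x x' hx; congr 1; ext; simpa using hx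
      | succ k ih =>
        intro x x' hx
        rw [ih (cjH Lam.ker (τ j0) x) x' (by rw [hx, cjH_coe, pow_succ']; group), hmain]
    set k := (Lam g).toAdd.val with hkdef
    have h5 : (τ j0 ^ k)⁻¹ * g ∈ Lam.ker := by
      rw [MonoidHom.mem_ker, map_mul, map_inv, hLk, hkdef, ZMod.natCast_zmod_val, ofAdd_toAdd,
        inv_mul_cancel]
    have h6 : (τ j0 ^ k)⁻¹ * (h : G) * (τ j0 ^ k) ∈ Lam.ker := by
      rw [MonoidHom.mem_ker, map_mul, map_mul, MonoidHom.mem_ker.1 h.2]; simp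
    rw [hin χ _ h5 ⟨_, h6⟩ h' (by rw [hh]; simp only; group)]
    exact hk k h ⟨_, h6⟩ rfl
  by_contra hcon
  push Not at hcon
  obtain ⟨x0, hx0⟩ := hcon
  set σ : Lam.ker ≃* Lam.ker := cjH Lam.ker (τ j0) with hσ
  set E : ℕ → (Lam.ker →* Multiplicative (ZMod p)) := fun i => (DhFR2 σ)^[i] χ with hE
  have hEs : ∀ i x, E (i + 1) x = E i (σ x) * (E i x)⁻¹ := by
    intro i x
    change ((DhFR2 σ)^[i + 1] χ) x = _
    rw [Function.iterate_succ_apply']
    rfl
  have hτp : τ j0 ^ p ∈ Lam.ker := by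
    rw [MonoidHom.mem_ker, hLk, ZMod.natCast_self, ofAdd_zero]
  have hσk : ∀ (k : ℕ) (x : Lam.ker), ((σ^[k] x : Lam.ker) : G) = (τ j0 ^ k)⁻¹ * x * τ j0 ^ k := by
    intro k
    induction k with
    | zero => intro x; simp
    | succ k ih =>
      intro x
      rw [Function.iterate_succ_apply', hσ, cjH_coe, ← hσ, ih, pow_succ]; group
  have hEp : ∀ x, E p x = 1 := by
    intro x
    have := DhFR2_pow_eq_one σ 1 χ (fun x => by
      rw [pow_one]
      exact hin χ _ hτp x _ (hσk p x)) x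
    rwa [pow_one] at this
  -- the last nontrivial `E b`
  obtain ⟨b, hb1, ⟨x1, hx1⟩, hb3⟩ : ∃ b, 1 ≤ b ∧ (∃ x, E b x ≠ 1) ∧ ∀ x, E (b + 1) x = 1 := by
    by_contra hno
    push Not at hno
    have key : ∀ m, ∃ x, E (m + 1) x ≠ 1 := by
      intro m
      induction m with
      | zero =>
        refine ⟨x0, ?_⟩
        rw [hEs]
        intro h5
        apply hx0
        exact mul_inv_eq_one.1 h5
      | succ m ih => exact hno (m + 1) (by omega) ih
    obtain ⟨x, hx⟩ := key (p - 1)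
    apply hx
    have : p - 1 + 1 = p := Nat.succ_pred_eq_of_pos hp.pos
    rw [this]; exact hEp x
  obtain ⟨b, rfl⟩ : ∃ c, b = c + 1 := ⟨b - 1, by omega⟩
  -- properties of the `E i`
  have hES : ∀ i (x : Lam.ker), (x : G) ∈ S → E i x = 1 := by
    intro i
    induction i with
    | zero => intro x hx; exact hχS x hx
    | succ i ih =>
      intro x hx
      rw [hEs, ih x hx, ih (σ x) (by
        rw [hσ, cjH_coe]
        have := hSc _ hx (τ j0)⁻¹
        rwa [inv_inv] at this)]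
      simp
  have hEo : ∀ i, IsOpen ((E i).ker.map Lam.ker.subtype : Set G) := by
    intro i
    induction i with
    | zero => exact hχo
    | succ i ih =>
      let U : Subgroup G := (E i).ker.map Lam.ker.subtype
      have hU : IsOpen (U : Set G) := ih
      have hcont : Continuous fun x : G => (τ j0)⁻¹ * x * τ j0 :=
        (continuous_mul_const _).comp (continuous_const_mul _)
      let V : Subgroup G := U.comap (MulAut.conj (τ j0)⁻¹).toMonoidHom
      have hV : IsOpen (V : Set G) := by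
        have : (V : Set G) = (fun x : G => (τ j0)⁻¹ * x * τ j0) ⁻¹' (U : Set G) := by
          ext x
          simp [V, MulAut.conj_apply]
        rw [this]
        exact hU.preimage hcont
      refine Subgroup.isOpen_mono (H₁ := U ⊓ V) ?_ (hU.inter hV)
      rintro x ⟨⟨y, hy, rfl⟩, hx2⟩
      refine ⟨y, ?_, rfl⟩
      obtain ⟨z, hz, hz2⟩ := hx2
      have hzy : z = σ y := by
        ext
        rw [hσ, cjH_coe]
        simpa [MulAut.conj_apply] using hz2
      rw [SetLike.mem_coe, MonoidHom.mem_ker, hEs, MonoidHom.mem_ker.1 hy, ← hzy,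
        MonoidHom.mem_ker.1 hz]
      simp
  -- `ψ = E (b+1)`, `χ1 = E b`
  obtain ⟨f, hf, hfτ⟩ := extend_char p Lam (τ j0) (hLτ j0) (E (b + 1))
    (by
      intro y y' hy
      have h5 := hb3 y
      rw [hEs] at h5
      have h6 : y' = σ y := by ext; rw [hy, hσ, cjH_coe]
      rw [h6]
      exact mul_inv_eq_one.1 h5)
    (by
      intro y hy
      apply hES
      rw [hy]
      exact hSp _ (h1 j0) p)
  -- `f` is a combination of the `lam i`
  set a : Fin t → ZMod p := fun j => (f (τ j)).toAdd with ha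
  set F : G →* Multiplicative (ZMod p) := f * (∏ i, (lam i) ^ (a i).val)⁻¹ with hF
  have hFa : ∀ x, F x = f x * (∏ i, (lam i x) ^ (a i).val)⁻¹ := by
    intro x
    rw [hF, MonoidHom.mul_apply, MonoidHom.inv_apply, MonoidHom.finsetProd_apply]
    rfl
  have hF0 : ∀ x, (∀ i, lam i x = 1) → F x = f x := by
    intro x hx
    rw [hFa]
    simp [hx]
  have hmemL : ∀ x, (∀ i, lam i x = 1) → x ∈ Lam.ker := by
    intro x hx
    rw [MonoidHom.mem_ker, hLam, MonoidHom.finsetProd_apply]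
    exact Finset.prod_eq_one fun i _ => hx i
  have hFτ : ∀ j, F (τ j) = 1 := by
    intro j
    rw [hFa, Finset.prod_eq_single j]
    · rw [h1' j, ← ofAdd_nsmul, nsmul_one, ZMod.natCast_zmod_val, mul_inv_eq_one]
      rfl
    · intro i _ hij
      rw [h1'' i j hij, one_pow]
    · intro hj; exact absurd (Finset.mem_univ j) hj
  have hFone : F = 1 := by
    apply h4
    · have h5 : ((E (b + 1)).ker.map Lam.ker.subtype ⊓ ⨅ i, (lam i).ker : Subgroup G) ≤ F.ker := by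
        rintro x ⟨⟨y, hy, rfl⟩, hx⟩
        have hx' : ∀ i, lam i (y : G) = 1 := fun i => (Subgroup.mem_iInf.1 hx) i
        change (y : G) ∈ F.ker
        rw [MonoidHom.mem_ker, hF0 _ hx']
        change f (y : G) = 1
        rw [hf]
        exact hy
      refine Subgroup.isOpen_mono h5 ?_
      rw [Subgroup.coe_inf, Subgroup.coe_iInf]
      exact (hEo (b + 1)).inter (isOpen_iInter_of_finite hlam)
    · intro s hs
      have hz : ∀ z ∈ S, (∀ i, lam i z = 1) → F z = 1 := by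
        intro z hz hz1
        rw [hF0 z hz1]
        have := hf ⟨z, hmemL z hz1⟩
        rw [this]
        exact hES _ _ hz
      rcases h3 s hs with h5 | ⟨j, g', k, z, hzS, hz1, hgs⟩
      · exact hz s hs h5
      · have h6 : F s = F (g' * s * g'⁻¹) := by
          rw [map_mul, map_mul, map_inv, mul_comm, inv_mul_cancel_left]
        rw [h6, hgs, map_mul, map_pow, hFτ, hz z hzS hz1, one_pow, one_mul]
  have hfsum : ∀ x, (f x).toAdd = ∑ i, a i * (lam i x).toAdd := by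
    intro x
    have h5 := DFunLike.congr_fun hFone x
    rw [hFa, MonoidHom.one_apply, mul_inv_eq_one] at h5
    rw [h5, toAdd_prod]
    refine Finset.sum_congr rfl fun i _ => ?_
    rw [toAdd_pow, nsmul_eq_mul, ZMod.natCast_zmod_val]
  -- the elements `h_j`
  have hrow : ∀ j, ∑ i, l i j * (a i - a j) = 0 := by
    intro j
    set s := (Lam (φ j)).toAdd.val with hs
    set y : G := φ j * (τ j ^ s)⁻¹ with hy
    have hyL : y ∈ Lam.ker := by
      rw [MonoidHom.mem_ker, hy, map_mul, map_inv, hLk, hs, ZMod.natCast_zmod_val, ofAdd_toAdd,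
        mul_inv_cancel]
    -- `χ1 (τ_j⁻¹ y τ_j) = χ1 y`
    have h5 : E b (cjH Lam.ker (τ j) ⟨y, hyL⟩) = E b ⟨y, hyL⟩ := by
      have h6 : E b (cjH Lam.ker (τ j) ⟨y, hyL⟩ * (⟨y, hyL⟩ : Lam.ker)⁻¹) = 1 := by
        apply hES
        rw [Subgroup.coe_mul, cjH_coe]
        have h7 : (τ j)⁻¹ * y * τ j * y⁻¹ = (τ j)⁻¹ * (φ j * τ j * (φ j)⁻¹) := by
          rw [hy]; group
        change (τ j)⁻¹ * y * τ j * y⁻¹ ∈ S
        rw [h7]
        exact h2' j
      rw [map_mul, map_inv] at h6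
      exact mul_inv_eq_one.1 h6
    -- `χ1 (τ_j⁻¹ y τ_j) = χ1 (σ y)`
    have h8 : E b (cjH Lam.ker (τ j) ⟨y, hyL⟩) = E b (σ ⟨y, hyL⟩) := by
      have h9 : (τ j0)⁻¹ * τ j ∈ Lam.ker := by
        rw [MonoidHom.mem_ker, map_mul, map_inv, hLτ, hLτ, inv_mul_cancel]
      refine hin (E b) _ h9 (σ ⟨y, hyL⟩) _ ?_
      rw [cjH_coe, hσ, cjH_coe]; group
    have h10 : f y = 1 := by
      have := hf ⟨y, hyL⟩
      rw [this, hEs, ← h8, h5, mul_inv_cancel]
    have h11 : ∑ i, a i * (lam i y).toAdd = 0 := by rw [← hfsum, h10]; rfl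
    have h12 : ∑ i, (lam i y).toAdd = 0 := by
      have h13 : (Lam y).toAdd = 0 := by rw [MonoidHom.mem_ker.1 hyL]; rfl
      rw [hLam, MonoidHom.finsetProd_apply, toAdd_prod] at h13
      exact h13
    have h14 : ∀ i, i ≠ j → (lam i y).toAdd = l i j := by
      intro i hij
      rw [hy, map_mul, map_inv, map_pow, h1'' i j hij, one_pow, inv_one, mul_one, h2 i j hij]
      rfl
    have h15 : ∑ i, (a i - a j) * (lam i y).toAdd = 0 := by
      have : ∑ i, (a i - a j) * (lam i y).toAdd = ∑ i, a i * (lam i y).toAdd -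
          a j * ∑ i, (lam i y).toAdd := by
        rw [Finset.mul_sum, ← Finset.sum_sub_distrib]
        exact Finset.sum_congr rfl fun i _ => by ring
      rw [this, h11, h12, mul_zero, sub_zero]
    rw [← h15]
    refine Finset.sum_congr rfl fun i _ => ?_
    by_cases hij : i = j
    · subst hij; simp
    · rw [h14 i hij]; ring
  have hconst := hR a hrow
  apply hx1
  have h16 : (f (x1 : G)).toAdd = 0 := by
    rw [hfsum]
    have h17 : ∑ i, (lam i (x1 : G)).toAdd = 0 := by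
      have h19 : ∀ z : G, (Lam z).toAdd = ∑ i, (lam i z).toAdd := by
        intro z; rw [hLam, MonoidHom.finsetProd_apply, toAdd_prod]
      rw [← h19, MonoidHom.mem_ker.1 x1.2]; rfl
    calc _ = ∑ i, a j0 * (lam i x1).toAdd := Finset.sum_congr rfl fun i _ => by rw [hconst i j0]
      _ = 0 := by rw [← Finset.mul_sum, h17, mul_zero]
  have h18 := hf x1
  rw [← h18]
  exact toAdd.injective (by rw [h16]; rfl)

end RED2

end Pool.Agent.MPca71W
end

section
set_option autoImplicit false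
open scoped NumberField

namespace Pool.Agent.MPca71W

section RED3

open Multiplicative

/-- Minkowski's theorem, for an arbitrary (hence the) `ℚ`-algebra structure. -/
theorem no_unramified_rat' {Ω : Type} [Field Ω] [Algebra ℚ Ω] (L : IntermediateField ℚ Ω)
    (hfin : FiniteDimensional ℚ L) (hdeg : 1 < Module.finrank ℚ L) (inst : Algebra ℚ L) :
    ¬ @Algebra.Unramified (𝓞 ℚ) _ (𝓞 L) _ (@NumberField.inst_ringOfIntegersAlgebra ℚ L _ _ inst) := by
  have e : inst = DivisionRing.toRatAlgebra := Subsingleton.elim _ _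
  rw [e]
  exact no_unramified_rat L hfin hdeg

variable {Ω : Type} [Field Ω] [Algebra ℚ Ω] [IsAlgClosed Ω]

theorem IsLog.map_one {p N : ℕ} {f : ZMod N → ZMod p} (h : IsLog p N f) : f 1 = 0 := by
  have := h.1 1 1 isUnit_one isUnit_one
  rw [mul_one] at this
  exact left_eq_add.1 this

/-- The character of `Gal(Ω/ℚ)` attached to a discrete logarithm. -/
noncomputable def lamH (Ω : Type) [Field Ω] [Algebra ℚ Ω] [IsAlgClosed Ω] {p N : ℕ} [NeZero N]
    {f : ZMod N → ZMod p} (h : IsLog p N f) : (Ω ≃ₐ[ℚ] Ω) →* Multiplicative (ZMod p) where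
  toFun g := ofAdd (f ((kap Ω N g : (ZMod N)ˣ) : ZMod N))
  map_one' := by rw [_root_.map_one, Units.val_one, h.map_one, ofAdd_zero]
  map_mul' g g' := by rw [map_mul, Units.val_mul, h.1 _ _ (Units.isUnit _) (Units.isUnit _), ofAdd_add]

theorem lamH_apply {p N : ℕ} [NeZero N] {f : ZMod N → ZMod p} (h : IsLog p N f) (g : Ω ≃ₐ[ℚ] Ω) :
    lamH Ω h g = ofAdd (f ((kap Ω N g : (ZMod N)ˣ) : ZMod N)) := rfl

variable [Algebra.IsAlgebraic ℚ Ω]

theorem lamH_open {p N : ℕ} [NeZero N] {f : ZMod N → ZMod p} (h : IsLog p N f) :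
    IsOpen ((lamH Ω h).ker : Set (Ω ≃ₐ[ℚ] Ω)) := by
  refine Subgroup.isOpen_mono ?_ (kap_ker_open (Ω := Ω) N)
  intro g hg
  rw [MonoidHom.mem_ker] at hg ⊢
  rw [lamH_apply, hg, Units.val_one, h.map_one, ofAdd_zero]

theorem lamH_ne_one {p N : ℕ} [NeZero N] {f : ZMod N → ZMod p} (h : IsLog p N f) :
    lamH Ω h ≠ 1 := by
  intro h1
  obtain ⟨x, hx, hfx⟩ := h.2
  obtain ⟨u, rfl⟩ := hx
  obtain ⟨g, rfl⟩ := kap_surj (Ω := Ω) N u
  apply hfx
  have := DFunLike.congr_fun h1 g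
  rw [lamH_apply, MonoidHom.one_apply] at this
  exact ofAdd.injective (this.trans ofAdd_zero.symm)

/-- Minkowski: a homomorphism with open kernel which kills all inertia groups is trivial. -/
theorem hom_eq_one {A : Type} [Group A] (f : (Ω ≃ₐ[ℚ] Ω) →* A)
    (hopen : IsOpen (f.ker : Set (Ω ≃ₐ[ℚ] Ω)))
    (hI : ∀ s ∈ {g : Ω ≃ₐ[ℚ] Ω | Inertial Ω g.toRingEquiv}, f s = 1) : f = 1 := by
  obtain ⟨L, hL1, -, hL2, hL3, hL4, hL5⟩ := exists_unramified_of_open f.ker inferInstance hopen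
    (fun h hh => hI h hh)
  have h1 : ¬ 1 < Module.finrank ℚ L := fun h => no_unramified_rat' L hL2 h _ hL5
  have h2 : 0 < Module.finrank ℚ L := Module.finrank_pos
  have h3 : f.ker.index = 1 := by rw [← hL4]; omega
  rw [Subgroup.index_eq_one] at h3
  ext g
  have : g ∈ f.ker := by rw [h3]; trivial
  exact this

/-- For every `j` there is an inertia group at a prime above `q j` and an element of it with value
`1` under the character. -/
theorem exists_tau (p q N : ℕ) [Fact p.Prime] [NeZero N] (hq : q.Prime) (hN : ∃ e, N = q ^ e)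
    {f : ZMod N → ZMod p} (h : IsLog p N f) :
    ∃ Q : Ideal (𝓞 Ω), Q.IsMaximal ∧ (q : 𝓞 Ω) ∈ Q ∧ ∃ τ ∈ inG (F := ℚ) Q,
      lamH Ω h τ = ofAdd 1 := by
  have hqF : Fact q.Prime := ⟨hq⟩
  have hpne : NeZero p := ⟨(Fact.out : p.Prime).ne_zero⟩
  by_contra hcon
  push Not at hcon
  apply lamH_ne_one (Ω := Ω) h
  refine hom_eq_one _ (lamH_open h) ?_
  rintro g ⟨Q, hQ, hg⟩
  by_cases hqQ : (q : 𝓞 Ω) ∈ Q
  · by_contra hne
    -- a suitable power has value `1`
    set c : ZMod p := (lamH Ω h g).toAdd with hc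
    have hc0 : c ≠ 0 := by
      intro h0
      apply hne
      apply toAdd.injective
      rw [← hc, h0]; rfl
    have hpow : ∀ k : ℕ, g ^ k ∈ inG (F := ℚ) Q := by
      intro k
      induction k with
      | zero =>
        intro x
        refine ⟨0, Q.zero_mem, ?_⟩
        simp
      | succ k ih => rw [pow_succ]; exact inG_mul Q _ _ ih hg
    refine hcon Q hQ hqQ (g ^ (c⁻¹).val) (hpow _) ?_
    apply toAdd.injective
    rw [map_pow, toAdd_pow, ← hc, nsmul_eq_mul, ZMod.natCast_zmod_val, inv_mul_cancel₀ hc0]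
    rfl
  · rw [lamH_apply, kap_inertial q N hN Q hQ hqQ g hg, Units.val_one, h.map_one, ofAdd_zero]

end RED3

end Pool.Agent.MPca71W
end
end
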