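import Pool.Agent.Lib.MP_ca71b5_ntW.RED3
set_option autoImplicit false
open scoped NumberField

namespace Pool.Agent.MPca71W

section RED4

open Multiplicative

variable {Ω : Type} [Field Ω] [Algebra ℚ Ω] [IsAlgClosed Ω] [Algebra.IsAlgebraic ℚ Ω]

theorem inG_pow (Q : Ideal (𝓞 Ω)) (g : Ω ≃ₐ[ℚ] Ω) (hg : g ∈ inG Q) (k : ℕ) : g ^ k ∈ inG Q := by
  induction k with
  | zero =>
    intro x
    refine ⟨0, Q.zero_mem, ?_⟩
    simp
  | succ k ih => rw [pow_succ]; exact inG_mul Q _ _ ih hg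

/-- Unramified characters of `Λ.ker` are invariant, if the Rédei matrix has maximal rank. -/
theorem redei_inv (p : ℕ) [Fact p.Prime] {t : ℕ} (q N : Fin t → ℕ) [∀ i, NeZero (N i)]
    (lg : ∀ i, ZMod (N i) → ZMod p) (hq : ∀ i, (q i).Prime) (hinj : Function.Injective q)
    (hN : ∀ i, ∃ e, N i = q i ^ e) (hlg : ∀ i, IsLog p (N i) (lg i)) (hR : RedeiMax p q N lg)
    (Lam : (Ω ≃ₐ[ℚ] Ω) →* Multiplicative (ZMod p)) (hLam : Lam = ∏ i, lamH Ω (hlg i))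
    (χ : Lam.ker →* Multiplicative (ZMod p))
    (hχo : IsOpen (χ.ker.map Lam.ker.subtype : Set (Ω ≃ₐ[ℚ] Ω)))
    (hχS : ∀ h : Lam.ker, Inertial Ω (h : Ω ≃ₐ[ℚ] Ω).toRingEquiv → χ h = 1)
    (g : Ω ≃ₐ[ℚ] Ω) (h h' : Lam.ker) (hh : (h' : Ω ≃ₐ[ℚ] Ω) = g⁻¹ * h * g) : χ h' = χ h := by
  classical
  have hp : p.Prime := Fact.out
  have hpne : NeZero p := ⟨hp.ne_zero⟩
  have hqF : ∀ i, Fact (q i).Prime := fun i => ⟨hq i⟩
  choose Q hQm hQq τ hτQ hτ1 using fun j => exists_tau (Ω := Ω) p (q j) (N j) (hq j) (hN j) (hlg j)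
  have hfr : ∀ j, ∃ φ : Ω ≃ₐ[ℚ] Ω, ∀ x : 𝓞 Ω, ∃ y : 𝓞 Ω, y ∈ Q j ∧
      φ (x : Ω) - (x : Ω) ^ (q j) = (y : Ω) := fun j => exists_frob (q j) (Q j) (hQm j) (hQq j)
  choose φ hφ using hfr
  have hnot : ∀ i j, i ≠ j → ((q i : ℕ) : 𝓞 Ω) ∉ Q j := fun i j hij =>
    prime_mem_unique (Q j) (hQm j) (q j) (q i) (hq j) (hq i) (fun h => hij (hinj h.symm)) (hQq j)
  refine redei_abs p (fun i => lamH Ω (hlg i)) (fun i => lamH_open (hlg i))
    {g : Ω ≃ₐ[ℚ] Ω | Inertial Ω g.toRingEquiv}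
    (fun s hs g => inertial_conj g s hs) (fun s hs k => inertial_pow s hs k) τ φ
    (fun i j => lg i ((q j : ℕ) : ZMod (N i)))
    (fun j => ⟨Q j, hQm j, hτQ j⟩) hτ1 ?_ ?_ ?_ ?_ (fun f hf hfS => hom_eq_one f hf hfS) hR
    Lam hLam χ hχo hχS g h h' hh
  · intro i j hij
    change lamH Ω (hlg i) (τ j) = 1
    rw [lamH_apply, kap_inertial (q i) (N i) (hN i) (Q j) (hQm j) (hnot i j hij) (τ j) (hτQ j),
      Units.val_one, (hlg i).map_one, ofAdd_zero]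
  · intro i j hij
    change lamH Ω (hlg i) (φ j) = _
    rw [lamH_apply, kap_frob (q j) (q i) (N i) (hN i) (Q j) (hQm j) (hnot i j hij) (φ j) (hφ j)]
  · intro j
    exact ⟨Q j, hQm j, inG_mul (Q j) _ _ (inG_inv (Q j) _ (hτQ j))
      (inG_frob_conj (q j) (Q j) (hQm j) (φ j) (hφ j) (τ j) (hτQ j)).2⟩
  · rintro s ⟨Q', hQ', hs⟩
    by_cases hex : ∃ j, ((q j : ℕ) : 𝓞 Ω) ∈ Q'
    · right
      obtain ⟨j, hj⟩ := hex
      have hnot' : ∀ i, i ≠ j → ((q i : ℕ) : 𝓞 Ω) ∉ Q' := fun i hij =>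
        prime_mem_unique Q' hQ' (q j) (q i) (hq j) (hq i) (fun h => hij (hinj h.symm)) hj
      obtain ⟨g', hg'⟩ := exists_conj_prime (q j) Q' (Q j) hQ' (hQm j) hj (hQq j)
      set k := (lamH Ω (hlg j) s).toAdd.val with hk
      refine ⟨j, g', k, (τ j ^ k)⁻¹ * (g' * s * g'⁻¹), ?_, ?_, by group⟩
      · exact ⟨Q j, hQm j, inG_mul (Q j) _ _ (inG_inv (Q j) _ (inG_pow (Q j) _ (hτQ j) k))
          (hg' s hs)⟩
      · intro i
        change lamH Ω (hlg i) _ = 1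
        have h5 : lamH Ω (hlg i) (g' * s * g'⁻¹) = lamH Ω (hlg i) s := by
          rw [map_mul, map_mul, map_inv, mul_comm, inv_mul_cancel_left]
        rw [map_mul, map_inv, map_pow, h5]
        by_cases hij : i = j
        · subst hij
          have h6 : lamH Ω (hlg i) (τ i) = ofAdd 1 := hτ1 i
          rw [h6, ← ofAdd_nsmul, nsmul_one, hk, ZMod.natCast_zmod_val, ofAdd_toAdd, inv_mul_cancel]
        · have h6 : lamH Ω (hlg i) (τ j) = 1 := by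
            rw [lamH_apply, kap_inertial (q i) (N i) (hN i) (Q j) (hQm j) (hnot i j hij) (τ j)
              (hτQ j), Units.val_one, (hlg i).map_one, ofAdd_zero]
          have h7 : lamH Ω (hlg i) s = 1 := by
            rw [lamH_apply, kap_inertial (q i) (N i) (hN i) Q' hQ' (hnot' i hij) s hs,
              Units.val_one, (hlg i).map_one, ofAdd_zero]
          rw [h6, h7]; simp
    · left
      push Not at hex
      intro i
      change lamH Ω (hlg i) s = 1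
      rw [lamH_apply, kap_inertial (q i) (N i) (hN i) Q' hQ' (hex i) s hs,
        Units.val_one, (hlg i).map_one, ofAdd_zero]

/-- The field `KF` and the character `Λ`. -/
theorem KF_eq (p : ℕ) {t : ℕ} (N : Fin t → ℕ) [∀ i, NeZero (N i)]
    (lg : ∀ i, ZMod (N i) → ZMod p) (hlg : ∀ i, IsLog p (N i) (lg i))
    (Lam : (Ω ≃ₐ[ℚ] Ω) →* Multiplicative (ZMod p)) (hLam : Lam = ∏ i, lamH Ω (hlg i)) :
    KF Ω p N lg = IntermediateField.fixedField Lam.ker := by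
  unfold KF
  congr 1
  have h1 : {g : Ω ≃ₐ[ℚ] Ω | ∑ i, lg i ((kap Ω (N i) g : (ZMod (N i))ˣ) : ZMod (N i)) = 0} =
      (Lam.ker : Set (Ω ≃ₐ[ℚ] Ω)) := by
    ext g
    rw [SetLike.mem_coe, MonoidHom.mem_ker, hLam, MonoidHom.finsetProd_apply]
    change _ ↔ ∏ i, ofAdd (lg i ((kap Ω (N i) g : (ZMod (N i))ˣ) : ZMod (N i))) = 1
    rw [← ofAdd_sum]
    constructor
    · intro h
      rw [Set.mem_ofPred_eq] at h
      rw [h, ofAdd_zero]
    · intro h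
      exact ofAdd.injective (h.trans ofAdd_zero.symm)
  rw [h1, Subgroup.closure_eq]

theorem Lam_open (p : ℕ) {t : ℕ} (N : Fin t → ℕ) [∀ i, NeZero (N i)]
    (lg : ∀ i, ZMod (N i) → ZMod p) (hlg : ∀ i, IsLog p (N i) (lg i)) :
    IsOpen ((∏ i, lamH Ω (hlg i)).ker : Set (Ω ≃ₐ[ℚ] Ω)) := by
  have h5 : (⨅ i, (lamH Ω (hlg i)).ker : Subgroup (Ω ≃ₐ[ℚ] Ω)) ≤ (∏ i, lamH Ω (hlg i)).ker := by
    intro x hx
    rw [MonoidHom.mem_ker, MonoidHom.finsetProd_apply]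
    refine Finset.prod_eq_one fun i _ => ?_
    rw [Subgroup.mem_iInf] at hx
    exact hx i
  refine Subgroup.isOpen_mono h5 ?_
  rw [Subgroup.coe_iInf]
  exact isOpen_iInter_of_finite fun i => lamH_open (hlg i)

end RED4

end Pool.Agent.MPca71W
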