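import Mathlib
set_option autoImplicit false
open scoped NumberField

/-! The definitions used in the statements of the results on MP_ca71b5_nt (paper 206). -/

namespace Pool.Agent.MPca71W

/-- An automorphism of the field `Ω` which lies in the inertia group of some maximal ideal `Q` of
the ring `𝓞 Ω` of algebraic integers of `Ω`: `f(x) - x ∈ Q` for all `x ∈ 𝓞 Ω`. -/
def Inertial (Ω : Type) [Field Ω] (f : Ω ≃+* Ω) : Prop :=
  ∃ Q : Ideal (𝓞 Ω), Q.IsMaximal ∧ ∀ x : 𝓞 Ω, ∃ y : 𝓞 Ω, y ∈ Q ∧ f (x : Ω) - (x : Ω) = (y : Ω)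

/-- Every finite Galois extension of `k` inside the field cut out by `ρ` has `p`-power degree and
is unramified at all finite primes (the hypothesis of the frozen statement, required only for
Galois subextensions). -/
def UnrProP (p : ℕ) [Fact p.Prime] (k : Type) [Field k] (Ω : Type) [Field Ω]
    [Algebra k Ω] {n : ℕ} (ρ : (Ω ≃ₐ[k] Ω) →* Matrix.GeneralLinearGroup (Fin n) (PadicInt p)) :
    Prop :=
  ∀ L : IntermediateField k Ω, L ≤ IntermediateField.fixedField ρ.ker → FiniteDimensional k L →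
    IsGalois k L → (∃ j : ℕ, Module.finrank k L = p ^ j) ∧ Algebra.Unramified (𝓞 k) (𝓞 L)

/-- A product of any `m` of the matrices `ρ(g) - 1` is `0` modulo `p`. -/
def NilpMod (p m : ℕ) [Fact p.Prime] {G : Type} [Group G] {n : ℕ}
    (ρ : G →* Matrix.GeneralLinearGroup (Fin n) (PadicInt p)) : Prop :=
  ∀ f : Fin m → G, ∀ i j, (p : ℤ_[p]) ∣
    (List.ofFn (fun s => ((ρ (f s) : Matrix (Fin n) (Fin n) ℤ_[p]) - 1))).prod i j

/-- The step `g ↦ σ(g) g⁻¹` in a group with an automorphism `σ`. -/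
def stepG {G : Type} [Group G] (σ : G ≃* G) (g : G) : G := σ g * g⁻¹

/-- The hypothesis (H)_a: for every `τ` in an inertia group of `Gal(Ω/F)`, `(τ - 1)^a` kills all
characters `χ` of `Gal(Ω/K)` of order `p` (open kernel) which are trivial on all inertia groups.
Here `σ` is `h ↦ τ⁻¹ h τ` on `Gal(Ω/K)`, and `((τ - 1)^a χ)(h) = χ(s^a(h))`,
`s(h) = σ(h) h⁻¹`. -/
def HypX (p a : ℕ) (F K Ω : Type) [Field F] [Field K] [Algebra F K]
    [Field Ω] [Algebra F Ω] [Algebra K Ω] [IsScalarTower F K Ω] : Prop :=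
  ∀ τ : Ω ≃ₐ[F] Ω, Inertial Ω τ.toRingEquiv → ∀ σ : (Ω ≃ₐ[K] Ω) ≃* (Ω ≃ₐ[K] Ω),
    (∀ (h : Ω ≃ₐ[K] Ω) (x : Ω), σ h x = τ⁻¹ (h (τ x))) →
    ∀ χ : (Ω ≃ₐ[K] Ω) →* Multiplicative (ZMod p), IsOpen (χ.ker : Set (Ω ≃ₐ[K] Ω)) →
      (∀ h : Ω ≃ₐ[K] Ω, Inertial Ω h.toRingEquiv → χ h = 1) →
      ∀ h : Ω ≃ₐ[K] Ω, χ ((stepG σ)^[a] h) = 1

/-- Every continuous `ρ : Gal(Ω/F) → GL_n(ℤ_p)` cutting out an unramified pro-`p` extension has
finite image (the conjecture for `F` in dimension `n`). -/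
def FMdim (p : ℕ) [Fact p.Prime] (F Ω : Type) [Field F] [Field Ω] [Algebra F Ω]
    (n : ℕ) : Prop :=
  ∀ ρ : (Ω ≃ₐ[F] Ω) →* Matrix.GeneralLinearGroup (Fin n) (PadicInt p),
    Continuous ρ → UnrProP p F Ω ρ → (Set.range ρ).Finite

/-- `F` has no Galois extension of degree `p` inside `Ω` unramified at all finite primes. -/
def NoUnr (p : ℕ) (F Ω : Type) [Field F] [Field Ω] [Algebra F Ω] : Prop :=
  ∀ L : IntermediateField F Ω, IsGalois F L → Module.finrank F L = p →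
    ¬ Algebra.Unramified (𝓞 F) (𝓞 L)

/-- A matrix over `ℤ_p` regarded as a matrix over `ℚ_p`. -/
noncomputable def toQp (p : ℕ) [Fact p.Prime] {n : ℕ} (u : Matrix (Fin n) (Fin n) ℤ_[p]) :
    Matrix (Fin n) (Fin n) ℚ_[p] :=
  u.map (fun z : ℤ_[p] => (z : ℚ_[p]))

/-- The logarithm `∑ (-1)^k (u - 1)^(k+1) / (k+1)`, `k ≥ 0`, of a matrix `u` over `ℤ_p` congruent
to `1` modulo `p` (a convergent series in `M_n(ℚ_p)`). -/
noncomputable def mlog (p : ℕ) [Fact p.Prime] {n : ℕ} (u : Matrix (Fin n) (Fin n) ℤ_[p]) :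
    Matrix (Fin n) (Fin n) ℚ_[p] :=
  ∑' k : ℕ, ((-1 : ℚ_[p]) ^ k * ((k + 1 : ℕ) : ℚ_[p])⁻¹) • (toQp p (u - 1)) ^ (k + 1)

/-- The `ℚ_p`-vector space spanned by the logarithms of the matrices `ρ(g)` congruent to `1`
modulo `p`: the Lie algebra of the image of `ρ`, so its dimension is the dimension of the image
as a `p`-adic Lie group. -/
noncomputable def lieSpan (p : ℕ) [Fact p.Prime] {G : Type} [Group G] {n : ℕ}
    (ρ : G →* Matrix.GeneralLinearGroup (Fin n) (PadicInt p)) :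
    Submodule ℚ_[p] (Matrix (Fin n) (Fin n) ℚ_[p]) :=
  Submodule.span ℚ_[p] {X | ∃ g : G, (∀ i j, (p : ℤ_[p]) ∣
    ((ρ g : Matrix (Fin n) (Fin n) ℤ_[p]) - 1) i j) ∧
      X = mlog p (ρ g : Matrix (Fin n) (Fin n) ℤ_[p])}

/-- The conclusion of the theorems for the field `K` and the bound `m`: a continuous unramified
pro-`p` representation of `Gal(Ω/K)` over `ℤ_p` is trivial if its dimension is `≤ m` or if all
products of `m` matrices `ρ(g) - 1` are `0` modulo `p`, and it has finite image if its image has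
dimension `≤ m` (and its own dimension is arbitrary). -/
def TrivUpTo (p m : ℕ) [Fact p.Prime] (K Ω : Type) [Field K] [Field Ω] [Algebra K Ω] : Prop :=
  ∀ (n : ℕ) (ρ : (Ω ≃ₐ[K] Ω) →* Matrix.GeneralLinearGroup (Fin n) (PadicInt p)),
    Continuous ρ → UnrProP p K Ω ρ → ((n ≤ m ∨ NilpMod p m ρ) → ρ = 1) ∧
      (Module.finrank ℚ_[p] (lieSpan p ρ) ≤ m → (Set.range ρ).Finite)

/-- `K` has a Galois extension of degree `p ^ s` and exponent `p` inside `Ω` unramified at all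
finite primes. -/
def UnrExt (p s : ℕ) (K Ω : Type) [Field K] [Field Ω] [Algebra K Ω] : Prop :=
  ∃ L : IntermediateField K Ω, IsGalois K L ∧ Module.finrank K L = p ^ s ∧
    Algebra.Unramified (𝓞 K) (𝓞 L) ∧ ∀ g : L ≃ₐ[K] L, g ^ p = 1

end Pool.Agent.MPca71W
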